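import Pool.Agent.Helper49.Irr.Defs

/-!
# The relations of `Dat.Rel` follow from the basic ones, and are invariant under gauge changes
-/

namespace Pool.Agent.Helper49.Irr

namespace Dat

variable {N Ω : Type*}

/-- Over a field of characteristic zero all the relations follow from the first seven, the cocycle
relation and `x a b ≠ x b c`. -/
theorem rel_of_basic [Field Ω] [CharZero Ω] (E : Dat N Ω)
    (weier : ∀ a b, a ≠ b →
      E.y a b ^ 2 + E.a1 * E.x a b * E.y a b + E.a3 * E.y a b
        = E.x a b ^ 3 + E.a2 * E.x a b ^ 2 + E.a4 * E.x a b + E.a6)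
    (x_symm : ∀ a b, a ≠ b → E.x b a = E.x a b)
    (y_symm : ∀ a b, a ≠ b → E.y a b + E.y b a = - E.a1 * E.x a b - E.a3)
    (s_cyc : ∀ a b c, a ≠ b → b ≠ c → a ≠ c → E.s b c a = E.s a b c)
    (s_anti : ∀ a b c, a ≠ b → b ≠ c → a ≠ c → E.s a b c + E.s a c b = - E.a1)
    (sum_x : ∀ a b c, a ≠ b → b ≠ c → a ≠ c →
      E.x a b + E.x b c + E.x c a = E.s a b c ^ 2 + E.a1 * E.s a b c - E.a2)
    (slope : ∀ a b c, a ≠ b → b ≠ c → a ≠ c →
      E.y a b - E.y b c = E.s a b c * (E.x a b - E.x b c))
    (cocycle : ∀ a b c d, a ≠ b → a ≠ c → a ≠ d → b ≠ c → b ≠ d → c ≠ d →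
      E.s b c d - E.s a c d + E.s a b d - E.s a b c = 0)
    (x_ne : ∀ a b c, a ≠ b → b ≠ c → a ≠ c → E.x a b ≠ E.x b c) : E.Rel := by
  have r8 : ∀ a b c, a ≠ b → b ≠ c → a ≠ c →
    E.s a b c * (E.y a b + E.y b c + E.a1 * E.x b c + E.a3)
      = E.x a b ^ 2 + E.x a b * E.x b c + E.x b c ^ 2 + E.a2 * (E.x a b + E.x b c) + E.a4
        - E.a1 * E.y a b := by
    intro a b c hab hbc hac
    have h1 := weier a b hab
    have h2 := weier b c hbc
    have h3 := slope a b c hab hbc hac
    have h4 := x_ne a b c hab hbc hac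
    have h5 : E.x a b - E.x b c ≠ 0 := sub_ne_zero.mpr h4
    apply mul_left_cancel₀ h5
    linear_combination h1 - h2 - (E.y a b + E.y b c + E.a1 * E.x b c + E.a3) * h3
  refine ⟨weier, x_symm, y_symm, s_cyc, s_anti, sum_x, slope, cocycle, ?_, ?_, r8, ?_⟩
  · intro a b c d hab hac had hbc hbd hcd
    have h1 := sum_x a b c hab hbc hac
    have h2 := sum_x a b d hab hbd had
    have h3 := sum_x a c d hac hcd had
    have h4 := sum_x b c d hbc hcd hbd
    have h5 := cocycle a b c d hab hac had hbc hbd hcd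
    have e1 := x_symm a c hac
    have e2 := x_symm a d had
    have e3 := x_symm b d hbd
    have h2' : (2 : Ω) ≠ 0 := two_ne_zero
    apply mul_left_cancel₀ h2'
    have h5' : E.s b c d = E.s a c d - E.s a b d + E.s a b c := by linear_combination h5
    rw [h5'] at h4
    rw [e1, ] at h1
    rw [e2] at h2 h3
    rw [e3] at h4
    linear_combination h1 + h2 - h3 - h4
  · intro a b c hab hbc hac
    have h1 := sum_x a b c hab hbc hac
    have h3 := slope a b c hab hbc hac
    have h8 := r8 a b c hab hbc hac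
    linear_combination (E.x a b + E.x b c) * h1 + h8 + (E.s a b c) * h3
  · intro a b c e hab hac hae hbc hbe hce
    have h1 := sum_x a b c hab hbc hac
    have h2 := sum_x b e c hbe hce.symm hbc
    have h3 := sum_x e a c hae.symm hac hce.symm
    have h4 := sum_x a b e hab hbe hae
    have h5 := cocycle a b c e hab hac hae hbc hbe hce
    have s1 := s_anti b c e hbc hce hbe
    have s3 := s_cyc e a c hae.symm hac hce.symm
    have e1 := x_symm a c hac
    have e2 := x_symm b c hbc
    have e3 := x_symm c e hce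
    have e4 := x_symm a e hae
    have h2' : (2 : Ω) ≠ 0 := two_ne_zero
    apply mul_left_cancel₀ h2'
    have t1 : E.s a b e = E.s a b c + E.s b e c + E.s e a c + E.a1 := by
      linear_combination h5 - s1 + s3
    rw [t1] at h4
    rw [e1] at h1
    rw [e2, e3] at h2
    rw [e4] at h3 h4
    rw [e1, e2]
    linear_combination h1 + h2 + h3 - h4

/-- The relations are invariant under changes of coordinates. -/
theorem Rel.gauge [CommRing Ω] {E : Dat N Ω} (h : E.Rel) (u r σ τ : Ω) :
    (E.gauge u r σ τ).Rel := by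
  refine ⟨?_, ?_, ?_, ?_, ?_, ?_, ?_, ?_, ?_, ?_, ?_, ?_⟩ <;> dsimp only [Dat.gauge]
  · intro a b hab
    linear_combination u ^ 6 * h.weier a b hab
  · intro a b hab
    rw [h.x_symm a b hab]
  · intro a b hab
    rw [h.x_symm a b hab]
    linear_combination u ^ 3 * h.y_symm a b hab
  · intro a b c hab hbc hac
    rw [h.s_cyc a b c hab hbc hac]
  · intro a b c hab hbc hac
    linear_combination u * h.s_anti a b c hab hbc hac
  · intro a b c hab hbc hac
    linear_combination u ^ 2 * h.sum_x a b c hab hbc hac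
  · intro a b c hab hbc hac
    linear_combination u ^ 3 * h.slope a b c hab hbc hac
  · intro a b c d hab hac had hbc hbd hcd
    linear_combination u * h.cocycle a b c d hab hac had hbc hbd hcd
  · intro a b c d hab hac had hbc hbd hcd
    linear_combination u ^ 2 * h.x_diff a b c d hab hac had hbc hbd hcd
  · intro a b c hab hbc hac
    linear_combination u ^ 4 * h.e2 a b c hab hbc hac - 2 * r * u ^ 4 * h.sum_x a b c hab hbc hac
  · intro a b c hab hbc hac
    linear_combination u ^ 4 * h.r8 a b c hab hbc hac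
      + σ * u ^ 4 * h.slope a b c hab hbc hac
  · intro a b c e hab hac hae hbc hbe hce
    linear_combination u ^ 2 * h.r10 a b c e hab hac hae hbc hbe hce

theorem Rel.s_cyc' [CommRing Ω] {E : Dat N Ω} (h : E.Rel) {a b c : N} (hab : a ≠ b) (hbc : b ≠ c)
    (hac : a ≠ c) : E.s c a b = E.s a b c := by
  rw [h.s_cyc b c a hbc hac.symm hab.symm, h.s_cyc a b c hab hbc hac]

theorem Rel.s_swap [CommRing Ω] {E : Dat N Ω} (h : E.Rel) {a b c : N} (hab : a ≠ b) (hbc : b ≠ c)
    (hac : a ≠ c) : E.s b a c = - E.s a b c - E.a1 := by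
  rw [h.s_cyc' hac hbc.symm hab]
  linear_combination h.s_anti a b c hab hbc hac

theorem Rel.s_anti' [CommRing Ω] {E : Dat N Ω} (h : E.Rel) {a b c : N} (hab : a ≠ b) (hbc : b ≠ c)
    (hac : a ≠ c) : E.s a c b = - E.s a b c - E.a1 := by
  linear_combination h.s_anti a b c hab hbc hac

theorem Rel.s_decomp [CommRing Ω] {E : Dat N Ω} (h : E.Rel) {a b c f : N} (hab : a ≠ b)
    (hac : a ≠ c) (haf : a ≠ f) (hbc : b ≠ c) (hbf : b ≠ f) (hcf : c ≠ f) :
    E.s a b c = E.s a b f + E.s b c f + E.s c a f + E.a1 := by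
  rw [h.s_swap hac hcf haf]
  linear_combination - h.cocycle a b c f hab hac haf hbc hbf hcf

/-- The hexagon relation between the slopes of six points. -/
theorem Rel.hexagon [CommRing Ω] {E : Dat N Ω} (h : E.Rel) {a b c d e f : N}
    (hab : a ≠ b) (hac : a ≠ c) (had : a ≠ d) (hae : a ≠ e) (haf : a ≠ f) (hbc : b ≠ c)
    (hbd : b ≠ d) (hbe : b ≠ e) (hbf : b ≠ f) (hcd : c ≠ d) (hce : c ≠ e) (hcf : c ≠ f)
    (hde : d ≠ e) (hdf : d ≠ f) (hef : e ≠ f) :
    (E.s a b d - E.s a b f + E.s a c e + E.s a d f + E.a1) * (E.s a b e - E.s a b d)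
      = (E.s f a e - E.s f a d) * (E.s a b f - E.s a b e)
        - (E.s c d b - E.s c d a) * (E.s d e c - E.s d e b) := by
  have x1 := h.x_diff a d b c had hab hac hbd.symm hcd.symm hbc
  have x2 := h.x_diff a d b f had hab haf hbd.symm hdf hbf
  have x3 := h.x_diff a e b c hae hab hac hbe.symm hce.symm hbc
  have x4 := h.x_diff a e b f hae hab haf hbe.symm hef hbf
  -- everything in terms of `s i j f` with `i < j`
  have eabd := h.s_decomp hab had haf hbd hbf hdf
  have eabe := h.s_decomp hab hae haf hbe hbf hef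
  have eabc := h.s_decomp hab hac haf hbc hbf hcf
  have eace := h.s_decomp hac hae haf hce hcf hef
  have eadb := h.s_decomp had hab haf hbd.symm hdf hbf
  have eadc := h.s_decomp had hac haf hcd.symm hdf hcf
  have eaeb := h.s_decomp hae hab haf hbe.symm hef hbf
  have eaec := h.s_decomp hae hac haf hce.symm hef hcf
  have ecdb := h.s_decomp hcd hbc.symm hcf hbd.symm hdf hbf
  have ecda := h.s_decomp hcd hac.symm hcf had.symm hdf haf
  have edec := h.s_decomp hde hcd.symm hdf hce.symm hef hcf
  have edeb := h.s_decomp hde hbd.symm hdf hbe.symm hef hbf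
  have efae := h.s_cyc' hae hef haf
  have efad := h.s_cyc' had hdf haf
  have eabc' := h.s_swap hab hbf haf
  have sda := h.s_swap had hdf haf
  have sea := h.s_swap hae hef haf
  have sca := h.s_swap hac hcf haf
  have sdb := h.s_swap hbd hdf hbf
  have seb := h.s_swap hbe hef hbf
  have scb := h.s_swap hbc hcf hbf
  have sdc := h.s_swap hcd hdf hcf
  have sec := h.s_swap hce hef hcf
  have sed := h.s_swap hde hef hdf
  rw [eabd, eabe, eace, efae, efad, ecdb, ecda, edec, edeb]
  rw [eadb, eadc, eabc] at x1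
  rw [eadb] at x2
  rw [eaeb, eaec, eabc] at x3
  rw [eaeb] at x4
  simp only [sda, sdb, sdc, sed, sea, seb, sec, scb, sca, eabc'] at x1 x2 x3 x4 ⊢
  linear_combination x1 - x2 - x3 + x4

end Dat
end Pool.Agent.Helper49.Irr
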