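import Pool.Agent.Helper49.Irr.Near2

/-!
# The scale of a 5-set
-/

namespace Pool.Agent.Helper49.Irr

open Dat

section Big

variable {N Ω : Type*} [Field Ω] {Γ₀ : Type*} [LinearOrderedCommGroupWithZero Γ₀]
  {v : Valuation Ω Γ₀} {E : Dat N Ω}

/-- If all differences of slopes are small and the coefficients are small, then everything is
small. -/
theorem x_small_of_flat (h : E.Rel) {J : Finset N} (hJ : J.card = 5) (h1 : v E.a1 < 1)
    (h2 : v E.a2 < 1) (h3 : v E.a3 < 1) (h4 : v E.a4 < 1) (h6 : v E.a6 < 1)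
    (hx : ∀ a ∈ J, ∀ b ∈ J, a ≠ b → v (E.x a b) ≤ 1)
    (hs : ∀ a b c, Tri J a b c → v (E.s a b c) ≤ 1) (hG : ∀ g ∈ E.G J, v g < 1) :
    ∀ p ∈ J, ∀ q ∈ J, p ≠ q → v (E.x p q) < 1 := by
  classical
  intro p hp q hq hpq
  have h1' := h1.le
  have h2' := h2.le
  have h3' := h3.le
  have h4' := h4.le
  have h6' := h6.le
  have hy : ∀ a ∈ J, ∀ b ∈ J, a ≠ b → v (E.y a b) ≤ 1 := by
    intro a ha b hb hab
    have hxab := hx a ha b hb hab
    refine vint_of_quad (β := E.a1 * E.x a b + E.a3)
      (γ := E.x a b ^ 3 + E.a2 * E.x a b ^ 2 + E.a4 * E.x a b + E.a6) ?_ (by (repeat (first | assumption | exact vint_one | exact vint_ofNat _ | apply vint_add | apply vint_sub | apply vint_mul | apply vint_pow | apply vint_neg))) (by (repeat (first | assumption | exact vint_one | exact vint_ofNat _ | apply vint_add | apply vint_sub | apply vint_mul | apply vint_pow | apply vint_neg)))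
    linear_combination h.weier a b hab
  -- three more elements
  have hcard : ((J.erase p).erase q).card = 3 := by
    rw [Finset.card_erase_of_mem (Finset.mem_erase.2 ⟨hpq.symm, hq⟩),
      Finset.card_erase_of_mem hp, hJ]
  obtain ⟨r, t, w, hrt, hrw, htw, heq⟩ := Finset.card_eq_three.1 hcard
  have hr : r ∈ (J.erase p).erase q := by rw [heq]; simp
  have ht : t ∈ (J.erase p).erase q := by rw [heq]; simp
  have hw : w ∈ (J.erase p).erase q := by rw [heq]; simp
  simp only [Finset.mem_erase] at hr ht hw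
  obtain ⟨hrq, hrp, hr⟩ := hr
  obtain ⟨htq, htp, ht⟩ := ht
  obtain ⟨hwq, hwp, hw⟩ := hw
  -- disjoint pairs
  have disj : ∀ a ∈ J, ∀ b ∈ J, ∀ c ∈ J, ∀ d ∈ J, a ≠ b → a ≠ c → a ≠ d → b ≠ c → b ≠ d →
      c ≠ d → v (E.x a b - E.x c d) < 1 := by
    intro a ha b hb c hc d hd hab hac had hbc hbd hcd
    rw [h.x_diff a b c d hab hac had hbc hbd hcd]
    have t1 : Tri J a b d := ⟨ha, hb, hd, hab, hbd, had⟩
    have t2 : Tri J a c d := ⟨ha, hc, hd, hac, hcd, had⟩
    have t3 : Tri J a b c := ⟨ha, hb, hc, hab, hbc, hac⟩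
    have e1 := hs _ _ _ t2
    have e2 := hs _ _ _ t3
    exact vsmall_mul_left (hG _ ⟨a, b, d, a, c, d, t1, t2, rfl⟩) (by (repeat (first | assumption | exact vint_one | exact vint_ofNat _ | apply vint_add | apply vint_sub | apply vint_mul | apply vint_pow | apply vint_neg)))
  -- consecutive pairs
  have hxx1 : v (E.x p q - E.x q r) < 1 := by
    have e1 := disj p hp q hq t ht w hw hpq htp.symm hwp.symm htq.symm hwq.symm htw
    have e2 := disj q hq r hr t ht w hw hrq.symm htq.symm hwq.symm hrt hrw htw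
    have : E.x p q - E.x q r = (E.x p q - E.x t w) - (E.x q r - E.x t w) := by ring
    rw [this]
    exact vsmall_sub e1 e2
  have hxx2 : v (E.x p q - E.x r p) < 1 := by
    have e1 := disj p hp q hq t ht w hw hpq htp.symm hwp.symm htq.symm hwq.symm htw
    have e2 := disj r hr p hp t ht w hw hrp hrt hrw htp.symm hwp.symm htw
    have : E.x p q - E.x r p = (E.x p q - E.x t w) - (E.x r p - E.x t w) := by ring
    rw [this]
    exact vsmall_sub e1 e2
  -- slopes
  have tpqr : Tri J p q r := ⟨hp, hq, hr, hpq, hrq.symm, hrp.symm⟩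
  have tprq : Tri J p r q := ⟨hp, hr, hq, hrp.symm, hrq, hpq⟩
  have hσ := hs _ _ _ tpqr
  have h2σ : v (2 * E.s p q r) < 1 := by
    have e1 := hG _ ⟨p, q, r, p, r, q, tpqr, tprq, rfl⟩
    have e2 := h.s_anti p q r hpq hrq.symm hrp.symm
    have : 2 * E.s p q r = (E.s p q r - E.s p r q) + (- E.a1) := by linear_combination e2
    rw [this]
    exact vsmall_add e1 (vsmall_neg h1)
  have xint : ∀ a ∈ J, ∀ b ∈ J, a ≠ b → v (E.x a b) ≤ 1 := hx
  -- ordinates
  have ystep : ∀ a ∈ J, ∀ b ∈ J, ∀ c ∈ J, ∀ d ∈ J, ∀ f ∈ J, a ≠ b → b ≠ c → a ≠ c → d ≠ a →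
      d ≠ b → d ≠ c → f ≠ a → f ≠ b → f ≠ c → d ≠ f → v (E.y a b - E.y b c) < 1 := by
    intro a ha b hb c hc d hd f hf hab hbc hac hda hdb hdc hfa hfb hfc hdf
    have e1 := disj a ha b hb d hd f hf hab hda.symm hfa.symm hdb.symm hfb.symm hdf
    have e2 := disj b hb c hc d hd f hf hbc hdb.symm hfb.symm hdc.symm hfc.symm hdf
    rw [h.slope a b c hab hbc hac]
    have : E.x a b - E.x b c = (E.x a b - E.x d f) - (E.x b c - E.x d f) := by ring
    rw [this]
    exact vsmall_mul_right (hs _ _ _ ⟨ha, hb, hc, hab, hbc, hac⟩) (vsmall_sub e1 e2)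
  have y1 := ystep p hp q hq r hr t ht w hw hpq hrq.symm hrp.symm htp htq hrt.symm hwp hwq
    hrw.symm htw
  have y2 := ystep q hq r hr t ht p hp w hw hrq.symm hrt htq.symm hpq hrp.symm htp.symm hwq
    hrw.symm htw.symm hwp.symm
  have y3 := ystep r hr t ht q hq p hp w hw hrt htq hrq hrp.symm htp.symm hpq hrw.symm
    htw.symm hwq hwp.symm
  have y4 := ystep t ht q hq p hp r hr w hw htq hpq.symm htp hrt hrq hrp htw.symm hwq hwp hrw
  have h2η : v (2 * E.y p q) < 1 := by
    have e2 := h.y_symm p q hpq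
    have e3 : v (E.y p q - E.y q p) < 1 := by
      have : E.y p q - E.y q p = (E.y p q - E.y q r) + (E.y q r - E.y r t)
        + (E.y r t - E.y t q) + (E.y t q - E.y q p) := by ring
      rw [this]
      exact vsmall_add (vsmall_add (vsmall_add y1 y2) y3) y4
    have : 2 * E.y p q = (E.y p q - E.y q p) - E.a1 * E.x p q - E.a3 := by
      linear_combination e2
    rw [this]
    exact vsmall_sub (vsmall_sub e3 (vsmall_mul_left h1 (hx p hp q hq hpq))) h3
  have hxpq := hx p hp q hq hpq
  have hxqr := hx q hq r hr hrq.symm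
  have hypq := hy p hp q hq hpq
  have hyqr := hy q hq r hr hrq.symm
  -- `3 ξ²` is small
  have h3ξ : v (3 * E.x p q ^ 2) < 1 := by
    have e := h.r8 p q r hpq hrq.symm hrp.symm
    have : 3 * E.x p q ^ 2 = E.s p q r * (2 * E.y p q - (E.y p q - E.y q r)
        + E.a1 * E.x q r + E.a3) - E.a2 * (E.x p q + E.x q r) - E.a4 + E.a1 * E.y p q
        + (E.x p q - E.x q r) * (2 * E.x p q + E.x q r) := by
      linear_combination - e
    rw [this]
    refine vsmall_add (vsmall_add (vsmall_sub (vsmall_sub (vsmall_mul_right hσ ?_) ?_) h4) ?_) ?_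
    · exact vsmall_add (vsmall_add (vsmall_sub h2η y1) (vsmall_mul_left h1 hxqr)) h3
    · exact vsmall_mul_left h2 (by (repeat (first | assumption | exact vint_one | exact vint_ofNat _ | apply vint_add | apply vint_sub | apply vint_mul | apply vint_pow | apply vint_neg)))
    · exact vsmall_mul_left h1 hypq
    · exact vsmall_mul_left hxx1 (by (repeat (first | assumption | exact vint_one | exact vint_ofNat _ | apply vint_add | apply vint_sub | apply vint_mul | apply vint_pow | apply vint_neg)))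
  by_contra hcon
  have hξ1 : v (E.x p q) = 1 := le_antisymm hxpq (not_lt.1 hcon)
  have hv3 : v (3 : Ω) < 1 := by
    rw [map_mul, map_pow, hξ1, one_pow, mul_one] at h3ξ
    exact h3ξ
  have hv2 : v (2 : Ω) = 1 := by
    have hle : v (2 : Ω) ≤ 1 := vint_ofNat 2
    refine le_antisymm hle (not_lt.1 fun hlt => ?_)
    have : v (1 : Ω) < 1 := by
      have e : (1 : Ω) = 3 - 2 := by norm_num
      rw [e]
      exact vsmall_sub hv3 hlt
    rw [map_one] at this
    exact lt_irrefl _ this
  have hη : v (E.y p q) < 1 := by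
    rw [map_mul, hv2, one_mul] at h2η
    exact h2η
  have hfin : v (E.x p q ^ 3) < 1 := by
    have e : E.x p q ^ 3 = E.y p q * (E.y p q + E.a1 * E.x p q + E.a3)
        - E.a2 * E.x p q ^ 2 - E.a4 * E.x p q - E.a6 := by
      linear_combination - h.weier p q hpq
    rw [e]
    refine vsmall_sub (vsmall_sub (vsmall_sub (vsmall_mul_left hη (by (repeat (first | assumption | exact vint_one | exact vint_ofNat _ | apply vint_add | apply vint_sub | apply vint_mul | apply vint_pow | apply vint_neg)))) ?_) ?_) h6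
    · exact vsmall_mul_left h2 (by (repeat (first | assumption | exact vint_one | exact vint_ofNat _ | apply vint_add | apply vint_sub | apply vint_mul | apply vint_pow | apply vint_neg)))
    · exact vsmall_mul_left h4 hxpq
  rw [map_pow, hξ1, one_pow] at hfin
  exact lt_irrefl _ hfin

/-- D3h: the scale of `J` is given by the closest pair in `J`. -/
theorem exists_big_of_close (h : E.Rel) (hM : E.IsModel v) {J : Finset N} (hJ : J.card = 5)
    {a b e : N} (ha : a ∈ J) (hb : b ∈ J) (hab : E.Near v a b) (hae : E.Far v a e)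
    (hclose : ∀ c ∈ J, ∀ d ∈ J, E.Near v c d → v (E.x c d) ≤ v (E.x a b)) :
    ∃ g ∈ E.G J, v g = v (E.s a b e) := by
  obtain ⟨M1, M2⟩ := near_s h hM hab hae
  have hs0 : E.s a b e ≠ 0 := by
    intro h0; rw [h0, map_zero] at M1; exact absurd M1 (not_lt.2 zero_le)
  have hv0 : v (E.s a b e) ≠ 0 := (Valuation.ne_zero_iff _).2 hs0
  set u : Ω := (E.s a b e)⁻¹ with hu
  have hvu : v u < 1 := by rw [hu, map_inv₀]; exact inv_lt_one_of_one_lt₀ M1
  have hvu' := hvu.le
  have hus : v u * v (E.s a b e) = 1 := by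
    rw [hu, map_inv₀]; exact inv_mul_cancel₀ hv0
  have hle : ∀ c d f, Tri J c d f → v (E.s c d f) ≤ v (E.s a b e) :=
    fun c d f hT => s_le_of_close h hM hab hae hclose hT
  by_contra hcon
  push Not at hcon
  have hlt : ∀ g ∈ E.G J, v g < v (E.s a b e) := by
    intro g hg
    refine lt_of_le_of_ne ?_ (hcon g hg)
    obtain ⟨c, d, f, c', d', f', hT, hT', rfl⟩ := hg
    exact v.map_sub_le (hle _ _ _ hT) (hle _ _ _ hT')
  have hsc : ∀ z : Ω, v z ≤ v (E.s a b e) → v (u * z) ≤ 1 := by
    intro z hz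
    rw [map_mul, ← hus]
    exact mul_le_mul_right hz _
  have hsc' : ∀ z : Ω, v z < v (E.s a b e) → v (u * z) < 1 := by
    intro z hz
    have hvu0 : 0 < v u := by
      rw [hu, map_inv₀]; exact inv_pos_of_pos (zero_lt_one.trans M1)
    rw [map_mul, ← hus]
    exact mul_lt_mul_of_pos_left hz hvu0
  have hrel := h.gauge u 0 0 0
  have hxsc : ∀ c d, (E.gauge u 0 0 0).x c d = u ^ 2 * E.x c d := by
    intro c d; simp [Dat.gauge]
  have hssc : ∀ c d f, (E.gauge u 0 0 0).s c d f = u * E.s c d f := by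
    intro c d f; simp [Dat.gauge]
  have h1 := hM.a1
  have h2 := hM.a2
  have h3 := hM.a3
  have h4 := hM.a4
  have h6 := hM.a6
  have hfin := x_small_of_flat (v := v) hrel hJ ?_ ?_ ?_ ?_ ?_ ?_ ?_ ?_ a ha b hb hab.1
  · rw [hxsc, map_mul, map_pow, ← M2, ← mul_pow, hus, one_pow] at hfin
    exact lt_irrefl _ hfin
  · have : (E.gauge u 0 0 0).a1 = u * E.a1 := by simp [Dat.gauge]
    rw [this]
    exact vsmall_mul_left hvu h1
  · have : (E.gauge u 0 0 0).a2 = u * (u * E.a2) := by simp [Dat.gauge]; ring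
    rw [this]
    exact vsmall_mul_left hvu (by (repeat (first | assumption | exact vint_one | exact vint_ofNat _ | apply vint_add | apply vint_sub | apply vint_mul | apply vint_pow | apply vint_neg)))
  · have : (E.gauge u 0 0 0).a3 = u * (u ^ 2 * E.a3) := by simp [Dat.gauge]; ring
    rw [this]
    exact vsmall_mul_left hvu (by (repeat (first | assumption | exact vint_one | exact vint_ofNat _ | apply vint_add | apply vint_sub | apply vint_mul | apply vint_pow | apply vint_neg)))
  · have : (E.gauge u 0 0 0).a4 = u * (u ^ 3 * E.a4) := by simp [Dat.gauge]; ring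
    rw [this]
    exact vsmall_mul_left hvu (by (repeat (first | assumption | exact vint_one | exact vint_ofNat _ | apply vint_add | apply vint_sub | apply vint_mul | apply vint_pow | apply vint_neg)))
  · have : (E.gauge u 0 0 0).a6 = u * (u ^ 5 * E.a6) := by simp [Dat.gauge]; ring
    rw [this]
    exact vsmall_mul_left hvu (by (repeat (first | assumption | exact vint_one | exact vint_ofNat _ | apply vint_add | apply vint_sub | apply vint_mul | apply vint_pow | apply vint_neg)))
  · intro c hc d hd hcd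
    have hx : v (E.x c d) ≤ v (E.s a b e) ^ 2 := by
      rw [M2]
      by_cases hf : E.Far v c d
      · exact hf.2.trans hab.2.le
      · exact hclose c hc d hd (near_of_ne hcd hf)
    rw [hxsc, map_mul, map_pow]
    calc v u ^ 2 * v (E.x c d) ≤ v u ^ 2 * v (E.s a b e) ^ 2 := mul_le_mul_right hx _
      _ = 1 := by rw [← mul_pow, hus, one_pow]
  · intro c d f hT
    rw [hssc]
    exact hsc _ (hle _ _ _ hT)
  · intro g hg
    obtain ⟨c, d, f, c', d', f', hT, hT', rfl⟩ := hg
    rw [hssc, hssc, ← mul_sub]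
    exact hsc' _ (hlt _ ⟨c, d, f, c', d', f', hT, hT', rfl⟩)

end Big

end Pool.Agent.Helper49.Irr
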