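import Pool.Agent.Helper49.Irr.Basic

/-!
# The generic configuration
-/

namespace Pool.Agent.Helper49.Irr

section Gen

variable {N Ω : Type*} [Field Ω]

/-- slope of the line through `p_j` and `-p_i` for `p_i = (X i, Y i)` on `y² = x³ + a x + b`. -/
def sg (X Y : N → Ω) (i j : N) : Ω := (Y i + Y j) / (X j - X i)

/-- The configuration of the differences of points `(X i, Y i)` on `y² = x³ + a x + b`. -/
def genDat (a b : Ω) (X Y : N → Ω) : Dat N Ω where
  a1 := 0
  a2 := 0
  a3 := 0
  a4 := a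
  a6 := b
  x i j := sg X Y i j ^ 2 - X i - X j
  y i j := Y j + sg X Y i j * (sg X Y i j ^ 2 - X i - X j - X j)
  s i j k := sg X Y i j + sg X Y j k + sg X Y k i

/-- The 13 parameters. -/
def params {Ω : Type*} (a b : Ω) (X : Fin 11 → Ω) : Fin 13 → Ω := Fin.cons a (Fin.cons b X)

/-- The field generated by the ratios. -/
noncomputable def ratioField (L : Type*) {Ω : Type*} [Field L] [Field Ω] [Algebra L Ω]
    (E : Dat (Fin 11) Ω) : IntermediateField L Ω :=
  IntermediateField.adjoin L {z | ∃ J : Finset (Fin 11), J.card = 5 ∧ ∃ g ∈ E.G J, ∃ g' ∈ E.G J,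
    g' ≠ 0 ∧ z = g / g'}

/-- choice of a nonzero difference of slopes for each 5-subset -/
def Idx {Ω : Type} [Field Ω] (E : Dat (Fin 11) Ω) : Type :=
  ∀ J : {J : Finset (Fin 11) // J.card = 5}, {g : Ω // g ∈ E.G J ∧ g ≠ 0}

/-- the corresponding product -/
noncomputable def psi {Ω : Type} [Field Ω] (E : Dat (Fin 11) Ω) (φ : Idx E) : Ω :=
  ∏ J : {J : Finset (Fin 11) // J.card = 5}, (φ J : Ω)

end Gen

end Pool.Agent.Helper49.Irr
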