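import Pool.Agent.Helper49.Irr.DefsB
import Pool.Agent.Helper49.Irr.DefsC

/-!
# The fraction field of a chart (module G3b)
-/

namespace Pool.Agent.Helper49.Irr

/-- G3b -/
theorem exists_frac {Ω : Type} [Field Ω] [CharZero Ω] (E : Dat (Fin 11) Ω) (φ : Idx E) :
    (∀ a ∈ chartRing (psi E) φ, a ∈ ratioField ℚ E) ∧
    ∀ z ∈ ratioField ℚ E, ∃ a ∈ chartRing (psi E) φ, ∃ b ∈ chartRing (psi E) φ, b ≠ 0 ∧
      z = a / b := by
  classical
  have hpsi : ∀ j : Idx E, psi E j ≠ 0 := fun j =>
    Finset.prod_ne_zero_iff.2 fun J _ => (j J).2.2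
  have hmem : ∀ j : Idx E, psi E j / psi E φ ∈ chartRing (psi E) φ := fun j =>
    Algebra.subset_adjoin ⟨j, rfl⟩
  constructor
  · intro a ha
    refine Algebra.adjoin_induction (p := fun a _ => a ∈ ratioField ℚ E) ?_ ?_ ?_ ?_ ha
    · rintro _ ⟨j, rfl⟩
      have h : psi E j / psi E φ
          = ∏ J : {J : Finset (Fin 11) // J.card = 5}, ((j J : Ω) / (φ J : Ω)) := by
        rw [Finset.prod_div_distrib]; rfl
      show psi E j / psi E φ ∈ ratioField ℚ E
      rw [h]
      refine prod_mem fun J _ => ?_
      exact IntermediateField.subset_adjoin _ _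
        ⟨J.1, J.2, (j J : Ω), (j J).2.1, (φ J : Ω), (φ J).2.1, (φ J).2.2, rfl⟩
    · intro r
      exact intCast_mem _ r
    · intro x y _ _ hx hy
      exact add_mem hx hy
    · intro x y _ _ hx hy
      exact mul_mem hx hy
  · intro z hz
    have hz' : z ∈ Subfield.closure ((chartRing (psi E) φ : Subalgebra ℤ Ω) : Set Ω) := by
      have h1 : z ∈ (ratioField ℚ E).toSubfield := hz
      rw [ratioField, IntermediateField.adjoin_toSubfield] at h1
      refine (Subfield.closure_le.2 ?_) h1
      rintro x (⟨q, rfl⟩ | ⟨J, hJ, g, hg, g', hg', hne, rfl⟩)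
      · rw [eq_ratCast]
        exact SubfieldClass.ratCast_mem _ q
      · by_cases hg0 : g = 0
        · rw [hg0, zero_div]
          exact zero_mem _
        · let upd : {g : Ω // g ∈ E.G J ∧ g ≠ 0} → Idx E := fun t J' =>
            if h : J' = ⟨J, hJ⟩ then h ▸ t else φ J'
          have hupd : ∀ t : {g : Ω // g ∈ E.G J ∧ g ≠ 0},
              psi E (upd t) / psi E φ = (t : Ω) / (φ ⟨J, hJ⟩ : Ω) := by
            intro t
            have h0 : psi E (upd t) / psi E φ
                = ∏ J' : {J : Finset (Fin 11) // J.card = 5},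
                    ((upd t J' : Ω) / (φ J' : Ω)) := by
              rw [Finset.prod_div_distrib]; rfl
            rw [h0, Finset.prod_eq_single (⟨J, hJ⟩ : {J : Finset (Fin 11) // J.card = 5})]
            · have : upd t ⟨J, hJ⟩ = t := by simp [upd]
              rw [this]
            · intro J' _ hJ'
              have : upd t J' = φ J' := by simp [upd, hJ']
              rw [this]
              exact div_self (φ J').2.2
            · intro h
              exact absurd (Finset.mem_univ _) h
          have e1 := hupd ⟨g, hg, hg0⟩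
          have e2 := hupd ⟨g', hg', hne⟩
          have hφ : (φ ⟨J, hJ⟩ : Ω) ≠ 0 := (φ ⟨J, hJ⟩).2.2
          have h3 : g / g' = (psi E (upd ⟨g, hg, hg0⟩) / psi E φ)
              / (psi E (upd ⟨g', hg', hne⟩) / psi E φ) := by
            rw [e1, e2]
            field_simp
          rw [h3]
          exact div_mem (Subfield.subset_closure (hmem _)) (Subfield.subset_closure (hmem _))
    obtain ⟨y, hy, w, hw, hyw⟩ := Subfield.mem_closure_iff.1 hz'
    have hcl : Subring.closure ((chartRing (psi E) φ : Subalgebra ℤ Ω) : Set Ω)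
        ≤ (chartRing (psi E) φ).toSubring := Subring.closure_le.2 fun x hx => hx
    by_cases hw0 : w = 0
    · refine ⟨0, zero_mem _, 1, one_mem _, one_ne_zero, ?_⟩
      rw [← hyw, hw0, div_zero, zero_div]
    · exact ⟨y, hcl hy, w, hcl hw, hw0, hyw.symm⟩

end Pool.Agent.Helper49.Irr
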