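import Pool.Agent.Helper49.Irr.DefsC

/-!
# The generic configuration satisfies all the relations; existence of nonzero differences
-/

namespace Pool.Agent.Helper49.Irr

section Gen

variable {N Ω : Type*} [Field Ω]

theorem sg_swap (X Y : N → Ω) (i j : N) : sg X Y j i = - sg X Y i j := by
  unfold sg
  rw [add_comm (Y j) (Y i), ← neg_sub (X j) (X i), div_neg]

theorem sg_mul {X Y : N → Ω} {i j : N} (h : X i ≠ X j) :
    sg X Y i j * (X j - X i) = Y i + Y j := by
  unfold sg
  exact div_mul_cancel₀ _ (sub_ne_zero.mpr h.symm)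

/-- the key identity `e₂(σ_ab, σ_bc, σ_ca) = -(X_a + X_b + X_c)` -/
theorem sg_e2 {a b : Ω} {X Y : N → Ω} (hY : ∀ i, Y i ^ 2 = X i ^ 3 + a * X i + b)
    {i j k : N} (hij : X i ≠ X j) (hjk : X j ≠ X k) (hki : X k ≠ X i) :
    sg X Y i j * sg X Y j k + sg X Y j k * sg X Y k i + sg X Y k i * sg X Y i j
      = - (X i + X j + X k) := by
  have h1 := sg_mul (Y := Y) hij
  have h2 := sg_mul (Y := Y) hjk
  have h3 := sg_mul (Y := Y) hki
  have p1 : X j - X i ≠ 0 := sub_ne_zero.mpr hij.symm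
  have p2 : X k - X j ≠ 0 := sub_ne_zero.mpr hjk.symm
  have p3 : X i - X k ≠ 0 := sub_ne_zero.mpr hki.symm
  apply mul_left_cancel₀ (mul_ne_zero (mul_ne_zero p1 p2) p3)
  have hi := hY i
  have hj := hY j
  have hk := hY k
  generalize sg X Y i j = u at *
  generalize sg X Y j k = v at *
  generalize sg X Y k i = w at *
  linear_combination ((X i - X k) * v * (X k - X j) + (X k - X j) * (Y k + Y i)) * h1
    + ((X i - X k) * (Y i + Y j) + (X j - X i) * w * (X i - X k)) * h2
    + ((X j - X i) * (Y j + Y k) + (X k - X j) * u * (X j - X i)) * h3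
    + (X i - X k) * hj + (X j - X i) * hk + (X k - X j) * hi

/-- C1 -/
theorem genDat_rel [CharZero Ω] {a b : Ω} {X Y : N → Ω} (hY : ∀ i, Y i ^ 2 = X i ^ 3 + a * X i + b)
    (hX : Function.Injective X)
    (hne : ∀ i j k, i ≠ j → j ≠ k → i ≠ k →
      (genDat a b X Y).x i j ≠ (genDat a b X Y).x j k) : (genDat a b X Y).Rel := by
  refine Dat.rel_of_basic _ ?_ ?_ ?_ ?_ ?_ ?_ ?_ ?_ hne
  · intro i j hij
    have hXij : X i ≠ X j := fun h => hij (hX h)
    have h := sg_mul (Y := Y) hXij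
    have p : X j - X i ≠ 0 := sub_ne_zero.mpr hXij.symm
    have hi := hY i
    have hj := hY j
    dsimp only [genDat]
    apply mul_left_cancel₀ p
    generalize sg X Y i j = m at *
    have hi' : (Y j - m * (X j - X i)) ^ 2 = X i ^ 3 + a * X i + b := by
      rw [h]; linear_combination hi
    linear_combination (m ^ 2 - X i - X j - X i) * hj - (m ^ 2 - X i - X j - X j) * hi'
  · intro i j _
    dsimp only [genDat]
    rw [sg_swap X Y i j]
    ring
  · intro i j hij
    have hXij : X i ≠ X j := fun h => hij (hX h)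
    have h := sg_mul (Y := Y) hXij
    dsimp only [genDat]
    rw [sg_swap X Y i j]
    linear_combination -h
  · intro i j k _ _ _
    dsimp only [genDat]
    ring
  · intro i j k _ _ _
    dsimp only [genDat]
    rw [sg_swap X Y i j, sg_swap X Y j k, sg_swap X Y k i]
    ring
  · intro i j k hij hjk hik
    have h := sg_e2 hY (fun h => hij (hX h)) (fun h => hjk (hX h)) (fun h => hik.symm (hX h))
    dsimp only [genDat]
    linear_combination -2 * h
  · intro i j k hij hjk hik
    have hXij : X i ≠ X j := fun h => hij (hX h)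
    have hXjk : X j ≠ X k := fun h => hjk (hX h)
    have hXki : X k ≠ X i := fun h => hik.symm (hX h)
    have h := sg_e2 hY hXij hXjk hXki
    have h1 := sg_mul (Y := Y) hXij
    have h2 := sg_mul (Y := Y) hXjk
    have h3 := sg_mul (Y := Y) hXki
    dsimp only [genDat]
    generalize sg X Y i j = u at *
    generalize sg X Y j k = v at *
    generalize sg X Y k i = w at *
    linear_combination (-(u - v)) * h - h1 + h3
  · intro i j k l _ _ _ _ _ _
    dsimp only [genDat]
    rw [sg_swap X Y j l, sg_swap X Y i k]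
    ring

/-- G1 -/
theorem exists_G_ne_zero {Ω : Type*} [Field Ω] {E : Dat (Fin 11) Ω} (h : E.Rel)
    (hne : ∀ i j k, i ≠ j → j ≠ k → i ≠ k → E.x i j ≠ E.x j k) :
    ∀ J : Finset (Fin 11), J.card = 5 → ∃ g ∈ E.G J, g ≠ 0 := by
  intro J hJ
  by_contra hcon
  push Not at hcon
  have key : ∀ a ∈ J, ∀ b ∈ J, ∀ c ∈ J, ∀ d ∈ J, a ≠ b → a ≠ c → a ≠ d → b ≠ c → b ≠ d → c ≠ d →
      E.x a b = E.x c d := by
    intro a ha b hb c hc d hd hab hac had hbc hbd hcd
    have h0 : E.s a b d - E.s a c d = 0 :=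
      hcon _ ⟨a, b, d, a, c, d, ⟨ha, hb, hd, hab, hbd, had⟩, ⟨ha, hc, hd, hac, hcd, had⟩, rfl⟩
    have h1 := h.x_diff a b c d hab hac had hbc hbd hcd
    rw [h0, zero_mul] at h1
    exact sub_eq_zero.mp h1
  let p := J.orderEmbOfFin hJ
  have hp : ∀ i, p i ∈ J := fun i => J.orderEmbOfFin_mem hJ i
  have hinj : ∀ i j, i ≠ j → p i ≠ p j := fun i j hij h => hij (p.injective h)
  have h1 := key (p 0) (hp 0) (p 1) (hp 1) (p 2) (hp 2) (p 3) (hp 3) (hinj _ _ (by decide))
    (hinj _ _ (by decide)) (hinj _ _ (by decide)) (hinj _ _ (by decide)) (hinj _ _ (by decide))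
    (hinj _ _ (by decide))
  have h2 := key (p 0) (hp 0) (p 4) (hp 4) (p 2) (hp 2) (p 3) (hp 3) (hinj _ _ (by decide))
    (hinj _ _ (by decide)) (hinj _ _ (by decide)) (hinj _ _ (by decide)) (hinj _ _ (by decide))
    (hinj _ _ (by decide))
  refine hne (p 1) (p 0) (p 4) (hinj _ _ (by decide)) (hinj _ _ (by decide))
    (hinj _ _ (by decide)) ?_
  rw [h.x_symm _ _ (hinj 0 1 (by decide)), h1, h2]

/-- G2 -/
theorem Idx.finite {Ω : Type} [Field Ω] (E : Dat (Fin 11) Ω) : Finite (Idx E) := by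
  have hG : ∀ J : Finset (Fin 11), (E.G J).Finite := by
    intro J
    refine (Set.finite_range (fun t : Fin 11 × Fin 11 × Fin 11 × Fin 11 × Fin 11 × Fin 11 =>
      E.s t.1 t.2.1 t.2.2.1 - E.s t.2.2.2.1 t.2.2.2.2.1 t.2.2.2.2.2)).subset ?_
    rintro g ⟨a, b, c, a', b', c', _, _, rfl⟩
    exact ⟨(a, b, c, a', b', c'), rfl⟩
  have : ∀ J : {J : Finset (Fin 11) // J.card = 5}, Finite {g : Ω // g ∈ E.G J ∧ g ≠ 0} := by
    intro J
    exact ((hG J).subset (fun g hg => hg.1) : ({g : Ω | g ∈ E.G J ∧ g ≠ 0}).Finite)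
  unfold Idx
  exact Pi.finite

end Gen

end Pool.Agent.Helper49.Irr
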