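import Pool.Agent.Helper49.Irr.Near2
import Pool.Agent.Helper49.Irr.Big

/-!
# The end of the argument on clusters
-/

namespace Pool.Agent.Helper49.Irr

open Dat

section PartD

variable {N Ω : Type*} [Fintype N] [DecidableEq N] [Field Ω]
  {Γ₀ : Type*} [LinearOrderedCommGroupWithZero Γ₀] {v : Valuation Ω Γ₀} {E : Dat N Ω}

/-- D11: the end of the argument on clusters. -/
theorem clus_end (h : E.Rel) (hM : E.IsModel v) {R : Subring Ω} (hR : LocSub v R)
    {Z : Subring Ω} (hZ : Zer v R Z) (hCR : E.Clus v R Finset.univ)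
    (hCZ : E.Clus v Z Finset.univ) :
    ∀ J : Finset N, J.card = 5 → ∀ g', E.IsMax v J g' → ∀ g ∈ E.G J, g / g' ∈ Z := by
  intro J hJ g' hg' g hg
  have hle : ∀ z ∈ Z, v z ≤ 1 := fun z hz => hR.le_one z (hZ.le hz)
  have hfn : ∀ {a b : N}, a ≠ b → ¬ E.Near v a b → E.Far v a b := fun hab hn =>
    ⟨hab, not_lt.1 fun hlt => hn ⟨hab, hlt⟩⟩
  by_cases hP : E.PFar v J
  · -- all positions different
    have hs : ∀ a b c, Tri J a b c → E.s a b c ∈ Z := fun a b c t =>
      hCZ.s a (Finset.mem_univ _) b (Finset.mem_univ _) c (Finset.mem_univ _)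
        ⟨t.hab, hP a t.ha b t.hb t.hab⟩ ⟨t.hbc, hP b t.hb c t.hc t.hbc⟩
        ⟨t.hac, hP a t.ha c t.hc t.hac⟩
    have hG : ∀ k ∈ E.G J, k ∈ Z := by
      rintro k ⟨a, b, c, a', b', c', t, t', rfl⟩
      exact Z.sub_mem (hs a b c t) (hs a' b' c' t')
    have hv : v g' = 1 := by
      apply le_antisymm (hle _ (hG _ hg'.mem))
      obtain ⟨k, hk, hk1⟩ := hM.big J hJ
      exact hk1.trans (hg'.le k hk)
    rw [div_eq_mul_inv]
    exact Z.mul_mem (hG g hg) (hZ.inv_mem _ (hG _ hg'.mem) hv)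
  · -- the closest pair
    classical
    obtain ⟨p, hp, hpmax⟩ : ∃ p ∈ (J ×ˢ J).filter (fun p => E.Near v p.1 p.2),
        ∀ q ∈ (J ×ˢ J).filter (fun p => E.Near v p.1 p.2), v (E.x q.1 q.2) ≤ v (E.x p.1 p.2) := by
      apply Finset.exists_max_image
      unfold Dat.PFar at hP
      push Not at hP
      obtain ⟨a, ha, b, hb, hab, hlt⟩ := hP
      exact ⟨(a, b), by simpa using ⟨⟨ha, hb⟩, hab, hlt⟩⟩
    obtain ⟨a, b⟩ := p
    simp only [Finset.mem_filter, Finset.mem_product] at hp hpmax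
    obtain ⟨⟨ha, hb⟩, hab⟩ := hp
    have hclose : ∀ c ∈ J, ∀ d ∈ J, E.Near v c d → v (E.x c d) ≤ v (E.x a b) :=
      fun c hc d hd hcd => hpmax (c, d) ⟨⟨hc, hd⟩, hcd⟩
    obtain ⟨e, hae, -⟩ := exists_far₂ h hM a a
    have hσZ : (E.s a b e)⁻¹ ∈ Z := hCZ.inv a (Finset.mem_univ _) b (Finset.mem_univ _) e
      (Finset.mem_univ _) hab hae
    have hvσ := (near_s h hM hab hae).1
    have hσ0 : E.s a b e ≠ 0 := by intro h0; rw [h0, map_zero] at hvσ; exact not_lt_zero hvσ
    -- a slope with a near pair in the first two places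
    have hnear1 : ∀ c ∈ J, ∀ d ∈ J, ∀ f, E.Near v c d → E.Far v c f →
        E.s c d f / E.s a b e ∈ Z := fun c hc d hd f hcd hcf =>
      hCZ.ratio c (Finset.mem_univ _) d (Finset.mem_univ _) f (Finset.mem_univ _) a
        (Finset.mem_univ _) b (Finset.mem_univ _) e (Finset.mem_univ _) hcd hcf hab hae
        (hclose c hc d hd hcd)
    have hint : ∀ z ∈ Z, z / E.s a b e ∈ Z := fun z hz => by
      rw [div_eq_mul_inv]; exact Z.mul_mem hz hσZ
    have hs : ∀ c d f, Tri J c d f → E.s c d f / E.s a b e ∈ Z := by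
      intro c d f t
      by_cases hcd : E.Near v c d
      · by_cases hcf : E.Near v c f
        · -- all near
          obtain ⟨f', hcf', -⟩ := exists_far₂ h hM c c
          have hdf' : E.Far v d f' := far_of_near h hM hcd hcf'
          have hff' : E.Far v f f' := far_of_near h hM hcf hcf'
          have hdf : E.Near v d f := near_trans h hM (near_symm h hcd) hcf t.hbc
          have hdec := h.s_decomp t.hab t.hac hcf'.1 t.hbc hdf'.1 hff'.1
          have : E.s c d f / E.s a b e = E.s c d f' / E.s a b e + E.s d f f' / E.s a b e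
              + E.s f c f' / E.s a b e + E.a1 / E.s a b e := by
            rw [hdec]; ring
          rw [this]
          exact Z.add_mem (Z.add_mem (Z.add_mem (hnear1 c t.ha d t.hb f' hcd hcf')
            (hnear1 d t.hb f t.hc f' hdf hdf')) (hnear1 f t.hc c t.ha f' (near_symm h hcf) hff'))
            (hint _ hCZ.a1)
        · exact hnear1 c t.ha d t.hb f hcd (hfn t.hac hcf)
      · have hcd' := hfn t.hab hcd
        by_cases hcf : E.Near v c f
        · rw [← h.s_cyc' t.hab t.hbc t.hac]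
          exact hnear1 f t.hc c t.ha d (near_symm h hcf) (far_of_near h hM hcf hcd')
        · have hcf' := hfn t.hac hcf
          by_cases hdf : E.Near v d f
          · rw [← h.s_cyc c d f t.hab t.hbc t.hac]
            exact hnear1 d t.hb f t.hc c hdf (far_symm h hcd')
          · exact hint _ (hCZ.s c (Finset.mem_univ _) d (Finset.mem_univ _) f (Finset.mem_univ _)
              hcd' (hfn t.hbc hdf) hcf')
    have hG : ∀ k ∈ E.G J, k / E.s a b e ∈ Z := by
      rintro k ⟨c, d, f, c', d', f', t, t', rfl⟩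
      rw [sub_div]
      exact Z.sub_mem (hs c d f t) (hs c' d' f' t')
    obtain ⟨k, hk, hkv⟩ := exists_big_of_close h hM hJ ha hb hab hae hclose
    have hvg : v (g' / E.s a b e) = 1 := by
      apply le_antisymm (hle _ (hG _ hg'.mem))
      rw [map_div₀, one_le_div₀ (zero_lt_iff.2 ((Valuation.ne_zero_iff _).2 hσ0)), ← hkv]
      exact hg'.le k hk
    have e1 : g / g' = (g / E.s a b e) * (g' / E.s a b e)⁻¹ := by
      rw [inv_div, div_mul_div_cancel₀ hσ0]
    rw [e1]
    exact Z.mul_mem (hG g hg) (hZ.inv_mem _ (hG _ hg'.mem) hvg)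

end PartD

end Pool.Agent.Helper49.Irr
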