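import Pool.Agent.Helper49.Irr.Member3

/-!
# D4d: membership of everything far
-/

namespace Pool.Agent.Helper49.Irr

open Dat

variable {N Ω : Type*} [DecidableEq N] [Field Ω]
  {Γ₀ : Type*} [LinearOrderedCommGroupWithZero Γ₀] {v : Valuation Ω Γ₀} {E : Dat N Ω}

/-- one step: replace some element of `J` outside `J'` by a given element `j` of `J'`. -/
theorem exchange_step [Fintype N] (h : E.Rel) (hM : E.IsModel v) {R : Subring Ω} (hR : LocSub v R)
    (hRG : ∀ J : Finset N, J.card = 5 → ∀ g', E.IsMax v J g' → ∀ g ∈ E.G J, g / g' ∈ R)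
    {J J' : Finset N} (hJ : J.card = 5) (hJP : E.PFar v J) (hJF : E.FarIn R J)
    (hJ' : J'.card = 5) (hJ'P : E.PFar v J') {j : N} (hjJ' : j ∈ J') (hj : j ∉ J) :
    ∃ i ∈ J, i ∉ J' ∧ E.PFar v (insert j (J.erase i)) ∧ E.FarIn R (insert j (J.erase i)) := by
  classical
  by_cases hnear : ∃ i ∈ J, E.Near v i j
  · obtain ⟨i, hi, hij⟩ := hnear
    have hfar : ∀ b ∈ J, b ≠ i → E.Far v j b := fun b hb hbi =>
      far_of_near h hM hij ⟨hbi.symm, hJP i hi b hb hbi.symm⟩
    refine ⟨i, hi, fun hi' => absurd (hJ'P i hi' j hjJ' hij.1) (not_le.mpr hij.2), ?_,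
      exchange_near h hM hR hRG hJ hJP hJF hi hij⟩
    intro a ha b hb hab
    rw [Finset.mem_insert, Finset.mem_erase] at ha hb
    rcases ha with rfl | ⟨hai, ha⟩
    · rcases hb with rfl | ⟨hbi, hb⟩
      · exact absurd rfl hab
      · exact (hfar b hb hbi).2
    · rcases hb with rfl | ⟨hbi, hb⟩
      · exact (far_symm h (hfar a ha hai)).2
      · exact hJP a ha b hb hab
  · push Not at hnear
    have hne : ∀ i ∈ J, i ≠ j := fun i hi e => hj (e ▸ hi)
    have hfar : ∀ i ∈ J, E.Far v i j := fun i hi =>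
      ⟨hne i hi, not_lt.mp fun hlt => hnear i hi ⟨hne i hi, hlt⟩⟩
    set W := insert j J with hW
    have hWP : E.PFar v W := by
      intro a ha b hb hab
      rw [Finset.mem_insert] at ha hb
      rcases ha with rfl | ha
      · rcases hb with rfl | hb
        · exact absurd rfl hab
        · exact (far_symm h (hfar b hb)).2
      · rcases hb with rfl | hb
        · exact (hfar a ha).2
        · exact hJP a ha b hb hab
    have hWcard : W.card = 6 := by rw [hW, Finset.card_insert_of_notMem hj, hJ]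
    have hsubP : ∀ S : Finset N, S ⊆ W → E.PFar v S := fun S hS a ha b hb hab =>
      hWP a (hS ha) b (hS hb) hab
    -- an element of `J` outside `J'`
    obtain ⟨i, hi, hiJ'⟩ : ∃ i ∈ J, i ∉ J' := by
      by_contra hno
      push Not at hno
      have : J = J' := Finset.eq_of_subset_of_card_le hno (by rw [hJ, hJ'])
      exact hj (this ▸ hjJ')
    have hins : ∀ w ∈ J, insert j (J.erase w) ⊆ W := fun w _ =>
      Finset.insert_subset_insert j (Finset.erase_subset _ _)
    refine ⟨i, hi, hiJ', hsubP _ (hins i hi), ?_⟩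
    by_cases hgood : ∃ g ∈ E.G (J.erase i), 1 ≤ v g
    · exact exchange_good h hM hR hRG hJ hJP hJF hi hj (hsubP _ (hins i hi)) hgood
    · -- good pairs
      have hij : i ≠ j := hne i hi
      -- `bad u w`: the complement of `{u, w}` in `W` is small
      let bad : N → N → Prop := fun u w => ¬ ∃ g ∈ E.G ((W.erase u).erase w), 1 ≤ v g
      have hbad3 : ∀ u ∈ W, ∀ a b c, Tri (W.erase u) a b c → ¬ (bad u a ∧ bad u b ∧ bad u c) := by
        rintro u hu a b c hT ⟨h1, h2, h3⟩
        have hc : (W.erase u).card = 5 := by rw [Finset.card_erase_of_mem hu, hWcard]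
        rcases exists_good h hM hc hT with h4 | h4 | h4
        · exact h1 h4
        · exact h2 h4
        · exact h3 h4
      have hiW : i ∈ W := Finset.mem_insert_of_mem hi
      have hjW : j ∈ W := Finset.mem_insert_self _ _
      have hWj : W.erase j = J := by rw [hW, Finset.erase_insert hj]
      have hbij : bad i j := by
        intro hg
        apply hgood
        rwa [Finset.erase_right_comm, hWj] at hg
      have hbji : bad j i := by
        intro hg
        apply hgood
        rwa [hWj] at hg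
      -- the other four elements
      have hFcard : (J.erase i).card = 4 := by rw [Finset.card_erase_of_mem hi, hJ]
      obtain ⟨w, hwF, hwi, hwj⟩ : ∃ w ∈ J.erase i, ¬ bad i w ∧ ¬ bad j w := by
        by_contra hno
        push Not at hno
        have hsplit : J.erase i = (J.erase i).filter (fun w => bad i w) ∪
            (J.erase i).filter (fun w => bad j w) := by
          ext w
          simp only [Finset.mem_union, Finset.mem_filter]
          constructor
          · intro hw
            by_cases hb : bad i w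
            · exact Or.inl ⟨hw, hb⟩
            · exact Or.inr ⟨hw, hno w hw hb⟩
          · rintro (⟨hw, -⟩ | ⟨hw, -⟩) <;> exact hw
        have h1 : ((J.erase i).filter (fun w => bad i w)).card ≤ 1 := by
          rw [Finset.card_le_one]
          intro a ha b hb
          rw [Finset.mem_filter, Finset.mem_erase] at ha hb
          by_contra hab
          have haj : a ≠ j := hne a ha.1.2
          have hbj : b ≠ j := hne b hb.1.2
          exact hbad3 i hiW a b j ⟨Finset.mem_erase.mpr ⟨ha.1.1, Finset.mem_insert_of_mem ha.1.2⟩,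
            Finset.mem_erase.mpr ⟨hb.1.1, Finset.mem_insert_of_mem hb.1.2⟩,
            Finset.mem_erase.mpr ⟨hij.symm, hjW⟩, hab, hbj, haj⟩ ⟨ha.2, hb.2, hbij⟩
        have h2 : ((J.erase i).filter (fun w => bad j w)).card ≤ 1 := by
          rw [Finset.card_le_one]
          intro a ha b hb
          rw [Finset.mem_filter, Finset.mem_erase] at ha hb
          by_contra hab
          exact hbad3 j hjW a b i ⟨Finset.mem_erase.mpr ⟨hne a ha.1.2,
            Finset.mem_insert_of_mem ha.1.2⟩, Finset.mem_erase.mpr ⟨hne b hb.1.2,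
            Finset.mem_insert_of_mem hb.1.2⟩, Finset.mem_erase.mpr ⟨hij, hiW⟩, hab, hb.1.1,
            ha.1.1⟩ ⟨ha.2, hb.2, hbji⟩
        have h3 := Finset.card_union_le ((J.erase i).filter (fun w => bad i w))
          ((J.erase i).filter (fun w => bad j w))
        rw [← hsplit, hFcard] at h3
        omega
      rw [Finset.mem_erase] at hwF
      obtain ⟨hwi', hwJ⟩ := hwF
      have hwj' : w ≠ j := hne w hwJ
      simp only [bad, not_not] at hwi hwj
      rw [hWj] at hwj
      have hJ₁ : insert j (J.erase w) = W.erase w := by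
        rw [hW, Finset.erase_insert_of_ne hwj'.symm]
      have hF₁ := exchange_good h hM hR hRG hJ hJP hJF hwJ hj (hsubP _ (hins w hwJ)) hwj
      rw [hJ₁] at hF₁
      have hwW : w ∈ W := Finset.mem_insert_of_mem hwJ
      have hc₁ : (W.erase w).card = 5 := by rw [Finset.card_erase_of_mem hwW, hWcard]
      have hi₁ : i ∈ W.erase w := Finset.mem_erase.mpr ⟨hwi'.symm, hiW⟩
      have hJ₂ : insert w ((W.erase w).erase i) = W.erase i := by
        rw [Finset.erase_right_comm, Finset.insert_erase (Finset.mem_erase.mpr ⟨hwi', hwW⟩)]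
      have hgood₂ : ∃ g ∈ E.G ((W.erase w).erase i), 1 ≤ v g := by
        rwa [Finset.erase_right_comm]
      have hF₂ := exchange_good h hM hR hRG hc₁ (hsubP _ (Finset.erase_subset _ _)) hF₁ hi₁
        (Finset.notMem_erase w W) (by rw [hJ₂]; exact hsubP _ (Finset.erase_subset _ _)) hgood₂
      rw [hJ₂] at hF₂
      have hJ₃ : insert j (J.erase i) = W.erase i := by
        rw [hW, Finset.erase_insert_of_ne hij.symm]
      rw [hJ₃]
      exact hF₂

theorem farIn_of_farIn [Fintype N] (h : E.Rel) (hM : E.IsModel v) {R : Subring Ω}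
    (hR : LocSub v R)
    (hRG : ∀ J : Finset N, J.card = 5 → ∀ g', E.IsMax v J g' → ∀ g ∈ E.G J, g / g' ∈ R)
    {J' : Finset N} (hJ' : J'.card = 5) (hJ'P : E.PFar v J') :
    ∀ n : ℕ, ∀ J : Finset N, J.card = 5 → E.PFar v J → E.FarIn R J → (J' \ J).card = n →
      E.FarIn R J' := by
  intro n
  induction n with
  | zero =>
    intro J hJ _ hJF hn
    rw [Finset.card_eq_zero, Finset.sdiff_eq_empty_iff_subset] at hn
    have : J' = J := Finset.eq_of_subset_of_card_le hn (by rw [hJ, hJ'])
    rw [this]; exact hJF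
  | succ n ih =>
    intro J hJ hJP hJF hn
    obtain ⟨j, hj⟩ : (J' \ J).Nonempty := by rw [← Finset.card_pos, hn]; exact Nat.succ_pos n
    rw [Finset.mem_sdiff] at hj
    obtain ⟨i, hi, hiJ', hP, hF⟩ := exchange_step h hM hR hRG hJ hJP hJF hJ' hJ'P hj.1 hj.2
    refine ih (insert j (J.erase i)) ?_ hP hF ?_
    · rw [Finset.card_insert_of_notMem (fun hj' => hj.2 (Finset.mem_of_mem_erase hj')),
        Finset.card_erase_of_mem hi, hJ]
    · have : J' \ insert j (J.erase i) = (J' \ J).erase j := by
        ext b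
        simp only [Finset.mem_sdiff, Finset.mem_insert, Finset.mem_erase, not_or, not_and]
        constructor
        · rintro ⟨h1, h2, h3⟩
          refine ⟨h2, h1, h3 ?_⟩
          rintro rfl
          exact hiJ' h1
        · rintro ⟨h1, h2, h3⟩
          exact ⟨h2, h1, fun _ => h3⟩
      rw [this, Finset.card_erase_of_mem (Finset.mem_sdiff.mpr hj), hn]
      rfl

/-- D4f: membership of everything far. -/
theorem membership [Fintype N] (h : E.Rel) (hM : E.IsModel v) {p : Fin 5 → N}
    (hn : E.Normal v p) {R : Subring Ω} (hR : LocSub v R)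
    (hRG : ∀ J : Finset N, J.card = 5 → ∀ g', E.IsMax v J g' → ∀ g ∈ E.G J, g / g' ∈ R) :
    ∀ S : Finset N, E.PFar v S → E.FarIn R S := by
  classical
  have h0 := farIn_of_normal h hM hn hR hRG
  have hcard : (Finset.univ.image p).card = 5 := by
    rw [Finset.card_image_of_injective _ hn.inj]; simp
  have hP : E.PFar v (Finset.univ.image p) := by
    intro a ha b hb hab
    obtain ⟨i, -, rfl⟩ := Finset.mem_image.mp ha
    obtain ⟨j, -, rfl⟩ := Finset.mem_image.mp hb
    exact hn.far i j (fun e => hab (e ▸ rfl))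
  have hall : ∀ S : Finset N, E.PFar v S → S.card ≤ 5 → ∃ J, S ⊆ J ∧ E.FarIn R J := by
    intro S hS hc
    obtain ⟨J, hSJ, hJ, hJP⟩ := exists_pfar_superset h hM hS hc
    exact ⟨J, hSJ, farIn_of_farIn h hM hR hRG hJ hJP _ _ hcard hP h0 rfl⟩
  intro S hS
  have hpair : ∀ a ∈ S, ∀ b ∈ S, a ≠ b → ∃ J, a ∈ J ∧ b ∈ J ∧ E.FarIn R J := by
    intro a ha b hb _
    have hsub : ({a, b} : Finset N) ⊆ S := by
      intro x hx
      simp only [Finset.mem_insert, Finset.mem_singleton] at hx
      rcases hx with rfl | rfl <;> assumption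
    obtain ⟨J, hJ, hF⟩ := hall {a, b} (fun x hx y hy hxy => hS x (hsub hx) y (hsub hy) hxy)
      (Finset.card_le_two.trans (by norm_num))
    exact ⟨J, hJ (by simp), hJ (by simp), hF⟩
  refine ⟨h0.a1, h0.a2, h0.a3, h0.a4, h0.a6, ?_, ?_, ?_⟩
  · intro a ha b hb hab
    obtain ⟨J, h1, h2, hF⟩ := hpair a ha b hb hab
    exact hF.x a h1 b h2 hab
  · intro a ha b hb hab
    obtain ⟨J, h1, h2, hF⟩ := hpair a ha b hb hab
    exact hF.y a h1 b h2 hab
  · intro a b c hT
    have hsub : ({a, b, c} : Finset N) ⊆ S := by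
      intro x hx
      simp only [Finset.mem_insert, Finset.mem_singleton] at hx
      rcases hx with rfl | rfl | rfl
      · exact hT.ha
      · exact hT.hb
      · exact hT.hc
    obtain ⟨J, hJ, hF⟩ := hall {a, b, c} (fun x hx y hy hxy => hS x (hsub hx) y (hsub hy) hxy)
      (Finset.card_le_three.trans (by norm_num))
    exact hF.s a b c ⟨hJ (by simp), hJ (by simp), hJ (by simp), hT.hab, hT.hbc, hT.hac⟩

/-- D5: inverses of slopes with two near points. -/
theorem inv_mem [Fintype N] (h : E.Rel) (hM : E.IsModel v) {R : Subring Ω} (hR : LocSub v R)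
    (hRG : ∀ J : Finset N, J.card = 5 → ∀ g', E.IsMax v J g' → ∀ g ∈ E.G J, g / g' ∈ R)
    (hF : ∀ S : Finset N, E.PFar v S → E.FarIn R S) {a b c : N} (hab : E.Near v a b)
    (hac : E.Far v a c) : (E.s a b c)⁻¹ ∈ R := by
  classical
  have hbc : E.Far v b c := far_of_near h hM hab hac
  have hP : E.PFar v ({b, c} : Finset N) := by
    intro x hx y hy hxy
    simp only [Finset.mem_insert, Finset.mem_singleton] at hx hy
    rcases hx with rfl | rfl <;> rcases hy with rfl | rfl
    · exact absurd rfl hxy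
    · exact hbc.2
    · exact (far_symm h hbc).2
    · exact absurd rfl hxy
  obtain ⟨J, hsub, hJ, hJP⟩ := exists_pfar_superset h hM hP
    (Finset.card_le_two.trans (by norm_num))
  have hbJ : b ∈ J := hsub (by simp)
  have hcJ : c ∈ J := hsub (by simp)
  have hcard : ((J.erase b).erase c).card = 3 := by
    rw [Finset.card_erase_of_mem (Finset.mem_erase.mpr ⟨hbc.1.symm, hcJ⟩),
      Finset.card_erase_of_mem hbJ, hJ]
  obtain ⟨d, e, f, hde, hdf, hef, hdef⟩ := Finset.card_eq_three.mp hcard
  have hd : d ∈ (J.erase b).erase c := by rw [hdef]; simp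
  have he : e ∈ (J.erase b).erase c := by rw [hdef]; simp
  have hf : f ∈ (J.erase b).erase c := by rw [hdef]; simp
  simp only [Finset.mem_erase] at hd he hf
  obtain ⟨k, hkc, hkb, hkJ, hk⟩ : ∃ k, k ≠ c ∧ k ≠ b ∧ k ∈ J ∧
      ∃ g ∈ E.G (J.erase k), 1 ≤ v g := by
    rcases exists_good h hM hJ (⟨hd.2.2, he.2.2, hf.2.2, hde, hef, hdf⟩ : Tri J d e f)
      with h1 | h1 | h1
    · exact ⟨d, hd.1, hd.2.1, hd.2.2, h1⟩
    · exact ⟨e, he.1, he.2.1, he.2.2, h1⟩
    · exact ⟨f, hf.1, hf.2.1, hf.2.2, h1⟩
  exact (inv_mem_aux h hM hR hRG hJ hJP (hF J hJP)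
    (⟨hbJ, hcJ, hkJ, hbc.1, hkc.symm, hkb.symm⟩ : Tri J b c k) hab hk).1

end Pool.Agent.Helper49.Irr
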