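import Pool.Agent.Helper49.Irr.RatioMemAux
import Pool.Agent.Helper49.Irr.Member4

/-!
# Membership of the new parameter
-/

namespace Pool.Agent.Helper49.Irr

open Dat

variable {N Ω : Type*} [Fintype N] [DecidableEq N] [Field Ω]
  {Γ₀ : Type*} [LinearOrderedCommGroupWithZero Γ₀] {v : Valuation Ω Γ₀} {E : Dat N Ω}

/-- D10c: membership of the new parameter. -/
theorem ratio_mem (h : E.Rel) (hM : E.IsModel v) {R : Subring Ω} (hR : LocSub v R)
    (hRG : ∀ J : Finset N, J.card = 5 → ∀ g', E.IsMax v J g' → ∀ g ∈ E.G J, g / g' ∈ R)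
    (hF : ∀ S : Finset N, E.PFar v S → E.FarIn R S) {j m a b e f : N}
    (hjm : E.Near v j m) (hab : E.Near v a b) (hjf : E.Far v j f) (hae : E.Far v a e)
    (hja : j ≠ a) (hjb : j ≠ b)
    (hmaxa : E.Near v j a → v (E.x j a) ≤ v (E.x j m))
    (hmaxb : E.Near v j b → v (E.x j b) ≤ v (E.x j m))
    (hinv : v (E.x a b) ≤ v (E.x j m))
    (hinva : E.Near v m a → v (E.x m a) ≤ v (E.x j m))
    (hinvb : E.Near v m b → v (E.x m b) ≤ v (E.x j m)) : E.s a b e / E.s j m f ∈ R := by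
  exact RM.ratio_mem_of_inv h hM hRG hF (fun a b c hab hac => inv_mem h hM hR hRG hF hab hac)
    hjm hab hjf hae hja hjb hmaxa hmaxb hinv hinva hinvb

end Pool.Agent.Helper49.Irr
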