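import Pool.Agent.Helper49.Irr.ClusStepAux
import Pool.Agent.Helper49.Irr.RatioMem

/-!
# The induction step on clusters
-/

namespace Pool.Agent.Helper49.Irr

open Dat

variable {N Ω : Type*} [Fintype N] [DecidableEq N] [Field Ω]
  {Γ₀ : Type*} [LinearOrderedCommGroupWithZero Γ₀] {v : Valuation Ω Γ₀} {E : Dat N Ω}

open CS in
/-- D10: the induction step. -/
theorem clus_step (h : E.Rel) (hM : E.IsModel v) {R : Subring Ω} (hR : LocSub v R)
    (hRG : ∀ J : Finset N, J.card = 5 → ∀ g', E.IsMax v J g' → ∀ g ∈ E.G J, g / g' ∈ R)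
    (hF : ∀ S : Finset N, E.PFar v S → E.FarIn R S) {S₀ S : Finset N} (hS₀ : S₀ ⊆ S)
    (hS₀5 : 5 ≤ S₀.card) (hS₀P : E.PFar v S₀) (hS : E.Clus v R S) {j m : N} (hj : j ∉ S)
    (hm : m ∈ S) (hjm : E.Near v j m)
    (hmax : ∀ b ∈ S, E.Near v j b → v (E.x j b) ≤ v (E.x j m))
    (hinv : ∀ a ∈ S, ∀ b ∈ S, E.Near v a b → v (E.x a b) ≤ v (E.x j m)) :
    ∃ t ∈ R, ∀ Z : Subring Ω, Zer v R Z → E.Clus v Z S → t ∈ Z → E.Clus v Z (insert j S) := by
  classical
  obtain ⟨f, hf₀, hjf, -⟩ := exists_far_in h hM hS₀5 hS₀P j j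
  have hf : f ∈ S := hS₀ hf₀
  have hn : ∀ a b e, E.Near v a b → E.Far v a e → 1 < v (E.s a b e) ∧ E.s a b e ≠ 0 := by
    intro a b e hab hae
    have h1 := (near_s h hM hab hae).1
    refine ⟨h1, ?_⟩
    intro h0
    rw [h0, map_zero] at h1
    exact absurd h1 (not_lt.mpr zero_le_one)
  by_cases hnear : ∃ a ∈ S, ∃ b ∈ S, E.Near v a b
  · -- the closest pair
    obtain ⟨p, hp, hpmax⟩ : ∃ p ∈ (S ×ˢ S).filter (fun p => E.Near v p.1 p.2),
        ∀ q ∈ (S ×ˢ S).filter (fun p => E.Near v p.1 p.2), v (E.x q.1 q.2) ≤ v (E.x p.1 p.2) := by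
      apply Finset.exists_max_image
      obtain ⟨a, ha, b, hb, hab⟩ := hnear
      exact ⟨(a, b), by simp [ha, hb, hab]⟩
    obtain ⟨a, b⟩ := p
    simp only [Finset.mem_filter, Finset.mem_product] at hp hpmax
    obtain ⟨⟨ha, hb⟩, hab⟩ := hp
    obtain ⟨e, he₀, hae, -⟩ := exists_far_in h hM hS₀5 hS₀P a a
    have he : e ∈ S := hS₀ he₀
    refine ⟨E.s a b e / E.s j m f, ?_, ?_⟩
    · exact ratio_mem h hM hR hRG hF hjm hab hjf hae (fun h0 => hj (h0 ▸ ha))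
        (fun h0 => hj (h0 ▸ hb)) (hmax a ha) (hmax b hb) (hinv a ha b hb hab)
        (fun hn => hinv m hm a ha hn) (fun hn => hinv m hm b hb hn)
    · intro Z hZ hSZ ht
      have hτ : (E.s j m f)⁻¹ ∈ Z := by
        have h1 : (E.s j m f)⁻¹ = (E.s a b e / E.s j m f) * (E.s a b e)⁻¹ := by
          have := (hn a b e hab hae).2
          field_simp
        rw [h1]
        exact Z.mul_mem ht (hSZ.inv a ha b hb e he hab hae)
      refine clus_step_aux h hM hR hZ hF hS₀ hS₀5 hS₀P hSZ hj hm hjm hmax hinv hf hjf hτ ?_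
      intro c hc d hd g hg hcd hcg
      have h1 := hSZ.ratio c hc d hd g hg a ha b hb e he hcd hcg hab hae
        (hpmax (c, d) ⟨⟨hc, hd⟩, hcd⟩)
      have h2 : E.s c d g / E.s j m f = (E.s c d g / E.s a b e) * (E.s a b e / E.s j m f) := by
        have := (hn a b e hab hae).2
        field_simp
      rw [h2]
      exact Z.mul_mem h1 ht
  · refine ⟨(E.s j m f)⁻¹, inv_mem h hM hR hRG hF hjm hjf, ?_⟩
    intro Z hZ hSZ ht
    refine clus_step_aux h hM hR hZ hF hS₀ hS₀5 hS₀P hSZ hj hm hjm hmax hinv hf hjf ht ?_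
    intro c hc d hd g hg hcd hcg
    exact absurd ⟨c, hc, d, hd, hcd⟩ hnear

end Pool.Agent.Helper49.Irr
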