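import Mathlib

/-!
# IR-D6a: cyclic order of the components of a polygon
-/

namespace Pool.Agent.Helper49.Irr

/-- D6a: cyclic order of the components of a polygon. -/
theorem exists_cyclic_order {M k : Type*} [Fintype M] [DecidableEq M] [Field k]
    (s : M → M → M → k) (a1 ρ : k) (hρ : ρ ≠ - a1 - ρ)
    (s_cyc : ∀ a b c, a ≠ b → b ≠ c → a ≠ c → s b c a = s a b c)
    (s_anti : ∀ a b c, a ≠ b → b ≠ c → a ≠ c → s a b c + s a c b = - a1)
    (cocycle : ∀ a b c d, a ≠ b → a ≠ c → a ≠ d → b ≠ c → b ≠ d → c ≠ d →
      s b c d - s a c d + s a b d - s a b c = 0)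
    (hx : ∀ a b c d, a ≠ b → a ≠ c → a ≠ d → b ≠ c → b ≠ d → c ≠ d →
      (s a b d - s a c d) * (s a b c + s a c d + a1) = 0)
    (hval : ∀ a b c, a ≠ b → b ≠ c → a ≠ c → s a b c = ρ ∨ s a b c = - a1 - ρ) :
    ∃ c : Fin (Fintype.card M) ≃ M, ∀ i j l, i < j → j < l → s (c i) (c j) (c l) = ρ := by
  classical
  have _ := s_cyc
  rcases isEmpty_or_nonempty M with hM | ⟨⟨o⟩⟩
  · exact ⟨(Fintype.equivFin M).symm, fun i => (hM.false ((Fintype.equivFin M).symm i)).elim⟩
  -- transitivity of the relation `s o b c = ρ`
  have htrans : ∀ b c d, b ≠ o → c ≠ o → d ≠ o → b ≠ c → b ≠ d → c ≠ d →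
      s o b c = ρ → s o c d = ρ → s o b d = ρ := by
    intro b c d hb hc hd hbc hbd hcd h1 h2
    have h := hx o b c d hb.symm hc.symm hd.symm hbc hbd hcd
    rw [h1, h2] at h
    rcases mul_eq_zero.mp h with h | h
    · exact sub_eq_zero.mp h
    · exact absurd (by linear_combination h) hρ
  have hasymm : ∀ b c, b ≠ o → c ≠ o → b ≠ c → s o b c = ρ → s o c b = ρ → False := by
    intro b c hb hc hbc h1 h2
    have h := s_anti o b c hb.symm hbc hc.symm
    rw [h1, h2] at h
    exact hρ (by linear_combination h)
  have htotal : ∀ b c, b ≠ o → c ≠ o → b ≠ c → s o b c = ρ ∨ s o c b = ρ := by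
    intro b c hb hc hbc
    rcases hval o b c hb.symm hbc hc.symm with h | h
    · exact Or.inl h
    · right
      have h' := s_anti o b c hb.symm hbc hc.symm
      rw [h] at h'
      linear_combination h'
  let r : M → M → Prop := fun b c => b = c ∨ b = o ∨ (c ≠ o ∧ s o b c = ρ)
  let _ : LinearOrder M :=
    { le := r
      le_refl := fun b => Or.inl rfl
      le_trans := by
        intro b c d hbc hcd
        by_cases hb : b = o
        · exact Or.inr (Or.inl hb)
        by_cases e1 : b = c
        · rw [e1]; exact hcd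
        by_cases e2 : c = d
        · rw [← e2]; exact hbc
        have h1 : c ≠ o ∧ s o b c = ρ := by
          rcases hbc with h | h | h
          · exact absurd h e1
          · exact absurd h hb
          · exact h
        have h2 : d ≠ o ∧ s o c d = ρ := by
          rcases hcd with h | h | h
          · exact absurd h e2
          · exact absurd h h1.1
          · exact h
        have e3 : b ≠ d := by
          rintro rfl
          exact hasymm _ _ hb h1.1 e1 h1.2 h2.2
        exact Or.inr (Or.inr ⟨h2.1, htrans b c d hb h1.1 h2.1 e1 e3 e2 h1.2 h2.2⟩)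
      le_antisymm := by
        intro b c hbc hcb
        by_contra e1
        rcases hbc with h | h | h
        · exact e1 h
        · rcases hcb with h' | h' | h'
          · exact e1 h'.symm
          · exact e1 (h.trans h'.symm)
          · exact h'.1 h
        · rcases hcb with h' | h' | h'
          · exact e1 h'.symm
          · exact h.1 h'
          · exact hasymm _ _ h'.1 h.1 e1 h.2 h'.2
      le_total := by
        intro b c
        by_cases e1 : b = c
        · exact Or.inl (Or.inl e1)
        by_cases hb : b = o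
        · exact Or.inl (Or.inr (Or.inl hb))
        by_cases hc : c = o
        · exact Or.inr (Or.inr (Or.inl hc))
        rcases htotal b c hb hc e1 with h | h
        · exact Or.inl (Or.inr (Or.inr ⟨hc, h⟩))
        · exact Or.inr (Or.inr (Or.inr ⟨hb, h⟩))
      toDecidableLE := Classical.decRel _ }
  have hlt : ∀ b c : M, b < c → c ≠ o ∧ (b ≠ o → s o b c = ρ) := by
    intro b c hbc
    have hle : r b c := le_of_lt hbc
    have hne : b ≠ c := ne_of_lt hbc
    have hnle : ¬ r c b := not_le_of_gt hbc
    refine ⟨?_, ?_⟩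
    · rintro rfl
      exact hnle (Or.inr (Or.inl rfl))
    · intro hb
      rcases hle with h | h | h
      · exact absurd h hne
      · exact absurd h hb
      · exact h.2
  let e : Fin (Fintype.card M) ≃o M := Fintype.orderIsoFinOfCardEq M rfl
  refine ⟨e.toEquiv, ?_⟩
  intro i j l hij hjl
  have h1 : e i < e j := e.lt_iff_lt.mpr hij
  have h2 : e j < e l := e.lt_iff_lt.mpr hjl
  have h3 : e i < e l := h1.trans h2
  show s (e i) (e j) (e l) = ρ
  have hj := hlt _ _ h1
  have hl := hlt _ _ h2
  have hl' := hlt _ _ h3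
  by_cases hi : e i = o
  · rw [hi]
    exact hl.2 hj.1
  · have hc := cocycle o (e i) (e j) (e l) (Ne.symm hi) hj.1.symm hl.1.symm h1.ne h3.ne h2.ne
    rw [hj.2 hi, hl.2 hj.1, hl'.2 hi] at hc
    linear_combination hc

end Pool.Agent.Helper49.Irr
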