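import Pool.Agent.Helper49.Irr.Near

/-!
# Nonsingular points: symmetry, transitivity, uniqueness of the singular point
-/

namespace Pool.Agent.Helper49.Irr

variable {N Ω : Type*} [Field Ω]
  {Γ₀ : Type*} [LinearOrderedCommGroupWithZero Γ₀] {v : Valuation Ω Γ₀} {E : Dat N Ω}

/-! ### small elements -/

private theorem int_add {x y : Ω} (hx : v x ≤ 1) (hy : v y ≤ 1) : v (x + y) ≤ 1 :=
  v.map_add_le hx hy

private theorem int_sub {x y : Ω} (hx : v x ≤ 1) (hy : v y ≤ 1) : v (x - y) ≤ 1 :=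
  v.map_sub_le hx hy

private theorem int_mul {x y : Ω} (hx : v x ≤ 1) (hy : v y ≤ 1) : v (x * y) ≤ 1 := by
  rw [map_mul]; exact mul_le_one' hx hy

private theorem int_nat (n : ℕ) : v (n : Ω) ≤ 1 := by
  induction n with
  | zero => simp
  | succ n ih => rw [Nat.cast_succ]; exact int_add ih (by simp)

private theorem sm_add {x y : Ω} (hx : v x < 1) (hy : v y < 1) : v (x + y) < 1 :=
  v.map_add_lt hx hy

private theorem sm_neg {x : Ω} (hx : v x < 1) : v (-x) < 1 := by
  rwa [Valuation.map_neg]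

private theorem sm_sub {x y : Ω} (hx : v x < 1) (hy : v y < 1) : v (x - y) < 1 := by
  rw [sub_eq_add_neg]; exact sm_add hx (sm_neg hy)

private theorem sm_mul {x y : Ω} (hx : v x ≤ 1) (hy : v y < 1) : v (x * y) < 1 := by
  rw [map_mul]; exact mul_lt_one_of_nonneg_of_lt_one_right hx zero_le hy

private theorem sm_mul' {x y : Ω} (hx : v x < 1) (hy : v y ≤ 1) : v (x * y) < 1 := by
  rw [mul_comm]; exact sm_mul hy hx

/-- `2 y + a₁ x + a₃` at `D_ab` -/
private def Wy (E : Dat N Ω) (a b : N) : Ω := 2 * E.y a b + E.a1 * E.x a b + E.a3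

/-- `3 x² + 2 a₂ x + a₄ - a₁ y` at `D_ab` -/
private def Wx (E : Dat N Ω) (a b : N) : Ω :=
  3 * E.x a b ^ 2 + 2 * E.a2 * E.x a b + E.a4 - E.a1 * E.y a b

private theorem int_two : v (2 : Ω) ≤ 1 := by
  simpa using int_nat (v := v) 2

private theorem int_three : v (3 : Ω) ≤ 1 := by
  simpa using int_nat (v := v) 3

private theorem W_le (h : E.Rel) (hM : E.IsModel v) {a b : N} (hab : E.Far v a b) :
    v (Wy E a b) ≤ 1 ∧ v (Wx E a b) ≤ 1 := by
  have hx := hab.2
  have hy := y_le_one h hM hab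
  refine ⟨?_, ?_⟩
  · exact int_add (int_add (int_mul int_two hy) (int_mul hM.a1 hx)) hM.a3
  · refine int_sub (int_add (int_add (int_mul int_three ?_) (int_mul (int_mul int_two hM.a2) hx))
      hM.a4) (int_mul hM.a1 hy)
    rw [pow_two]; exact int_mul hx hx

private theorem sing_iff (h : E.Rel) (hM : E.IsModel v) {a b : N} (hab : E.Far v a b) :
    ¬ E.NonSing v a b ↔ v (Wy E a b) < 1 ∧ v (Wx E a b) < 1 := by
  obtain ⟨h1, h2⟩ := W_le h hM hab
  constructor
  · intro hn
    refine ⟨lt_of_le_of_ne h1 fun e => hn ⟨hab, Or.inl e⟩,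
      lt_of_le_of_ne h2 fun e => hn ⟨hab, Or.inr e⟩⟩
  · rintro ⟨h3, h4⟩ ⟨-, h5 | h5⟩
    · exact h3.ne h5
    · exact h4.ne h5

/-- the two partial derivatives depend continuously on the point -/
private theorem W_close (hM : E.IsModel v) {a b c d : N} (hab : E.Far v a b) (hcd : E.Far v c d)
    (hx : v (E.x a b - E.x c d) < 1) (hy : v (E.y a b - E.y c d) < 1)
    (h1 : v (Wy E a b) < 1) (h2 : v (Wx E a b) < 1) :
    v (Wy E c d) < 1 ∧ v (Wx E c d) < 1 := by
  constructor
  · have e : Wy E c d = Wy E a b - (2 * (E.y a b - E.y c d) + E.a1 * (E.x a b - E.x c d)) := by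
      unfold Wy; ring
    rw [e]
    exact sm_sub h1 (sm_add (sm_mul int_two hy) (sm_mul hM.a1 hx))
  · have e : Wx E c d = Wx E a b - ((3 * (E.x a b + E.x c d) + 2 * E.a2) * (E.x a b - E.x c d)
        - E.a1 * (E.y a b - E.y c d)) := by
      unfold Wx; ring
    rw [e]
    exact sm_sub h2 (sm_sub (sm_mul (int_add (int_mul int_three (int_add hab.2 hcd.2))
      (int_mul int_two hM.a2)) hx) (sm_mul hM.a1 hy))

private theorem sing_close (h : E.Rel) (hM : E.IsModel v) {a b c d : N} (hab : E.Far v a b)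
    (hcd : E.Far v c d) (hx : v (E.x a b - E.x c d) < 1) (hy : v (E.y a b - E.y c d) < 1)
    (hn : ¬ E.NonSing v a b) : ¬ E.NonSing v c d := by
  rw [sing_iff h hM hcd]
  obtain ⟨h1, h2⟩ := (sing_iff h hM hab).mp hn
  exact W_close hM hab hcd hx hy h1 h2

private theorem sing_symm (h : E.Rel) (hM : E.IsModel v) {a b : N} (hab : E.Far v a b)
    (hn : ¬ E.NonSing v a b) : ¬ E.NonSing v b a := by
  rw [sing_iff h hM (far_symm h hab)]
  obtain ⟨h1, h2⟩ := (sing_iff h hM hab).mp hn
  have e1 : Wy E b a = - Wy E a b := by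
    unfold Wy
    rw [h.x_symm a b hab.1]
    linear_combination 2 * h.y_symm a b hab.1
  have e2 : Wx E b a = Wx E a b + E.a1 * Wy E a b := by
    unfold Wx Wy
    rw [h.x_symm a b hab.1]
    linear_combination - E.a1 * h.y_symm a b hab.1
  rw [e1, e2]
  exact ⟨sm_neg h1, sm_add h2 (sm_mul hM.a1 h1)⟩

/-- D3i: nonsingular points: transitivity. -/
theorem nonsing_symm (h : E.Rel) (hM : E.IsModel v) {a b : N} (hab : E.NonSing v a b) :
    E.NonSing v b a := by
  by_contra hn
  exact sing_symm h hM (far_symm h hab.1) hn hab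

theorem nonsing_trans (h : E.Rel) (hM : E.IsModel v) {a b c : N} (hab : E.NonSing v a b)
    (hbc : E.NonSing v b c) (hac : E.Far v a c) : E.NonSing v a c := by
  by_contra hn
  have hca : E.Far v c a := far_symm h hac
  have hn' : ¬ E.NonSing v c a := sing_symm h hM hac hn
  obtain ⟨h1, h2⟩ := (sing_iff h hM hca).mp hn'
  have hs := s_le_one h hM hab.1 hbc.1 hac
  have nab : a ≠ b := hab.1.1
  have nbc : b ≠ c := hbc.1.1
  have nac : a ≠ c := hac.1
  -- the product formula
  have key : (E.x a b - E.x c a) * (E.x b c - E.x c a) = Wx E c a - E.s a b c * Wy E c a := by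
    unfold Wx Wy
    have t1 := h.e2 a b c nab nbc nac
    have t2 := h.sum_x a b c nab nbc nac
    have t3 := h.slope a b c nab nbc nac
    have t4 := h.slope b c a nbc nac.symm nab.symm
    rw [h.s_cyc a b c nab nbc nac] at t4
    linear_combination t1 - 2 * E.x c a * t2 - (2 * E.s a b c + E.a1) * (t3 + t4)
  have hprod : v ((E.x a b - E.x c a) * (E.x b c - E.x c a)) < 1 := by
    rw [key]; exact sm_sub h2 (sm_mul hs h1)
  have hor : v (E.x a b - E.x c a) < 1 ∨ v (E.x b c - E.x c a) < 1 := by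
    by_contra hcon
    push Not at hcon
    rw [map_mul] at hprod
    exact absurd (one_le_mul hcon.1 hcon.2) (not_le.mpr hprod)
  rcases hor with hx | hx
  · have t := h.slope c a b nac.symm nab nbc.symm
    rw [h.s_cyc' nab nbc nac] at t
    have hx' : v (E.x c a - E.x a b) < 1 := by rwa [Valuation.map_sub_swap]
    have hy : v (E.y c a - E.y a b) < 1 := by
      rw [t]; exact sm_mul hs hx'
    exact sing_close h hM hca hab.1 hx' hy hn' hab
  · have t := h.slope b c a nbc nac.symm nab.symm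
    rw [h.s_cyc a b c nab nbc nac] at t
    have hx' : v (E.x c a - E.x b c) < 1 := by rwa [Valuation.map_sub_swap]
    have hy : v (E.y c a - E.y b c) < 1 := by
      rw [Valuation.map_sub_swap, t]; exact sm_mul hs hx
    exact sing_close h hM hca hbc.1 hx' hy hn' hbc

/-- D3j: a near point does not change (non)singularity. -/
theorem nonsing_of_near (h : E.Rel) (hM : E.IsModel v) {a b c : N} (hab : E.Near v a b)
    (hac : E.NonSing v a c) : E.NonSing v b c := by
  by_contra hn
  have hbc : E.Far v b c := far_of_near h hM hab hac.1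
  obtain ⟨hx, hy⟩ := near_x_close h hM hab hac.1
  refine sing_close h hM hbc hac.1 ?_ ?_ hn hac
  · rwa [Valuation.map_sub_swap]
  · rwa [Valuation.map_sub_swap]

/-- D3k: uniqueness of the singular point. -/
theorem sing_unique (h : E.Rel) (hM : E.IsModel v) {a b c d : N} (hab : E.Far v a b)
    (hab' : ¬ E.NonSing v a b) (hcd : E.Far v c d) (hcd' : ¬ E.NonSing v c d) :
    v (E.x a b - E.x c d) < 1 ∧ v (E.y a b - E.y c d) < 1 := by
  obtain ⟨p1, p2⟩ := (sing_iff h hM hab).mp hab'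
  obtain ⟨q1, q2⟩ := (sing_iff h hM hcd).mp hcd'
  have w0 := h.weier a b hab.1
  have w1 := h.weier c d hcd.1
  have hy0 := y_le_one h hM hab
  have hy1 := y_le_one h hM hcd
  obtain ⟨X, hX⟩ : ∃ X, X = E.x a b - E.x c d := ⟨_, rfl⟩
  obtain ⟨Y, hY⟩ : ∃ Y, Y = E.y a b - E.y c d := ⟨_, rfl⟩
  have hXi : v X ≤ 1 := by rw [hX]; exact int_sub hab.2 hcd.2
  have hYi : v Y ≤ 1 := by rw [hY]; exact int_sub hy0 hy1
  -- second order part of the equation, expanded at `D_cd`
  have e1 : X ^ 3 = 2 * (Wx E c d * X - Wy E c d * Y) - Y * (Wy E a b - Wy E c d)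
      + X * (Wx E a b - Wx E c d) := by
    unfold Wx Wy
    rw [hX, hY]
    linear_combination 2 * (w0 - w1)
  have hX3 : v (X ^ 3) < 1 := by
    rw [e1]
    refine sm_add (sm_sub (sm_mul int_two (sm_sub (sm_mul' q2 hXi) (sm_mul' q1 hYi)))
      (sm_mul hYi (sm_sub p1 q1))) (sm_mul hXi (sm_sub p2 q2))
  have hXs : v X < 1 := by
    rw [map_pow] at hX3
    by_contra hc
    exact absurd (one_le_pow₀ (not_lt.mp hc)) (not_le.mpr hX3)
  have e2 : Y ^ 2 = Wx E c d * X - Wy E c d * Y
      + X * (X ^ 2 + (E.a2 + 3 * E.x c d) * X - E.a1 * Y) := by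
    unfold Wx Wy
    rw [hX, hY]
    linear_combination w0 - w1
  have hY2 : v (Y ^ 2) < 1 := by
    rw [e2]
    refine sm_add (sm_sub (sm_mul' q2 hXi) (sm_mul' q1 hYi)) (sm_mul' hXs ?_)
    refine int_sub (int_add ?_ (int_mul (int_add hM.a2 (int_mul int_three hcd.2)) hXi))
      (int_mul hM.a1 hYi)
    rw [pow_two]; exact int_mul hXi hXi
  have hYs : v Y < 1 := by
    rw [map_pow] at hY2
    by_contra hc
    exact absurd (one_le_pow₀ (not_lt.mp hc)) (not_le.mpr hY2)
  exact ⟨hX ▸ hXs, hY ▸ hYs⟩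

end Pool.Agent.Helper49.Irr
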