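import Pool.Agent.Helper49.Irr.Near2
import Pool.Agent.Helper49.Irr.NonSing
import Pool.Agent.Helper49.Irr.Cyclic

/-!
# IR-D6b: choice of the core
-/

namespace Pool.Agent.Helper49.Irr

open Dat

/-- Reduction modulo the maximal ideal of the valuation ring (junk value `0` outside). -/
private theorem exists_red.{u, w} {Ω : Type u} [Field Ω] {Γ₀ : Type w}
    [LinearOrderedCommGroupWithZero Γ₀]
    (v : Valuation Ω Γ₀) : ∃ (k : Type u) (_ : Field k) (red : Ω → k),
      (∀ z w, v z ≤ 1 → v w ≤ 1 → red (z + w) = red z + red w) ∧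
      (∀ z w, v z ≤ 1 → v w ≤ 1 → red (z - w) = red z - red w) ∧
      (∀ z w, v z ≤ 1 → v w ≤ 1 → red (z * w) = red z * red w) ∧
      (∀ z, v z ≤ 1 → red (-z) = - red z) ∧
      (∀ z, v z ≤ 1 → (red z = 0 ↔ v z < 1)) := by
  classical
  refine ⟨IsLocalRing.ResidueField v.valuationSubring, inferInstance,
    fun z => if hz : v z ≤ 1 then IsLocalRing.residue v.valuationSubring
      ⟨z, (v.mem_valuationSubring_iff z).mpr hz⟩ else 0, ?_, ?_, ?_, ?_, ?_⟩
  · intro z w hz hw
    have hzw : v (z + w) ≤ 1 := (v.map_add _ _).trans (max_le hz hw)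
    simp only [hz, hw, hzw, dif_pos]
    rw [← map_add]
    rfl
  · intro z w hz hw
    have hzw : v (z - w) ≤ 1 := (v.map_sub _ _).trans (max_le hz hw)
    simp only [hz, hw, hzw, dif_pos]
    rw [← map_sub]
    rfl
  · intro z w hz hw
    have hzw : v (z * w) ≤ 1 := by
      rw [v.map_mul]
      exact mul_le_one' hz hw
    simp only [hz, hw, hzw, dif_pos]
    rw [← map_mul]
    rfl
  · intro z hz
    have hz' : v (-z) ≤ 1 := by rwa [v.map_neg]
    simp only [hz, hz', dif_pos]
    rw [← map_neg]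
    rfl
  · intro z hz
    simp only [hz, dif_pos]
    rw [IsLocalRing.residue_eq_zero_iff, IsLocalRing.mem_maximalIdeal, mem_nonunits_iff]
    constructor
    · intro hu
      by_contra hlt
      have h1 : v z = 1 := le_antisymm hz (not_lt.mp hlt)
      have hz0 : z ≠ 0 := by
        rintro rfl
        rw [v.map_zero] at h1
        exact zero_ne_one h1
      apply hu
      refine IsUnit.of_mul_eq_one ⟨z⁻¹, (v.mem_valuationSubring_iff _).mpr ?_⟩ ?_
      · rw [map_inv₀, h1, inv_one]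
      · exact Subtype.ext (mul_inv_cancel₀ hz0)
    · intro hlt hu
      obtain ⟨w, hw⟩ := hu.exists_right_inv
      have h1 : z * (w : Ω) = 1 := congrArg Subtype.val hw
      have h2 : v (w : Ω) ≤ 1 := (v.mem_valuationSubring_iff _).mp w.2
      have h3 : v z * v (w : Ω) = 1 := by rw [← v.map_mul, h1, v.map_one]
      have h4 : v z * v (w : Ω) < 1 := by
        calc v z * v (w : Ω) ≤ v z * 1 := by gcongr
          _ = v z := mul_one _
          _ < 1 := hlt
      exact absurd h3 (ne_of_lt h4)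

variable {N Ω : Type*} [Fintype N] [DecidableEq N] [Field Ω]
  {Γ₀ : Type*} [LinearOrderedCommGroupWithZero Γ₀] {v : Valuation Ω Γ₀} {E : Dat N Ω}

/-- The case of a polygon -/
private theorem core_choice_aux (h : E.Rel) (hM : E.IsModel v) {C : Finset N} (hC6 : 6 ≤ C.card)
    (hC : ∀ a ∈ C, ∀ b ∈ C, a ≠ b → E.Far v a b ∧ ¬ E.NonSing v a b) :
    ∃ c : Fin C.card ≃ C, ∀ i j l i' j' l' : Fin C.card, i < j → j < l → i' < j' → j' < l' →
        v (E.s (c i) (c j) (c l) - E.s (c i') (c j') (c l')) < 1 := by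
  obtain ⟨k, _, red, radd, rsub, rmul, rneg, rzero⟩ := exists_red v
  -- slopes and abscissae are integral
  have hs1 : ∀ a b c, a ∈ C → b ∈ C → c ∈ C → a ≠ b → b ≠ c → a ≠ c → v (E.s a b c) ≤ 1 :=
    fun a b c ha hb hc hab hbc hac => s_le_one h hM (hC a ha b hb hab).1 (hC b hb c hc hbc).1
      (hC a ha c hc hac).1
  have hx1 : ∀ a b, a ∈ C → b ∈ C → a ≠ b → v (E.x a b) ≤ 1 :=
    fun a b ha hb hab => (hC a ha b hb hab).1.2
  -- all abscissae are congruent
  have hxx : ∀ a b c d, a ∈ C → b ∈ C → c ∈ C → d ∈ C → a ≠ b → c ≠ d →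
      red (E.x a b) = red (E.x c d) := by
    intro a b c d ha hb hc hd hab hcd
    have h1 := (sing_unique h hM (hC a ha b hb hab).1 (hC a ha b hb hab).2
      (hC c hc d hd hcd).1 (hC c hc d hd hcd).2).1
    have h2 := (rzero _ h1.le).mpr h1
    rw [rsub _ _ (hx1 a b ha hb hab) (hx1 c d hc hd hcd)] at h2
    exact sub_eq_zero.mp h2
  have ha1 := hM.a1
  have hadd1 : ∀ z w, v z ≤ 1 → v w ≤ 1 → v (z + w) ≤ 1 := fun z w hz hw =>
    (v.map_add _ _).trans (max_le hz hw)
  have hsub1 : ∀ z w, v z ≤ 1 → v w ≤ 1 → v (z - w) ≤ 1 := fun z w hz hw =>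
    (v.map_sub _ _).trans (max_le hz hw)
  have hmul1 : ∀ z w, v z ≤ 1 → v w ≤ 1 → v (z * w) ≤ 1 := fun z w hz hw => by
    rw [v.map_mul]
    exact mul_le_one' hz hw
  -- the quadratic equation
  have hquad : ∀ a b c, a ∈ C → b ∈ C → c ∈ C → a ≠ b → b ≠ c → a ≠ c →
      red (E.x a b) + red (E.x b c) + red (E.x c a)
        = red (E.s a b c) * red (E.s a b c) + red E.a1 * red (E.s a b c) - red E.a2 := by
    intro a b c ha hb hc hab hbc hac
    have h1 := congrArg red (h.sum_x a b c hab hbc hac)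
    have x1 := hx1 a b ha hb hab
    have x2 := hx1 b c hb hc hbc
    have x3 := hx1 c a hc ha hac.symm
    have s1 := hs1 a b c ha hb hc hab hbc hac
    rw [radd _ _ (hadd1 _ _ x1 x2) x3, radd _ _ x1 x2, pow_two,
      rsub _ _ (hadd1 _ _ (hmul1 _ _ s1 s1) (hmul1 _ _ ha1 s1)) hM.a2,
      radd _ _ (hmul1 _ _ s1 s1) (hmul1 _ _ ha1 s1), rmul _ _ s1 s1, rmul _ _ ha1 s1] at h1
    exact h1
  have hval2 : ∀ a b c a' b' c', a ∈ C → b ∈ C → c ∈ C → a ≠ b → b ≠ c → a ≠ c →
      a' ∈ C → b' ∈ C → c' ∈ C → a' ≠ b' → b' ≠ c' → a' ≠ c' →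
      red (E.s a b c) = red (E.s a' b' c') ∨
        red (E.s a b c) = - red E.a1 - red (E.s a' b' c') := by
    intro a b c a' b' c' ha hb hc hab hbc hac ha' hb' hc' hab' hbc' hac'
    have h1 := hquad a b c ha hb hc hab hbc hac
    have h2 := hquad a' b' c' ha' hb' hc' hab' hbc' hac'
    rw [hxx a b a' b' ha hb ha' hb' hab hab', hxx b c b' c' hb hc hb' hc' hbc hbc',
      hxx c a c' a' hc ha hc' ha' hac.symm hac'.symm, h2] at h1
    have h3 : (red (E.s a b c) - red (E.s a' b' c'))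
        * (red (E.s a b c) + red (E.s a' b' c') + red E.a1) = 0 := by
      linear_combination - h1
    rcases mul_eq_zero.mp h3 with h4 | h4
    · exact Or.inl (sub_eq_zero.mp h4)
    · right
      linear_combination h4
  -- reference triple
  obtain ⟨T, hTC, hT⟩ := Finset.exists_subset_card_eq (show 3 ≤ C.card by omega)
  obtain ⟨a0, b0, c0, hab0, hac0, hbc0, rfl⟩ := Finset.card_eq_three.mp hT
  have ha0 : a0 ∈ C := hTC (by simp)
  have hb0 : b0 ∈ C := hTC (by simp)
  have hc0 : c0 ∈ C := hTC (by simp)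
  set ρ := red (E.s a0 b0 c0) with hρdef
  have hval : ∀ a b c, a ∈ C → b ∈ C → c ∈ C → a ≠ b → b ≠ c → a ≠ c →
      red (E.s a b c) = ρ ∨ red (E.s a b c) = - red E.a1 - ρ := fun a b c ha hb hc hab hbc hac =>
    hval2 a b c a0 b0 c0 ha hb hc hab hbc hac ha0 hb0 hc0 hab0 hbc0 hac0
  have hρ : ρ ≠ - red E.a1 - ρ := by
    intro hcon
    obtain ⟨J, hJC, hJ⟩ := Finset.exists_subset_card_eq (show 5 ≤ C.card by omega)
    obtain ⟨g, ⟨a, b, c, a', b', c', ht, ht', hg⟩, hg1⟩ := hM.big J hJ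
    have e1 : red (E.s a b c) = ρ := by
      rcases hval a b c (hJC ht.ha) (hJC ht.hb) (hJC ht.hc) ht.hab ht.hbc ht.hac with h' | h'
      · exact h'
      · rw [h', ← hcon]
    have e2 : red (E.s a' b' c') = ρ := by
      rcases hval a' b' c' (hJC ht'.ha) (hJC ht'.hb) (hJC ht'.hc) ht'.hab ht'.hbc ht'.hac
        with h' | h'
      · exact h'
      · rw [h', ← hcon]
    have s1 := hs1 a b c (hJC ht.ha) (hJC ht.hb) (hJC ht.hc) ht.hab ht.hbc ht.hac
    have s2 := hs1 a' b' c' (hJC ht'.ha) (hJC ht'.hb) (hJC ht'.hc) ht'.hab ht'.hbc ht'.hac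
    have e3 : red (E.s a b c - E.s a' b' c') = 0 := by
      rw [rsub _ _ s1 s2, e1, e2, sub_self]
    have e4 := (rzero _ (hsub1 _ _ s1 s2)).mp e3
    rw [← hg] at e4
    exact absurd hg1 (not_le_of_gt e4)
  obtain ⟨c, hc⟩ := exists_cyclic_order (M := C) (fun a b c : C => red (E.s a b c)) (red E.a1) ρ hρ
    (by
      intro a b c hab hbc hac
      show red (E.s b c a) = red (E.s a b c)
      rw [h.s_cyc a b c (fun e => hab (Subtype.ext e)) (fun e => hbc (Subtype.ext e))
        (fun e => hac (Subtype.ext e))])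
    (by
      intro a b c hab hbc hac
      have hab' : (a : N) ≠ b := fun e => hab (Subtype.ext e)
      have hbc' : (b : N) ≠ c := fun e => hbc (Subtype.ext e)
      have hac' : (a : N) ≠ c := fun e => hac (Subtype.ext e)
      have h1 := congrArg red (h.s_anti a b c hab' hbc' hac')
      rwa [radd _ _ (hs1 a b c a.2 b.2 c.2 hab' hbc' hac')
        (hs1 a c b a.2 c.2 b.2 hac' hbc'.symm hab'), rneg _ ha1] at h1)
    (by
      intro a b c d hab hac had hbc hbd hcd
      have hab' : (a : N) ≠ b := fun e => hab (Subtype.ext e)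
      have hac' : (a : N) ≠ c := fun e => hac (Subtype.ext e)
      have had' : (a : N) ≠ d := fun e => had (Subtype.ext e)
      have hbc' : (b : N) ≠ c := fun e => hbc (Subtype.ext e)
      have hbd' : (b : N) ≠ d := fun e => hbd (Subtype.ext e)
      have hcd' : (c : N) ≠ d := fun e => hcd (Subtype.ext e)
      have h1 := h.cocycle a b c d hab' hac' had' hbc' hbd' hcd'
      have h2 : E.s b c d + E.s a b d = E.s a c d + E.s a b c := by linear_combination h1
      have h3 := congrArg red h2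
      rw [radd _ _ (hs1 b c d b.2 c.2 d.2 hbc' hcd' hbd') (hs1 a b d a.2 b.2 d.2 hab' hbd' had'),
        radd _ _ (hs1 a c d a.2 c.2 d.2 hac' hcd' had')
          (hs1 a b c a.2 b.2 c.2 hab' hbc' hac')] at h3
      linear_combination h3)
    (by
      intro a b c d hab hac had hbc hbd hcd
      have hab' : (a : N) ≠ b := fun e => hab (Subtype.ext e)
      have hac' : (a : N) ≠ c := fun e => hac (Subtype.ext e)
      have had' : (a : N) ≠ d := fun e => had (Subtype.ext e)
      have hbc' : (b : N) ≠ c := fun e => hbc (Subtype.ext e)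
      have hbd' : (b : N) ≠ d := fun e => hbd (Subtype.ext e)
      have hcd' : (c : N) ≠ d := fun e => hcd (Subtype.ext e)
      have h1 := congrArg red (h.x_diff a b c d hab' hac' had' hbc' hbd' hcd')
      have s1 := hs1 a b d a.2 b.2 d.2 hab' hbd' had'
      have s2 := hs1 a c d a.2 c.2 d.2 hac' hcd' had'
      have s3 := hs1 a b c a.2 b.2 c.2 hab' hbc' hac'
      rw [rsub _ _ (hx1 a b a.2 b.2 hab') (hx1 c d c.2 d.2 hcd'),
        hxx a b c d a.2 b.2 c.2 d.2 hab' hcd', sub_self,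
        rmul _ _ (hsub1 _ _ s1 s2) (hadd1 _ _ (hadd1 _ _ s3 s2) ha1), rsub _ _ s1 s2,
        radd _ _ (hadd1 _ _ s3 s2) ha1, radd _ _ s3 s2] at h1
      exact h1.symm)
    (by
      intro a b c hab hbc hac
      exact hval a b c a.2 b.2 c.2 (fun e => hab (Subtype.ext e)) (fun e => hbc (Subtype.ext e))
        (fun e => hac (Subtype.ext e)))
  have hcard : Fintype.card C = C.card := Fintype.card_coe C
  refine ⟨(finCongr hcard.symm).trans c, ?_⟩
  intro i j l i' j' l' hij hjl hij' hjl'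
  have e1 : red (E.s (c (finCongr hcard.symm i)) (c (finCongr hcard.symm j))
      (c (finCongr hcard.symm l))) = ρ := hc _ _ _ hij hjl
  have e2 : red (E.s (c (finCongr hcard.symm i')) (c (finCongr hcard.symm j'))
      (c (finCongr hcard.symm l'))) = ρ := hc _ _ _ hij' hjl'
  have inj : ∀ m n : Fin C.card, m ≠ n → ((c (finCongr hcard.symm m) : C) : N) ≠
      (c (finCongr hcard.symm n) : C) := by
    intro m n hmn he
    exact hmn ((finCongr hcard.symm).injective (c.injective (Subtype.ext he)))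
  have s1 := hs1 _ _ _ (c (finCongr hcard.symm i)).2 (c (finCongr hcard.symm j)).2
    (c (finCongr hcard.symm l)).2 (inj _ _ hij.ne) (inj _ _ hjl.ne) (inj _ _ (hij.trans hjl).ne)
  have s2 := hs1 _ _ _ (c (finCongr hcard.symm i')).2 (c (finCongr hcard.symm j')).2
    (c (finCongr hcard.symm l')).2 (inj _ _ hij'.ne) (inj _ _ hjl'.ne)
    (inj _ _ (hij'.trans hjl').ne)
  have e3 : red (E.s (c (finCongr hcard.symm i)) (c (finCongr hcard.symm j))
      (c (finCongr hcard.symm l)) - E.s (c (finCongr hcard.symm i')) (c (finCongr hcard.symm j'))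
      (c (finCongr hcard.symm l'))) = 0 := by
    rw [rsub _ _ s1 s2, e1, e2, sub_self]
  exact (rzero _ (hsub1 _ _ s1 s2)).mp e3

/-- D6: choice of the core. -/
theorem core_choice (h : E.Rel) (hM : E.IsModel v) :
    (∃ p : Fin 5 → N, Function.Injective p ∧ (∀ i j, i ≠ j → v (E.x (p i) (p j)) ≤ 1) ∧
      ∀ b, ∃ i, b = p i ∨ E.Near v b (p i) ∨ E.NonSing v b (p i)) ∨
    (∃ k : ℕ, 6 ≤ k ∧ ∃ c : Fin k → N, Function.Injective c ∧
      (∀ i j, i ≠ j → v (E.x (c i) (c j)) ≤ 1) ∧
      (∀ b, ∃ i, b = c i ∨ E.Near v b (c i) ∨ E.NonSing v b (c i)) ∧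
      ∀ i j l i' j' l' : Fin k, i < j → j < l → i' < j' → j' < l' →
        v (E.s (c i) (c j) (c l) - E.s (c i') (c j') (c l')) < 1) := by
  classical
  -- a maximal set of pairwise singular pairs
  let P : Finset N → Prop := fun C => ∀ a ∈ C, ∀ b ∈ C, a ≠ b → E.Far v a b ∧ ¬ E.NonSing v a b
  obtain ⟨C, hCmem, hCmax⟩ := Finset.exists_max_image (Finset.univ.filter P) Finset.card
    ⟨∅, by simp [P]⟩
  have hC : P C := (Finset.mem_filter.mp hCmem).2
  have hcov : ∀ b, ∃ c ∈ C, b = c ∨ E.Near v b c ∨ E.NonSing v b c := by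
    intro b
    by_contra hcon
    push Not at hcon
    have hb : b ∉ C := fun hb => (hcon b hb).1 rfl
    have hP : P (insert b C) := by
      intro a ha a' ha' haa'
      rcases Finset.mem_insert.mp ha with e | haC
      · rcases Finset.mem_insert.mp ha' with e' | haC'
        · exact absurd (e.trans e'.symm) haa'
        · obtain ⟨h1, h2, h3⟩ := hcon a' haC'
          rw [e]
          rw [e] at haa'
          exact ⟨⟨haa', not_lt.mp fun hlt => h2 ⟨haa', hlt⟩⟩, h3⟩
      · rcases Finset.mem_insert.mp ha' with e' | haC'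
        · obtain ⟨h1, h2, h3⟩ := hcon a haC
          rw [e']
          rw [e'] at haa'
          refine ⟨far_symm h ⟨haa'.symm, not_lt.mp fun hlt => h2 ⟨haa'.symm, hlt⟩⟩, ?_⟩
          exact fun hns => h3 (nonsing_symm h hM hns)
        · exact hC a haC a' haC' haa'
    have := hCmax (insert b C) (Finset.mem_filter.mpr ⟨Finset.mem_univ _, hP⟩)
    rw [Finset.card_insert_of_notMem hb] at this
    omega
  rcases Nat.lt_or_ge C.card 6 with hlt | hge
  · left
    have hPF : E.PFar v C := fun a ha b hb hab => (hC a ha b hb hab).1.2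
    obtain ⟨J, hCJ, hJ, hJP⟩ := exists_pfar_superset h hM hPF (by omega)
    let e : Fin 5 ≃ J := (finCongr hJ.symm).trans J.equivFin.symm
    refine ⟨fun i => e i, fun i j hij => e.injective (Subtype.ext hij), ?_, ?_⟩
    · intro i j hij
      exact hJP _ (e i).2 _ (e j).2 (fun he => hij (e.injective (Subtype.ext he)))
    · intro b
      obtain ⟨c, hc, hbc⟩ := hcov b
      refine ⟨e.symm ⟨c, hCJ hc⟩, ?_⟩
      simpa using hbc
  · right
    obtain ⟨c, hc⟩ := core_choice_aux h hM hge hC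
    refine ⟨C.card, hge, fun i => c i, fun i j hij => c.injective (Subtype.ext hij), ?_, ?_, hc⟩
    · intro i j hij
      exact (hC _ (c i).2 _ (c j).2 (fun he => hij (c.injective (Subtype.ext he)))).1.2
    · intro b
      obtain ⟨d, hd, hbd⟩ := hcov b
      refine ⟨c.symm ⟨d, hd⟩, ?_⟩
      simpa using hbd

end Pool.Agent.Helper49.Irr
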