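import Pool.Agent.Helper49.Irr.Basic

/-!
# D2b: normalisation at a 5-tuple

MP_ec79f0_ag, module D2b (helper75).
-/

namespace Pool.Agent.Helper49.Irr

open Dat

/-- a root of a monic quadratic with integral coefficients is integral -/
theorem le_one_of_quad {Ω : Type*} [Field Ω] {Γ₀ : Type*} [LinearOrderedCommGroupWithZero Γ₀]
    {v : Valuation Ω Γ₀} {s b c : Ω} (hb : v b ≤ 1) (hc : v c ≤ 1) (h : s ^ 2 + b * s = c) :
    v s ≤ 1 := by
  by_contra hs
  push Not at hs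
  have h0 : v s ≠ 0 := (lt_trans zero_lt_one hs).ne'
  have h1 : v (b * s) < v (s ^ 2) := by
    rw [map_mul, map_pow, pow_two]
    exact mul_lt_mul_of_pos_right (lt_of_le_of_lt hb hs) (zero_lt_iff.mpr h0)
  have h2 : v (s ^ 2 + b * s) = v (s ^ 2) := Valuation.map_add_eq_of_lt_left v h1
  rw [h, map_pow] at h2
  have h3 : 1 < v s ^ 2 := one_lt_pow₀ hs (by norm_num)
  rw [← h2] at h3
  exact absurd hc (not_le.mpr h3)

/-- from the five slopes `T` to all slopes of a 5-tuple, additive version -/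
theorem s_mem_add {N Ω : Type*} [CommRing Ω] [DecidableEq N] {E : Dat N Ω} (h : E.Rel)
    {A : AddSubgroup Ω} {p : Fin 5 → N} (hp : Function.Injective p)
    (hk : E.s (p 0) (p 1) (p 2) = E.s (p 0) (p 1) (p 3) + E.s (p 1) (p 2) (p 4))
    (ha1 : E.a1 ∈ A) (hT : ∀ i : Fin 5, E.s (p i) (p (i + 1)) (p (i + 3)) ∈ A) :
    ∀ a b c, Tri (Finset.univ.image p) a b c → E.s a b c ∈ A := by
  have pne : ∀ {i j : Fin 5}, i ≠ j → p i ≠ p j := fun hij e => hij (hp e)
  have d : ∀ i : Fin 5, i ≠ i + 1 ∧ i ≠ i + 2 ∧ i ≠ i + 3 ∧ i + 1 ≠ i + 2 ∧ i + 1 ≠ i + 3 ∧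
      i + 2 ≠ i + 3 := by decide
  have e1 : ∀ i : Fin 5, i + 2 + 1 = i + 3 ∧ i + 2 + 3 = i ∧ i + 1 + 1 = i + 2 ∧
      i + 1 + 2 = i + 3 := by decide
  -- consecutive slopes
  have hC : ∀ i : Fin 5, E.s (p i) (p (i + 1)) (p (i + 2)) =
      E.s (p i) (p (i + 1)) (p (i + 3)) + E.s (p (i + 1)) (p (i + 1 + 1)) (p (i + 1 + 3)) := by
    have step : ∀ i : Fin 5, E.s (p i) (p (i + 1)) (p (i + 2)) =
        E.s (p i) (p (i + 1)) (p (i + 3)) + E.s (p (i + 1)) (p (i + 1 + 1)) (p (i + 1 + 3)) →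
        E.s (p (i + 1)) (p (i + 1 + 1)) (p (i + 1 + 2)) =
        E.s (p (i + 1)) (p (i + 1 + 1)) (p (i + 1 + 3)) +
          E.s (p (i + 1 + 1)) (p (i + 1 + 1 + 1)) (p (i + 1 + 1 + 3)) := by
      intro i hi
      obtain ⟨d1, d2, d3, d4, d5, d6⟩ := d i
      obtain ⟨f1, f2, f3, f4⟩ := e1 i
      have hc := h.cocycle (p i) (p (i + 1)) (p (i + 2)) (p (i + 3)) (pne d1) (pne d2) (pne d3)
        (pne d4) (pne d5) (pne d6)
      have hcyc := h.s_cyc (p i) (p (i + 2)) (p (i + 3)) (pne d2) (pne d6) (pne d3)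
      rw [f4]
      have g1 : i + 1 + 1 + 1 = i + 3 := by rw [f3]; exact f1
      have g2 : i + 1 + 1 + 3 = i := by rw [f3]; exact f2
      rw [g1, g2]
      rw [f3] at hi ⊢
      linear_combination hc + hi - hcyc
    have h0 : E.s (p 0) (p (0 + 1)) (p (0 + 2)) =
      E.s (p 0) (p (0 + 1)) (p (0 + 3)) + E.s (p (0 + 1)) (p (0 + 1 + 1)) (p (0 + 1 + 3)) := hk
    have h1 := step 0 h0
    have h2 := step 1 h1
    have h3 := step 2 h2
    have h4 := step 3 h3
    intro i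
    fin_cases i
    · exact h0
    · exact h1
    · exact h2
    · exact h3
    · exact h4
  have hCA : ∀ i : Fin 5, E.s (p i) (p (i + 1)) (p (i + 2)) ∈ A := fun i => by
    rw [hC i]; exact A.add_mem (hT i) (hT (i + 1))
  -- all triples of indices
  have perm : ∀ i j k : Fin 5, i ≠ j → j ≠ k → i ≠ k → E.s (p i) (p j) (p k) ∈ A →
      E.s (p j) (p k) (p i) ∈ A ∧ E.s (p k) (p i) (p j) ∈ A ∧ E.s (p i) (p k) (p j) ∈ A ∧
      E.s (p k) (p j) (p i) ∈ A ∧ E.s (p j) (p i) (p k) ∈ A := by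
    intro i j k hij hjk hik hm
    have c1 := h.s_cyc (p i) (p j) (p k) (pne hij) (pne hjk) (pne hik)
    have c2 := h.s_cyc' (pne hij) (pne hjk) (pne hik)
    have c3 := h.s_anti' (pne hij) (pne hjk) (pne hik)
    have m3 : E.s (p i) (p k) (p j) ∈ A := by rw [c3]; exact A.sub_mem (A.neg_mem hm) ha1
    have c4 := h.s_cyc (p i) (p k) (p j) (pne hik) (pne hjk.symm) (pne hij)
    have c5 := h.s_cyc' (pne hik) (pne hjk.symm) (pne hij)
    exact ⟨c1 ▸ hm, c2 ▸ hm, m3, c4 ▸ m3, c5 ▸ m3⟩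
  have dec : ∀ i j k : Fin 5, i ≠ j → j ≠ k → i ≠ k →
      (j = i + 1 ∧ (k = i + 2 ∨ k = i + 3)) ∨ (k = j + 1 ∧ (i = j + 2 ∨ i = j + 3)) ∨
      (i = k + 1 ∧ (j = k + 2 ∨ j = k + 3)) ∨ (k = i + 1 ∧ (j = i + 2 ∨ j = i + 3)) ∨
      (i = j + 1 ∧ (k = j + 2 ∨ k = j + 3)) ∨ (j = k + 1 ∧ (i = k + 2 ∨ i = k + 3)) := by
    decide
  have all : ∀ i j k : Fin 5, i ≠ j → j ≠ k → i ≠ k → E.s (p i) (p j) (p k) ∈ A := by
    intro i j k hij hjk hik
    have base : ∀ i j k : Fin 5, (j = i + 1 ∧ (k = i + 2 ∨ k = i + 3)) →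
        E.s (p i) (p j) (p k) ∈ A := by
      rintro i j k ⟨rfl, rfl | rfl⟩
      · exact hCA i
      · exact hT i
    rcases dec i j k hij hjk hik with hh | hh | hh | hh | hh | hh
    · exact base _ _ _ hh
    · exact (perm j k i hjk hik.symm hij.symm (base _ _ _ hh)).2.1
    · exact (perm k i j hik.symm hij hjk.symm (base _ _ _ hh)).1
    · exact (perm i k j hik hjk.symm hij (base _ _ _ hh)).2.2.1
    · exact (perm j i k hij.symm hik hjk (base _ _ _ hh)).2.2.2.2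
    · exact (perm k j i hjk.symm hij.symm hik.symm (base _ _ _ hh)).2.2.2.1
  rintro a b c ⟨ha, hb, hc, hab, hbc, hac⟩
  obtain ⟨i, -, rfl⟩ := Finset.mem_image.mp ha
  obtain ⟨j, -, rfl⟩ := Finset.mem_image.mp hb
  obtain ⟨k, -, rfl⟩ := Finset.mem_image.mp hc
  exact all i j k (fun e => hab (e ▸ rfl)) (fun e => hbc (e ▸ rfl)) (fun e => hac (e ▸ rfl))

variable {N Ω : Type*} [Fintype N] [DecidableEq N] [Field Ω]
  {Γ₀ : Type*} [LinearOrderedCommGroupWithZero Γ₀] {v : Valuation Ω Γ₀} {E : Dat N Ω}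

omit [Fintype N] in
/-- D2b: normalisation at a 5-tuple. -/
theorem exists_normal (h : E.Rel) (hM : E.IsModel v) (p : Fin 5 → N) (hp : Function.Injective p)
    (hfar : ∀ i j, i ≠ j → v (E.x (p i) (p j)) ≤ 1) :
    ∃ u r σ τ : Ω, v u = 1 ∧ v r ≤ 1 ∧ v σ ≤ 1 ∧ v τ ≤ 1 ∧ (E.gauge u r σ τ).Normal v p := by
  have pne : ∀ {i j : Fin 5}, i ≠ j → p i ≠ p j := fun hij e => hij (hp e)
  -- integrality
  have sle : ∀ i j k : Fin 5, i ≠ j → j ≠ k → i ≠ k → v (E.s (p i) (p j) (p k)) ≤ 1 := by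
    intro i j k hij hjk hik
    have e1 := h.sum_x (p i) (p j) (p k) (pne hij) (pne hjk) (pne hik)
    refine le_one_of_quad (b := E.a1)
      (c := E.a2 + (E.x (p i) (p j) + E.x (p j) (p k) + E.x (p k) (p i))) hM.a1 ?_ ?_
    · refine Valuation.map_add_le _ hM.a2 (Valuation.map_add_le _ (Valuation.map_add_le _ ?_ ?_) ?_)
      · exact hfar i j hij
      · exact hfar j k hjk
      · exact hfar k i hik.symm
    · rw [e1]; ring
  have yle : v (E.y (p 0) (p 1)) ≤ 1 := by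
    have e1 := h.weier (p 0) (p 1) (pne (by decide))
    have hx := hfar 0 1 (by decide)
    refine le_one_of_quad (b := E.a1 * E.x (p 0) (p 1) + E.a3)
      (c := E.x (p 0) (p 1) ^ 3 + E.a2 * E.x (p 0) (p 1) ^ 2 + E.a4 * E.x (p 0) (p 1) + E.a6)
      ?_ ?_ ?_
    · refine Valuation.map_add_le _ ?_ hM.a3
      rw [map_mul]; exact mul_le_one' hM.a1 hx
    · refine Valuation.map_add_le _ (Valuation.map_add_le _ (Valuation.map_add_le _ ?_ ?_) ?_) hM.a6
      · rw [map_pow]; exact pow_le_one' hx 3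
      · rw [map_mul, map_pow]; exact mul_le_one' hM.a2 (pow_le_one' hx 2)
      · rw [map_mul]; exact mul_le_one' hM.a4 hx
    · linear_combination e1
  set σ : Ω := E.s (p 0) (p 1) (p 3) + E.s (p 1) (p 2) (p 4) - E.s (p 0) (p 1) (p 2) with hσ
  set r : Ω := E.x (p 0) (p 1) with hr
  set τ : Ω := E.y (p 0) (p 1) with hτ
  have hσ1 : v σ ≤ 1 := by
    refine Valuation.map_sub_le _ (Valuation.map_add_le _ ?_ ?_) ?_
    · exact sle 0 1 3 (by decide) (by decide) (by decide)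
    · exact sle 1 2 4 (by decide) (by decide) (by decide)
    · exact sle 0 1 2 (by decide) (by decide) (by decide)
  have hr1 : v r ≤ 1 := hfar 0 1 (by decide)
  -- the six numbers
  have d : ∀ i : Fin 5, i ≠ i + 1 ∧ i + 1 ≠ i + 3 ∧ i ≠ i + 3 := by decide
  have t1 : ∀ i : Fin 5, v (E.s (p i) (p (i + 1)) (p (i + 3)) - σ) ≤ 1 := fun i =>
    Valuation.map_sub_le _ (sle _ _ _ (d i).1 (d i).2.1 (d i).2.2) hσ1
  have t2 : v (E.a1 + 2 * σ) ≤ 1 := by
    rw [two_mul]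
    exact Valuation.map_add_le _ hM.a1 (Valuation.map_add_le _ hσ1 hσ1)
  -- one of them is a unit
  have key : (∃ i : Fin 5, v (E.s (p i) (p (i + 1)) (p (i + 3)) - σ) = 1) ∨
      v (E.a1 + 2 * σ) = 1 := by
    by_contra hcon
    push Not at hcon
    obtain ⟨hc1, hc2⟩ := hcon
    have hc1' : ∀ i : Fin 5, v (E.s (p i) (p (i + 1)) (p (i + 3)) - σ) < 1 := fun i =>
      lt_of_le_of_ne (t1 i) (hc1 i)
    have hc2' : v (E.a1 + 2 * σ) < 1 := lt_of_le_of_ne t2 hc2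
    let A : AddSubgroup Ω :=
      { carrier := {x | v x < 1}
        add_mem' := fun {a b} ha hb => Valuation.map_add_lt v ha hb
        zero_mem' := by simp
        neg_mem' := fun {a} ha => by
          have : v (-a) < 1 := by rw [Valuation.map_neg]; exact ha
          exact this }
    have hE := h.gauge 1 r σ τ
    have hmem := s_mem_add hE (A := A) hp (by simp only [Dat.gauge]; rw [hσ]; ring)
      (by
        show v ((E.gauge 1 r σ τ).a1) < 1
        simp only [Dat.gauge, one_mul]; exact hc2')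
      (fun i => by
        show v ((E.gauge 1 r σ τ).s (p i) (p (i + 1)) (p (i + 3))) < 1
        simp only [Dat.gauge, one_mul]; exact hc1' i)
    obtain ⟨g, ⟨a, b, c, a', b', c', h1, h2, rfl⟩, hg⟩ := hM.big (Finset.univ.image p)
      (by rw [Finset.card_image_of_injective _ hp]; simp)
    have m1 := A.sub_mem (hmem a b c h1) (hmem a' b' c' h2)
    have m2 : v ((E.gauge 1 r σ τ).s a b c - (E.gauge 1 r σ τ).s a' b' c') < 1 := m1
    simp only [Dat.gauge, one_mul] at m2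
    rw [show E.s a b c - σ - (E.s a' b' c' - σ) = E.s a b c - E.s a' b' c' by ring] at m2
    exact absurd hg (not_le.mpr m2)
  -- the gauge change
  have fin : ∀ u : Ω, v u = 1 → ((∃ i : Fin 5, u * (E.s (p i) (p (i + 1)) (p (i + 3)) - σ) = 1) ∨
      u * (E.a1 + 2 * σ) = 1) → (E.gauge u r σ τ).Normal v p := by
    intro u hu hone
    refine ⟨hp, ?_, ?_, ?_, ?_, ?_⟩
    · intro i j hij
      simp only [Dat.gauge]
      rw [map_mul, map_pow, hu, one_pow, one_mul]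
      exact Valuation.map_sub_le _ (hfar i j hij) hr1
    · simp only [Dat.gauge]; rw [hσ]; ring
    · simp only [Dat.gauge]; rw [hr]; ring
    · simp only [Dat.gauge]; rw [hr, hτ]; ring
    · exact hone
  rcases key with ⟨i, hi⟩ | hi
  · refine ⟨(E.s (p i) (p (i + 1)) (p (i + 3)) - σ)⁻¹, r, σ, τ, ?_, hr1, hσ1, yle, ?_⟩
    · rw [map_inv₀, hi, inv_one]
    · refine fin _ (by rw [map_inv₀, hi, inv_one]) (Or.inl ⟨i, inv_mul_cancel₀ ?_⟩)
      intro h0; rw [h0, map_zero] at hi; exact zero_ne_one hi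
  · refine ⟨(E.a1 + 2 * σ)⁻¹, r, σ, τ, ?_, hr1, hσ1, yle, ?_⟩
    · rw [map_inv₀, hi, inv_one]
    · refine fin _ (by rw [map_inv₀, hi, inv_one]) (Or.inr (inv_mul_cancel₀ ?_))
      intro h0; rw [h0, map_zero] at hi; exact zero_ne_one hi

end Pool.Agent.Helper49.Irr
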