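import Pool.Agent.Helper49.Irr.NonSing

/-!
# IR-D9: one more parameter for each further position
-/

namespace Pool.Agent.Helper49.Irr

open Dat

private theorem mul_lt_one_aux {Γ₀ : Type*} [LinearOrderedCommGroupWithZero Γ₀] {a b : Γ₀} (ha : a ≤ 1)
    (hb : b < 1) : a * b < 1 :=
  lt_of_le_of_lt (mul_le_of_le_one_left' ha) hb

variable {N Ω : Type*} [Fintype N] [DecidableEq N] [Field Ω]
  {Γ₀ : Type*} [LinearOrderedCommGroupWithZero Γ₀] {v : Valuation Ω Γ₀} {E : Dat N Ω}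

private theorem mem_of_unit_mul {R Z : Subring Ω} (hZ : Zer v R Z) {u s w : Ω} (hu : u ∈ Z) (hw : w ∈ Z)
    (huv : v u = 1) (he : u * s = w) : s ∈ Z := by
  have hu0 : u ≠ 0 := by
    rintro rfl
    rw [v.map_zero] at huv
    exact zero_ne_one huv
  have : s = u⁻¹ * w := by rw [← he, ← mul_assoc, inv_mul_cancel₀ hu0, one_mul]
  rw [this]
  exact Z.mul_mem (hZ.inv_mem u hu huv) hw

omit [Fintype N] [DecidableEq N] in
/-- the slope through a nonsingular point -/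
private theorem s_mem_of_nonsing (h : E.Rel) {R Z : Subring Ω} (hR : LocSub v R) (hZ : Zer v R Z)
    (c1 : E.a1 ∈ Z) (c2 : E.a2 ∈ Z) (c3 : E.a3 ∈ Z) (c4 : E.a4 ∈ Z) {a b c : N}
    (hab : a ≠ b) (hbc : b ≠ c) (hac : a ≠ c) (x1 : E.x a b ∈ Z) (y1 : E.y a b ∈ Z)
    (x2 : E.x b c ∈ Z) (y2 : E.y b c ∈ Z) (hs : E.s a b c ∈ R) (hns : E.NonSing v a b) :
    E.s a b c ∈ Z := by
  have hle : ∀ z ∈ Z, v z ≤ 1 := fun z hz => hR.le_one z (hZ.le hz)
  have hsv : v (E.s a b c) ≤ 1 := hR.le_one _ hs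
  have hslope := h.slope a b c hab hbc hac
  have hr8 := h.r8 a b c hab hbc hac
  rcases (hle _ (Z.sub_mem x1 x2)).lt_or_eq with hlt | heq
  · -- small difference
    have hW : E.y a b + E.y b c + E.a1 * E.x b c + E.a3 ∈ Z :=
      Z.add_mem (Z.add_mem (Z.add_mem y1 y2) (Z.mul_mem c1 x2)) c3
    have hV : E.x a b ^ 2 + E.x a b * E.x b c + E.x b c ^ 2 + E.a2 * (E.x a b + E.x b c) + E.a4
        - E.a1 * E.y a b ∈ Z :=
      Z.sub_mem (Z.add_mem (Z.add_mem (Z.add_mem (Z.add_mem (Z.pow_mem x1 2) (Z.mul_mem x1 x2))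
        (Z.pow_mem x2 2)) (Z.mul_mem c2 (Z.add_mem x1 x2))) c4) (Z.mul_mem c1 y1)
    rcases (hle _ hW).lt_or_eq with hWlt | hWeq
    · exfalso
      have hysm : v (E.y a b - E.y b c) < 1 := by
        rw [hslope, v.map_mul]
        exact mul_lt_one_aux hsv hlt
      have hWy : v (2 * E.y a b + E.a1 * E.x a b + E.a3) < 1 := by
        have e : 2 * E.y a b + E.a1 * E.x a b + E.a3
            = (E.y a b + E.y b c + E.a1 * E.x b c + E.a3) + (E.y a b - E.y b c)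
              + E.a1 * (E.x a b - E.x b c) := by ring
        rw [e]
        refine v.map_add_lt (v.map_add_lt hWlt hysm) ?_
        rw [v.map_mul]
        exact mul_lt_one_aux (hle _ c1) hlt
      have hWx : v (3 * E.x a b ^ 2 + 2 * E.a2 * E.x a b + E.a4 - E.a1 * E.y a b) < 1 := by
        have e : 3 * E.x a b ^ 2 + 2 * E.a2 * E.x a b + E.a4 - E.a1 * E.y a b
            = E.s a b c * (E.y a b + E.y b c + E.a1 * E.x b c + E.a3)
              + (2 * E.x a b + E.x b c + E.a2) * (E.x a b - E.x b c) := by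
          rw [hr8]; ring
        rw [e]
        refine v.map_add_lt ?_ ?_
        · rw [v.map_mul]
          exact mul_lt_one_aux hsv hWlt
        · rw [v.map_mul]
          refine mul_lt_one_aux (hle _ ?_) hlt
          refine Z.add_mem (Z.add_mem ?_ x2) c2
          rw [two_mul]
          exact Z.add_mem x1 x1
      rcases hns.2 with h' | h'
      · exact absurd h' (ne_of_lt hWy)
      · exact absurd h' (ne_of_lt hWx)
    · exact mem_of_unit_mul hZ hW hV hWeq (by rw [mul_comm]; exact hr8)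
  · exact mem_of_unit_mul hZ (Z.sub_mem x1 x2) (Z.sub_mem y1 y2) heq
      (by rw [mul_comm]; exact hslope.symm)

omit [Fintype N] [DecidableEq N] in
private theorem third_mem (h : E.Rel) {Z : Subring Ω}
    (c1 : E.a1 ∈ Z) (c2 : E.a2 ∈ Z) (c3 : E.a3 ∈ Z) {a b c : N}
    (hab : a ≠ b) (hbc : b ≠ c) (hac : a ≠ c) (x1 : E.x a b ∈ Z)
    (x2 : E.x b c ∈ Z) (y2 : E.y b c ∈ Z) (hs : E.s a b c ∈ Z) :
    E.x a c ∈ Z ∧ E.y a c ∈ Z := by
  have hxca : E.x c a ∈ Z := by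
    have e : E.x c a = E.s a b c ^ 2 + E.a1 * E.s a b c - E.a2 - E.x a b - E.x b c := by
      linear_combination h.sum_x a b c hab hbc hac
    rw [e]
    exact Z.sub_mem (Z.sub_mem (Z.sub_mem (Z.add_mem (Z.pow_mem hs 2) (Z.mul_mem c1 hs)) c2) x1) x2
  have hyca : E.y c a ∈ Z := by
    have e : E.y c a = E.y b c - E.s a b c * (E.x b c - E.x c a) := by
      have h1 := h.slope b c a hbc hac.symm hab.symm
      rw [h.s_cyc a b c hab hbc hac] at h1
      linear_combination - h1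
    rw [e]
    exact Z.sub_mem y2 (Z.mul_mem hs (Z.sub_mem x2 hxca))
  constructor
  · rw [h.x_symm c a hac.symm]
    exact hxca
  · have e : E.y a c = - E.a1 * E.x c a - E.a3 - E.y c a := by
      linear_combination h.y_symm c a hac.symm
    rw [e]
    exact Z.sub_mem (Z.sub_mem (Z.mul_mem (Z.neg_mem c1) hxca) c3) hyca

/-- D9: one more parameter for each further position. -/
theorem far_extend (h : E.Rel) (hM : E.IsModel v) {R : Subring Ω}
    (hR : LocSub v R) {C S : Finset N} (hCS : C ⊆ S) (hS : E.PFar v S)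
    (hF : E.FarIn R S) (hCov : ∀ b ∈ S, b ∉ C → ∃ c ∈ C, E.NonSing v b c) :
    ∃ t : N → Ω, (∀ j, t j ∈ R) ∧ ∀ Z : Subring Ω, Zer v R Z → E.FarIn Z C →
      (∀ j ∈ S, j ∉ C → t j ∈ Z) → E.FarIn Z S := by
  classical
  have _ := hS
  -- choice of a reference point
  have hcov' : ∀ b : N, ∃ c : N, b ∈ S → b ∉ C → c ∈ C ∧ E.NonSing v b c := by
    intro b
    by_cases hb : b ∈ S ∧ b ∉ C
    · obtain ⟨c, hc, hbc⟩ := hCov b hb.1 hb.2
      exact ⟨c, fun _ _ => ⟨hc, hbc⟩⟩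
    · exact ⟨b, fun h1 h2 => absurd ⟨h1, h2⟩ hb⟩
  choose α hα using hcov'
  refine ⟨fun j => if j ∈ S ∧ j ∉ C then
    (if v (2 * E.y j (α j) + E.a1 * E.x j (α j) + E.a3) = 1 then E.x j (α j) else E.y j (α j))
    else 0, ?_, ?_⟩
  · intro j
    show (if j ∈ S ∧ j ∉ C then _ else _) ∈ R
    split_ifs with h1 h2
    · obtain ⟨h3, h4⟩ := hα j h1.1 h1.2
      exact hF.x _ h1.1 _ (hCS h3) h4.1.1
    · obtain ⟨h3, h4⟩ := hα j h1.1 h1.2
      exact hF.y _ h1.1 _ (hCS h3) h4.1.1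
    · exact R.zero_mem
  intro Z hZ hFC ht
  have c1 := hFC.a1
  have c2 := hFC.a2
  have c3 := hFC.a3
  have c4 := hFC.a4
  have c6 := hFC.a6
  -- symmetry of the membership
  have gsymm : ∀ a b, a ≠ b → E.x a b ∈ Z → E.y a b ∈ Z → E.x b a ∈ Z ∧ E.y b a ∈ Z := by
    intro a b hab hx hy
    constructor
    · rw [h.x_symm a b hab]
      exact hx
    · have e : E.y b a = - E.a1 * E.x a b - E.a3 - E.y a b := by
        linear_combination h.y_symm a b hab
      rw [e]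
      exact Z.sub_mem (Z.sub_mem (Z.mul_mem (Z.neg_mem c1) hx) c3) hy
  -- the reference pair
  have href : ∀ j ∈ S, j ∉ C → E.x j (α j) ∈ Z ∧ E.y j (α j) ∈ Z := by
    intro j hj hjC
    obtain ⟨h3, h4⟩ := hα j hj hjC
    have htj := ht j hj hjC
    simp only [hj, hjC, not_false_eq_true, and_self, if_true] at htj
    have hw := h.weier j (α j) h4.1.1
    have hxR := hF.x _ hj _ (hCS h3) h4.1.1
    have hyR := hF.y _ hj _ (hCS h3) h4.1.1
    split_ifs at htj with h5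
    · refine ⟨htj, ?_⟩
      refine hZ.quad _ hyR (E.a1 * E.x j (α j) + E.a3) (Z.add_mem (Z.mul_mem c1 htj) c3)
        (-(E.x j (α j) ^ 3 + E.a2 * E.x j (α j) ^ 2 + E.a4 * E.x j (α j) + E.a6)) ?_ ?_ ?_
      · exact Z.neg_mem (Z.add_mem (Z.add_mem (Z.add_mem (Z.pow_mem htj 3)
          (Z.mul_mem c2 (Z.pow_mem htj 2))) (Z.mul_mem c4 htj)) c6)
      · linear_combination hw
      · rw [← add_assoc]
        exact h5
    · refine ⟨?_, htj⟩
      refine hZ.cubic _ hxR E.a2 c2 (E.a4 - E.a1 * E.y j (α j))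
        (Z.sub_mem c4 (Z.mul_mem c1 htj)) (E.a6 - E.y j (α j) ^ 2 - E.a3 * E.y j (α j))
        (Z.sub_mem (Z.sub_mem c6 (Z.pow_mem htj 2)) (Z.mul_mem c3 htj)) ?_ ?_
      · linear_combination - hw
      · rcases h4.2 with h6 | h6
        · exact absurd h6 h5
        · rw [← add_sub_assoc]
          exact h6
  have hsR : ∀ a b c, a ∈ S → b ∈ S → c ∈ S → a ≠ b → b ≠ c → a ≠ c → E.s a b c ∈ R :=
    fun a b c ha hb hc hab hbc hac => hF.s a b c ⟨ha, hb, hc, hab, hbc, hac⟩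
  -- pairs with one point in `C`
  have g1 : ∀ j ∈ S, ∀ b ∈ C, j ≠ b → E.x j b ∈ Z ∧ E.y j b ∈ Z := by
    intro j hj b hb hjb
    by_cases hjC : j ∈ C
    · exact ⟨hFC.x j hjC b hb hjb, hFC.y j hjC b hb hjb⟩
    obtain ⟨h3, h4⟩ := hα j hj hjC
    obtain ⟨h5, h6⟩ := href j hj hjC
    by_cases hab : α j = b
    · rw [← hab]
      exact ⟨h5, h6⟩
    have hs := s_mem_of_nonsing h hR hZ c1 c2 c3 c4 h4.1.1 hab hjb h5 h6
      (hFC.x _ h3 _ hb hab) (hFC.y _ h3 _ hb hab)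
      (hsR _ _ _ hj (hCS h3) (hCS hb) h4.1.1 hab hjb) h4
    exact third_mem h c1 c2 c3 h4.1.1 hab hjb h5 (hFC.x _ h3 _ hb hab) (hFC.y _ h3 _ hb hab) hs
  -- all pairs
  have g2 : ∀ j ∈ S, ∀ b ∈ S, j ≠ b → E.x j b ∈ Z ∧ E.y j b ∈ Z := by
    intro j hj b hb hjb
    by_cases hjC : j ∈ C
    · obtain ⟨h1, h2⟩ := g1 b hb j hjC hjb.symm
      exact gsymm b j hjb.symm h1 h2
    obtain ⟨h3, h4⟩ := hα j hj hjC
    obtain ⟨h5, h6⟩ := href j hj hjC
    by_cases hab : α j = b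
    · rw [← hab]
      exact ⟨h5, h6⟩
    obtain ⟨h7, h8⟩ := g1 b hb _ h3 (Ne.symm hab)
    obtain ⟨h9, h10⟩ := gsymm _ _ (Ne.symm hab) h7 h8
    have hs := s_mem_of_nonsing h hR hZ c1 c2 c3 c4 h4.1.1 hab hjb h5 h6 h9 h10
      (hsR _ _ _ hj (hCS h3) hb h4.1.1 hab hjb) h4
    exact third_mem h c1 c2 c3 h4.1.1 hab hjb h5 h9 h10 hs
  -- slopes with a nonsingular pair
  have n1 : ∀ a b c, a ∈ S → b ∈ S → c ∈ S → a ≠ b → b ≠ c → a ≠ c → E.NonSing v a b →
      E.s a b c ∈ Z := by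
    intro a b c ha hb hc hab hbc hac hns
    obtain ⟨h1, h2⟩ := g2 a ha b hb hab
    obtain ⟨h3, h4⟩ := g2 b hb c hc hbc
    exact s_mem_of_nonsing h hR hZ c1 c2 c3 c4 hab hbc hac h1 h2 h3 h4
      (hsR a b c ha hb hc hab hbc hac) hns
  have n2 : ∀ a b c, a ∈ S → b ∈ S → c ∈ S → a ≠ b → b ≠ c → a ≠ c → E.NonSing v b c →
      E.s a b c ∈ Z := by
    intro a b c ha hb hc hab hbc hac hns
    rw [← h.s_cyc a b c hab hbc hac]
    exact n1 b c a hb hc ha hbc hac.symm hab.symm hns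
  have n3 : ∀ a b c, a ∈ S → b ∈ S → c ∈ S → a ≠ b → b ≠ c → a ≠ c → E.NonSing v a c →
      E.s a b c ∈ Z := by
    intro a b c ha hb hc hab hbc hac hns
    rw [← h.s_cyc' hab hbc hac]
    exact n1 c a b hc ha hb hac.symm hab hbc.symm (nonsing_symm h hM hns)
  -- slopes with two points in `C`
  have k2 : ∀ a b c, a ∈ C → b ∈ C → c ∈ S → a ≠ b → b ≠ c → a ≠ c → E.s a b c ∈ Z := by
    intro a b c ha hb hc hab hbc hac
    by_cases hcC : c ∈ C
    · exact hFC.s a b c ⟨ha, hb, hcC, hab, hbc, hac⟩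
    obtain ⟨h3, h4⟩ := hα c hc hcC
    have h5 := nonsing_symm h hM h4
    by_cases e1 : a = α c
    · rw [← e1] at h5
      exact n3 a b c (hCS ha) (hCS hb) hc hab hbc hac h5
    by_cases e2 : b = α c
    · rw [← e2] at h5
      exact n2 a b c (hCS ha) (hCS hb) hc hab hbc hac h5
    rw [h.s_decomp hab hac e1 hbc e2 h4.1.1]
    refine Z.add_mem (Z.add_mem (Z.add_mem ?_ ?_) ?_) c1
    · exact hFC.s _ _ _ ⟨ha, hb, h3, hab, e2, e1⟩
    · exact n2 _ _ _ (hCS hb) hc (hCS h3) hbc h4.1.1 e2 h4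
    · exact n3 _ _ _ hc (hCS ha) (hCS h3) hac.symm e1 h4.1.1 h4
  -- slopes with one point in `C`
  have k1 : ∀ a b c, a ∈ C → b ∈ S → c ∈ S → a ≠ b → b ≠ c → a ≠ c → E.s a b c ∈ Z := by
    intro a b c ha hb hc hab hbc hac
    by_cases hbC : b ∈ C
    · exact k2 a b c ha hbC hc hab hbc hac
    obtain ⟨h3, h4⟩ := hα b hb hbC
    have h5 := nonsing_symm h hM h4
    by_cases e1 : a = α b
    · rw [← e1] at h5
      exact n1 a b c (hCS ha) hb hc hab hbc hac h5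
    by_cases e2 : c = α b
    · rw [← e2] at h4
      exact n2 a b c (hCS ha) hb hc hab hbc hac h4
    rw [h.s_decomp hab hac e1 hbc h4.1.1 e2]
    refine Z.add_mem (Z.add_mem (Z.add_mem ?_ ?_) ?_) c1
    · exact n2 _ _ _ (hCS ha) hb (hCS h3) hab h4.1.1 e1 h4
    · exact n3 _ _ _ hb hc (hCS h3) hbc e2 h4.1.1 h4
    · rw [← h.s_cyc c a (α b) hac.symm e1 e2]
      exact k2 a (α b) c ha h3 hc e1 (Ne.symm e2) hac
  -- all slopes
  have k0 : ∀ a b c, a ∈ S → b ∈ S → c ∈ S → a ≠ b → b ≠ c → a ≠ c → E.s a b c ∈ Z := by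
    intro a b c ha hb hc hab hbc hac
    by_cases haC : a ∈ C
    · exact k1 a b c haC hb hc hab hbc hac
    obtain ⟨h3, h4⟩ := hα a ha haC
    have h5 := nonsing_symm h hM h4
    by_cases e1 : b = α a
    · rw [← e1] at h4
      exact n1 a b c ha hb hc hab hbc hac h4
    by_cases e2 : c = α a
    · rw [← e2] at h4
      exact n3 a b c ha hb hc hab hbc hac h4
    rw [h.s_decomp hab hac h4.1.1 hbc e1 e2]
    refine Z.add_mem (Z.add_mem (Z.add_mem ?_ ?_) ?_) c1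
    · exact n3 _ _ _ ha hb (hCS h3) hab e1 h4.1.1 h4
    · rw [← h.s_cyc' hbc e2 e1]
      exact k1 (α a) b c h3 hb hc (Ne.symm e1) hbc (Ne.symm e2)
    · exact n2 _ _ _ hc ha (hCS h3) hac.symm h4.1.1 e2 h4
  exact ⟨c1, c2, c3, c4, c6, fun a ha b hb hab => (g2 a ha b hb hab).1,
    fun a ha b hb hab => (g2 a ha b hb hab).2,
    fun a b c ht => k0 a b c ht.ha ht.hb ht.hc ht.hab ht.hbc ht.hac⟩

end Pool.Agent.Helper49.Irr
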