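import Pool.Agent.Helper49.Irr.Basic

/-!
# Membership of all the data of a 5-set in a subring
-/

namespace Pool.Agent.Helper49.Irr

variable {N : Type*}

private theorem exists_two {N : Type*} [DecidableEq N] {S : Finset N} (hS : 5 ≤ S.card)
    (T : Finset N) (hT : T.card ≤ 3) : ∃ c ∈ S, ∃ d ∈ S, c ≠ d ∧ c ∉ T ∧ d ∉ T := by
  have h1 : 1 < (S \ T).card := by
    have := Finset.le_card_sdiff T S
    omega
  obtain ⟨c, hc, d, hd, hcd⟩ := Finset.one_lt_card.mp h1
  rw [Finset.mem_sdiff] at hc hd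
  exact ⟨c, hc.1, d, hd.1, hcd, hc.2, hd.2⟩

private theorem exists_one {N : Type*} [DecidableEq N] {S : Finset N} (hS : 5 ≤ S.card)
    (T : Finset N) (hT : T.card ≤ 4) : ∃ c ∈ S, c ∉ T := by
  have h1 : 0 < (S \ T).card := by
    have := Finset.le_card_sdiff T S
    omega
  obtain ⟨c, hc⟩ := Finset.card_pos.mp h1
  rw [Finset.mem_sdiff] at hc
  exact ⟨c, hc.1, hc.2⟩

/-- D3l: from the slopes to everything. -/
theorem farIn_of_s {Ω : Type*} [CommRing Ω] {E : Dat N Ω} (h : E.Rel) {Z : Subring Ω}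
    {S : Finset N} (hS : 5 ≤ S.card) {p q : N}
    (hp : p ∈ S) (hq : q ∈ S) (hpq : p ≠ q) (hx : E.x p q ∈ Z) (hy : E.y p q ∈ Z)
    (ha1 : E.a1 ∈ Z) (hs : ∀ a b c, Tri S a b c → E.s a b c ∈ Z) : E.FarIn Z S := by
  classical
  -- transport of `x` between disjoint pairs
  have xd : ∀ a ∈ S, ∀ b ∈ S, ∀ c ∈ S, ∀ d ∈ S, a ≠ b → a ≠ c → a ≠ d → b ≠ c → b ≠ d → c ≠ d →
      E.x a b ∈ Z → E.x c d ∈ Z := by
    intro a ha b hb c hc d hd hab hac had hbc hbd hcd hxx
    have e := h.x_diff a b c d hab hac had hbc hbd hcd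
    have h1 := hs a b d ⟨ha, hb, hd, hab, hbd, had⟩
    have h2 := hs a c d ⟨ha, hc, hd, hac, hcd, had⟩
    have h3 := hs a b c ⟨ha, hb, hc, hab, hbc, hac⟩
    have e' : E.x c d = E.x a b - (E.s a b d - E.s a c d) * (E.s a b c + E.s a c d + E.a1) := by
      linear_combination -e
    rw [e']
    exact Z.sub_mem hxx (Z.mul_mem (Z.sub_mem h1 h2) (Z.add_mem (Z.add_mem h3 h2) ha1))
  have xall : ∀ a ∈ S, ∀ b ∈ S, a ≠ b → E.x a b ∈ Z := by
    intro a ha b hb hab
    by_cases hd : a ≠ p ∧ a ≠ q ∧ b ≠ p ∧ b ≠ q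
    · exact xd p hp q hq a ha b hb hpq hd.1.symm hd.2.2.1.symm hd.2.1.symm hd.2.2.2.symm hab hx
    · -- the union has at most three elements
      have hcard : ({p, q, a, b} : Finset N).card ≤ 3 := by
        by_cases h1 : a = p
        · subst h1
          have : ({a, q, a, b} : Finset N) = {q, a, b} := by
            ext z; simp only [Finset.mem_insert, Finset.mem_singleton]; tauto
          rw [this]; exact Finset.card_le_three
        by_cases h2 : a = q
        · subst h2
          have : ({p, a, a, b} : Finset N) = {p, a, b} := by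
            ext z; simp only [Finset.mem_insert, Finset.mem_singleton]; tauto
          rw [this]; exact Finset.card_le_three
        by_cases h3 : b = p
        · subst h3
          have : ({b, q, a, b} : Finset N) = {q, a, b} := by
            ext z; simp only [Finset.mem_insert, Finset.mem_singleton]; tauto
          rw [this]; exact Finset.card_le_three
        by_cases h4 : b = q
        · subst h4
          have : ({p, b, a, b} : Finset N) = {p, a, b} := by
            ext z; simp only [Finset.mem_insert, Finset.mem_singleton]; tauto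
          rw [this]; exact Finset.card_le_three
        exact absurd ⟨h1, h2, h3, h4⟩ hd
      obtain ⟨c, hc, d, hd', hcd, hcT, hdT⟩ := exists_two hS _ hcard
      simp only [Finset.mem_insert, Finset.mem_singleton, not_or] at hcT hdT
      have h1 := xd p hp q hq c hc d hd' hpq (Ne.symm hcT.1) (Ne.symm hdT.1) (Ne.symm hcT.2.1)
        (Ne.symm hdT.2.1) hcd hx
      exact xd c hc d hd' a ha b hb hcd hcT.2.2.1 hcT.2.2.2 hdT.2.2.1 hdT.2.2.2 hab h1
  -- transport of `y`
  have yd : ∀ a ∈ S, ∀ b ∈ S, ∀ c ∈ S, a ≠ b → b ≠ c → a ≠ c → E.y a b ∈ Z → E.y b c ∈ Z := by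
    intro a ha b hb c hc hab hbc hac hyy
    have e := h.slope a b c hab hbc hac
    have e' : E.y b c = E.y a b - E.s a b c * (E.x a b - E.x b c) := by linear_combination -e
    rw [e']
    exact Z.sub_mem hyy (Z.mul_mem (hs a b c ⟨ha, hb, hc, hab, hbc, hac⟩)
      (Z.sub_mem (xall a ha b hb hab) (xall b hb c hc hbc)))
  have yall : ∀ a ∈ S, ∀ b ∈ S, a ≠ b → E.y a b ∈ Z := by
    intro a ha b hb hab
    by_cases haq : a = q
    · subst haq
      by_cases hbp : b = p
      · subst hbp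
        obtain ⟨c, hc, d, hd, hcd, hcT, hdT⟩ := exists_two hS {b, a} (Finset.card_le_two.trans
          (by norm_num))
        simp only [Finset.mem_insert, Finset.mem_singleton, not_or] at hcT hdT
        have h1 := yd b hb a ha c hc hpq (Ne.symm hcT.2) (Ne.symm hcT.1) hy
        have h2 := yd a ha c hc d hd (Ne.symm hcT.2) hcd (Ne.symm hdT.2) h1
        have h3 := yd c hc d hd a ha hcd hdT.2 hcT.2 h2
        exact yd d hd a ha b hb hdT.2 hab hdT.1 h3
      · exact yd p hp a ha b hb hpq hab (Ne.symm hbp) hy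
    · obtain ⟨c, hc, hcT⟩ := exists_one hS {p, q, a, b} Finset.card_le_four
      simp only [Finset.mem_insert, Finset.mem_singleton, not_or] at hcT
      have h1 := yd p hp q hq c hc hpq (Ne.symm hcT.2.1) (Ne.symm hcT.1) hy
      have h2 := yd q hq c hc a ha (Ne.symm hcT.2.1) hcT.2.2.1 (Ne.symm haq) h1
      exact yd c hc a ha b hb hcT.2.2.1 hab hcT.2.2.2 h2
  -- a third element
  obtain ⟨c, hc, hcT⟩ := exists_one hS {p, q} (Finset.card_le_two.trans (by norm_num))
  simp only [Finset.mem_insert, Finset.mem_singleton, not_or] at hcT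
  have hpc : p ≠ c := Ne.symm hcT.1
  have hqc : q ≠ c := Ne.symm hcT.2
  have hspqc := hs p q c ⟨hp, hq, hc, hpq, hqc, hpc⟩
  have hxqc := xall q hq c hc hqc
  have hxcp := xall c hc p hp hcT.1
  have hyqc := yall q hq c hc hqc
  have hyqp := yall q hq p hp hpq.symm
  have ha2 : E.a2 ∈ Z := by
    have e := h.sum_x p q c hpq hqc hpc
    have e' : E.a2 = E.s p q c ^ 2 + E.a1 * E.s p q c - (E.x p q + E.x q c + E.x c p) := by
      linear_combination e
    rw [e']
    exact Z.sub_mem (Z.add_mem (Z.pow_mem hspqc 2) (Z.mul_mem ha1 hspqc))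
      (Z.add_mem (Z.add_mem hx hxqc) hxcp)
  have ha3 : E.a3 ∈ Z := by
    have e := h.y_symm p q hpq
    have e' : E.a3 = - E.a1 * E.x p q - (E.y p q + E.y q p) := by
      linear_combination e
    rw [e']
    exact Z.sub_mem (Z.mul_mem (Z.neg_mem ha1) hx) (Z.add_mem hy hyqp)
  have ha4 : E.a4 ∈ Z := by
    have e := h.r8 p q c hpq hqc hpc
    have e' : E.a4 = E.s p q c * (E.y p q + E.y q c + E.a1 * E.x q c + E.a3)
        - (E.x p q ^ 2 + E.x p q * E.x q c + E.x q c ^ 2 + E.a2 * (E.x p q + E.x q c))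
        + E.a1 * E.y p q := by
      linear_combination -e
    rw [e']
    exact Z.add_mem (Z.sub_mem (Z.mul_mem hspqc (Z.add_mem (Z.add_mem (Z.add_mem hy hyqc)
      (Z.mul_mem ha1 hxqc)) ha3)) (Z.add_mem (Z.add_mem (Z.add_mem (Z.pow_mem hx 2)
      (Z.mul_mem hx hxqc)) (Z.pow_mem hxqc 2)) (Z.mul_mem ha2 (Z.add_mem hx hxqc))))
      (Z.mul_mem ha1 hy)
  have ha6 : E.a6 ∈ Z := by
    have e := h.weier p q hpq
    have e' : E.a6 = E.y p q ^ 2 + E.a1 * E.x p q * E.y p q + E.a3 * E.y p q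
      - (E.x p q ^ 3 + E.a2 * E.x p q ^ 2 + E.a4 * E.x p q) := by
      linear_combination -e
    rw [e']
    exact Z.sub_mem (Z.add_mem (Z.add_mem (Z.pow_mem hy 2) (Z.mul_mem (Z.mul_mem ha1 hx) hy))
      (Z.mul_mem ha3 hy)) (Z.add_mem (Z.add_mem (Z.pow_mem hx 3) (Z.mul_mem ha2 (Z.pow_mem hx 2)))
      (Z.mul_mem ha4 hx))
  exact ⟨ha1, ha2, ha3, ha4, ha6, xall, yall, hs⟩

private theorem tri_cases : ∀ i j k : Fin 5, i ≠ j → j ≠ k → i ≠ k → ∃ t : Fin 5, ∃ b : Bool,
    ((i, j, k) = (t, t + 1, if b then t + 2 else t + 3)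
    ∨ (j, k, i) = (t, t + 1, if b then t + 2 else t + 3)
    ∨ (k, i, j) = (t, t + 1, if b then t + 2 else t + 3)
    ∨ (i, k, j) = (t, t + 1, if b then t + 2 else t + 3)
    ∨ (k, j, i) = (t, t + 1, if b then t + 2 else t + 3)
    ∨ (j, i, k) = (t, t + 1, if b then t + 2 else t + 3)) := by
  decide

/-- D3m: from the five slopes `T` to all slopes of a 5-tuple. -/
theorem s_mem_of_T [DecidableEq N] {Ω : Type*} [CommRing Ω] {E : Dat N Ω} (h : E.Rel)
    {Z : Subring Ω} {p : Fin 5 → N} (hp : Function.Injective p)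
    (hk : E.s (p 0) (p 1) (p 2) = E.s (p 0) (p 1) (p 3) + E.s (p 1) (p 2) (p 4))
    (ha1 : E.a1 ∈ Z) (hT : ∀ i : Fin 5, E.s (p i) (p (i + 1)) (p (i + 3)) ∈ Z) :
    ∀ a b c, Tri (Finset.univ.image p) a b c → E.s a b c ∈ Z := by
  have hne : ∀ i j : Fin 5, i ≠ j → p i ≠ p j := fun i j hij => fun e => hij (hp e)
  -- the recursion for the consecutive slopes
  have step : ∀ i : Fin 5, E.s (p (i + 1)) (p (i + 2)) (p (i + 3))
      = E.s (p i) (p (i + 1)) (p (i + 2)) + E.s (p (i + 2)) (p (i + 3)) (p i)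
        - E.s (p i) (p (i + 1)) (p (i + 3)) := by
    intro i
    have h01 : i ≠ i + 1 := by revert i; decide
    have h02 : i ≠ i + 2 := by revert i; decide
    have h03 : i ≠ i + 3 := by revert i; decide
    have h12 : i + 1 ≠ i + 2 := by revert i; decide
    have h13 : i + 1 ≠ i + 3 := by revert i; decide
    have h23 : i + 2 ≠ i + 3 := by revert i; decide
    have c := h.cocycle (p i) (p (i + 1)) (p (i + 2)) (p (i + 3)) (hne _ _ h01) (hne _ _ h02)
      (hne _ _ h03) (hne _ _ h12) (hne _ _ h13) (hne _ _ h23)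
    have c2 := h.s_cyc (p i) (p (i + 2)) (p (i + 3)) (hne _ _ h02) (hne _ _ h23) (hne _ _ h03)
    rw [c2]
    linear_combination c
  have h0 : E.s (p 0) (p (0 + 1)) (p (0 + 2)) ∈ Z := by
    have e : E.s (p 0) (p (0 + 1)) (p (0 + 2)) = E.s (p 0) (p 1) (p 2) := rfl
    rw [e, hk]
    exact Z.add_mem (hT 0) (hT 1)
  have hT' : ∀ i : Fin 5, E.s (p (i + 2)) (p (i + 3)) (p i) ∈ Z := by
    intro i
    have e1 : i + 2 + 1 = i + 3 := by revert i; decide
    have e2 : i + 2 + 3 = i := by revert i; decide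
    have := hT (i + 2)
    rwa [e1, e2] at this
  have hstep : ∀ i : Fin 5, E.s (p i) (p (i + 1)) (p (i + 2)) ∈ Z →
      E.s (p (i + 1)) (p (i + 1 + 1)) (p (i + 1 + 2)) ∈ Z := by
    intro i
    have e1 : i + 1 + 1 = i + 2 := by revert i; decide
    have e2 : i + 1 + 2 = i + 3 := by revert i; decide
    intro hi
    rw [e1, e2, step i]
    exact Z.sub_mem (Z.add_mem hi (hT' i)) (hT i)
  have hU : ∀ i : Fin 5, E.s (p i) (p (i + 1)) (p (i + 2)) ∈ Z := by
    have h1 := hstep 0 h0
    have h2 := hstep _ h1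
    have h3 := hstep _ h2
    have h4 := hstep _ h3
    intro i
    fin_cases i
    · exact h0
    · exact h1
    · exact h2
    · exact h3
    · exact h4
  have hUT : ∀ (t : Fin 5) (b : Bool), E.s (p t) (p (t + 1)) (p (if b then t + 2 else t + 3)) ∈ Z := by
    intro t b
    cases b
    · exact hT t
    · exact hU t
  rintro a b c ⟨ha, hb, hc, hab, hbc, hac⟩
  rw [Finset.mem_image] at ha hb hc
  obtain ⟨i, -, rfl⟩ := ha
  obtain ⟨j, -, rfl⟩ := hb
  obtain ⟨k, -, rfl⟩ := hc
  obtain ⟨t, bb, ht⟩ := tri_cases i j k (fun e => hab (e ▸ rfl)) (fun e => hbc (e ▸ rfl))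
    (fun e => hac (e ▸ rfl))
  have hm := hUT t bb
  rcases ht with ht | ht | ht | ht | ht | ht <;>
    (simp only [Prod.mk.injEq] at ht; obtain ⟨r1, r2, r3⟩ := ht; rw [← r3, ← r2, ← r1] at hm)
  · exact hm
  · rwa [h.s_cyc _ _ _ hab hbc hac] at hm
  · rwa [h.s_cyc' hab hbc hac] at hm
  · -- (i, k, j)
    have e := h.s_anti' hab hbc hac
    have e' : E.s (p i) (p j) (p k) = - E.s (p i) (p k) (p j) - E.a1 := by linear_combination e
    rw [e']
    exact Z.sub_mem (Z.neg_mem hm) ha1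
  · -- (k, j, i)
    have e := h.s_anti' hab hbc hac
    have e2 := h.s_cyc' hac hbc.symm hab
    -- s j i k = s i k j ; s k j i = s i k j
    have e3 := h.s_cyc (p i) (p k) (p j) hac hbc.symm hab
    have e' : E.s (p i) (p j) (p k) = - E.s (p k) (p j) (p i) - E.a1 := by
      rw [e3]; linear_combination e
    rw [e']
    exact Z.sub_mem (Z.neg_mem hm) ha1
  · -- (j, i, k)
    have e := h.s_swap hab hbc hac
    have e' : E.s (p i) (p j) (p k) = - E.s (p j) (p i) (p k) - E.a1 := by linear_combination e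
    rw [e']
    exact Z.sub_mem (Z.neg_mem hm) ha1

/-- D7: five parameters for a core with five elements. -/
theorem core_five [DecidableEq N] {Ω : Type*} [Field Ω] {Γ₀ : Type*}
    [LinearOrderedCommGroupWithZero Γ₀] {v : Valuation Ω Γ₀} {E : Dat N Ω}
    (h : E.Rel) {p : Fin 5 → N} (hn : E.Normal v p) {R : Subring Ω}
    (_hR : LocSub v R) (hF : E.FarIn R (Finset.univ.image p)) :
    ∃ t : Fin 5 → Ω, (∀ i, t i ∈ R) ∧ ∀ Z : Subring Ω, Zer v R Z → (∀ i, t i ∈ Z) →
      E.FarIn Z (Finset.univ.image p) := by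
  have hcard : (Finset.univ.image p).card = 5 := by
    rw [Finset.card_image_of_injective _ hn.inj]; rfl
  have hmem : ∀ i, p i ∈ Finset.univ.image p := fun i =>
    Finset.mem_image_of_mem p (Finset.mem_univ i)
  have hTR : ∀ i, E.T p i ∈ R := by
    intro i
    have h01 : i ≠ i + 1 := by revert i; decide
    have h03 : i ≠ i + 3 := by revert i; decide
    have h13 : i + 1 ≠ i + 3 := by revert i; decide
    exact hF.s _ _ _ ⟨hmem _, hmem _, hmem _, fun e => h01 (hn.inj e), fun e => h13 (hn.inj e),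
      fun e => h03 (hn.inj e)⟩
  have main : ∀ Z : Subring Ω, E.a1 ∈ Z → (∀ i, E.T p i ∈ Z) →
      E.FarIn Z (Finset.univ.image p) := by
    intro Z ha1 hT
    refine farIn_of_s h hcard.ge (hmem 0) (hmem 1) (fun e => ?_) ?_ ?_ ha1
      (s_mem_of_T h hn.inj hn.kappa ha1 hT)
    · exact absurd (hn.inj e) (by decide)
    · rw [hn.x0]; exact Z.zero_mem
    · rw [hn.y0]; exact Z.zero_mem
  rcases hn.one with ⟨i0, hi0⟩ | h1
  · refine ⟨fun i => if i = i0 then E.a1 else E.T p i, ?_, ?_⟩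
    · intro i
      by_cases hi : i = i0
      · simp only [hi, if_true]; exact hF.a1
      · simp only [hi, if_false]; exact hTR i
    · intro Z _ hZ
      have ha1 : E.a1 ∈ Z := by simpa using hZ i0
      refine main Z ha1 fun i => ?_
      by_cases hi : i = i0
      · rw [hi, hi0]; exact Z.one_mem
      · have := hZ i
        simpa only [hi, if_false] using this
  · refine ⟨E.T p, hTR, ?_⟩
    intro Z _ hZ
    exact main Z (h1 ▸ Z.one_mem) hZ

end Pool.Agent.Helper49.Irr
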