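import Pool.Agent.Helper49.Irr.Near

/-!
# Invariance under integral changes of coordinates
-/

namespace Pool.Agent.Helper49.Irr

open Dat

section PartD

variable {N Ω : Type*} [Field Ω]
  {Γ₀ : Type*} [LinearOrderedCommGroupWithZero Γ₀] {v : Valuation Ω Γ₀} {E : Dat N Ω}

theorem v_unit_pow {u : Ω} (hu : v u = 1) (n : ℕ) (z : Ω) : v (u ^ n * z) = v z := by
  rw [map_mul, map_pow, hu, one_pow, one_mul]

theorem v_sub_le_iff {x r : Ω} (hr : v r ≤ 1) : v (x - r) ≤ 1 ↔ v x ≤ 1 := by
  constructor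
  · intro h
    have : v (x - r + r) ≤ 1 := vint_add h hr
    rwa [sub_add_cancel] at this
  · intro h
    exact vint_sub h hr

/-- D2a: invariance of everything under integral gauge changes. -/
theorem gauge_invariance (h : E.Rel) (hM : E.IsModel v) {u r σ τ : Ω} (hu : v u = 1)
    (hr : v r ≤ 1) (hσ : v σ ≤ 1) (hτ : v τ ≤ 1) :
    (E.gauge u r σ τ).IsModel v ∧
    (∀ a b, (E.gauge u r σ τ).Far v a b ↔ E.Far v a b) ∧
    (∀ a b, (E.gauge u r σ τ).Near v a b ↔ E.Near v a b) ∧
    (∀ a b, (E.gauge u r σ τ).NonSing v a b ↔ E.NonSing v a b) ∧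
    (∀ a b c a' b' c', v ((E.gauge u r σ τ).s a b c - (E.gauge u r σ τ).s a' b' c')
      = v (E.s a b c - E.s a' b' c')) := by
  have h1 := hM.a1
  have h2 := hM.a2
  have h3 := hM.a3
  have h4 := hM.a4
  have h6 := hM.a6
  have hu' : v u ≤ 1 := hu.le
  have hx : ∀ a b, v ((E.gauge u r σ τ).x a b) ≤ 1 ↔ v (E.x a b) ≤ 1 := by
    intro a b
    change v (u ^ 2 * (E.x a b - r)) ≤ 1 ↔ _
    rw [v_unit_pow hu, v_sub_le_iff hr]
  have hfar : ∀ a b, (E.gauge u r σ τ).Far v a b ↔ E.Far v a b := by
    intro a b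
    unfold Dat.Far
    rw [hx]
  have hnear : ∀ a b, (E.gauge u r σ τ).Near v a b ↔ E.Near v a b := by
    intro a b
    unfold Dat.Near
    rw [← not_le, ← not_le, hx]
  have hs : ∀ a b c a' b' c', v ((E.gauge u r σ τ).s a b c - (E.gauge u r σ τ).s a' b' c')
      = v (E.s a b c - E.s a' b' c') := by
    intro a b c a' b' c'
    change v (u * (E.s a b c - σ) - u * (E.s a' b' c' - σ)) = _
    have : u * (E.s a b c - σ) - u * (E.s a' b' c' - σ) = u * (E.s a b c - E.s a' b' c') := by
      ring
    rw [this, map_mul, hu, one_mul]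
  refine ⟨⟨?_, ?_, ?_, ?_, ?_, ?_, ?_⟩, hfar, hnear, ?_, hs⟩
  · change v (u * (E.a1 + 2 * σ)) ≤ 1
    (repeat (first | assumption | exact vint_one | exact vint_ofNat _ | apply vint_add | apply vint_sub | apply vint_mul | apply vint_pow | apply vint_neg))
  · change v (u ^ 2 * (E.a2 - σ * E.a1 + 3 * r - σ ^ 2)) ≤ 1
    (repeat (first | assumption | exact vint_one | exact vint_ofNat _ | apply vint_add | apply vint_sub | apply vint_mul | apply vint_pow | apply vint_neg))
  · change v (u ^ 3 * (E.a3 + r * E.a1 + 2 * τ)) ≤ 1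
    (repeat (first | assumption | exact vint_one | exact vint_ofNat _ | apply vint_add | apply vint_sub | apply vint_mul | apply vint_pow | apply vint_neg))
  · change v (u ^ 4 * (E.a4 - σ * E.a3 + 2 * r * E.a2 - (τ + r * σ) * E.a1 + 3 * r ^ 2
      - 2 * σ * τ)) ≤ 1
    (repeat (first | assumption | exact vint_one | exact vint_ofNat _ | apply vint_add | apply vint_sub | apply vint_mul | apply vint_pow | apply vint_neg))
  · change v (u ^ 6 * (E.a6 + r * E.a4 + r ^ 2 * E.a2 + r ^ 3 - τ * E.a3 - τ ^ 2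
      - r * τ * E.a1)) ≤ 1
    (repeat (first | assumption | exact vint_one | exact vint_ofNat _ | apply vint_add | apply vint_sub | apply vint_mul | apply vint_pow | apply vint_neg))
  · intro J hJ
    obtain ⟨g, ⟨a, b, c, a', b', c', t, t', rfl⟩, hg⟩ := hM.big J hJ
    exact ⟨_, ⟨a, b, c, a', b', c', t, t', rfl⟩, by rw [hs]; exact hg⟩
  · obtain ⟨I, hI, hIP⟩ := hM.exi
    exact ⟨I, hI, fun a ha b hb hab => (hx a b).2 (hIP a ha b hb hab)⟩
  · intro a b
    unfold Dat.NonSing
    rw [hfar]
    constructor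
    · rintro ⟨hf, hor⟩
      refine ⟨hf, ?_⟩
      have hxx := hf.2
      have hyy := y_le_one h hM hf
      have e1 : 2 * (E.gauge u r σ τ).y a b + (E.gauge u r σ τ).a1 * (E.gauge u r σ τ).x a b
          + (E.gauge u r σ τ).a3 = u ^ 3 * (2 * E.y a b + E.a1 * E.x a b + E.a3) := by
        dsimp only [Dat.gauge]; ring
      have e2 : 3 * (E.gauge u r σ τ).x a b ^ 2
          + 2 * (E.gauge u r σ τ).a2 * (E.gauge u r σ τ).x a b + (E.gauge u r σ τ).a4
          - (E.gauge u r σ τ).a1 * (E.gauge u r σ τ).y a b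
          = u ^ 4 * ((3 * E.x a b ^ 2 + 2 * E.a2 * E.x a b + E.a4 - E.a1 * E.y a b)
            - σ * (2 * E.y a b + E.a1 * E.x a b + E.a3)) := by
        dsimp only [Dat.gauge]; ring
      rw [e1, e2, v_unit_pow hu, v_unit_pow hu] at hor
      have hWy : v (2 * E.y a b + E.a1 * E.x a b + E.a3) ≤ 1 := by
        (repeat (first | assumption | exact vint_one | exact vint_ofNat _ | apply vint_add | apply vint_sub | apply vint_mul | apply vint_pow | apply vint_neg))
      rcases hWy.lt_or_eq with hlt | heq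
      · right
        rcases hor with hor | hor
        · rw [hor] at hlt; exact absurd hlt (lt_irrefl _)
        · have hsm : v (σ * (2 * E.y a b + E.a1 * E.x a b + E.a3)) < 1 :=
            vsmall_mul_right hσ hlt
          have := v.map_add_eq_of_lt_left (hor.symm ▸ hsm)
          rw [sub_add_cancel] at this
          rw [this, hor]
      · exact Or.inl heq
    · rintro ⟨hf, hor⟩
      refine ⟨hf, ?_⟩
      have hxx := hf.2
      have hyy := y_le_one h hM hf
      have e1 : 2 * (E.gauge u r σ τ).y a b + (E.gauge u r σ τ).a1 * (E.gauge u r σ τ).x a b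
          + (E.gauge u r σ τ).a3 = u ^ 3 * (2 * E.y a b + E.a1 * E.x a b + E.a3) := by
        dsimp only [Dat.gauge]; ring
      have e2 : 3 * (E.gauge u r σ τ).x a b ^ 2
          + 2 * (E.gauge u r σ τ).a2 * (E.gauge u r σ τ).x a b + (E.gauge u r σ τ).a4
          - (E.gauge u r σ τ).a1 * (E.gauge u r σ τ).y a b
          = u ^ 4 * ((3 * E.x a b ^ 2 + 2 * E.a2 * E.x a b + E.a4 - E.a1 * E.y a b)
            - σ * (2 * E.y a b + E.a1 * E.x a b + E.a3)) := by
        dsimp only [Dat.gauge]; ring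
      rw [e1, e2, v_unit_pow hu, v_unit_pow hu]
      have hWy : v (2 * E.y a b + E.a1 * E.x a b + E.a3) ≤ 1 := by
        (repeat (first | assumption | exact vint_one | exact vint_ofNat _ | apply vint_add | apply vint_sub | apply vint_mul | apply vint_pow | apply vint_neg))
      rcases hWy.lt_or_eq with hlt | heq
      · right
        rcases hor with hor | hor
        · rw [hor] at hlt; exact absurd hlt (lt_irrefl _)
        · have hsm : v (σ * (2 * E.y a b + E.a1 * E.x a b + E.a3)) < 1 :=
            vsmall_mul_right hσ hlt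
          rw [v.map_sub_eq_of_lt_left (hor.symm ▸ hsm), hor]
      · exact Or.inl heq

end PartD

end Pool.Agent.Helper49.Irr
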