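import Pool.Agent.Helper49.Irr.Near

/-!
# Consequences of the calculus of near and far points
-/

namespace Pool.Agent.Helper49.Irr

open Dat

section Near2

variable {N Ω : Type*} [Field Ω] {Γ₀ : Type*} [LinearOrderedCommGroupWithZero Γ₀]
  {v : Valuation Ω Γ₀} {E : Dat N Ω}

theorem far_or {a b : N} : E.Far v a b ∨ a = b ∨ E.Near v a b := by
  by_cases h1 : a = b
  · exact Or.inr (Or.inl h1)
  · rcases le_or_gt (v (E.x a b)) 1 with h2 | h2
    · exact Or.inl ⟨h1, h2⟩
    · exact Or.inr (Or.inr ⟨h1, h2⟩)

theorem not_far {a b : N} (h : ¬ E.Far v a b) : a = b ∨ E.Near v a b :=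
  far_or.resolve_left h

theorem near_of_ne {a b : N} (hab : a ≠ b) (h : ¬ E.Far v a b) : E.Near v a b :=
  (not_far h).resolve_left hab

theorem Far.not_near {a b : N} (h : E.Far v a b) : ¬ E.Near v a b :=
  fun h' => absurd h'.2 (not_lt.2 h.2)

/-- a point is equal or near to at most one element of a pairwise far set -/
theorem bad_unique (h : E.Rel) (hM : E.IsModel v) {I : Finset N} (hI : E.PFar v I) {c i j : N}
    (hi : i ∈ I) (hj : j ∈ I) (hij : i ≠ j) (h1 : ¬ E.Far v c i) (h2 : ¬ E.Far v c j) : False := by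
  have hfar := hI i hi j hj hij
  rcases not_far h1 with rfl | h1
  · rcases not_far h2 with rfl | h2
    · exact hij rfl
    · exact absurd h2.2 (not_lt.2 hfar)
  · rcases not_far h2 with rfl | h2
    · exact absurd (near_symm h h1).2 (not_lt.2 hfar)
    · exact absurd (near_trans h hM (near_symm h h1) h2 hij).2 (not_lt.2 hfar)

/-- a set with fewer than five elements misses some position -/
theorem exists_far_of_card (h : E.Rel) (hM : E.IsModel v) {S : Finset N} (hc : S.card < 5) :
    ∃ e, ∀ s ∈ S, E.Far v s e := by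
  classical
  obtain ⟨I, hI5, hI⟩ := hM.exi
  by_contra hcon
  push Not at hcon
  choose! f hfS hf using fun e (_ : e ∈ I) => hcon e
  have h1 : I.card ≤ S.card := by
    apply Finset.card_le_card_of_injOn f hfS
    intro i hi j hj hij
    by_contra hne
    have e1 := hf i hi
    have e2 := hf j hj
    rw [hij] at e1
    exact bad_unique h hM hI hi hj hne e1 e2
  omega

/-- D3c: a third position. -/
theorem exists_far₂ (h : E.Rel) (hM : E.IsModel v) (a b : N) :
    ∃ e, E.Far v a e ∧ E.Far v b e := by
  classical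
  obtain ⟨e, he⟩ := exists_far_of_card h hM (S := {a, b})
    (lt_of_le_of_lt Finset.card_le_two (by norm_num))
  exact ⟨e, he a (by simp), he b (by simp)⟩

/-- D3d: every far pair lies in a 5-set of different positions, and more generally such sets can be
completed. -/
theorem exists_pfar_superset (h : E.Rel) (hM : E.IsModel v) {S : Finset N} (hS : E.PFar v S)
    (hc : S.card ≤ 5) : ∃ J : Finset N, S ⊆ J ∧ J.card = 5 ∧ E.PFar v J := by
  classical
  obtain ⟨n, hn⟩ : ∃ n, n = 5 - S.card := ⟨_, rfl⟩
  induction n generalizing S with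
  | zero => exact ⟨S, Finset.Subset.refl S, by omega, hS⟩
  | succ n ih =>
    obtain ⟨e, he⟩ := exists_far_of_card h hM (S := S) (by omega)
    have heS : e ∉ S := fun hmem => (he e hmem).1 rfl
    have hcard := Finset.card_insert_of_notMem heS
    obtain ⟨J, h1, h2, h3⟩ := ih (S := insert e S) (by
      intro a ha b hb hab
      rw [Finset.mem_insert] at ha hb
      rcases ha with rfl | ha
      · rcases hb with rfl | hb
        · exact absurd rfl hab
        · exact (far_symm h (he b hb)).2
      · rcases hb with rfl | hb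
        · exact (he a ha).2
        · exact hS a ha b hb hab) (by omega) (by omega)
    exact ⟨J, (Finset.subset_insert e S).trans h1, h2, h3⟩

theorem near_s_close_aux (h : E.Rel) (hM : E.IsModel v) {a b c d : N} (hab : E.Near v a b)
    (hac : E.Far v a c) (had : E.Far v a d) (hcd : E.Far v c d) :
    v (E.s a b c - E.s a b d) < 1 := by
  have hbc := far_of_near h hM hab hac
  have hbd := far_of_near h hM hab had
  obtain ⟨s1, _⟩ := near_s h hM hab had
  have s2 := s_le_one h hM hac hcd had
  have e1 : v (E.s a b d - E.s a c d) = v (E.s a b d) :=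
    v.map_sub_eq_of_lt_left (s2.trans_lt s1)
  have hD0 : E.s a b d - E.s a c d ≠ 0 := by
    intro h0
    rw [h0, map_zero] at e1
    rw [← e1] at s1
    exact absurd s1 (not_lt.2 zero_le)
  have hx := h.x_diff a c b d hac.1 hab.1 had.1 hbc.1.symm hcd.1 hbd.1
  rw [h.s_anti' hab.1 hbc.1 hac.1] at hx
  have e : E.s a b c - E.s a b d = (E.s a b d - E.s a c d)⁻¹ * (E.x a c - E.x b d) := by
    field_simp
    linear_combination - hx
  have hu : v (E.s a b d - E.s a c d)⁻¹ < 1 := by
    rw [map_inv₀, e1]; exact inv_lt_one_of_one_lt₀ s1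
  rw [e]
  exact vsmall_mul_left hu (vint_sub hac.2 hbd.2)

theorem near_s_close (h : E.Rel) (hM : E.IsModel v) {a b c d : N} (hab : E.Near v a b)
    (hac : E.Far v a c) (had : E.Far v a d) (hcd : c ≠ d) :
    v (E.s a b c - E.s a b d) < 1 := by
  by_cases hfar : E.Far v c d
  · exact near_s_close_aux h hM hab hac had hfar
  · have hnear := near_of_ne hcd hfar
    obtain ⟨e, h1, h2⟩ := exists_far₂ h hM a c
    have h3 := far_of_near h hM hnear h2
    have e1 := near_s_close_aux h hM hab hac h1 h2
    have e2 := near_s_close_aux h hM hab h1 had (far_symm h h3)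
    have : E.s a b c - E.s a b d = (E.s a b c - E.s a b e) + (E.s a b e - E.s a b d) := by ring
    rw [this]
    exact vsmall_add e1 e2

/-- D3g: bound for all slopes with indices in `J`. -/
theorem s_le_of_close (h : E.Rel) (hM : E.IsModel v) {J : Finset N} {a b e : N}
    (hab : E.Near v a b) (hae : E.Far v a e)
    (hclose : ∀ c ∈ J, ∀ d ∈ J, E.Near v c d → v (E.x c d) ≤ v (E.x a b)) {c d f : N}
    (hT : Tri J c d f) : v (E.s c d f) ≤ v (E.s a b e) := by
  obtain ⟨M1, M2⟩ := near_s h hM hab hae
  have key : ∀ c ∈ J, ∀ d ∈ J, ∀ f, E.Near v c d → E.Far v c f →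
      v (E.s c d f) ≤ v (E.s a b e) := by
    intro c hc d hd f hcd hcf
    have h1 := (near_s h hM hcd hcf).2
    have h2 := hclose c hc d hd hcd
    rw [← h1, ← M2] at h2
    exact le_of_pow_le_pow_left₀ two_ne_zero zero_le h2
  by_cases hcd : E.Far v c d
  · by_cases hdf : E.Far v d f
    · by_cases hcf : E.Far v c f
      · exact (s_le_one h hM hcd hdf hcf).trans M1.le
      · have hn := near_of_ne hT.hac hcf
        rw [← h.s_cyc' hT.hab hT.hbc hT.hac]
        exact key f hT.hc c hT.ha d (near_symm h hn) (far_symm h hdf)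
    · have hn := near_of_ne hT.hbc hdf
      rw [← h.s_cyc c d f hT.hab hT.hbc hT.hac]
      exact key d hT.hb f hT.hc c hn (far_symm h hcd)
  · have hn := near_of_ne hT.hab hcd
    by_cases hcf : E.Far v c f
    · exact key c hT.ha d hT.hb f hn hcf
    · have hn2 := near_of_ne hT.hac hcf
      obtain ⟨g, hg, _⟩ := exists_far₂ h hM c c
      have hdg := far_of_near h hM hn hg
      have hfg := far_of_near h hM hn2 hg
      rw [h.s_decomp hT.hab hT.hac hg.1 hT.hbc hdg.1 hfg.1]
      refine v.map_add_le (v.map_add_le (v.map_add_le ?_ ?_) ?_) (hM.a1.trans M1.le)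
      · exact key c hT.ha d hT.hb g hn hg
      · exact key d hT.hb f hT.hc g (near_trans h hM (near_symm h hn) hn2 hT.hbc) hdg
      · exact key f hT.hc c hT.ha g (near_symm h hn2) hfg

end Near2

end Pool.Agent.Helper49.Irr
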