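import Pool.Agent.Helper49.Irr.FarIn

/-!
# IR-D8: `k` parameters for a polygon
-/

namespace Pool.Agent.Helper49.Irr

open Dat

variable {N Ω : Type*} [DecidableEq N] [Field Ω]
  {Γ₀ : Type*} [LinearOrderedCommGroupWithZero Γ₀] {v : Valuation Ω Γ₀} {E : Dat N Ω}

/-- cyclic indexing -/
private def cyc {k : ℕ} (hk : 0 < k) (c : Fin k → N) (n : ℕ) : N := c ⟨n % k, Nat.mod_lt _ hk⟩

omit [DecidableEq N] in
private theorem cyc_mod {k : ℕ} (hk : 0 < k) (c : Fin k → N) {m n : ℕ} (h : m % k = n % k) :
    cyc hk c m = cyc hk c n := by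
  unfold cyc
  congr 1
  exact Fin.ext h

omit [DecidableEq N] in
private theorem cyc_ne {k : ℕ} (hk : 0 < k) {c : Fin k → N} (hc : Function.Injective c) {m n : ℕ}
    (h1 : m < n) (h2 : n < m + k) : cyc hk c m ≠ cyc hk c n := by
  intro h
  have h3 := congrArg Fin.val (hc h)
  simp only at h3
  have h4 : (n - m) % k = 0 := Nat.sub_mod_eq_zero_of_mod_eq h3.symm
  have h5 : (n - m) % k = n - m := Nat.mod_eq_of_lt (by omega)
  omega

omit [DecidableEq N] in
private theorem cyc_of_lt {k : ℕ} (hk : 0 < k) (c : Fin k → N) {n : ℕ} (h : n < k) :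
    cyc hk c n = c ⟨n, h⟩ := by
  unfold cyc
  congr 1
  exact Fin.ext (Nat.mod_eq_of_lt h)

omit [DecidableEq N] in
/-- cyclically positive triples have small slopes -/
private theorem cyc_small (h : E.Rel) {k : ℕ} (hk : 0 < k) {c : Fin k → N} (hc : Function.Injective c)
    (hpos : ∀ i j l : Fin k, i < j → j < l → v (E.s (c i) (c j) (c l)) < 1) {a b d : ℕ}
    (hab : a < b) (hbd : b < d) (hda : d < a + k) :
    v (E.s (cyc hk c a) (cyc hk c b) (cyc hk c d)) < 1 := by
  have key : ∀ a b d : ℕ, a < b → b < d → d < a + k → a < k →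
      v (E.s (cyc hk c a) (cyc hk c b) (cyc hk c d)) < 1 := by
    intro a b d hab hbd hda hak
    rcases lt_or_ge d k with hd | hd
    · rw [cyc_of_lt hk c hak, cyc_of_lt hk c (hbd.trans hd), cyc_of_lt hk c hd]
      exact hpos _ _ _ hab hbd
    · rcases lt_or_ge b k with hb | hb
      · have e : cyc hk c d = cyc hk c (d - k) := cyc_mod hk c (by
          conv_lhs => rw [show d = (d - k) + k by omega]
          exact Nat.add_mod_right _ _)
        have n1 := cyc_ne hk hc (m := a) (n := b) hab (by omega)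
        have n2 := cyc_ne hk hc (m := b) (n := d) hbd (by omega)
        have n3 := cyc_ne hk hc (m := a) (n := d) (by omega) hda
        rw [← h.s_cyc' n1 n2 n3, e, cyc_of_lt hk c hak, cyc_of_lt hk c hb,
          cyc_of_lt hk c (show d - k < k by omega)]
        exact hpos _ _ _ (show d - k < a by omega) hab
      · have e : cyc hk c d = cyc hk c (d - k) := cyc_mod hk c (by
          conv_lhs => rw [show d = (d - k) + k by omega]
          exact Nat.add_mod_right _ _)
        have e' : cyc hk c b = cyc hk c (b - k) := cyc_mod hk c (by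
          conv_lhs => rw [show b = (b - k) + k by omega]
          exact Nat.add_mod_right _ _)
        have n1 := cyc_ne hk hc (m := a) (n := b) hab (by omega)
        have n2 := cyc_ne hk hc (m := b) (n := d) hbd (by omega)
        have n3 := cyc_ne hk hc (m := a) (n := d) (by omega) hda
        rw [← h.s_cyc _ _ _ n1 n2 n3, e, e', cyc_of_lt hk c hak,
          cyc_of_lt hk c (show b - k < k by omega), cyc_of_lt hk c (show d - k < k by omega)]
        exact hpos _ _ _ (show b - k < d - k by omega) (show d - k < a by omega)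
  have hq : k * (a / k) ≤ a := Nat.mul_div_le a k
  have hlt : a - k * (a / k) < k := by
    have := Nat.mod_lt a hk
    have h' := Nat.mod_add_div a k
    omega
  have red : ∀ n, k * (a / k) ≤ n → cyc hk c n = cyc hk c (n - k * (a / k)) := by
    intro n hn
    refine cyc_mod hk c ?_
    conv_lhs => rw [show n = (n - k * (a / k)) + k * (a / k) by omega]
    exact Nat.add_mul_mod_self_left _ _ _
  rw [red a hq, red b (by omega), red d (by omega)]
  exact key _ _ _ (by omega) (by omega) (by omega) hlt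

omit [DecidableEq N] in
/-- the six-point relation in a local ring -/
private theorem hex_mem (h : E.Rel) {R Z : Subring Ω} (hR : LocSub v R) (hZ : Zer v R Z)
    (ha1 : E.a1 = 1) {a b c d e f : N}
    (hab : a ≠ b) (hac : a ≠ c) (had : a ≠ d) (hae : a ≠ e) (haf : a ≠ f) (hbc : b ≠ c)
    (hbd : b ≠ d) (hbe : b ≠ e) (hbf : b ≠ f) (hcd : c ≠ d) (hce : c ≠ e) (hcf : c ≠ f)
    (hde : d ≠ e) (hdf : d ≠ f) (hef : e ≠ f)
    (hs : ∀ i j l, (i, j, l) ∈ [(a,b,d), (a,b,f), (a,c,e), (a,d,f), (a,b,e), (f,a,e), (f,a,d),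
      (c,d,b), (c,d,a), (d,e,c), (d,e,b)] → E.s i j l ∈ R ∧ v (E.s i j l) < 1) :
    E.s a b e - E.s a b d ∈ Z := by
  have hx := h.hexagon hab hac had hae haf hbc hbd hbe hbf hcd hce hcf hde hdf hef
  obtain ⟨r1, v1⟩ := hs a b d (by simp)
  obtain ⟨r2, v2⟩ := hs a b f (by simp)
  obtain ⟨r3, v3⟩ := hs a c e (by simp)
  obtain ⟨r4, v4⟩ := hs a d f (by simp)
  obtain ⟨r5, v5⟩ := hs a b e (by simp)
  obtain ⟨r6, v6⟩ := hs f a e (by simp)
  obtain ⟨r7, v7⟩ := hs f a d (by simp)
  obtain ⟨r8, v8⟩ := hs c d b (by simp)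
  obtain ⟨r9, v9⟩ := hs c d a (by simp)
  obtain ⟨r10, v10⟩ := hs d e c (by simp)
  obtain ⟨r11, v11⟩ := hs d e b (by simp)
  set u := E.s a b d - E.s a b f + E.s a c e + E.s a d f + E.a1 with hu
  have huR : u ∈ R := by
    rw [hu, ha1]
    exact R.add_mem (R.add_mem (R.add_mem (R.sub_mem r1 r2) r3) r4) R.one_mem
  have hsm : v (E.s a b d - E.s a b f + E.s a c e + E.s a d f) < 1 := by
    refine lt_of_le_of_lt (v.map_add _ _) (max_lt ?_ v4)
    refine lt_of_le_of_lt (v.map_add _ _) (max_lt ?_ v3)
    exact lt_of_le_of_lt (v.map_sub _ _) (max_lt v1 v2)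
  have huv : v u = 1 := by
    rw [hu, ha1, v.map_add_eq_of_lt_right (by rwa [v.map_one]), v.map_one]
  have hu0 : u ≠ 0 := by
    intro h0
    rw [h0, v.map_zero] at huv
    exact zero_ne_one huv
  have hmem : u * (E.s a b e - E.s a b d) ∈ Z := by
    rw [hx]
    refine Z.sub_mem ?_ ?_
    · exact hZ.small_mul_small _ (R.sub_mem r6 r7) (lt_of_le_of_lt (v.map_sub _ _) (max_lt v6 v7))
        _ (R.sub_mem r2 r5) (lt_of_le_of_lt (v.map_sub _ _) (max_lt v2 v5))
    · exact hZ.small_mul_small _ (R.sub_mem r8 r9) (lt_of_le_of_lt (v.map_sub _ _) (max_lt v8 v9))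
        _ (R.sub_mem r10 r11) (lt_of_le_of_lt (v.map_sub _ _) (max_lt v10 v11))
  have hsmall : v (u * (E.s a b e - E.s a b d)) < 1 := by
    rw [v.map_mul, huv, one_mul]
    exact lt_of_le_of_lt (v.map_sub _ _) (max_lt v5 v1)
  have := hZ.small_mul _ hmem hsmall _ (hR.inv_mem u huR huv)
  rwa [mul_comm u, mul_assoc, mul_inv_cancel₀ hu0, mul_one] at this

/-- D8: `k` parameters for a polygon. -/
theorem core_poly (h : E.Rel) {k : ℕ} (hk : 6 ≤ k) {c : Fin k → N} (hc : Function.Injective c)
    (hn : E.Normal v (fun i : Fin 5 => c (Fin.castLE (by omega) i)))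
    (hpos : ∀ i j l : Fin k, i < j → j < l → v (E.s (c i) (c j) (c l)) < 1)
    {R : Subring Ω} (hR : LocSub v R) (hF : E.FarIn R (Finset.univ.image c)) :
    ∃ t : Fin k → Ω, (∀ i, t i ∈ R) ∧ ∀ Z : Subring Ω, Zer v R Z → (∀ i, t i ∈ Z) →
      E.FarIn Z (Finset.univ.image c) := by
  have hk0 : 0 < k := by omega
  set q : ℕ → N := cyc hk0 c with hq
  have qmem : ∀ n, q n ∈ Finset.univ.image c := fun n =>
    Finset.mem_image_of_mem _ (Finset.mem_univ _)
  have hne : ∀ {m n : ℕ}, m < n → n < m + k → q m ≠ q n := fun h1 h2 => cyc_ne hk0 hc h1 h2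
  have hsv : ∀ {a b d : ℕ}, a < b → b < d → d < a + k → v (E.s (q a) (q b) (q d)) < 1 :=
    fun h1 h2 h3 => cyc_small h hk0 hc hpos h1 h2 h3
  have hsR : ∀ {a b d : ℕ}, a < b → b < d → d < a + k → E.s (q a) (q b) (q d) ∈ R :=
    fun {a b d} h1 h2 h3 => hF.s _ _ _ ⟨qmem a, qmem b, qmem d, hne h1 (by omega),
      hne h2 (by omega), hne (h1.trans h2) h3⟩
  have qk : ∀ n, q (n + k) = q n := fun n => cyc_mod hk0 c (Nat.add_mod_right _ _)
  have qi : ∀ (i : Fin k), c i = q i := fun i => (cyc_of_lt hk0 c i.2).symm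
  -- `a1 = 1`
  have ha1 : E.a1 = 1 := by
    rcases hn.one with ⟨i, hi⟩ | hi
    · exfalso
      have hlt : v (E.T (fun i : Fin 5 => c (Fin.castLE (by omega) i)) i) < 1 := by
        have hT : ∀ i j l : Fin 5, i < j → j < l →
            v (E.s (c (Fin.castLE (by omega) i)) (c (Fin.castLE (by omega) j))
              (c (Fin.castLE (by omega) l))) < 1 := fun i j l hij hjl => hpos _ _ _ hij hjl
        have hne5 : ∀ i j : Fin 5, i ≠ j → c (Fin.castLE (by omega) i : Fin k) ≠
            c (Fin.castLE (by omega) j : Fin k) := fun i j hij => hn.inj.ne hij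
        unfold Dat.T
        fin_cases i
        · exact hT 0 1 3 (by decide) (by decide)
        · exact hT 1 2 4 (by decide) (by decide)
        · have := hT 0 2 3 (by decide) (by decide)
          rw [← h.s_cyc _ _ _ (hne5 0 2 (by decide)) (hne5 2 3 (by decide))
            (hne5 0 3 (by decide))] at this
          exact this
        · have := hT 1 3 4 (by decide) (by decide)
          rw [← h.s_cyc _ _ _ (hne5 1 3 (by decide)) (hne5 3 4 (by decide))
            (hne5 1 4 (by decide))] at this
          exact this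
        · have := hT 0 2 4 (by decide) (by decide)
          rw [← h.s_cyc' (hne5 0 2 (by decide)) (hne5 2 4 (by decide))
            (hne5 0 4 (by decide))] at this
          exact this
      rw [hi, v.map_one] at hlt
      exact lt_irrefl _ hlt
    · exact hi
  refine ⟨fun i => E.s (q i) (q (i + 1)) (q (i + 3)), fun i => hsR (by omega) (by omega)
    (by omega), ?_⟩
  intro Z hZ ht
  -- all the parameters
  have ht' : ∀ n, E.s (q n) (q (n + 1)) (q (n + 3)) ∈ Z := by
    intro n
    have hm : ∀ j, q (n % k + j) = q (n + j) := fun j => cyc_mod hk0 c (by simp)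
    have := ht ⟨n % k, Nat.mod_lt _ hk0⟩
    simp only at this
    rw [hm 1, hm 3] at this
    have e : q (n % k) = q n := cyc_mod hk0 c (by simp)
    rwa [e] at this
  -- the hexagon relation
  have hex : ∀ a b c d e f : ℕ, a < b → b < c → c < d → d < e → e < f → f < a + k →
      E.s (q a) (q b) (q e) - E.s (q a) (q b) (q d) ∈ Z := by
    intro a b c d e f hab hbc hcd hde hef hfa
    have hqf : q f = q f := rfl
    refine hex_mem h hR hZ ha1 (c := q c) (f := q f) (hne (by omega) (by omega))
      (hne (by omega) (by omega)) (hne (by omega) (by omega)) (hne (by omega) (by omega))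
      (hne (by omega) (by omega)) (hne (by omega) (by omega)) (hne (by omega) (by omega))
      (hne (by omega) (by omega)) (hne (by omega) (by omega)) (hne (by omega) (by omega))
      (hne (by omega) (by omega)) (hne (by omega) (by omega)) (hne (by omega) (by omega))
      (hne (by omega) (by omega)) (hne (by omega) (by omega)) ?_
    intro i j l hmem
    simp only [List.mem_cons, Prod.mk.injEq, List.not_mem_nil, or_false] at hmem
    rcases hmem with ⟨rfl, rfl, rfl⟩ | ⟨rfl, rfl, rfl⟩ | ⟨rfl, rfl, rfl⟩ | ⟨rfl, rfl, rfl⟩ |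
      ⟨rfl, rfl, rfl⟩ | ⟨rfl, rfl, rfl⟩ | ⟨rfl, rfl, rfl⟩ | ⟨rfl, rfl, rfl⟩ | ⟨rfl, rfl, rfl⟩ |
      ⟨rfl, rfl, rfl⟩ | ⟨rfl, rfl, rfl⟩
    · exact ⟨hsR (by omega) (by omega) (by omega), hsv (by omega) (by omega) (by omega)⟩
    · exact ⟨hsR (by omega) (by omega) (by omega), hsv (by omega) (by omega) (by omega)⟩
    · exact ⟨hsR (by omega) (by omega) (by omega), hsv (by omega) (by omega) (by omega)⟩
    · exact ⟨hsR (by omega) (by omega) (by omega), hsv (by omega) (by omega) (by omega)⟩
    · exact ⟨hsR (by omega) (by omega) (by omega), hsv (by omega) (by omega) (by omega)⟩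
    · rw [← qk a, ← qk e]
      exact ⟨hsR (by omega) (by omega) (by omega), hsv (by omega) (by omega) (by omega)⟩
    · rw [← qk a, ← qk d]
      exact ⟨hsR (by omega) (by omega) (by omega), hsv (by omega) (by omega) (by omega)⟩
    · rw [← qk b]
      exact ⟨hsR (by omega) (by omega) (by omega), hsv (by omega) (by omega) (by omega)⟩
    · rw [← qk a]
      exact ⟨hsR (by omega) (by omega) (by omega), hsv (by omega) (by omega) (by omega)⟩
    · rw [← qk c]
      exact ⟨hsR (by omega) (by omega) (by omega), hsv (by omega) (by omega) (by omega)⟩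
    · rw [← qk b]
      exact ⟨hsR (by omega) (by omega) (by omega), hsv (by omega) (by omega) (by omega)⟩
  -- step 1
  have st1 : ∀ a m : ℕ, 3 ≤ m → m + 2 ≤ k → E.s (q a) (q (a + 1)) (q (a + m)) ∈ Z := by
    intro a m hm hmk
    rcases Nat.eq_or_lt_of_le hm with rfl | hm
    · exact ht' a
    · have h1 := hex a (a + 1) (a + 2) (a + 3) (a + m) (a + k - 1) (by omega) (by omega) (by omega)
        (by omega) (by omega) (by omega)
      have h2 := Z.add_mem h1 (ht' a)
      rwa [sub_add_cancel] at h2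
  -- step 2
  have st2 : ∀ a : ℕ, E.s (q a) (q (a + 1)) (q (a + 2)) ∈ Z := by
    intro a
    induction a with
    | zero =>
      have hkap := hn.kappa
      have e : ∀ (j : ℕ) (hj : j < 5), c (Fin.castLE (show 5 ≤ k by omega) ⟨j, hj⟩) = q j :=
        fun j hj => qi _
      have e0 := e 0 (by norm_num)
      have e1 := e 1 (by norm_num)
      have e2 := e 2 (by norm_num)
      have e3 := e 3 (by norm_num)
      have e4 := e 4 (by norm_num)
      have hkap' : E.s (q 0) (q 1) (q 2) = E.s (q 0) (q 1) (q 3) + E.s (q 1) (q 2) (q 4) := by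
        rw [← e0, ← e1, ← e2, ← e3, ← e4]
        exact hkap
      show E.s (q 0) (q 1) (q 2) ∈ Z
      rw [hkap']
      exact Z.add_mem (ht' 0) (ht' 1)
    | succ a ih =>
      have hcc := h.cocycle (q a) (q (a + 1)) (q (a + 2)) (q (a + 3)) (hne (by omega) (by omega))
        (hne (by omega) (by omega)) (hne (by omega) (by omega)) (hne (by omega) (by omega))
        (hne (by omega) (by omega)) (hne (by omega) (by omega))
      have h1 := st1 (a + 2) (k - 2) (by omega) (by omega)
      have e : q (a + 2 + (k - 2)) = q a := by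
        rw [show a + 2 + (k - 2) = a + k by omega]
        exact qk a
      rw [e] at h1
      rw [show a + 2 + 1 = a + 3 by ring, h.s_cyc (q a) (q (a + 2)) (q (a + 3))
        (hne (by omega) (by omega)) (hne (by omega) (by omega)) (hne (by omega) (by omega))] at h1
      have : E.s (q (a + 1)) (q (a + 1 + 1)) (q (a + 1 + 2)) = E.s (q a) (q (a + 2)) (q (a + 3))
          - E.s (q a) (q (a + 1)) (q (a + 3)) + E.s (q a) (q (a + 1)) (q (a + 2)) := by
        rw [show a + 1 + 1 = a + 2 by ring, show a + 1 + 2 = a + 3 by ring]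
        linear_combination hcc
      rw [this]
      exact Z.add_mem (Z.sub_mem h1 (ht' a)) ih
  -- step 3
  have st3 : ∀ a m : ℕ, 2 ≤ m → m < k → E.s (q a) (q (a + 1)) (q (a + m)) ∈ Z := by
    intro a m hm hmk
    rcases Nat.eq_or_lt_of_le hm with rfl | hm
    · exact st2 a
    rcases Nat.lt_or_ge (m + 1) k with hm' | hm'
    · exact st1 a m hm (by omega)
    · have hmk' : m = k - 1 := by omega
      subst hmk'
      have h1 := st2 (a + (k - 1))
      have e1 : q (a + (k - 1) + 1) = q a := by
        rw [show a + (k - 1) + 1 = a + k by omega]; exact qk a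
      have e2 : q (a + (k - 1) + 2) = q (a + 1) := by
        rw [show a + (k - 1) + 2 = (a + 1) + k by omega]; exact qk _
      rw [e1, e2, h.s_cyc' (hne (by omega) (by omega)) (hne (by omega) (by omega))
        (hne (by omega) (by omega))] at h1
      exact h1
  -- step 4
  have st4 : ∀ a b d : ℕ, a < b → b < d → d < a + k → E.s (q a) (q b) (q d) ∈ Z := by
    intro a b d hab
    induction b, hab using Nat.le_induction with
    | base =>
      intro h1 h2
      have := st3 a (d - a) (by omega) (by omega)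
      rw [show a + (d - a) = d by omega] at this
      exact this
    | succ b hb ih =>
      intro h1 h2
      have hb' : a < b := hb
      have ih' := ih (by omega) h2
      have hcc := h.cocycle (q a) (q b) (q (b + 1)) (q d) (hne (by omega) (by omega))
        (hne (by omega) (by omega)) (hne (by omega) (by omega)) (hne (by omega) (by omega))
        (hne (by omega) (by omega)) (hne (by omega) (by omega))
      have g1 := st3 b (d - b) (by omega) (by omega)
      rw [show b + (d - b) = d by omega] at g1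
      have g2 := st3 b (a + k - b) (by omega) (by omega)
      rw [show b + (a + k - b) = a + k by omega, qk, h.s_cyc (q a) (q b) (q (b + 1))
        (hne (by omega) (by omega)) (hne (by omega) (by omega)) (hne (by omega) (by omega))] at g2
      have : E.s (q a) (q (b + 1)) (q d) = E.s (q b) (q (b + 1)) (q d) + E.s (q a) (q b) (q d)
          - E.s (q a) (q b) (q (b + 1)) := by linear_combination - hcc
      rw [this]
      exact Z.sub_mem (Z.add_mem g1 ih') g2
  -- step 5
  have ha1Z : E.a1 ∈ Z := by rw [ha1]; exact Z.one_mem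
  have st5 : ∀ i j l : Fin k, i ≠ j → j ≠ l → i ≠ l → E.s (c i) (c j) (c l) ∈ Z := by
    intro i j l hij hjl hil
    have hlt : ∀ i j l : Fin k, i < j → j < l → E.s (c i) (c j) (c l) ∈ Z := by
      intro i j l hij hjl
      rw [qi i, qi j, qi l]
      exact st4 _ _ _ hij hjl (by omega)
    have cij := hc.ne hij
    have cjl := hc.ne hjl
    have cil := hc.ne hil
    have hcyc : ∀ i j l : Fin k, i ≠ j → j ≠ l → i ≠ l →
        (E.s (c j) (c l) (c i) ∈ Z → E.s (c i) (c j) (c l) ∈ Z) := by
      intro i j l hij hjl hil hm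
      rwa [h.s_cyc _ _ _ (hc.ne hij) (hc.ne hjl) (hc.ne hil)] at hm
    have hsw : ∀ i j l : Fin k, i ≠ j → j ≠ l → i ≠ l →
        (E.s (c i) (c l) (c j) ∈ Z → E.s (c i) (c j) (c l) ∈ Z) := by
      intro i j l hij hjl hil hm
      rw [h.s_anti' (hc.ne hij) (hc.ne hjl) (hc.ne hil)] at hm
      have := Z.neg_mem (Z.add_mem hm ha1Z)
      rwa [show -(-E.s (c i) (c j) (c l) - E.a1 + E.a1) = E.s (c i) (c j) (c l) by ring] at this
    rcases lt_or_gt_of_ne hij with h1 | h1 <;> rcases lt_or_gt_of_ne hjl with h2 | h2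
    · exact hlt _ _ _ h1 h2
    · rcases lt_or_gt_of_ne hil with h3 | h3
      · -- i < l < j
        exact hsw _ _ _ hij hjl hil (hlt _ _ _ h3 h2)
      · -- l < i < j
        exact hcyc _ _ _ hij hjl hil (hcyc _ _ _ hjl hil.symm hij.symm (hlt _ _ _ h3 h1))
    · rcases lt_or_gt_of_ne hil with h3 | h3
      · -- j < i < l
        exact hcyc _ _ _ hij hjl hil (hsw _ _ _ hjl hil.symm hij.symm (hlt _ _ _ h1 h3))
      · -- j < l < i
        exact hcyc _ _ _ hij hjl hil (hlt _ _ _ h2 h3)
    · -- l < j < i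
      exact hsw _ _ _ hij hjl hil (hcyc _ _ _ hil hjl.symm hij (hlt _ _ _ h2 h1))
  have hcard : 5 ≤ (Finset.univ.image c).card := by
    rw [Finset.card_image_of_injective _ hc, Finset.card_univ, Fintype.card_fin]
    omega
  refine farIn_of_s h hcard (p := c (Fin.castLE (by omega) (0 : Fin 5)))
    (q := c (Fin.castLE (by omega) (1 : Fin 5))) (Finset.mem_image_of_mem _ (Finset.mem_univ _))
    (Finset.mem_image_of_mem _ (Finset.mem_univ _)) (hn.inj.ne (by decide)) ?_ ?_ ha1Z ?_
  · have := hn.x0
    rw [this]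
    exact Z.zero_mem
  · have := hn.y0
    rw [this]
    exact Z.zero_mem
  · rintro a b d ⟨ha, hb, hd, hab, hbd, had⟩
    obtain ⟨i, -, rfl⟩ := Finset.mem_image.mp ha
    obtain ⟨j, -, rfl⟩ := Finset.mem_image.mp hb
    obtain ⟨l, -, rfl⟩ := Finset.mem_image.mp hd
    refine st5 i j l ?_ ?_ ?_
    · rintro rfl; exact hab rfl
    · rintro rfl; exact hbd rfl
    · rintro rfl; exact had rfl

end Pool.Agent.Helper49.Irr
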