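import Pool.Agent.Helper49.Irr.ExistsModel
import Pool.Agent.Helper49.Irr.GaugeInv
import Pool.Agent.Helper49.Irr.ExistsNormal
import Pool.Agent.Helper49.Irr.Near2
import Pool.Agent.Helper49.Irr.FarIn
import Pool.Agent.Helper49.Irr.Member4
import Pool.Agent.Helper49.Irr.Core
import Pool.Agent.Helper49.Irr.Poly
import Pool.Agent.Helper49.Irr.FarExtend
import Pool.Agent.Helper49.Irr.ClusStep
import Pool.Agent.Helper49.Irr.ClusEnd

/-!
# The local theorem: at most `N` parameters kill all derivations at every point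
-/

namespace Pool.Agent.Helper49.Irr

open Dat

variable {N Ω : Type*} [Fintype N] [DecidableEq N] [Field Ω]
  {Γ₀ : Type*} [LinearOrderedCommGroupWithZero Γ₀] {v : Valuation Ω Γ₀} {E : Dat N Ω}

omit [Fintype N] [DecidableEq N] in
/-- the `G`-sets after a gauge change -/
theorem mem_G_gauge {u r σ τ g : Ω} {J : Finset N} :
    g ∈ (E.gauge u r σ τ).G J ↔ ∃ g₀ ∈ E.G J, g = u * g₀ := by
  constructor
  · rintro ⟨a, b, c, a', b', c', h1, h2, rfl⟩
    refine ⟨_, ⟨a, b, c, a', b', c', h1, h2, rfl⟩, ?_⟩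
    simp only [Dat.gauge]; ring
  · rintro ⟨g₀, ⟨a, b, c, a', b', c', h1, h2, rfl⟩, rfl⟩
    refine ⟨a, b, c, a', b', c', h1, h2, ?_⟩
    simp only [Dat.gauge]; ring

omit [Fintype N] [DecidableEq N] in
theorem isMax_gauge {u r σ τ g : Ω} (hu : u ≠ 0) {J : Finset N}
    (hg : (E.gauge u r σ τ).IsMax v J g) : E.IsMax v J (g / u) := by
  obtain ⟨g₀, hg₀, rfl⟩ := mem_G_gauge.mp hg.mem
  rw [mul_div_cancel_left₀ _ hu]
  refine ⟨hg₀, fun h0 => hg.ne_zero (by rw [h0, mul_zero]), fun k hk => ?_⟩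
  have := hg.le (u * k) (mem_G_gauge.mpr ⟨k, hk, rfl⟩)
  rw [map_mul, map_mul] at this
  exact le_of_mul_le_mul_left this (by simpa [zero_lt_iff] using hu)

omit [Fintype N] [DecidableEq N] in
theorem ratio_gauge {u r σ τ : Ω} (hu : u ≠ 0) {Z : Subring Ω} :
    (∀ J : Finset N, J.card = 5 → ∀ g', (E.gauge u r σ τ).IsMax v J g' →
      ∀ g ∈ (E.gauge u r σ τ).G J, g / g' ∈ Z) ↔
    ∀ J : Finset N, J.card = 5 → ∀ g', E.IsMax v J g' → ∀ g ∈ E.G J, g / g' ∈ Z := by
  have key : ∀ g g' : Ω, (u * g) / (u * g') = g / g' := fun g g' => mul_div_mul_left _ _ hu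
  constructor
  · intro H J hJ g' hg' g hg
    have h1 : (E.gauge u r σ τ).IsMax v J (u * g') := by
      refine ⟨mem_G_gauge.mpr ⟨g', hg'.mem, rfl⟩, mul_ne_zero hu hg'.ne_zero, ?_⟩
      intro k hk
      obtain ⟨k₀, hk₀, rfl⟩ := mem_G_gauge.mp hk
      rw [map_mul, map_mul]
      exact mul_le_mul_right (hg'.le k₀ hk₀) _
    have := H J hJ _ h1 (u * g) (mem_G_gauge.mpr ⟨g, hg, rfl⟩)
    rwa [key] at this
  · intro H J hJ g' hg' g hg
    obtain ⟨g₀, hg₀, rfl⟩ := mem_G_gauge.mp hg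
    have h1 := isMax_gauge hu hg'
    obtain ⟨g₁, hg₁, rfl⟩ := mem_G_gauge.mp hg'.mem
    rw [mul_div_cancel_left₀ _ hu] at h1
    rw [key]
    exact H J hJ g₁ h1 g₀ hg₀

/-- clusters, all steps -/
theorem clus_all (h : E.Rel) (hM : E.IsModel v) {R : Subring Ω} (hR : LocSub v R)
    (hRG : ∀ J : Finset N, J.card = 5 → ∀ g', E.IsMax v J g' → ∀ g ∈ E.G J, g / g' ∈ R)
    (hF : ∀ S : Finset N, E.PFar v S → E.FarIn R S) {S₀ : Finset N}
    (hS₀5 : 5 ≤ S₀.card) (hS₀P : E.PFar v S₀)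
    (hS₀m : ∀ b, b ∉ S₀ → ∃ a ∈ S₀, E.Near v b a) :
    ∃ t : N → Ω, (∀ j, t j ∈ R) ∧ ∀ Z : Subring Ω, Zer v R Z → E.FarIn Z S₀ →
      (∀ j, j ∉ S₀ → t j ∈ Z) → E.Clus v Z Finset.univ := by
  classical
  have hRR : Zer v R R :=
    ⟨le_rfl, hR.inv_mem, fun x hx _ w hw => R.mul_mem hx hw, fun x hx _ w hw _ => R.mul_mem hx hw,
      fun w hw _ _ _ _ _ _ => hw, fun w hw _ _ _ _ _ _ _ _ => hw⟩
  -- initial step
  have init : ∀ Z : Subring Ω, E.FarIn Z S₀ → E.Clus v Z S₀ := by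
    intro Z hZ
    have hno : ∀ a ∈ S₀, ∀ b ∈ S₀, ¬ E.Near v a b := fun a ha b hb hab =>
      absurd (hS₀P a ha b hb hab.1) (not_le.mpr hab.2)
    exact ⟨hZ.a1, hZ.a2, hZ.a3, hZ.a4, hZ.a6, fun a ha b hb hab => hZ.x a ha b hb hab.1,
      fun a ha b hb hab => hZ.y a ha b hb hab.1,
      fun a ha b hb c hc hab hbc hac => hZ.s a b c ⟨ha, hb, hc, hab.1, hbc.1, hac.1⟩,
      fun a ha b hb e he hab => absurd hab (hno a ha b hb),
      fun a ha b hb e he c hc d hd f hf hab => absurd hab (hno a ha b hb)⟩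
  -- the induction
  have ind : ∀ n : ℕ, ∀ S : Finset N, S₀ ⊆ S → (Finset.univ \ S).card = n → E.Clus v R S →
      (∀ j, j ∉ S → ∀ m ∈ S, E.Near v j m → (∀ b ∈ S, E.Near v j b → v (E.x j b) ≤ v (E.x j m)) →
        ∀ a ∈ S, ∀ b ∈ S, E.Near v a b → v (E.x j m) ≥ v (E.x a b)) →
      ∃ t : N → Ω, (∀ j, t j ∈ R) ∧ ∀ Z : Subring Ω, Zer v R Z → E.Clus v Z S →
        (∀ j, j ∉ S → t j ∈ Z) → E.Clus v Z Finset.univ := by
    intro n
    induction n with
    | zero =>
      intro S hS hn hC _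
      have : S = Finset.univ := by
        rw [Finset.card_eq_zero, Finset.sdiff_eq_empty_iff_subset] at hn
        exact Finset.univ_subset_iff.mp hn
      subst this
      exact ⟨fun _ => 0, fun _ => R.zero_mem, fun Z _ hCZ _ => hCZ⟩
    | succ n ih =>
      intro S hS hn hC hinv
      -- for each `j ∉ S` the closest `m`
      have hm : ∀ j, j ∉ S → ∃ m ∈ S, E.Near v j m ∧
          ∀ b ∈ S, E.Near v j b → v (E.x j b) ≤ v (E.x j m) := by
        intro j hj
        have hne : (S.filter (fun b => E.Near v j b)).Nonempty := by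
          obtain ⟨a, ha, hja⟩ := hS₀m j (fun hj' => hj (hS hj'))
          exact ⟨a, Finset.mem_filter.mpr ⟨hS ha, hja⟩⟩
        obtain ⟨m, hm, hmax⟩ := Finset.exists_max_image _ (fun b => v (E.x j b)) hne
        rw [Finset.mem_filter] at hm
        exact ⟨m, hm.1, hm.2, fun b hb hjb => hmax b (Finset.mem_filter.mpr ⟨hb, hjb⟩)⟩
      choose! μ hμS hμN hμmax using hm
      -- the farthest `j`
      have hne : (Finset.univ \ S).Nonempty := by
        rw [← Finset.card_pos, hn]; exact Nat.succ_pos n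
      obtain ⟨j, hj, hjmin⟩ := Finset.exists_min_image _ (fun j => v (E.x j (μ j))) hne
      have hjS : j ∉ S := by simpa using hj
      have hinvj : ∀ a ∈ S, ∀ b ∈ S, E.Near v a b → v (E.x a b) ≤ v (E.x j (μ j)) :=
        fun a ha b hb hab => hinv j hjS (μ j) (hμS j hjS) (hμN j hjS) (hμmax j hjS) a ha b hb hab
      obtain ⟨t, htR, ht⟩ := clus_step h hM hR hRG hF hS hS₀5 hS₀P hC hjS (hμS j hjS) (hμN j hjS)
        (hμmax j hjS) hinvj
      have hsub : S₀ ⊆ insert j S := hS.trans (Finset.subset_insert _ _)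
      have hcard : (Finset.univ \ insert j S).card = n := by
        have h1 : Finset.univ \ insert j S = (Finset.univ \ S).erase j := by
          ext b; simp [not_or]
        rw [h1, Finset.card_erase_of_mem hj, hn]; rfl
      obtain ⟨t', ht'R, ht'⟩ := ih (insert j S) hsub hcard (ht R hRR hC htR)
        (by
          intro l hl m hm hlm hmax a ha b hb hab
          have hlS : l ∉ S := fun hl' => hl (Finset.mem_insert_of_mem hl')
          have hlj : l ≠ j := fun e => hl (e ▸ Finset.mem_insert_self _ _)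
          -- closeness of `l` to `insert j S` is at least closeness of `j` to `S`
          have h1 : v (E.x j (μ j)) ≤ v (E.x l m) :=
            (hjmin l (by simpa using hlS)).trans
              (hmax _ (Finset.mem_insert_of_mem (hμS l hlS)) (hμN l hlS))
          refine le_trans ?_ h1
          rw [Finset.mem_insert] at ha hb
          rcases ha with rfl | ha
          · rcases hb with rfl | hb
            · exact absurd rfl hab.1
            · exact hμmax _ hjS b hb hab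
          · rcases hb with rfl | hb
            · rw [h.x_symm _ _ hab.1.symm]
              exact hμmax _ hjS a ha (near_symm h hab)
            · exact hinvj a ha b hb hab)
      refine ⟨Function.update t' j t, fun l => ?_, fun Z hZ hCZ htZ => ?_⟩
      · by_cases hlj : l = j
        · subst hlj; simpa using htR
        · simpa [Function.update_of_ne hlj] using ht'R l
      · refine ht' Z hZ (ht Z hZ hCZ ?_) ?_
        · simpa using htZ j hjS
        · intro l hl
          have hlj : l ≠ j := fun e => hl (e ▸ Finset.mem_insert_self _ _)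
          have := htZ l (fun hl' => hl (Finset.mem_insert_of_mem hl'))
          simpa [Function.update_of_ne hlj] using this
  obtain ⟨t, htR, ht⟩ := ind _ S₀ (Finset.Subset.refl _) rfl (init R (hF S₀ hS₀P))
    (by
      intro j hj m hm hjm hmax a ha b hb hab
      exact absurd (hS₀P a ha b hb hab.1) (not_le.mpr hab.2))
  exact ⟨t, htR, fun Z hZ hFZ htZ => ht Z hZ (init Z hFZ) htZ⟩

theorem exists_maximal_pfar (h : E.Rel) {C : Finset N} (hC : E.PFar v C) :
    ∃ S : Finset N, C ⊆ S ∧ E.PFar v S ∧ ∀ b, b ∉ S → ∃ a ∈ S, E.Near v b a := by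
  classical
  obtain ⟨S, hS, hmax⟩ := Finset.exists_max_image
    ((Finset.univ : Finset (Finset N)).filter (fun S => C ⊆ S ∧ E.PFar v S)) Finset.card
    ⟨C, by simp [hC]⟩
  rw [Finset.mem_filter] at hS
  refine ⟨S, hS.2.1, hS.2.2, fun b hb => ?_⟩
  by_contra hno
  push Not at hno
  have hfar : ∀ a ∈ S, E.Far v b a := by
    intro a ha
    have hba : b ≠ a := fun e => hb (e ▸ ha)
    refine ⟨hba, not_lt.mp fun hlt => hno a ha ⟨hba, hlt⟩⟩
  have hins : E.PFar v (insert b S) := by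
    intro x hx y hy hxy
    rw [Finset.mem_insert] at hx hy
    rcases hx with rfl | hx
    · rcases hy with rfl | hy
      · exact absurd rfl hxy
      · exact (hfar y hy).2
    · rcases hy with rfl | hy
      · exact (far_symm h (hfar x hx)).2
      · exact hS.2.2 x hx y hy hxy
  have := hmax (insert b S) (Finset.mem_filter.mpr ⟨Finset.mem_univ _,
    hS.2.1.trans (Finset.subset_insert _ _), hins⟩)
  rw [Finset.card_insert_of_notMem hb] at this
  omega

/-- from a core to the end -/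
theorem finish_core (h : E.Rel) (hM : E.IsModel v) {R : Subring Ω} (hR : LocSub v R)
    (hRG : ∀ J : Finset N, J.card = 5 → ∀ g', E.IsMax v J g' → ∀ g ∈ E.G J, g / g' ∈ R)
    (hF : ∀ S : Finset N, E.PFar v S → E.FarIn R S) {C : Finset N} (hC5 : 5 ≤ C.card)
    (hCP : E.PFar v C) (hCov : ∀ b, b ∉ C → ∃ c ∈ C, E.Near v b c ∨ E.NonSing v b c)
    (hcore : ∃ t : N → Ω, (∀ j, t j ∈ R) ∧ ∀ Z : Subring Ω, Zer v R Z → (∀ j ∈ C, t j ∈ Z) →
      E.FarIn Z C) :
    ∃ t : N → Ω, (∀ j, t j ∈ R) ∧ ∀ Z : Subring Ω, Zer v R Z → (∀ j, t j ∈ Z) →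
      ∀ J : Finset N, J.card = 5 → ∀ g', E.IsMax v J g' → ∀ g ∈ E.G J, g / g' ∈ Z := by
  classical
  obtain ⟨S, hCS, hSP, hSmax⟩ := exists_maximal_pfar h hCP
  obtain ⟨t₁, ht₁R, ht₁⟩ := hcore
  obtain ⟨t₂, ht₂R, ht₂⟩ := far_extend h hM hR hCS hSP (hF S hSP) (by
    intro b hb hbC
    obtain ⟨c, hc, hbc | hbc⟩ := hCov b hbC
    · exact absurd (hSP b hb c (hCS hc) hbc.1) (not_le.mpr hbc.2)
    · exact ⟨c, hc, hbc⟩)
  obtain ⟨t₃, ht₃R, ht₃⟩ := clus_all h hM hR hRG hF (hC5.trans (Finset.card_le_card hCS)) hSP hSmax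
  have hRR : Zer v R R :=
    ⟨le_rfl, hR.inv_mem, fun x hx _ w hw => R.mul_mem hx hw, fun x hx _ w hw _ => R.mul_mem hx hw,
      fun w hw _ _ _ _ _ _ => hw, fun w hw _ _ _ _ _ _ _ _ => hw⟩
  refine ⟨fun j => if j ∈ C then t₁ j else if j ∈ S then t₂ j else t₃ j, ?_, ?_⟩
  · intro j
    dsimp only
    split_ifs
    · exact ht₁R j
    · exact ht₂R j
    · exact ht₃R j
  · intro Z hZ htZ
    have h1 : E.FarIn Z C := ht₁ Z hZ (fun j hj => by simpa [hj] using htZ j)
    have h2 : E.FarIn Z S := ht₂ Z hZ h1 (fun j hj hjC => by simpa [hj, hjC] using htZ j)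
    have h3 := ht₃ Z hZ h2 (fun j hj => by
      have hjC : j ∉ C := fun hc => hj (hCS hc)
      simpa [hj, hjC] using htZ j)
    have h4 := ht₃ R hRR (hF S hSP) (fun j _ => ht₃R j)
    exact clus_end h hM hR hZ h4 h3

/-- The local theorem. -/
theorem local_main (hN : 5 ≤ Fintype.card N) (h : E.Rel)
    (hG : ∀ J : Finset N, J.card = 5 → ∃ g ∈ E.G J, g ≠ 0)
    {R : Subring Ω} (hR : LocSub v R)
    (hRG : ∀ J : Finset N, J.card = 5 → ∀ g', E.IsMax v J g' → ∀ g ∈ E.G J, g / g' ∈ R) :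
    ∃ t : N → Ω, (∀ j, t j ∈ R) ∧ ∀ Z : Subring Ω, Zer v R Z → (∀ j, t j ∈ Z) →
      ∀ J : Finset N, J.card = 5 → ∀ g', E.IsMax v J g' → ∀ g ∈ E.G J, g / g' ∈ Z := by
  classical
  obtain ⟨u₁, r₁, σ₁, τ₁, hu₁, hM₁⟩ := exists_model (v := v) hN h hG
  have h₁ := h.gauge u₁ r₁ σ₁ τ₁
  have hRG₁ := (ratio_gauge (E := E) (v := v) (r := r₁) (σ := σ₁) (τ := τ₁) hu₁ (Z := R)).mpr hRG
  suffices hs : ∃ t : N → Ω, (∀ j, t j ∈ R) ∧ ∀ Z : Subring Ω, Zer v R Z → (∀ j, t j ∈ Z) →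
      ∀ J : Finset N, J.card = 5 → ∀ g', (E.gauge u₁ r₁ σ₁ τ₁).IsMax v J g' →
        ∀ g ∈ (E.gauge u₁ r₁ σ₁ τ₁).G J, g / g' ∈ Z by
    obtain ⟨t, htR, ht⟩ := hs
    exact ⟨t, htR, fun Z hZ htZ => (ratio_gauge hu₁).mp (ht Z hZ htZ)⟩
  generalize E.gauge u₁ r₁ σ₁ τ₁ = E₁ at *
  clear hRG h
  rcases core_choice h₁ hM₁ with ⟨p, hp, hpf, hpc⟩ | ⟨k, hk, c, hc, hcf, hcc, hcs⟩
  · obtain ⟨u, r, σ, τ, hu, hr, hσ, hτ, hn⟩ := exists_normal h₁ hM₁ p hp hpf
    have hu0 : u ≠ 0 := by rintro rfl; simp at hu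
    obtain ⟨hM₂, hFar, hNear, hNS, -⟩ := gauge_invariance h₁ hM₁ hu hr hσ hτ
    have h₂ := h₁.gauge u r σ τ
    have hRG₂ := (ratio_gauge (E := E₁) (v := v) (r := r) (σ := σ) (τ := τ) hu0 (Z := R)).mpr hRG₁
    suffices hs : ∃ t : N → Ω, (∀ j, t j ∈ R) ∧ ∀ Z : Subring Ω, Zer v R Z → (∀ j, t j ∈ Z) →
        ∀ J : Finset N, J.card = 5 → ∀ g', (E₁.gauge u r σ τ).IsMax v J g' →
          ∀ g ∈ (E₁.gauge u r σ τ).G J, g / g' ∈ Z by
      obtain ⟨t, htR, ht⟩ := hs
      exact ⟨t, htR, fun Z hZ htZ => (ratio_gauge hu0).mp (ht Z hZ htZ)⟩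
    have hpc₂ : ∀ b, ∃ i, b = p i ∨ (E₁.gauge u r σ τ).Near v b (p i) ∨
        (E₁.gauge u r σ τ).NonSing v b (p i) := by
      intro b
      obtain ⟨i, hi⟩ := hpc b
      exact ⟨i, by rwa [hNear, hNS]⟩
    generalize E₁.gauge u r σ τ = E₂ at *
    have hmem := membership h₂ hM₂ hn hR hRG₂
    obtain ⟨t, htR, ht⟩ := core_five h₂ hn hR (farIn_of_normal h₂ hM₂ hn hR hRG₂)
    refine finish_core h₂ hM₂ hR hRG₂ hmem (C := Finset.univ.image p) ?_ ?_ ?_ ?_
    · rw [Finset.card_image_of_injective _ hp]; simp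
    · intro a ha b hb hab
      obtain ⟨i, -, rfl⟩ := Finset.mem_image.mp ha
      obtain ⟨j, -, rfl⟩ := Finset.mem_image.mp hb
      exact hn.far i j (fun e => hab (e ▸ rfl))
    · intro b hb
      obtain ⟨i, hi⟩ := hpc₂ b
      refine ⟨p i, Finset.mem_image_of_mem _ (Finset.mem_univ _), ?_⟩
      rcases hi with rfl | hi
      · exact absurd (Finset.mem_image_of_mem _ (Finset.mem_univ _)) hb
      · exact hi
    · refine ⟨fun j => if hj : ∃ i, p i = j then t hj.choose else 0, ?_, ?_⟩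
      · intro j
        dsimp only
        split_ifs with hj
        · exact htR _
        · exact R.zero_mem
      · intro Z hZ htZ
        refine ht Z hZ (fun i => ?_)
        have h1 := htZ (p i) (Finset.mem_image_of_mem _ (Finset.mem_univ _))
        have hex : ∃ i', p i' = p i := ⟨i, rfl⟩
        simp only [hex, dite_true] at h1
        have : hex.choose = i := hp hex.choose_spec
        rwa [this] at h1
  · obtain ⟨u, r, σ, τ, hu, hr, hσ, hτ, hn⟩ := exists_normal h₁ hM₁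
      (fun i : Fin 5 => c (Fin.castLE (by omega) i))
      (fun i j hij => by simpa using hc hij) (fun i j hij => hcf _ _ (by simpa using hij))
    have hu0 : u ≠ 0 := by rintro rfl; simp at hu
    obtain ⟨hM₂, hFar, hNear, hNS, hs₂⟩ := gauge_invariance h₁ hM₁ hu hr hσ hτ
    have h₂ := h₁.gauge u r σ τ
    have hRG₂ := (ratio_gauge (E := E₁) (v := v) (r := r) (σ := σ) (τ := τ) hu0 (Z := R)).mpr hRG₁
    suffices hs : ∃ t : N → Ω, (∀ j, t j ∈ R) ∧ ∀ Z : Subring Ω, Zer v R Z → (∀ j, t j ∈ Z) →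
        ∀ J : Finset N, J.card = 5 → ∀ g', (E₁.gauge u r σ τ).IsMax v J g' →
          ∀ g ∈ (E₁.gauge u r σ τ).G J, g / g' ∈ Z by
      obtain ⟨t, htR, ht⟩ := hs
      exact ⟨t, htR, fun Z hZ htZ => (ratio_gauge hu0).mp (ht Z hZ htZ)⟩
    have hpc₂ : ∀ b, ∃ i, b = c i ∨ (E₁.gauge u r σ τ).Near v b (c i) ∨
        (E₁.gauge u r σ τ).NonSing v b (c i) := by
      intro b
      obtain ⟨i, hi⟩ := hcc b
      exact ⟨i, by rwa [hNear, hNS]⟩
    have hcf₂ : ∀ i j, i ≠ j → v ((E₁.gauge u r σ τ).x (c i) (c j)) ≤ 1 := by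
      intro i j hij
      exact ((hFar (c i) (c j)).mpr ⟨fun e => hij (hc e), hcf i j hij⟩).2
    have hcs₂ : ∀ i j l i' j' l' : Fin k, i < j → j < l → i' < j' → j' < l' →
        v ((E₁.gauge u r σ τ).s (c i) (c j) (c l)
          - (E₁.gauge u r σ τ).s (c i') (c j') (c l')) < 1 := by
      intro i j l i' j' l' h1 h2 h3 h4
      rw [hs₂]
      exact hcs i j l i' j' l' h1 h2 h3 h4
    generalize E₁.gauge u r σ τ = E₂ at *
    have hmem := membership h₂ hM₂ hn hR hRG₂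
    have hCP : E₂.PFar v (Finset.univ.image c) := by
      intro a ha b hb hab
      obtain ⟨i, -, rfl⟩ := Finset.mem_image.mp ha
      obtain ⟨j, -, rfl⟩ := Finset.mem_image.mp hb
      exact hcf₂ i j (fun e => hab (e ▸ rfl))
    have hpos : ∀ i j l : Fin k, i < j → j < l → v (E₂.s (c i) (c j) (c l)) < 1 := by
      intro i j l hij hjl
      have hk0 := hn.kappa
      set q : Fin 5 → Fin k := fun i => Fin.castLE (by omega) i with hq
      have hq' : ∀ i j : Fin 5, i < j → q i < q j := fun i j hij => by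
        rw [Fin.lt_def] at hij ⊢; exact hij
      have e1 := hcs₂ (q 0) (q 1) (q 3) (q 0) (q 1) (q 2) (hq' _ _ (by decide))
        (hq' _ _ (by decide)) (hq' _ _ (by decide)) (hq' _ _ (by decide))
      have e2 := hcs₂ (q 1) (q 2) (q 4) i j l (hq' _ _ (by decide)) (hq' _ _ (by decide)) hij hjl
      have e3 : E₂.s (c i) (c j) (c l) =
          - (E₂.s (c (q 0)) (c (q 1)) (c (q 3)) - E₂.s (c (q 0)) (c (q 1)) (c (q 2)))
          - (E₂.s (c (q 1)) (c (q 2)) (c (q 4)) - E₂.s (c i) (c j) (c l)) := by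
        have : E₂.s (c (q 0)) (c (q 1)) (c (q 2)) = E₂.s (c (q 0)) (c (q 1)) (c (q 3))
          + E₂.s (c (q 1)) (c (q 2)) (c (q 4)) := hk0
        rw [this]; ring
      rw [e3]
      refine lt_of_le_of_lt (Valuation.map_sub _ _ _) (max_lt ?_ e2)
      rwa [Valuation.map_neg]
    obtain ⟨t, htR, ht⟩ := core_poly h₂ hk hc hn hpos hR (hmem _ hCP)
    refine finish_core h₂ hM₂ hR hRG₂ hmem (C := Finset.univ.image c) ?_ hCP ?_ ?_
    · rw [Finset.card_image_of_injective _ hc]; simp; omega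
    · intro b hb
      obtain ⟨i, hi⟩ := hpc₂ b
      refine ⟨c i, Finset.mem_image_of_mem _ (Finset.mem_univ _), ?_⟩
      rcases hi with rfl | hi
      · exact absurd (Finset.mem_image_of_mem _ (Finset.mem_univ _)) hb
      · exact hi
    · refine ⟨fun j => if hj : ∃ i, c i = j then t hj.choose else 0, ?_, ?_⟩
      · intro j
        dsimp only
        split_ifs with hj
        · exact htR _
        · exact R.zero_mem
      · intro Z hZ htZ
        refine ht Z hZ (fun i => ?_)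
        have h1 := htZ (c i) (Finset.mem_image_of_mem _ (Finset.mem_univ _))
        have hex : ∃ i', c i' = c i := ⟨i, rfl⟩
        simp only [hex, dite_true] at h1
        have : hex.choose = i := hc hex.choose_spec
        rwa [this] at h1

end Pool.Agent.Helper49.Irr
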