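import Pool.Agent.Helper49.Irr.Defs

/-!
# A local ring of an affine chart inside a field, with a dominating valuation (module G3a)
-/

namespace Pool.Agent.Helper49.Irr

/-- G3a -/
theorem exists_local_frame {Ω : Type} [Field Ω] (A : Subalgebra ℤ Ω) (P : Ideal A) [P.IsPrime] :
    ∃ (Γ₀ : Type) (_ : LinearOrderedCommGroupWithZero Γ₀) (v : Valuation Ω Γ₀) (R : Subring Ω)
      (e : Localization.AtPrime P ≃+* R), LocSub v R ∧
      (∀ a : A, ((e (algebraMap A _ a) : R) : Ω) = a) ∧
      ∀ x : Localization.AtPrime P,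
        x ∈ IsLocalRing.maximalIdeal (Localization.AtPrime P) ↔ v ((e x : R) : Ω) < 1 := by
  have hunit : ∀ y : P.primeCompl, IsUnit ((A.val.toRingHom : A →+* Ω) y) := by
    intro y
    have hy : (y : A) ≠ 0 := by
      rintro h
      exact y.2 (h ▸ P.zero_mem)
    have : ((y : A) : Ω) ≠ 0 := fun h => hy (Subtype.ext h)
    exact isUnit_iff_ne_zero.2 this
  let f : Localization.AtPrime P →+* Ω :=
    IsLocalization.lift (M := P.primeCompl) (g := (A.val.toRingHom : A →+* Ω)) hunit
  have hf : ∀ a : A, f (algebraMap A _ a) = a := fun a => IsLocalization.lift_eq _ a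
  have hfinj : Function.Injective f := by
    rw [injective_iff_map_eq_zero]
    intro x hx
    obtain ⟨⟨a, s⟩, ha⟩ := IsLocalization.surj P.primeCompl x
    have h1 : f (algebraMap A _ a) = 0 := by
      rw [← ha, map_mul, hx, zero_mul]
    rw [hf] at h1
    have h2 : a = 0 := Subtype.ext h1
    simp only [h2, map_zero] at ha
    have hs : IsUnit (algebraMap A (Localization.AtPrime P) s) := IsLocalization.map_units _ s
    exact (hs.mul_left_eq_zero).1 ha
  let e : Localization.AtPrime P ≃+* f.range :=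
    RingEquiv.ofBijective f.rangeRestrict
      ⟨fun a b hab => hfinj (congrArg Subtype.val hab), f.rangeRestrict_surjective⟩
  have hloc : IsLocalRing f.range := e.isLocalRing
  obtain ⟨B, hB⟩ := LocalSubring.exists_le_valuationSubring (LocalSubring.mk f.range)
  obtain ⟨hle, hlocal⟩ := hB
  have key : ∀ x : Localization.AtPrime P, IsUnit x ↔ B.valuation (f x) = 1 := by
    intro x
    have hx1 : B.valuation (f x) ≤ 1 := (B.valuation_le_one_iff _).2 (hle ⟨x, rfl⟩)
    constructor
    · intro hx
      obtain ⟨y, hy⟩ := hx.exists_right_inv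
      have hy1 : B.valuation (f y) ≤ 1 := (B.valuation_le_one_iff _).2 (hle ⟨y, rfl⟩)
      have h1 : B.valuation (f x) * B.valuation (f y) = 1 := by
        rw [← map_mul, ← map_mul, hy, map_one, map_one]
      refine le_antisymm hx1 ?_
      rw [← h1]
      exact mul_le_of_le_one_right' hy1
    · intro hx
      have hne : f x ≠ 0 := by
        intro h0
        rw [h0, map_zero] at hx
        exact zero_ne_one hx
      have hinv : (f x)⁻¹ ∈ B := by
        rw [← B.valuation_le_one_iff, map_inv₀, hx, inv_one]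
      have hu : IsUnit (Subring.inclusion hle (e x)) := by
        refine isUnit_iff_exists_inv.2 ⟨⟨(f x)⁻¹, hinv⟩, ?_⟩
        apply Subtype.ext
        exact mul_inv_cancel₀ hne
      have hu2 : IsUnit (e x) := hlocal.map_nonunit _ hu
      simpa using hu2.map e.symm
  refine ⟨B.ValueGroup, inferInstance, B.valuation, f.range, e, ⟨?_, ?_⟩, hf, ?_⟩
  · rintro _ ⟨x, rfl⟩
    exact (B.valuation_le_one_iff _).2 (hle ⟨x, rfl⟩)
  · rintro _ ⟨x, rfl⟩ hx
    obtain ⟨y, hy⟩ := ((key x).2 hx).exists_right_inv
    refine ⟨y, ?_⟩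
    have : f x * f y = 1 := by rw [← map_mul, hy, map_one]
    exact eq_inv_of_mul_eq_one_right this
  · intro x
    rw [IsLocalRing.mem_maximalIdeal, mem_nonunits_iff, key]
    show ¬ B.valuation (f x) = 1 ↔ B.valuation (f x) < 1
    have hx1 : B.valuation (f x) ≤ 1 := (B.valuation_le_one_iff _).2 (hle ⟨x, rfl⟩)
    exact ⟨fun h => lt_of_le_of_ne hx1 h, fun h => h.ne⟩

end Pool.Agent.Helper49.Irr
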