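import Pool.Agent.Helper49.Irr.SmoothAt

/-!
# Standard smoothness over `ℤ` of relative dimension `d` from a bound on the derivations
-/

namespace Pool.Agent.Helper49.Irr

open MvPolynomial

theorem isStandardSmooth_mvPolynomial (d : ℕ) :
    Algebra.IsStandardSmoothOfRelativeDimension d ℤ (MvPolynomial (Fin d) ℤ) := by
  have hsP : Algebra.Smooth ℤ (MvPolynomial (Fin d) ℤ) := { }
  have h1 : Algebra.IsStandardSmooth ℤ (MvPolynomial (Fin d) ℤ) := by
    refine Algebra.IsStandardSmooth.of_basis_kaehlerDifferential
      (KaehlerDifferential.mvPolynomialBasis ℤ (Fin d)) ?_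
    rintro - ⟨i, rfl⟩
    exact ⟨X i, (KaehlerDifferential.mvPolynomialBasis_apply _ _ i).symm⟩
  rw [Algebra.IsStandardSmoothOfRelativeDimension.iff_of_isStandardSmooth,
    rank_eq_card_basis (KaehlerDifferential.mvPolynomialBasis ℤ (Fin d))]
  simp

/-- S1 -/
theorem exists_standardSmooth_of_derivation (A : Type) [CommRing A] [IsDomain A] [CharZero A]
    [Algebra.FiniteType ℤ A] (K : Type) [Field K] [Algebra A K] [IsFractionRing A K] {d : ℕ}
    (u : Fin d → K) (hu : AlgebraicIndependent ℤ u) (P : Ideal A) [P.IsPrime]
    (t : Fin d → Localization.AtPrime P)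
    (ht : ∀ D : Derivation ℤ (Localization.AtPrime P) P.ResidueField, (∀ i, D (t i) = 0) → D = 0) :
    ∃ g ∉ P, Algebra.IsStandardSmoothOfRelativeDimension d ℤ (Localization.Away g) := by
  obtain ⟨g, hg, t', Q, hQ, hcomap, hun⟩ := exists_unramified A P t ht
  let B := Localization.Away g
  let _ : Algebra (MvPolynomial (Fin d) ℤ) B := (MvPolynomial.aeval (R := ℤ) t').toAlgebra
  have hun' : Algebra.IsUnramifiedAt (MvPolynomial (Fin d) ℤ) Q := hun
  have hg0 : g ≠ 0 := fun h => hg (h ▸ P.zero_mem)
  have hle : Submonoid.powers g ≤ nonZeroDivisors A :=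
    powers_le_nonZeroDivisors_of_noZeroDivisors hg0
  have hdom : IsDomain B := IsLocalization.isDomain_localization hle
  have hAB : Function.Injective (algebraMap A B) := IsLocalization.injective B hle
  have : CharZero B := charZero_of_injective_algebraMap hAB
  have hAK : Function.Injective (algebraMap A K) := IsFractionRing.injective A K
  have hunit : ∀ y : Submonoid.powers g, IsUnit (algebraMap A K y) := fun y => by
    rw [isUnit_iff_ne_zero]
    intro h
    have h0 : (y : A) = 0 := (map_eq_zero_iff _ hAK).mp h
    exact nonZeroDivisors.ne_zero (hle y.2) h0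
  let _ : Algebra B K := (IsLocalization.lift (M := Submonoid.powers g) hunit : B →+* K).toAlgebra
  have : IsScalarTower A B K := .of_algebraMap_eq fun x => (IsLocalization.lift_eq hunit x).symm
  have hfr : IsFractionRing B K :=
    IsFractionRing.isFractionRing_of_isDomain_of_isLocalization (Submonoid.powers g) B K
  have hfpAB : Algebra.FinitePresentation A B := IsLocalization.Away.finitePresentation g
  have hftAB : Algebra.FiniteType A B := inferInstance
  have hftB : Algebra.FiniteType ℤ B := Algebra.FiniteType.trans (R := ℤ) (S := A) ‹_› hftAB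
  have hftB' : @Algebra.FiniteType ℤ B _ _ (Ring.toIntAlgebra B) := finiteType_int B _ _ hftB
  have hinj := injective_of_unramified Q K u hu
  have hftP : Algebra.FiniteType (MvPolynomial (Fin d) ℤ) B :=
    Algebra.FiniteType.of_restrictScalars_finiteType ℤ (MvPolynomial (Fin d) ℤ) B
  obtain ⟨f, hf, het⟩ := etale_of_unramified hinj Q
  have h0 : Algebra.IsStandardSmoothOfRelativeDimension 0 (MvPolynomial (Fin d) ℤ)
      (Localization.Away f) :=
    Algebra.Etale.iff_isStandardSmoothOfRelativeDimension_zero.mp het
  have hd := isStandardSmooth_mvPolynomial d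
  have hC : Algebra.IsStandardSmoothOfRelativeDimension (0 + d) ℤ (Localization.Away f) :=
    Algebra.IsStandardSmoothOfRelativeDimension.trans d 0 ℤ (MvPolynomial (Fin d) ℤ)
      (Localization.Away f)
  rw [zero_add] at hC
  have hloc : IsLocalization.Away (g * (IsLocalization.Away.sec g f).1) (Localization.Away f) :=
    .mul_of_associated _ _ f <| IsLocalization.Away.associated_sec_fst g f
  let e : Localization.Away (g * (IsLocalization.Away.sec g f).1) ≃ₐ[A] Localization.Away f :=
    Localization.algEquiv _ _
  refine ⟨g * (IsLocalization.Away.sec g f).1, ?_, .of_algEquiv d (e.restrictScalars ℤ).symm⟩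
  refine Ideal.IsPrime.mul_notMem ‹_› hg fun hmem ↦ hf ?_
  rw [Ideal.mem_iff_of_associated (IsLocalization.Away.associated_sec_fst g f).symm]
  rw [← hcomap] at hmem
  exact hmem

end Pool.Agent.Helper49.Irr
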