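import Pool.Agent.Helper49.Irr.Basic

/-!
# The kernel of a derivation with values in the residue field
-/

namespace Pool.Agent.Helper49.Irr

/-- D0 -/
theorem zer_of_derivation {Ω : Type*} [Field Ω] {Γ₀ : Type*} [LinearOrderedCommGroupWithZero Γ₀]
    {v : Valuation Ω Γ₀} {R : Subring Ω} (hR : LocSub v R) {k : Type*} [Field k] (ρ : R →+* k)
    (hρ : ∀ x : R, ρ x = 0 ↔ v (x : Ω) < 1) (D : R → k) (hadd : ∀ x y, D (x + y) = D x + D y)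
    (hmul : ∀ x y, D (x * y) = ρ x * D y + ρ y * D x) :
    ∃ Z : Subring Ω, Zer v R Z ∧ ∀ x (hx : x ∈ R), x ∈ Z ↔ D ⟨x, hx⟩ = 0 := by
  have h0 : D 0 = 0 := by
    have := hadd 0 0
    rw [add_zero] at this
    simpa using this
  have h1 : D 1 = 0 := by
    have := hmul 1 1
    rw [mul_one, map_one, one_mul] at this
    simpa using this
  have hneg : ∀ x, D (-x) = - D x := by
    intro x
    have := hadd x (-x)
    rw [add_neg_cancel, h0] at this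
    exact (neg_eq_of_add_eq_zero_right this.symm).symm
  have hpow2 : ∀ x, D (x ^ 2) = 2 * ρ x * D x := by
    intro x
    rw [pow_two, hmul]; ring
  have hpow3 : ∀ x, D (x ^ 3) = 3 * ρ x ^ 2 * D x := by
    intro x
    rw [pow_succ, hmul, hpow2, map_pow]; ring
  let Z : Subring Ω :=
    { carrier := {x | ∃ hx : x ∈ R, D ⟨x, hx⟩ = 0}
      mul_mem' := by
        rintro a b ⟨ha, ha'⟩ ⟨hb, hb'⟩
        refine ⟨R.mul_mem ha hb, ?_⟩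
        have := hmul ⟨a, ha⟩ ⟨b, hb⟩
        rw [ha', hb', mul_zero, mul_zero, add_zero] at this
        exact this
      one_mem' := ⟨R.one_mem, h1⟩
      add_mem' := by
        rintro a b ⟨ha, ha'⟩ ⟨hb, hb'⟩
        refine ⟨R.add_mem ha hb, ?_⟩
        have := hadd ⟨a, ha⟩ ⟨b, hb⟩
        rw [ha', hb', add_zero] at this
        exact this
      zero_mem' := ⟨R.zero_mem, h0⟩
      neg_mem' := by
        rintro a ⟨ha, ha'⟩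
        refine ⟨R.neg_mem ha, ?_⟩
        have := hneg ⟨a, ha⟩
        rw [ha', neg_zero] at this
        exact this }
  have hmem : ∀ x (hx : x ∈ R), x ∈ Z ↔ D ⟨x, hx⟩ = 0 := fun x hx =>
    ⟨fun ⟨_, h⟩ => h, fun h => ⟨hx, h⟩⟩
  have hne : ∀ x : R, v (x : Ω) = 1 → ρ x ≠ 0 := by
    intro x hx h
    rw [hρ, hx] at h
    exact lt_irrefl _ h
  refine ⟨Z, ⟨?_, ?_, ?_, ?_, ?_, ?_⟩, hmem⟩
  · rintro x ⟨hx, -⟩
    exact hx
  · rintro x ⟨hx, hx'⟩ hv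
    have hxi : x⁻¹ ∈ R := hR.inv_mem x hx hv
    refine ⟨hxi, ?_⟩
    have hx0 : x ≠ 0 := by rintro rfl; simp at hv
    have e : (⟨x, hx⟩ : R) * ⟨x⁻¹, hxi⟩ = 1 := Subtype.ext (mul_inv_cancel₀ hx0)
    have := hmul ⟨x, hx⟩ ⟨x⁻¹, hxi⟩
    rw [e, h1, hx', mul_zero, add_zero] at this
    exact (mul_eq_zero.1 this.symm).resolve_left (hne ⟨x, hx⟩ hv)
  · rintro x ⟨hx, hx'⟩ hv w hw
    refine ⟨R.mul_mem hx hw, ?_⟩
    have := hmul ⟨x, hx⟩ ⟨w, hw⟩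
    rw [hx', mul_zero, add_zero, (hρ ⟨x, hx⟩).2 hv, zero_mul] at this
    exact this
  · intro x hx hv w hw hv'
    refine ⟨R.mul_mem hx hw, ?_⟩
    have := hmul ⟨x, hx⟩ ⟨w, hw⟩
    rw [(hρ ⟨x, hx⟩).2 hv, zero_mul, (hρ ⟨w, hw⟩).2 hv', zero_mul, add_zero] at this
    exact this
  · rintro w hw β ⟨hβ, hβ'⟩ γ ⟨hγ, hγ'⟩ e hv
    refine ⟨hw, ?_⟩
    have e' : (⟨w, hw⟩ : R) ^ 2 + ⟨β, hβ⟩ * ⟨w, hw⟩ + ⟨γ, hγ⟩ = 0 := Subtype.ext e
    have h2 := congrArg D e'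
    rw [hadd, hadd, hpow2, hmul, hβ', hγ', h0] at h2
    have h3 : ρ (2 * ⟨w, hw⟩ + ⟨β, hβ⟩) * D ⟨w, hw⟩ = 0 := by
      rw [map_add, map_mul, map_ofNat]
      linear_combination h2
    exact (mul_eq_zero.1 h3).resolve_left (hne _ hv)
  · rintro w hw α ⟨hα, hα'⟩ β ⟨hβ, hβ'⟩ γ ⟨hγ, hγ'⟩ e hv
    refine ⟨hw, ?_⟩
    have e' : (⟨w, hw⟩ : R) ^ 3 + ⟨α, hα⟩ * ⟨w, hw⟩ ^ 2 + ⟨β, hβ⟩ * ⟨w, hw⟩ + ⟨γ, hγ⟩ = 0 :=
      Subtype.ext e
    have h2 := congrArg D e'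
    rw [hadd, hadd, hadd, hpow3, hmul, hpow2, hmul, hα', hβ', hγ', h0] at h2
    have h3 : ρ (3 * ⟨w, hw⟩ ^ 2 + 2 * ⟨α, hα⟩ * ⟨w, hw⟩ + ⟨β, hβ⟩) * D ⟨w, hw⟩ = 0 := by
      rw [map_add, map_add, map_mul, map_mul, map_mul, map_ofNat, map_ofNat, map_pow]
      linear_combination h2
    exact (mul_eq_zero.1 h3).resolve_left (hne _ hv)

end Pool.Agent.Helper49.Irr
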