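import Pool.Agent.Helper49.Irr.DefsB
import Pool.Agent.Helper49.Irr.DefsC
import Pool.Agent.Helper49.Irr.ZerDer
import Pool.Agent.Helper49.Irr.Local
import Pool.Agent.Helper49.Irr.StdSmooth
import Pool.Agent.Helper49.Irr.LocalFrame
import Pool.Agent.Helper49.Irr.Frac
import Pool.Agent.Helper49.Irr.GenRel

/-!
# The chart rings are smooth over `ℤ`
-/

namespace Pool.Agent.Helper49.Irr

open TensorProduct

theorem div_coord_mem {Ω : Type} [Field Ω] {E : Dat (Fin 11) Ω} (φ : Idx E)
    (J : {J : Finset (Fin 11) // J.card = 5}) {g : Ω} (hg : g ∈ E.G J) :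
    g / (φ J : Ω) ∈ chartRing (psi E) φ := by
  classical
  by_cases h0 : g = 0
  · rw [h0, zero_div]; exact Subalgebra.zero_mem _
  · let f : (J : {J : Finset (Fin 11) // J.card = 5}) → {g : Ω // g ∈ E.G J ∧ g ≠ 0} := φ
    let f' : (J : {J : Finset (Fin 11) // J.card = 5}) → {g : Ω // g ∈ E.G J ∧ g ≠ 0} :=
      Function.update f J ⟨g, hg, h0⟩
    have hf : ∀ J, (f J : Ω) ≠ 0 := fun J => (f J).2.2
    refine Algebra.subset_adjoin ⟨f', ?_⟩
    show (∏ J, (f' J : Ω)) / (∏ J, (f J : Ω)) = g / (f J : Ω)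
    rw [← Finset.mul_prod_erase _ (fun J => (f' J : Ω)) (Finset.mem_univ J),
      ← Finset.mul_prod_erase Finset.univ (fun J => (f J : Ω)) (Finset.mem_univ J)]
    have h1 : ∏ x ∈ Finset.univ.erase J, (f' x : Ω) = ∏ x ∈ Finset.univ.erase J, (f x : Ω) := by
      refine Finset.prod_congr rfl fun x hx => ?_
      show ((Function.update f J ⟨g, hg, h0⟩ x : {g : Ω // g ∈ E.G x ∧ g ≠ 0}) : Ω) = f x
      rw [Function.update_of_ne (Finset.ne_of_mem_erase hx)]
    have h3 : (f' J : Ω) = g := by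
      show ((Function.update f J ⟨g, hg, h0⟩ J : {g : Ω // g ∈ E.G J ∧ g ≠ 0}) : Ω) = g
      rw [Function.update_self]
    rw [h1, h3]
    have h2 : ∏ x ∈ Finset.univ.erase J, (f x : Ω) ≠ 0 :=
      Finset.prod_ne_zero_iff.mpr fun x _ => hf x
    have := hf J
    field_simp

theorem stdSmooth_int {B : Type} [CommRing B] (n : ℕ) (i₁ i₂ : Algebra ℤ B)
    (h : @Algebra.IsStandardSmoothOfRelativeDimension n ℤ B _ _ i₁) :
    @Algebra.IsStandardSmoothOfRelativeDimension n ℤ B _ _ i₂ := by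
  have : i₁ = i₂ := Subsingleton.elim _ _
  subst this
  exact h

/-- G3 -/
theorem chart_smooth {Ω : Type} [Field Ω] [CharZero Ω] {E : Dat (Fin 11) Ω} (h : E.Rel)
    (hG : ∀ J : Finset (Fin 11), J.card = 5 → ∃ g ∈ E.G J, g ≠ 0)
    (w : Fin 11 → ratioField ℚ E) (hw : AlgebraicIndependent ℚ w) (φ : Idx E)
    (P : Ideal (chartRing (psi E) φ)) [P.IsPrime] : ∃ g ∉ P,
      Algebra.IsStandardSmoothOfRelativeDimension 11 ℤ (Localization.Away g) := by
  classical
  obtain ⟨Γ₀, _, v, R, e, hR, heA, hmax⟩ := exists_local_frame (chartRing (psi E) φ) P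
  have hAR : ∀ a ∈ chartRing (psi E) φ, a ∈ R := fun a ha => by
    have h1 := heA ⟨a, ha⟩
    have h2 : ((e (algebraMap _ (Localization.AtPrime P) (⟨a, ha⟩ : chartRing (psi E) φ)) : R) : Ω) ∈ R :=
      (e _).2
    rwa [h1] at h2
  have hφ0 : ∀ J, (φ J : Ω) ≠ 0 := fun J => (φ J).2.2
  have hφR : ∀ (J : {J : Finset (Fin 11) // J.card = 5}), ∀ g ∈ E.G J, g / (φ J : Ω) ∈ R :=
    fun J g hg => hAR _ (div_coord_mem φ J hg)
  have hφmax : ∀ J : {J : Finset (Fin 11) // J.card = 5}, E.IsMax v J (φ J : Ω) := by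
    intro J
    refine ⟨(φ J).2.1, hφ0 J, fun g hg => ?_⟩
    have := hR.le_one _ (hφR J g hg)
    rw [map_div₀] at this
    exact (div_le_one₀ (by simpa [zero_lt_iff] using hφ0 J)).mp this
  have hRG : ∀ J : Finset (Fin 11), J.card = 5 → ∀ g', E.IsMax v J g' → ∀ g ∈ E.G J,
      g / g' ∈ R := by
    intro J hJ g' hg' g hg
    set J' : {J : Finset (Fin 11) // J.card = 5} := ⟨J, hJ⟩
    have h1 : g' / (φ J' : Ω) ∈ R := hφR J' g' hg'.mem
    have h2 : v (g' / (φ J' : Ω)) = 1 := by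
      rw [map_div₀, div_eq_one_iff_eq (by simpa using hφ0 J')]
      exact le_antisymm ((hφmax J').le g' hg'.mem) (hg'.le _ (φ J').2.1)
    have h3 := hR.inv_mem _ h1 h2
    have h4 : g / g' = (g / (φ J' : Ω)) * (g' / (φ J' : Ω))⁻¹ := by
      have := hφ0 J'
      have := hg'.ne_zero
      field_simp
    rw [h4]
    exact R.mul_mem (hφR J' g hg) h3
  obtain ⟨t, htR, ht⟩ := local_main (v := v) (by simp) h hG hR hRG
  obtain ⟨hfr1, hfr2⟩ := exists_frac E φ
  -- the fraction field
  let i : chartRing (psi E) φ →+* ratioField ℚ E :=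
    { toFun := fun a => ⟨a, hfr1 a a.2⟩
      map_one' := rfl
      map_mul' := fun _ _ => rfl
      map_zero' := rfl
      map_add' := fun _ _ => rfl }
  have hi : Function.Injective i := by
    intro a b hab
    exact Subtype.ext (congrArg (fun z : ratioField ℚ E => (z : Ω)) hab)
  let _ : Algebra (chartRing (psi E) φ) (ratioField ℚ E) := i.toAlgebra
  have : FaithfulSMul (chartRing (psi E) φ) (ratioField ℚ E) := (faithfulSMul_iff_algebraMap_injective _ _).mpr hi
  have : IsFractionRing (chartRing (psi E) φ) (ratioField ℚ E) := by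
    refine IsFractionRing.of_field (chartRing (psi E) φ) (ratioField ℚ E) fun z => ?_
    obtain ⟨a, ha, b, hb, hb0, hz⟩ := hfr2 z z.2
    exact ⟨⟨a, ha⟩, ⟨b, hb⟩, Subtype.ext hz⟩
  have : CharZero (chartRing (psi E) φ) := by
    refine ⟨fun m n hmn => ?_⟩
    have : ((m : chartRing (psi E) φ) : Ω) = ((n : chartRing (psi E) φ) : Ω) := by rw [hmn]
    simpa using this
  have : Algebra.FiniteType ℤ (chartRing (psi E) φ) := by
    have hfin : Finite (Idx E) := Idx.finite E
    rw [← Subalgebra.fg_iff_finiteType]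
    exact Subalgebra.fg_def.mpr ⟨_, Set.finite_range _, rfl⟩
  have hwZ : AlgebraicIndependent ℤ w :=
    AlgebraicIndependent.restrictScalars (R := ℤ) (K := ℚ)
      (FaithfulSMul.algebraMap_injective ℤ ℚ) hw
  refine Exists.imp (fun g hg => ⟨hg.1, stdSmooth_int 11 _ _ hg.2⟩)
    (exists_standardSmooth_of_derivation (chartRing (psi E) φ)
      (ratioField ℚ E) w hwZ P (fun i => e.symm ⟨t i, htR i⟩) ?_)
  intro D hD
  let ρ : R →+* P.ResidueField :=
    (algebraMap (Localization.AtPrime P) P.ResidueField).comp (e.symm : R →+* Localization.AtPrime P)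
  have hρ : ∀ x : R, ρ x = 0 ↔ v (x : Ω) < 1 := by
    intro x
    have h1 : v (x : Ω) < 1 ↔ e.symm x ∈ IsLocalRing.maximalIdeal (Localization.AtPrime P) := by
      rw [hmax, e.apply_symm_apply]
    rw [h1]
    exact IsLocalRing.residue_eq_zero_iff _
  obtain ⟨Z, hZ, hZmem⟩ := zer_of_derivation hR ρ hρ (fun x => D (e.symm x))
    (fun x y => by rw [map_add, map_add])
    (fun x y => by
      rw [map_mul, Derivation.leibniz, Algebra.smul_def, Algebra.smul_def]; rfl)
  have htZ : ∀ j, t j ∈ Z := fun j => (hZmem _ (htR j)).mpr (hD j)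
  have hgZ : ∀ (J : {J : Finset (Fin 11) // J.card = 5}), ∀ g ∈ E.G J, g / (φ J : Ω) ∈ Z :=
    fun J g hg => ht Z hZ htZ J J.2 _ (hφmax J) g hg
  have hAZ : ∀ a ∈ chartRing (psi E) φ, a ∈ Z := by
    intro a ha
    refine Algebra.adjoin_induction (p := fun x _ => x ∈ Z) ?_ ?_ ?_ ?_ ha
    · rintro _ ⟨φ', rfl⟩
      show psi E φ' / psi E φ ∈ Z
      rw [psi, psi, ← Finset.prod_div_distrib]
      exact Subring.prod_mem _ fun J _ => hgZ J _ (φ' J).2.1
    · intro r
      exact intCast_mem Z r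
    · intro x y _ _ hx hy; exact Z.add_mem hx hy
    · intro x y _ _ hx hy; exact Z.mul_mem hx hy
  ext x
  have hxZ : ((e x : R) : Ω) ∈ Z := by
    obtain ⟨⟨a, b⟩, hab⟩ := IsLocalization.surj P.primeCompl x
    have h1 : ((e x : R) : Ω) * ((b : chartRing (psi E) φ) : Ω) = (a : Ω) := by
      have := congrArg (fun z => ((e z : R) : Ω)) hab
      simp only [map_mul, Subring.coe_mul, heA] at this
      exact this
    have hvb : v ((b : chartRing (psi E) φ) : Ω) = 1 := by
      have hu : ¬ (algebraMap (chartRing (psi E) φ) (Localization.AtPrime P) b ∈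
          IsLocalRing.maximalIdeal (Localization.AtPrime P)) := by
        rw [IsLocalRing.mem_maximalIdeal, mem_nonunits_iff, not_not]
        exact IsLocalization.map_units (Localization.AtPrime P) b
      rw [hmax, heA] at hu
      exact le_antisymm (hR.le_one _ (hAR _ (b : chartRing (psi E) φ).2)) (not_lt.mp hu)
    have hb0 : ((b : chartRing (psi E) φ) : Ω) ≠ 0 := by
      intro h0; rw [h0, map_zero] at hvb; exact zero_ne_one hvb
    have h2 : ((e x : R) : Ω) = (a : Ω) * ((b : chartRing (psi E) φ) : Ω)⁻¹ := by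
      rw [← h1]; field_simp
    rw [h2]
    exact Z.mul_mem (hAZ _ a.2) (hZ.inv_mem _ (hAZ _ (b : chartRing (psi E) φ).2) hvb)
  have := (hZmem _ (e x).2).mp hxZ
  simpa using this

end Pool.Agent.Helper49.Irr
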