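import Pool.Agent.Helper49.Irr.Near

/-!
# The addition law for slopes at near points
-/

namespace Pool.Agent.Helper49.Irr

open Dat

section PartD

variable {N Ω : Type*} [Fintype N] [DecidableEq N] [Field Ω]
  {Γ₀ : Type*} [LinearOrderedCommGroupWithZero Γ₀] {v : Valuation Ω Γ₀} {E : Dat N Ω}

omit [Fintype N] [DecidableEq N] in
/-- D10b: the addition law. -/
theorem clus_add (h : E.Rel) (hM : E.IsModel v) {R Z : Subring Ω} (hR : LocSub v R)
    (hZ : Zer v R Z) {j m b e : N} (hjm : E.Near v j m) (hjb : E.Near v j b) (hmb : m ≠ b)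
    (hje : E.Far v j e) (ha1 : E.a1 ∈ Z) (ha2 : E.a2 ∈ Z)
    (hx : E.x e j ∈ Z ∧ E.x e m ∈ Z ∧ E.x e b ∈ Z)
    (h1 : (E.s j m e)⁻¹ ∈ Z) (h2 : (E.s m b e)⁻¹ ∈ Z) (h3 : E.s m b e / E.s j m e ∈ Z)
    (hmax : v (E.x j b) ≤ v (E.x j m)) (hinv : v (E.x m b) ≤ v (E.x j m)) :
    v (E.x j b) = v (E.x m b) ∧ E.s j b e / E.s m b e ∈ Z ∧ E.s m b e / E.s j b e ∈ Z := by
  have hle : ∀ z ∈ Z, v z ≤ 1 := fun z hz => hR.le_one z (hZ.le hz)
  have hmb' : E.Near v m b := near_trans h hM (near_symm h hjm) hjb hmb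
  have hme : E.Far v m e := far_of_near h hM hjm hje
  have hbe : E.Far v b e := far_of_near h hM hjb hje
  obtain ⟨s1, s1'⟩ := near_s h hM hjm hje
  obtain ⟨s2, s2'⟩ := near_s h hM hmb' hme
  obtain ⟨s3, s3'⟩ := near_s h hM hjb hje
  have hsw : E.s b j e = - E.s j b e - E.a1 := h.s_swap hjb.1 hbe.1 hje.1
  have r := h.r10 j m e b hjm.1 hje.1 hjb.1 hme.1 hmb hbe.1.symm
  have hcyc : E.s b j e = E.s b j e := rfl
  -- names
  generalize hσ1 : E.s j m e = σ1 at *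
  generalize hσ2 : E.s m b e = σ2 at *
  generalize hσ3 : E.s j b e = σ3 at *
  generalize hh : E.a1 ^ 2 + E.a2 + E.x e j + E.x e m + E.x e b = hh' at *
  rw [hsw] at r
  have n1 : σ1 ≠ 0 := by rintro rfl; simp at s1
  have n2 : σ2 ≠ 0 := by rintro rfl; simp at s2
  have n3 : σ3 ≠ 0 := by rintro rfl; simp at s3
  set σ := - σ3 - E.a1 with hσ
  have hvσ : v σ = v σ3 := by
    have : v (σ3 + E.a1) = v σ3 :=
      v.map_add_eq_of_lt_left ((hle _ ha1).trans_lt s3)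
    rw [hσ, ← this, ← Valuation.map_neg v (σ3 + E.a1)]
    congr 1
    ring
  have n4 : σ ≠ 0 := by
    intro h0; rw [h0, map_zero] at hvσ
    rw [← hvσ] at s3
    exact not_lt_zero s3
  have t1 : v σ1⁻¹ < 1 := by rw [map_inv₀]; exact inv_lt_one_of_one_lt₀ s1
  have t2 : v σ2⁻¹ < 1 := by rw [map_inv₀]; exact inv_lt_one_of_one_lt₀ s2
  have hhZ : hh' ∈ Z := by
    rw [← hh]
    exact Z.add_mem (Z.add_mem (Z.add_mem (Z.add_mem (Z.pow_mem ha1 2) ha2) hx.1) hx.2.1) hx.2.2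
  -- the two units
  set U := 1 + (σ2 / σ1 + E.a1 * σ1⁻¹) with hU
  set W := 1 + (E.a1 * (σ1⁻¹ + σ2⁻¹) + hh' * σ1⁻¹ * σ2⁻¹) with hW
  have hUZ : U ∈ Z := Z.add_mem Z.one_mem (Z.add_mem h3 (Z.mul_mem ha1 h1))
  have hWZ : W ∈ Z := Z.add_mem Z.one_mem (Z.add_mem (Z.mul_mem ha1 (Z.add_mem h1 h2))
    (Z.mul_mem (Z.mul_mem hhZ h1) h2))
  have hvW : v W = 1 := by
    rw [hW]
    apply v.map_one_add_of_lt
    exact vsmall_add (vsmall_mul_right (hle _ ha1) (vsmall_add t1 t2))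
      (vsmall_mul_left (vsmall_mul_right (hle _ hhZ) t1) t2.le)
  have key : σ⁻¹ * W = - (σ2⁻¹ * U) := by
    rw [hW, hU]
    field_simp
    rw [← hh]
    linear_combination r
  have hvkey : v σ⁻¹ = v σ2⁻¹ * v U := by
    have := congrArg v key
    rwa [map_mul, hvW, mul_one, Valuation.map_neg, map_mul] at this
  have hvU : v U = 1 := by
    apply le_antisymm (hle _ hUZ)
    by_contra hcon
    rw [not_le] at hcon
    -- `ρ = -1 + small`
    have hρ : v (σ2 / σ1) = 1 := by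
      have e1 : σ2 / σ1 = - (1 - (U - E.a1 * σ1⁻¹)) := by rw [hU]; ring
      rw [e1, Valuation.map_neg]
      exact v.map_one_sub_of_lt (vsmall_sub hcon (vsmall_mul_right (hle _ ha1) t1))
    have hv12 : v σ2 = v σ1 := by
      rw [map_div₀] at hρ
      exact (div_eq_one_iff_eq ((Valuation.ne_zero_iff _).2 n1)).1 hρ
    have hlt : v σ⁻¹ < v σ2⁻¹ := by
      rw [hvkey]
      calc v σ2⁻¹ * v U < v σ2⁻¹ * 1 :=
            (mul_lt_mul_iff_right₀ (zero_lt_iff.2 ((Valuation.ne_zero_iff _).2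
              (inv_ne_zero n2)))).2 hcon
        _ = v σ2⁻¹ := mul_one _
    rw [map_inv₀, map_inv₀, hvσ, hv12] at hlt
    have hlt' : v σ1 < v σ3 :=
      (inv_lt_inv₀ (zero_lt_iff.2 ((Valuation.ne_zero_iff _).2 n3))
        (zero_lt_iff.2 ((Valuation.ne_zero_iff _).2 n1))).1 hlt
    have h4 : v σ1 ^ 2 < v σ3 ^ 2 := pow_lt_pow_left₀ hlt' zero_le two_ne_zero
    rw [s1', s3'] at h4
    exact absurd hmax (not_le.2 h4)
  have hv23 : v σ3 = v σ2 := by
    rw [hvU, mul_one, map_inv₀, map_inv₀, hvσ] at hvkey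
    exact inv_injective hvkey
  have hWinv : W⁻¹ ∈ Z := hZ.inv_mem W hWZ hvW
  have hUinv : U⁻¹ ∈ Z := hZ.inv_mem U hUZ hvU
  have nW : W ≠ 0 := by intro h0; rw [h0, map_zero] at hvW; exact zero_ne_one hvW
  have nU : U ≠ 0 := by intro h0; rw [h0, map_zero] at hvU; exact zero_ne_one hvU
  have hratio : σ3 / σ2 = W * U⁻¹ - E.a1 * σ2⁻¹ := by
    have e2 : σ3 = - σ - E.a1 := by rw [hσ]; ring
    clear_value W U σ
    have hk : W * σ2 = -(σ * U) := by
      field_simp at key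
      exact key
    have e1 : σ = - (σ2 * (W * U⁻¹)) := by
      field_simp
      linear_combination hk
    rw [e2, e1]
    field_simp
  have hmem : σ3 / σ2 ∈ Z := by
    rw [hratio]
    exact Z.sub_mem (Z.mul_mem hWZ hUinv) (Z.mul_mem ha1 h2)
  refine ⟨?_, hmem, ?_⟩
  · rw [← s3', ← s2', hv23]
  · have : σ2 / σ3 = (σ3 / σ2)⁻¹ := by rw [inv_div]
    rw [this]
    apply hZ.inv_mem _ hmem
    rw [map_div₀, hv23]
    exact div_self ((Valuation.ne_zero_iff _).2 n2)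

end PartD

end Pool.Agent.Helper49.Irr
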