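import Pool.Agent.Helper49.Irr.Near

/-!
# The far part of the induction step on clusters
-/

namespace Pool.Agent.Helper49.Irr

open Dat

section PartD

variable {N Ω : Type*} [Fintype N] [DecidableEq N] [Field Ω]
  {Γ₀ : Type*} [LinearOrderedCommGroupWithZero Γ₀] {v : Valuation Ω Γ₀} {E : Dat N Ω}

omit [Fintype N] [DecidableEq N] in
/-- In a set of five pairwise far elements at most one element is not far from a given one. -/
theorem card_not_far (h : E.Rel) (hM : E.IsModel v) {S₀ : Finset N} (hS₀P : E.PFar v S₀)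
    (a : N) : ∃ b, ∀ g ∈ S₀, g ≠ b → E.Far v a g := by
  classical
  by_cases hex : ∃ b ∈ S₀, ¬ E.Far v a b
  · obtain ⟨b, hb, hab⟩ := hex
    refine ⟨b, fun g hg hgb => ?_⟩
    by_contra hag
    have hbg : E.Far v b g := ⟨fun e => hgb e.symm, hS₀P b hb g hg (fun e => hgb e.symm)⟩
    rcases eq_or_ne a b with rfl | hne
    · exact hag hbg
    · have hnear : E.Near v a b := by
        refine ⟨hne, ?_⟩
        by_contra hlt
        exact hab ⟨hne, not_lt.1 hlt⟩
      exact hag (far_of_near h hM (near_symm h hnear) hbg)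
  · push Not at hex
    exact ⟨a, fun g hg _ => hex g hg⟩

omit [Fintype N] in
theorem exists_two_far (h : E.Rel) (hM : E.IsModel v) {S₀ : Finset N} (hS₀5 : 5 ≤ S₀.card)
    (hS₀P : E.PFar v S₀) (a b : N) :
    ∃ c ∈ S₀, ∃ d ∈ S₀, c ≠ d ∧ E.Far v a c ∧ E.Far v a d ∧ E.Far v b c ∧ E.Far v b d := by
  classical
  obtain ⟨a', ha'⟩ := card_not_far h hM hS₀P a
  obtain ⟨b', hb'⟩ := card_not_far h hM hS₀P b
  have hcard : 1 < ((S₀.erase a').erase b').card := by
    have h1 := Finset.pred_card_le_card_erase (s := S₀) (a := a')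
    have h2 := Finset.pred_card_le_card_erase (s := S₀.erase a') (a := b')
    omega
  obtain ⟨c, hc, d, hd, hcd⟩ := Finset.one_lt_card.1 hcard
  simp only [Finset.mem_erase] at hc hd
  exact ⟨c, hc.2.2, d, hd.2.2, hcd, ha' c hc.2.2 hc.2.1, ha' d hd.2.2 hd.2.1,
    hb' c hc.2.2 hc.1, hb' d hd.2.2 hd.1⟩

omit [Fintype N] in
/-- The basic step, with an arbitrary reference point. -/
theorem clus_far_step (h : E.Rel) (hM : E.IsModel v) {R Z : Subring Ω}
    (hZ : Zer v R Z) (hF : ∀ S : Finset N, E.PFar v S → E.FarIn R S) {S : Finset N}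
    (hS : E.Clus v Z S) {j m e b : N}
    (hm : m ∈ S) (hjm : E.Near v j m) (he : e ∈ S) (hje : E.Far v j e)
    (hτ : (E.s j m e)⁻¹ ∈ Z) (hb : b ∈ S) (hjb : E.Far v j b) (hbe : E.Far v b e) :
    E.s j b e ∈ Z ∧ ∃ δ ∈ Z, E.s j m b = E.s j m e + δ := by
  have hmb : E.Far v m b := far_of_near h hM hjm hjb
  have hme : E.Far v m e := far_of_near h hM hjm hje
  have hFj := hF {j, b, e} (by
    intro x hx y hy hxy
    simp only [Finset.mem_insert, Finset.mem_singleton] at hx hy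
    rcases hx with rfl | rfl | rfl <;> rcases hy with rfl | rfl | rfl <;>
      first
        | exact absurd rfl hxy
        | exact hjb.2
        | exact hje.2
        | exact hbe.2
        | exact (far_symm h hjb).2
        | exact (far_symm h hje).2
        | exact (far_symm h hbe).2)
  have hxjb : E.x j b ∈ R := hFj.x j (by simp) b (by simp) hjb.1
  have hsjbe : E.s j b e ∈ R := hFj.s j b e ⟨by simp, by simp, by simp, hjb.1, hbe.1, hje.1⟩
  have hxme : E.x m e ∈ Z := hS.x m hm e he hme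
  have hsmbe : E.s m b e ∈ Z := hS.s m hm b hb e he hmb hbe hme
  have hvs := (near_s h hM hjm hje).1
  have hn : E.s j m e ≠ 0 := by intro h0; rw [h0, map_zero] at hvs; exact not_lt_zero hvs
  have hvτ : v (E.s j m e)⁻¹ < 1 := by rw [map_inv₀]; exact inv_lt_one_of_one_lt₀ hvs
  -- `δ = s m b e - s j b e = s j m b - s j m e`
  have hco := h.cocycle j m b e hjm.1 hjb.1 hje.1 hmb.1 hme.1 hbe.1
  have hxd := h.x_diff j b m e hjb.1 hjm.1 hje.1 hmb.1.symm hbe.1 hme.1
  have hsw := h.s_anti' hjm.1 hmb.1 hjb.1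
  have hδR : E.s m b e - E.s j b e ∈ R := R.sub_mem (hZ.le hsmbe) hsjbe
  have hδ : E.s m b e - E.s j b e
      = (E.s j m e)⁻¹ * (E.x j b - E.x m e + (E.s m b e - E.s j b e) * E.s j b e) := by
    rw [eq_inv_mul_iff_mul_eq₀ hn]
    rw [hsw] at hxd
    linear_combination (E.s j m e - E.s j b e) * hco - hxd
  have hδZ : E.s m b e - E.s j b e ∈ Z := by
    rw [hδ]
    exact hZ.small_mul _ hτ hvτ _ (R.add_mem (R.sub_mem hxjb (hZ.le hxme))
      (R.mul_mem hδR hsjbe))
  constructor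
  · have : E.s j b e = E.s m b e - (E.s m b e - E.s j b e) := by ring
    rw [this]
    exact Z.sub_mem hsmbe hδZ
  · refine ⟨_, hδZ, ?_⟩
    linear_combination - hco

omit [Fintype N] in
/-- Consequence for the slopes with two near points. -/
theorem clus_far_inv (h : E.Rel) (hM : E.IsModel v) {R Z : Subring Ω} (hR : LocSub v R)
    (hZ : Zer v R Z) (hF : ∀ S : Finset N, E.PFar v S → E.FarIn R S) {S : Finset N}
    (hS : E.Clus v Z S) {j m e b : N}
    (hm : m ∈ S) (hjm : E.Near v j m) (he : e ∈ S) (hje : E.Far v j e)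
    (hτ : (E.s j m e)⁻¹ ∈ Z) (hb : b ∈ S) (hjb : E.Far v j b) (hbe : E.Far v b e) :
    (E.s j m b)⁻¹ ∈ Z ∧ E.s j m b / E.s j m e ∈ Z := by
  obtain ⟨-, δ, hδZ, hδ⟩ := clus_far_step h hM hZ hF hS hm hjm he hje hτ hb hjb hbe
  have hvs := (near_s h hM hjm hje).1
  have hn : E.s j m e ≠ 0 := by intro h0; rw [h0, map_zero] at hvs; exact not_lt_zero hvs
  have hvτ : v (E.s j m e)⁻¹ < 1 := by rw [map_inv₀]; exact inv_lt_one_of_one_lt₀ hvs
  have hvb := (near_s h hM hjm hjb).1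
  have hnb : E.s j m b ≠ 0 := by intro h0; rw [h0, map_zero] at hvb; exact not_lt_zero hvb
  have e1 : E.s j m b / E.s j m e = 1 + (E.s j m e)⁻¹ * δ := by
    rw [hδ]; field_simp
  have hmem : E.s j m b / E.s j m e ∈ Z := by
    rw [e1]; exact Z.add_mem Z.one_mem (Z.mul_mem hτ hδZ)
  refine ⟨?_, hmem⟩
  have hv1 : v (E.s j m b / E.s j m e) = 1 := by
    rw [e1]
    exact v.map_one_add_of_lt (vsmall_mul_left hvτ (hR.le_one _ (hZ.le hδZ)))
  have e2 : (E.s j m b)⁻¹ = (E.s j m b / E.s j m e)⁻¹ * (E.s j m e)⁻¹ := by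
    field_simp
  rw [e2]
  exact Z.mul_mem (hZ.inv_mem _ hmem hv1) hτ

omit [Fintype N] in
/-- D10a: the far part of the induction step. -/
theorem clus_far (h : E.Rel) (hM : E.IsModel v) {R Z : Subring Ω} (hR : LocSub v R)
    (hZ : Zer v R Z) (hF : ∀ S : Finset N, E.PFar v S → E.FarIn R S) {S₀ S : Finset N}
    (hS₀ : S₀ ⊆ S) (hS₀5 : 5 ≤ S₀.card) (hS₀P : E.PFar v S₀) (hS : E.Clus v Z S) {j m e : N}
    (hj : j ∉ S) (hm : m ∈ S) (hjm : E.Near v j m) (he : e ∈ S) (hje : E.Far v j e)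
    (hτ : (E.s j m e)⁻¹ ∈ Z) :
    (∀ b ∈ S, E.Far v j b → E.x j b ∈ Z ∧ E.y j b ∈ Z) ∧
    (∀ b ∈ S, ∀ c ∈ S, E.Far v j b → E.Far v j c → E.Far v b c → E.s j b c ∈ Z) ∧
    (∀ f ∈ S, E.Far v j f → (E.s j m f)⁻¹ ∈ Z ∧ E.s j m f / E.s j m e ∈ Z) := by
  -- the third claim
  have h3 : ∀ f ∈ S, E.Far v j f → (E.s j m f)⁻¹ ∈ Z ∧ E.s j m f / E.s j m e ∈ Z := by
    intro f hf hjf
    obtain ⟨g, hg, -, -, -, hjg, -, heg, -⟩ := exists_two_far h hM hS₀5 hS₀P j e
    obtain ⟨h1, h1'⟩ := clus_far_inv h hM hR hZ hF hS hm hjm he hje hτ (hS₀ hg) hjg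
      (far_symm h heg)
    by_cases hef : E.Far v f e
    · exact clus_far_inv h hM hR hZ hF hS hm hjm he hje hτ hf hjf hef
    · -- then `f` is equal or near to `e`, so far from `g`
      have hfg : E.Far v f g := by
        rcases eq_or_ne e f with rfl | hne
        · exact heg
        · have hnear : E.Near v e f := by
            refine ⟨hne, ?_⟩
            by_contra hlt
            exact hef (far_symm h ⟨hne, not_lt.1 hlt⟩)
          exact far_of_near h hM hnear heg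
      obtain ⟨h2, h2'⟩ := clus_far_inv h hM hR hZ hF hS hm hjm (hS₀ hg) hjg h1 hf hjf hfg
      refine ⟨h2, ?_⟩
      have hvg := (near_s h hM hjm hjg).1
      have hng : E.s j m g ≠ 0 := by intro h0; rw [h0, map_zero] at hvg; exact not_lt_zero hvg
      have e1 : E.s j m f / E.s j m e = (E.s j m f / E.s j m g) * (E.s j m g / E.s j m e) := by
        rw [div_mul_div_cancel₀ hng]
      rw [e1]
      exact Z.mul_mem h2' h1'
  have h2 : ∀ b ∈ S, ∀ c ∈ S, E.Far v j b → E.Far v j c → E.Far v b c → E.s j b c ∈ Z := by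
    intro b hb c hc hjb hjc hbc
    exact (clus_far_step h hM hZ hF hS hm hjm hc hjc (h3 c hc hjc).1 hb hjb hbc).1
  refine ⟨?_, h2, h3⟩
  intro b hb hjb
  obtain ⟨c, hc, d, hd, hcd, hjc, hjd, hbc, hbd⟩ := exists_two_far h hM hS₀5 hS₀P j b
  have hcd' : E.Far v c d := ⟨hcd, hS₀P c hc d hd hcd⟩
  have hxd := h.x_diff j b c d hjb.1 hjc.1 hjd.1 hbc.1 hbd.1 hcd
  have hx : E.x j b ∈ Z := by
    have e1 : E.x j b = E.x c d
        + (E.s j b d - E.s j c d) * (E.s j b c + E.s j c d + E.a1) := by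
      linear_combination hxd
    rw [e1]
    have hjbd := h2 b hb d (hS₀ hd) hjb hjd hbd
    have hjcd := h2 c (hS₀ hc) d (hS₀ hd) hjc hjd hcd'
    have hjbc := h2 b hb c (hS₀ hc) hjb hjc hbc
    exact Z.add_mem (hS.x c (hS₀ hc) d (hS₀ hd) hcd')
      (Z.mul_mem (Z.sub_mem hjbd hjcd) (Z.add_mem (Z.add_mem hjbc hjcd) hS.a1))
  refine ⟨hx, ?_⟩
  have hsl := h.slope j b c hjb.1 hbc.1 hjc.1
  have e2 : E.y j b = E.y b c + E.s j b c * (E.x j b - E.x b c) := by
    linear_combination hsl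
  rw [e2]
  exact Z.add_mem (hS.y b hb c (hS₀ hc) hbc)
    (Z.mul_mem (h2 b hb c (hS₀ hc) hjb hjc hbc) (Z.sub_mem hx (hS.x b hb c (hS₀ hc) hbc)))

end PartD

end Pool.Agent.Helper49.Irr
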