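import Pool.Agent.Helper49.Irr.Near2

/-!
# Membership of the new parameter (everything that does not use `inv_mem`)
-/

namespace Pool.Agent.Helper49.Irr

open Dat

namespace RM

variable {N Ω : Type*} [Field Ω] {Γ₀ : Type*} [LinearOrderedCommGroupWithZero Γ₀]
  {v : Valuation Ω Γ₀} {E : Dat N Ω}

theorem not_far_of_near {a b : N} (hab : E.Near v a b) : ¬ E.Far v a b := fun hf =>
  absurd hf.2 (not_le.mpr hab.2)

theorem near_or_far {a b : N} (hab : a ≠ b) : E.Near v a b ∨ E.Far v a b := by
  rcases lt_or_ge 1 (v (E.x a b)) with h | h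
  · exact Or.inl ⟨hab, h⟩
  · exact Or.inr ⟨hab, h⟩

/-- the slopes with three far indices lie in `R`. -/
theorem s_mem_of_far (h : E.Rel) {R : Subring Ω}
    (hF : ∀ S : Finset N, E.PFar v S → E.FarIn R S) {a b c : N} (hab : E.Far v a b)
    (hbc : E.Far v b c) (hac : E.Far v a c) : E.s a b c ∈ R := by
  classical
  have hP : E.PFar v {a, b, c} := by
    intro p hp q hq hpq
    simp only [Finset.mem_insert, Finset.mem_singleton] at hp hq
    rcases hp with rfl | rfl | rfl <;> rcases hq with rfl | rfl | rfl <;>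
      first
      | exact absurd rfl hpq
      | exact hab.2
      | exact hbc.2
      | exact hac.2
      | exact (far_symm h hab).2
      | exact (far_symm h hbc).2
      | exact (far_symm h hac).2
  exact (hF _ hP).s a b c ⟨by simp, by simp, by simp, hab.1, hbc.1, hac.1⟩

/-- change of the far reference point. -/
theorem s_sub_mem (h : E.Rel) (hM : E.IsModel v) {R : Subring Ω}
    (hF : ∀ S : Finset N, E.PFar v S → E.FarIn R S) {a b c d : N} (hab : E.Near v a b)
    (hac : E.Far v a c) (had : E.Far v a d) : E.s a b c - E.s a b d ∈ R := by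
  have key : ∀ c d : N, E.Far v a c → E.Far v a d → E.Far v c d → E.s a b c - E.s a b d ∈ R := by
    intro c d hac had hcd
    have hbc := far_of_near h hM hab hac
    have hbd := far_of_near h hM hab had
    have h1 := h.cocycle a b c d hab.1 hac.1 had.1 hbc.1 hbd.1 hcd.1
    have h2 : E.s a b c - E.s a b d = E.s b c d - E.s a c d := by linear_combination - h1
    rw [h2]
    exact R.sub_mem (s_mem_of_far h hF hbc hcd hbd) (s_mem_of_far h hF hac hcd had)
  rcases eq_or_ne c d with rfl | hcd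
  · rw [sub_self]; exact R.zero_mem
  rcases near_or_far (v := v) (E := E) hcd with hn | hf
  · obtain ⟨e, hae, hce⟩ := exists_far₂ h hM a c
    have hde := far_of_near h hM hn hce
    have h1 := key c e hac hae hce
    have h2 := key e d hae had (far_symm h hde)
    have h3 : E.s a b c - E.s a b d = (E.s a b c - E.s a b e) + (E.s a b e - E.s a b d) := by ring
    rw [h3]
    exact R.add_mem h1 h2
  · exact key c d hac had hf

/-- change of the far reference points in a quotient. -/
theorem ratio_change (h : E.Rel) (hM : E.IsModel v) {R : Subring Ω}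
    (hI : ∀ a b c : N, E.Near v a b → E.Far v a c → (E.s a b c)⁻¹ ∈ R)
    (hF : ∀ S : Finset N, E.PFar v S → E.FarIn R S) {j m a b e f e' f' : N}
    (hjm : E.Near v j m) (hab : E.Near v a b) (hjf : E.Far v j f) (hae : E.Far v a e)
    (hjf' : E.Far v j f') (hae' : E.Far v a e') (h0 : E.s a b e' / E.s j m f' ∈ R) :
    E.s a b e / E.s j m f ∈ R := by
  have n1 : E.s j m f ≠ 0 := by
    intro h0
    have := (near_s h hM hjm hjf).1
    rw [h0, map_zero] at this
    exact absurd this (not_lt.mpr zero_le_one)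
  have n2 : E.s j m f' ≠ 0 := by
    intro h0
    have := (near_s h hM hjm hjf').1
    rw [h0, map_zero] at this
    exact absurd this (not_lt.mpr zero_le_one)
  have h1 := s_sub_mem h hM hF hab hae hae'
  have h2 := s_sub_mem h hM hF hjm hjf' hjf
  have h3 := hI j m f hjm hjf
  have h4 : E.s a b e / E.s j m f = (E.s a b e' / E.s j m f')
      * (1 + (E.s j m f' - E.s j m f) * (E.s j m f)⁻¹)
      + (E.s a b e - E.s a b e') * (E.s j m f)⁻¹ := by
    field_simp
    ring
  rw [h4]
  exact R.add_mem (R.mul_mem h0 (R.add_mem R.one_mem (R.mul_mem h2 h3))) (R.mul_mem h1 h3)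

/-- the unit factor in the addition law. -/
theorem unit_factor (h : E.Rel) (hM : E.IsModel v) {j m b e : N} (hjm : E.Near v j m)
    (hmb : E.Near v m b) (hjb : j ≠ b) (hje : E.Far v j e)
    (hmax : v (E.x j b) ≤ v (E.x j m)) (hinv : v (E.x m b) ≤ v (E.x j m)) :
    v (E.s j m e + E.s m b e + E.a1) = v (E.s j m e) := by
  have hme := far_of_near h hM hjm hje
  have hbe := far_of_near h hM hmb hme
  have hjbN := near_trans h hM hjm hmb hjb
  have hbj := near_symm h hjbN
  obtain ⟨g1, e1⟩ := near_s h hM hjm hje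
  obtain ⟨g2, e2⟩ := near_s h hM hmb hme
  obtain ⟨g3, e3⟩ := near_s h hM hbj hbe
  have hle2 : v (E.s m b e) ≤ v (E.s j m e) := by
    rw [← e1, ← e2] at hinv
    exact (pow_le_pow_iff_left₀ zero_le zero_le two_ne_zero).mp hinv
  have hle3 : v (E.s b j e) ≤ v (E.s j m e) := by
    rw [← h.x_symm j b hjb, ← e1, ← e3] at hmax
    exact (pow_le_pow_iff_left₀ zero_le zero_le two_ne_zero).mp hmax
  have ha1 : v E.a1 < v (E.s j m e) := lt_of_le_of_lt hM.a1 g1
  have hle : v (E.s j m e + E.s m b e + E.a1) ≤ v (E.s j m e) :=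
    le_trans (v.map_add _ _) (max_le (le_trans (v.map_add _ _) (max_le le_rfl hle2)) ha1.le)
  by_contra hne
  have hlt : v (E.s j m e + E.s m b e + E.a1) < v (E.s j m e) := lt_of_le_of_ne hle hne
  -- `v(s_mbe) = v(s_jme)`
  have hv2 : v (E.s m b e) = v (E.s j m e) := by
    have h1 : E.s m b e = - E.s j m e + ((E.s j m e + E.s m b e + E.a1) - E.a1) := by ring
    rw [h1, Valuation.map_add_eq_of_lt_left, Valuation.map_neg]
    rw [Valuation.map_neg]
    exact lt_of_le_of_lt (v.map_sub _ _) (max_lt hlt ha1)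
  have hr := h.r10 j m e b hjm.1 hje.1 hjb hme.1 hmb.1 (far_symm h hbe).1
  have hr' : E.s b j e * (E.s j m e + E.s m b e + E.a1)
      = - (E.s j m e * E.s m b e + (E.a1 * (E.s j m e + E.s m b e)
        + (E.a1 ^ 2 + E.a2 + E.x e j + E.x e m + E.x e b))) := by
    linear_combination hr
  have hvr : v (E.s b j e * (E.s j m e + E.s m b e + E.a1)) = v (E.s j m e) * v (E.s j m e) := by
    have hgt : v (E.s j m e) < v (E.s j m e) * v (E.s j m e) := by
      conv_lhs => rw [← one_mul (v (E.s j m e))]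
      exact mul_lt_mul_of_pos_right g1 (lt_trans zero_lt_one g1)
    rw [hr', Valuation.map_neg, Valuation.map_add_eq_of_lt_left, map_mul, hv2]
    rw [map_mul, hv2]
    refine lt_of_le_of_lt ?_ hgt
    refine le_trans (v.map_add _ _) (max_le ?_ ?_)
    · rw [map_mul]
      calc v E.a1 * v (E.s j m e + E.s m b e) ≤ 1 * v (E.s j m e) :=
            mul_le_mul' hM.a1 (le_trans (v.map_add _ _) (max_le le_rfl hle2))
        _ = v (E.s j m e) := one_mul _
    · refine le_trans ?_ g1.le
      have x1 : v (E.x e j) ≤ 1 := (far_symm h hje).2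
      have x2 : v (E.x e m) ≤ 1 := (far_symm h hme).2
      have x3 : v (E.x e b) ≤ 1 := (far_symm h hbe).2
      have a1' : v (E.a1 ^ 2) ≤ 1 := by
        rw [map_pow]; exact pow_le_one' hM.a1 2
      refine le_trans (v.map_add _ _) (max_le ?_ x3)
      refine le_trans (v.map_add _ _) (max_le ?_ x2)
      refine le_trans (v.map_add _ _) (max_le ?_ x1)
      exact le_trans (v.map_add _ _) (max_le a1' hM.a2)
  rw [map_mul] at hvr
  have : v (E.s b j e) * v (E.s j m e + E.s m b e + E.a1) < v (E.s j m e) * v (E.s j m e) :=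
    mul_lt_mul'' (lt_of_le_of_ne hle3 ?_) hlt zero_le zero_le
  · exact absurd hvr this.ne
  · intro h0
    rw [h0] at hvr
    have hpos : (0 : Γ₀) < v (E.s j m e) := lt_trans zero_lt_one g1
    have := mul_left_cancel₀ hpos.ne' hvr
    exact hlt.ne this

theorem card_five [DecidableEq N] {a b c d e : N} (hab : a ≠ b) (hac : a ≠ c) (had : a ≠ d) (hae : a ≠ e)
    (hbc : b ≠ c) (hbd : b ≠ d) (hbe : b ≠ e) (hcd : c ≠ d) (hce : c ≠ e) (hde : d ≠ e) :
    ({a, b, c, d, e} : Finset N).card = 5 := by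
  rw [Finset.card_insert_of_notMem, Finset.card_insert_of_notMem, Finset.card_insert_of_notMem,
    Finset.card_insert_of_notMem, Finset.card_singleton]
  · simpa using hde
  · simp [hcd, hce]
  · simp [hbc, hbd, hbe]
  · simp [hab, hac, had, hae]

/-- a bound for all near pairs of a 5-set from the bounds for its ten pairs. -/
theorem close_five [DecidableEq N] (h : E.Rel) {K : Γ₀} {a b c d e : N}
    (hab : E.Near v a b → v (E.x a b) ≤ K) (hac : E.Near v a c → v (E.x a c) ≤ K)
    (had : E.Near v a d → v (E.x a d) ≤ K) (hae : E.Near v a e → v (E.x a e) ≤ K)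
    (hbc : E.Near v b c → v (E.x b c) ≤ K) (hbd : E.Near v b d → v (E.x b d) ≤ K)
    (hbe : E.Near v b e → v (E.x b e) ≤ K) (hcd : E.Near v c d → v (E.x c d) ≤ K)
    (hce : E.Near v c e → v (E.x c e) ≤ K) (hde : E.Near v d e → v (E.x d e) ≤ K) :
    ∀ p ∈ ({a, b, c, d, e} : Finset N), ∀ q ∈ ({a, b, c, d, e} : Finset N), E.Near v p q →
      v (E.x p q) ≤ K := by
  have symm : ∀ p q : N, (E.Near v p q → v (E.x p q) ≤ K) → E.Near v q p → v (E.x q p) ≤ K := by
    intro p q hpq hqp
    rw [h.x_symm p q hqp.1.symm]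
    exact hpq (near_symm h hqp)
  intro p hp q hq hpq
  simp only [Finset.mem_insert, Finset.mem_singleton] at hp hq
  rcases hp with rfl | rfl | rfl | rfl | rfl <;> rcases hq with rfl | rfl | rfl | rfl | rfl <;>
    first
    | exact absurd rfl hpq.1
    | exact hab hpq
    | exact hac hpq
    | exact had hpq
    | exact hae hpq
    | exact hbc hpq
    | exact hbd hpq
    | exact hbe hpq
    | exact hcd hpq
    | exact hce hpq
    | exact hde hpq
    | exact symm _ _ hab hpq
    | exact symm _ _ hac hpq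
    | exact symm _ _ had hpq
    | exact symm _ _ hae hpq
    | exact symm _ _ hbc hpq
    | exact symm _ _ hbd hpq
    | exact symm _ _ hbe hpq
    | exact symm _ _ hcd hpq
    | exact symm _ _ hce hpq
    | exact symm _ _ hde hpq

/-- the quotient of a slope by the slope at the closest pair. -/
theorem ratio_of_reference (h : E.Rel) (hM : E.IsModel v) {R : Subring Ω}
    (hRG : ∀ J : Finset N, J.card = 5 → ∀ g', E.IsMax v J g' → ∀ g ∈ E.G J, g / g' ∈ R)
    {J : Finset N} (hJ : J.card = 5) {j m e a b c r r' r'' : N} (hjm : E.Near v j m)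
    (hje : E.Far v j e)
    (hclose : ∀ c ∈ J, ∀ d ∈ J, E.Near v c d → v (E.x c d) ≤ v (E.x j m))
    (hT0 : Tri J j m e) (hT : Tri J a b c) (hTr : Tri J r r' r'')
    (hu : v (E.s j m e - E.s r r' r'') = v (E.s j m e))
    (hr : E.s r r' r'' / E.s j m e ∈ R) : E.s a b c / E.s j m e ∈ R := by
  have hgt := (near_s h hM hjm hje).1
  have n1 : E.s j m e ≠ 0 := by
    intro h0
    rw [h0, map_zero] at hgt
    exact absurd hgt (not_lt.mpr zero_le_one)
  have n2 : E.s j m e - E.s r r' r'' ≠ 0 := by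
    intro h0
    rw [h0, map_zero] at hu
    rw [← hu] at hgt
    exact absurd hgt (not_lt.mpr zero_le_one)
  have hmax : E.IsMax v J (E.s j m e - E.s r r' r'') := by
    refine ⟨⟨j, m, e, r, r', r'', hT0, hTr, rfl⟩, n2, ?_⟩
    rintro g ⟨a, b, c, a', b', c', h1, h2, rfl⟩
    rw [hu]
    exact le_trans (v.map_sub _ _) (max_le (s_le_of_close h hM hjm hje hclose h1)
      (s_le_of_close h hM hjm hje hclose h2))
  have h1 := hRG J hJ _ hmax (E.s a b c - E.s r r' r'') ⟨a, b, c, r, r', r'', hT, hTr, rfl⟩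
  have h2 : E.s a b c / E.s j m e
      = (E.s a b c - E.s r r' r'') / (E.s j m e - E.s r r' r'') * (1 - E.s r r' r'' / E.s j m e)
        + E.s r r' r'' / E.s j m e := by
    field_simp
    ring
  rw [h2]
  exact R.add_mem (R.mul_mem h1 (R.sub_mem R.one_mem hr)) hr

/-- the case of a chain of two near pairs. -/
theorem ratio_chain (h : E.Rel) (hM : E.IsModel v) {R : Subring Ω}
    (hRG : ∀ J : Finset N, J.card = 5 → ∀ g', E.IsMax v J g' → ∀ g ∈ E.G J, g / g' ∈ R)
    (hF : ∀ S : Finset N, E.PFar v S → E.FarIn R S)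
    (hI : ∀ a b c : N, E.Near v a b → E.Far v a c → (E.s a b c)⁻¹ ∈ R) {j m b e : N}
    (hjm : E.Near v j m) (hmb : E.Near v m b) (hjb : j ≠ b) (hje : E.Far v j e)
    (hmax : v (E.x j b) ≤ v (E.x j m)) (hinv : v (E.x m b) ≤ v (E.x j m)) :
    E.s m b e / E.s j m e ∈ R := by
  classical
  obtain ⟨f, hjf, hef⟩ := exists_far₂ h hM j e
  have hme := far_of_near h hM hjm hje
  have hmf := far_of_near h hM hjm hjf
  have hbe := far_of_near h hM hmb hme
  have hbf := far_of_near h hM hmb hmf
  have hgt := (near_s h hM hjm hje).1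
  refine ratio_of_reference h hM hRG (J := {j, m, b, e, f})
    (card_five hjm.1 hjb hje.1 hjf.1 hmb.1 hme.1 hmf.1 hbe.1 hbf.1 hef.1) hjm hje
    (close_five h (fun _ => le_rfl) (fun _ => hmax) (fun hn => absurd hje (not_far_of_near hn))
      (fun hn => absurd hjf (not_far_of_near hn)) (fun _ => hinv)
      (fun hn => absurd hme (not_far_of_near hn)) (fun hn => absurd hmf (not_far_of_near hn))
      (fun hn => absurd hbe (not_far_of_near hn)) (fun hn => absurd hbf (not_far_of_near hn))
      (fun hn => absurd hef (not_far_of_near hn)))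
    ⟨by simp, by simp, by simp, hjm.1, hme.1, hje.1⟩
    ⟨by simp, by simp, by simp, hmb.1, hbe.1, hme.1⟩
    (r := m) (r' := e) (r'' := f) ⟨by simp, by simp, by simp, hme.1, hef.1, hmf.1⟩ ?_ ?_
  · exact Valuation.map_sub_eq_of_lt_left _ (lt_of_le_of_lt (s_le_one h hM hme hef hmf) hgt)
  · rw [div_eq_mul_inv]
    exact R.mul_mem (s_mem_of_far h hF hme hef hmf) (hI j m e hjm hje)

/-- the case of two disjoint near pairs. -/
theorem ratio_disj (h : E.Rel) (hM : E.IsModel v) {R : Subring Ω}
    (hRG : ∀ J : Finset N, J.card = 5 → ∀ g', E.IsMax v J g' → ∀ g ∈ E.G J, g / g' ∈ R)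
    (hF : ∀ S : Finset N, E.PFar v S → E.FarIn R S)
    (hI : ∀ a b c : N, E.Near v a b → E.Far v a c → (E.s a b c)⁻¹ ∈ R) {j m a b e : N}
    (hjm : E.Near v j m) (hab : E.Near v a b) (hje : E.Far v j e) (hae : E.Far v a e)
    (hja : j ≠ a) (hjb : j ≠ b) (hma : m ≠ a) (hmb : m ≠ b)
    (hmaxa : E.Near v j a → v (E.x j a) ≤ v (E.x j m))
    (hmaxb : E.Near v j b → v (E.x j b) ≤ v (E.x j m))
    (hinv : v (E.x a b) ≤ v (E.x j m))
    (hinva : E.Near v m a → v (E.x m a) ≤ v (E.x j m))
    (hinvb : E.Near v m b → v (E.x m b) ≤ v (E.x j m)) : E.s a b e / E.s j m e ∈ R := by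
  classical
  have hme := far_of_near h hM hjm hje
  have hbe := far_of_near h hM hab hae
  have hgt := (near_s h hM hjm hje).1
  have hcard := card_five hjm.1 hja hjb hje.1 hma hmb hme.1 hab.1 hae.1 hbe.1
  have hclose := close_five h (v := v) (K := v (E.x j m)) (a := j) (b := m) (c := a) (d := b)
    (e := e) (fun _ => le_rfl) hmaxa hmaxb (fun hn => absurd hje (not_far_of_near hn))
    hinva hinvb (fun hn => absurd hme (not_far_of_near hn)) (fun _ => hinv)
    (fun hn => absurd hae (not_far_of_near hn)) (fun hn => absurd hbe (not_far_of_near hn))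
  have T0 : Tri {j, m, a, b, e} j m e := ⟨by simp, by simp, by simp, hjm.1, hme.1, hje.1⟩
  have T1 : Tri {j, m, a, b, e} a b e := ⟨by simp, by simp, by simp, hab.1, hbe.1, hae.1⟩
  rcases near_or_far (v := v) (E := E) hma with hn | hf
  · have hnb := near_trans h hM hn hab hmb
    have hjbN := near_trans h hM hjm hnb hjb
    have hρ := ratio_chain h hM hRG hF hI hjm hnb hjb hje (hmaxb hjbN) (hinvb hnb)
    have hsw : E.s b m e = - E.s m b e - E.a1 := h.s_swap hmb hbe.1 hme.1
    refine ratio_of_reference h hM hRG hcard hjm hje hclose T0 T1 (r := b) (r' := m) (r'' := e)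
      ⟨by simp, by simp, by simp, hmb.symm, hme.1, hbe.1⟩ ?_ ?_
    · rw [hsw, ← unit_factor h hM hjm hnb hjb hje (hmaxb hjbN) (hinvb hnb)]
      congr 1
      ring
    · have h1 : E.s b m e / E.s j m e = - (E.s m b e / E.s j m e) - E.a1 * (E.s j m e)⁻¹ := by
        rw [hsw]
        ring
      rw [h1]
      refine R.sub_mem (R.neg_mem hρ) (R.mul_mem ?_ (hI j m e hjm hje))
      exact (hF ∅ (by intro a ha; simp at ha)).a1
  · refine ratio_of_reference h hM hRG hcard hjm hje hclose T0 T1 (r := m) (r' := a) (r'' := e)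
      ⟨by simp, by simp, by simp, hma, hae.1, hme.1⟩ ?_ ?_
    · exact Valuation.map_sub_eq_of_lt_left _ (lt_of_le_of_lt (s_le_one h hM hf hae hme) hgt)
    · rw [div_eq_mul_inv]
      exact R.mul_mem (s_mem_of_far h hF hf hae hme) (hI j m e hjm hje)

/-- D10c with the conclusion of `inv_mem` as a hypothesis. -/
theorem ratio_mem_of_inv (h : E.Rel) (hM : E.IsModel v) {R : Subring Ω}
    (hRG : ∀ J : Finset N, J.card = 5 → ∀ g', E.IsMax v J g' → ∀ g ∈ E.G J, g / g' ∈ R)
    (hF : ∀ S : Finset N, E.PFar v S → E.FarIn R S)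
    (hI : ∀ a b c : N, E.Near v a b → E.Far v a c → (E.s a b c)⁻¹ ∈ R) {j m a b e f : N}
    (hjm : E.Near v j m) (hab : E.Near v a b) (hjf : E.Far v j f) (hae : E.Far v a e)
    (hja : j ≠ a) (hjb : j ≠ b)
    (hmaxa : E.Near v j a → v (E.x j a) ≤ v (E.x j m))
    (hmaxb : E.Near v j b → v (E.x j b) ≤ v (E.x j m))
    (hinv : v (E.x a b) ≤ v (E.x j m))
    (hinva : E.Near v m a → v (E.x m a) ≤ v (E.x j m))
    (hinvb : E.Near v m b → v (E.x m b) ≤ v (E.x j m)) : E.s a b e / E.s j m f ∈ R := by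
  obtain ⟨g, hjg, hag⟩ := exists_far₂ h hM j a
  refine ratio_change h hM hI hF hjm hab hjf hae hjg hag ?_
  rcases eq_or_ne m a with rfl | hma
  · have hjbN := near_trans h hM hjm hab hjb
    exact ratio_chain h hM hRG hF hI hjm hab hjb hjg (hmaxb hjbN) hinv
  rcases eq_or_ne m b with rfl | hmb
  · have hma' := near_symm h hab
    have hjaN := near_trans h hM hjm hma' hja
    have h1 := ratio_chain h hM hRG hF hI hjm hma' hja hjg (hmaxa hjaN) (hinva hma')
    have hmg := far_of_near h hM hjm hjg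
    have hsw : E.s a m g = - E.s m a g - E.a1 := h.s_swap hma hag.1 hmg.1
    have h2 : E.s a m g / E.s j m g = - (E.s m a g / E.s j m g) - E.a1 * (E.s j m g)⁻¹ := by
      rw [hsw]
      ring
    rw [h2]
    refine R.sub_mem (R.neg_mem h1) (R.mul_mem ?_ (hI j m g hjm hjg))
    exact (hF ∅ (by intro a ha; simp at ha)).a1
  · exact ratio_disj h hM hRG hF hI hjm hab hjg hag hja hjb hma hmb hmaxa hmaxb hinv hinva hinvb

end RM

end Pool.Agent.Helper49.Irr
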