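import Pool.Agent.Helper49.Irr.ClusFar
import Pool.Agent.Helper49.Irr.ClusAdd
import Pool.Agent.Helper49.Irr.RatioMemAux

/-!
# The induction step on clusters, for a fixed `Z`
-/

namespace Pool.Agent.Helper49.Irr

open Dat

variable {N Ω : Type*} [Fintype N] [DecidableEq N] [Field Ω]
  {Γ₀ : Type*} [LinearOrderedCommGroupWithZero Γ₀] {v : Valuation Ω Γ₀} {E : Dat N Ω}

namespace CS

omit [Fintype N] [DecidableEq N] in
/-- an element of a large pairwise far set which is far from two given points. -/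
theorem exists_far_in (h : E.Rel) (hM : E.IsModel v) {S₀ : Finset N} (hS₀5 : 5 ≤ S₀.card)
    (hS₀P : E.PFar v S₀) (a c : N) : ∃ e ∈ S₀, E.Far v a e ∧ E.Far v c e := by
  classical
  by_contra hcon
  push Not at hcon
  have h1 : S₀ ⊆ (S₀.filter fun e => ¬ E.Far v a e) ∪ (S₀.filter fun e => ¬ E.Far v c e) := by
    intro e he
    rw [Finset.mem_union, Finset.mem_filter, Finset.mem_filter]
    by_cases hae : E.Far v a e
    · exact Or.inr ⟨he, hcon e he hae⟩
    · exact Or.inl ⟨he, hae⟩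
  have hone : ∀ a : N, (S₀.filter fun e => ¬ E.Far v a e).card ≤ 1 := by
    intro a
    rw [Finset.card_le_one]
    intro x hx y hy
    rw [Finset.mem_filter] at hx hy
    by_contra hne
    exact bad_unique h hM hS₀P hx.1 hy.1 hne hx.2 hy.2
  have h2 := Finset.card_le_card h1
  have h3 := Finset.card_union_le (S₀.filter fun e => ¬ E.Far v a e)
    (S₀.filter fun e => ¬ E.Far v c e)
  have h4 := hone a
  have h5 := hone c
  omega

/-- equality up to a unit of `Z`. -/
def Eqv (Z : Subring Ω) (z w : Ω) : Prop := z / w ∈ Z ∧ w / z ∈ Z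

theorem Eqv.symm {Z : Subring Ω} {z w : Ω} (hzw : Eqv Z z w) : Eqv Z w z := ⟨hzw.2, hzw.1⟩

theorem Eqv.refl {Z : Subring Ω} {z : Ω} (hz : z ≠ 0) : Eqv Z z z := by
  refine ⟨?_, ?_⟩ <;> rw [div_self hz] <;> exact Z.one_mem

theorem Eqv.trans {Z : Subring Ω} {z w u : Ω} (hw : w ≠ 0) (h1 : Eqv Z z w) (h2 : Eqv Z w u) :
    Eqv Z z u := by
  refine ⟨?_, ?_⟩
  · have : z / u = (z / w) * (w / u) := by field_simp
    rw [this]; exact Z.mul_mem h1.1 h2.1
  · have : u / z = (u / w) * (w / z) := by field_simp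
    rw [this]; exact Z.mul_mem h2.2 h1.2

/-- adding an element of `Z` to a large element. -/
theorem Eqv.of_add {R Z : Subring Ω} (hR : LocSub v R) (hZ : Zer v R Z) {z δ : Ω}
    (hz : 1 < v z) (hi : z⁻¹ ∈ Z) (hδ : δ ∈ Z) : Eqv Z (z + δ) z := by
  have hz0 : z ≠ 0 := by
    rintro rfl
    rw [map_zero] at hz
    exact absurd hz (not_lt.mpr zero_le_one)
  have hu : 1 + δ * z⁻¹ ∈ Z := Z.add_mem Z.one_mem (Z.mul_mem hδ hi)
  have hvi : v z⁻¹ < 1 := by
    rw [map_inv₀]
    exact inv_lt_one_of_one_lt₀ hz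
  have hvs : v (δ * z⁻¹) < 1 := by
    rw [map_mul]
    calc v δ * v z⁻¹ ≤ 1 * v z⁻¹ := by gcongr; exact hR.le_one δ (hZ.le hδ)
      _ = v z⁻¹ := one_mul _
      _ < 1 := hvi
  have hv : v (1 + δ * z⁻¹) = 1 := by
    have := Valuation.map_add_eq_of_lt_left v (x := (1 : Ω)) (y := δ * z⁻¹)
      (by rw [map_one]; exact hvs)
    rw [this, map_one]
  have h1 : (z + δ) / z = 1 + δ * z⁻¹ := by field_simp
  have h2 : z / (z + δ) = (1 + δ * z⁻¹)⁻¹ := by
    rw [← h1, inv_div]
  exact ⟨by rw [h1]; exact hu, by rw [h2]; exact hZ.inv_mem _ hu hv⟩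

theorem Eqv.neg {Z : Subring Ω} {z w : Ω} (hzw : Eqv Z z w) : Eqv Z (-z) w := by
  refine ⟨?_, ?_⟩
  · rw [neg_div]; exact Z.neg_mem hzw.1
  · rw [div_neg]; exact Z.neg_mem hzw.2

theorem Eqv.inv_mem {Z : Subring Ω} {z w : Ω} (hw : w ≠ 0) (hzw : Eqv Z z w) (hi : w⁻¹ ∈ Z) :
    z⁻¹ ∈ Z := by
  have : z⁻¹ = (w / z) * w⁻¹ := by field_simp
  rw [this]; exact Z.mul_mem hzw.2 hi

theorem Eqv.val {R Z : Subring Ω} (hR : LocSub v R) (hZ : Z ≤ R) {z w : Ω} (hz : z ≠ 0)
    (hw : w ≠ 0) (hzw : Eqv Z z w) : v z = v w := by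
  have h1 := hR.le_one _ (hZ hzw.1)
  have h2 := hR.le_one _ (hZ hzw.2)
  rw [map_div₀] at h1 h2
  have hz' : 0 < v z := by simpa [zero_lt_iff] using hz
  have hw' : 0 < v w := by simpa [zero_lt_iff] using hw
  exact le_antisymm ((div_le_one₀ hw').mp h1) ((div_le_one₀ hz').mp h2)

end CS

open CS in
omit [Fintype N] in
/-- the step for a fixed `Z`. -/
theorem clus_step_aux (h : E.Rel) (hM : E.IsModel v) {R Z : Subring Ω} (hR : LocSub v R)
    (hZ : Zer v R Z) (hF : ∀ S : Finset N, E.PFar v S → E.FarIn R S) {S₀ S : Finset N}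
    (hS₀ : S₀ ⊆ S) (hS₀5 : 5 ≤ S₀.card) (hS₀P : E.PFar v S₀) (hS : E.Clus v Z S) {j m f : N}
    (hj : j ∉ S) (hm : m ∈ S) (hjm : E.Near v j m)
    (hmax : ∀ b ∈ S, E.Near v j b → v (E.x j b) ≤ v (E.x j m))
    (hinv : ∀ a ∈ S, ∀ b ∈ S, E.Near v a b → v (E.x a b) ≤ v (E.x j m))
    (hf : f ∈ S) (hjf : E.Far v j f) (hτ : (E.s j m f)⁻¹ ∈ Z)
    (hP2 : ∀ a ∈ S, ∀ b ∈ S, ∀ e ∈ S, E.Near v a b → E.Far v a e → E.s a b e / E.s j m f ∈ Z) :
    E.Clus v Z (insert j S) := by
  obtain ⟨F1, F2, -⟩ := clus_far h hM hR hZ hF hS₀ hS₀5 hS₀P hS hj hm hjm hf hjf hτ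
  have hx : ∀ a ∈ insert j S, ∀ b ∈ insert j S, E.Far v a b → E.x a b ∈ Z := by
    intro a ha b hb hab
    rw [Finset.mem_insert] at ha hb
    rcases ha with rfl | ha
    · rcases hb with rfl | hb
      · exact absurd rfl hab.1
      · exact (F1 b hb hab).1
    · rcases hb with rfl | hb
      · rw [h.x_symm b a hab.1.symm]
        exact (F1 a ha (far_symm h hab)).1
      · exact hS.x a ha b hb hab
  have hy : ∀ a ∈ insert j S, ∀ b ∈ insert j S, E.Far v a b → E.y a b ∈ Z := by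
    intro a ha b hb hab
    rw [Finset.mem_insert] at ha hb
    rcases ha with rfl | ha
    · rcases hb with rfl | hb
      · exact absurd rfl hab.1
      · exact (F1 b hb hab).2
    · rcases hb with rfl | hb
      · have h1 := F1 a ha (far_symm h hab)
        have h2 : E.y a b = - E.a1 * E.x b a - E.a3 - E.y b a := by
          linear_combination h.y_symm b a hab.1.symm
        rw [h2]
        exact Z.sub_mem (Z.sub_mem (Z.mul_mem (Z.neg_mem hS.a1) h1.1) hS.a3) h1.2
      · exact hS.y a ha b hb hab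
  have hs : ∀ a ∈ insert j S, ∀ b ∈ insert j S, ∀ c ∈ insert j S, E.Far v a b → E.Far v b c →
      E.Far v a c → E.s a b c ∈ Z := by
    intro a ha b hb c hc hab hbc hac
    rw [Finset.mem_insert] at ha hb hc
    rcases ha with rfl | ha
    · exact F2 b (hb.resolve_left hab.1.symm) c (hc.resolve_left hac.1.symm) hab hac hbc
    · rcases hb with rfl | hb
      · rw [← h.s_cyc a b c hab.1 hbc.1 hac.1]
        exact F2 c (hc.resolve_left hbc.1.symm) a ha hbc (far_symm h hab) (far_symm h hac)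
      · rcases hc with rfl | hc
        · rw [← h.s_cyc' hab.1 hbc.1 hac.1]
          exact F2 a ha b hb (far_symm h hac) (far_symm h hbc) hab
        · exact hS.s a ha b hb c hc hab hbc hac
  have hn : ∀ a b e, E.Near v a b → E.Far v a e → 1 < v (E.s a b e) ∧ E.s a b e ≠ 0 := by
    intro a b e hab hae
    have h1 := (near_s h hM hab hae).1
    refine ⟨h1, ?_⟩
    intro h0
    rw [h0, map_zero] at h1
    exact absurd h1 (not_lt.mpr zero_le_one)
  have hfS : ∀ a c : N, ∃ e ∈ S, E.Far v a e ∧ E.Far v c e := by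
    intro a c
    obtain ⟨e, he, h1⟩ := exists_far_in h hM hS₀5 hS₀P a c
    exact ⟨e, hS₀ he, h1⟩
  have hd : ∀ a ∈ insert j S, ∀ b ∈ insert j S, ∀ c ∈ insert j S, ∀ d ∈ insert j S,
      E.Near v a b → E.Far v a c → E.Far v a d → E.s a b c - E.s a b d ∈ Z := by
    intro a ha b hb c hc d hd hab hac had
    have key : ∀ c ∈ insert j S, ∀ d ∈ insert j S, E.Far v a c → E.Far v a d → E.Far v c d →
        E.s a b c - E.s a b d ∈ Z := by
      intro c hc d hd hac had hcd
      have hbc := far_of_near h hM hab hac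
      have hbd := far_of_near h hM hab had
      have h1 := h.cocycle a b c d hab.1 hac.1 had.1 hbc.1 hbd.1 hcd.1
      have h2 : E.s a b c - E.s a b d = E.s b c d - E.s a c d := by linear_combination - h1
      rw [h2]
      exact Z.sub_mem (hs b hb c hc d hd hbc hcd hbd) (hs a ha c hc d hd hac hcd had)
    rcases eq_or_ne c d with rfl | hcd
    · rw [sub_self]; exact Z.zero_mem
    rcases RM.near_or_far (v := v) (E := E) hcd with hn | hf
    · obtain ⟨e, he, hae, hce⟩ := hfS a c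
      have he' : e ∈ insert j S := Finset.mem_insert_of_mem he
      have hde := far_of_near h hM hn hce
      have h1 := key c hc e he' hac hae hce
      have h2 := key e he' d hd hae had (far_symm h hde)
      have h3 : E.s a b c - E.s a b d = (E.s a b c - E.s a b e) + (E.s a b e - E.s a b d) := by
        ring
      rw [h3]
      exact Z.add_mem h1 h2
    · exact key c hc d hd hac had hf
  have hdE : ∀ a ∈ insert j S, ∀ b ∈ insert j S, ∀ c ∈ insert j S, ∀ d ∈ insert j S,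
      E.Near v a b → E.Far v a c → E.Far v a d → (E.s a b c)⁻¹ ∈ Z →
      Eqv Z (E.s a b d) (E.s a b c) := by
    intro a ha b hb c hc d hd' hab hac had hi
    have h1 := Eqv.of_add hR hZ (hn a b c hab hac).1 hi (hd a ha b hb d hd' c hc hab had hac)
    have h2 : E.s a b c + (E.s a b d - E.s a b c) = E.s a b d := by ring
    rwa [h2] at h1
  have hτ' : ∀ W : Ω, ((∃ a ∈ S, ∃ b ∈ S, ∃ e ∈ S, E.Near v a b ∧ E.Far v a e ∧
      W = E.s a b e) ∨ W = E.s j m f) → W⁻¹ ∈ Z ∧ 1 < v W ∧ W ≠ 0 := by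
    rintro W (⟨a, ha, b, hb, e, he, hab, hae, rfl⟩ | rfl)
    · exact ⟨hS.inv a ha b hb e he hab hae, hn a b e hab hae⟩
    · exact ⟨hτ, hn j m f hjm hjf⟩
  have hWc : ∀ z w : Ω, ((∃ a ∈ S, ∃ b ∈ S, ∃ e ∈ S, E.Near v a b ∧ E.Far v a e ∧
      z = E.s a b e) ∨ z = E.s j m f) → ((∃ a ∈ S, ∃ b ∈ S, ∃ e ∈ S, E.Near v a b ∧
      E.Far v a e ∧ w = E.s a b e) ∨ w = E.s j m f) → v z ≤ v w → z / w ∈ Z := by
    rintro z w (⟨a, ha, b, hb, e, he, hab, hae, rfl⟩ | rfl)
      (⟨c, hc, d, hd, g, hg, hcd, hcg, rfl⟩ | rfl) hzw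
    · refine hS.ratio a ha b hb e he c hc d hd g hg hab hae hcd hcg ?_
      rw [← (near_s h hM hab hae).2, ← (near_s h hM hcd hcg).2]
      exact (pow_le_pow_iff_left₀ zero_le zero_le two_ne_zero).mpr hzw
    · exact hP2 a ha b hb e he hab hae
    · have h1 := hP2 c hc d hd g hg hcd hcg
      have h2 := hR.le_one _ (hZ.le h1)
      have hv : v (E.s c d g / E.s j m f) = 1 := by
        refine le_antisymm h2 ?_
        rw [map_div₀]
        have h3 : 0 < v (E.s j m f) := lt_trans zero_lt_one (hn j m f hjm hjf).1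
        exact (one_le_div₀ h3).mpr hzw
      have h4 := hZ.inv_mem _ h1 hv
      rwa [inv_div] at h4
    · rw [div_self (hn j m f hjm hjf).2]
      exact Z.one_mem
  have key : ∀ a ∈ insert j S, ∀ b ∈ insert j S, ∀ e ∈ insert j S, E.Near v a b →
      E.Far v a e → ∃ W : Ω, ((∃ a ∈ S, ∃ b ∈ S, ∃ e ∈ S, E.Near v a b ∧ E.Far v a e ∧
      W = E.s a b e) ∨ W = E.s j m f) ∧ Eqv Z (E.s a b e) W := by
    -- the case `a = j`
    have kj : ∀ b ∈ S, ∀ e ∈ insert j S, E.Near v j b → E.Far v j e →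
        ∃ W : Ω, ((∃ a ∈ S, ∃ b ∈ S, ∃ e ∈ S, E.Near v a b ∧ E.Far v a e ∧
        W = E.s a b e) ∨ W = E.s j m f) ∧ Eqv Z (E.s j b e) W := by
      intro b hb e he hjb hje
      have hjI : j ∈ insert j S := Finset.mem_insert_self j S
      rcases eq_or_ne m b with rfl | hmb
      · exact ⟨_, Or.inr rfl, hdE j hjI m (Finset.mem_insert_of_mem hm) f
          (Finset.mem_insert_of_mem hf) e he hjm hjf hje hτ⟩
      · have hmbN : E.Near v m b := near_trans h hM (near_symm h hjm) hjb hmb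
        have hmf := far_of_near h hM hjm hjf
        have hbf := far_of_near h hM hjb hjf
        have hi := hS.inv m hm b hb f hf hmbN hmf
        obtain ⟨-, h1, h2⟩ := clus_add h hM hR hZ hjm hjb hmb hjf hS.a1 hS.a2
          ⟨by rw [h.x_symm j f hjf.1]; exact (F1 f hf hjf).1,
            hS.x f hf m hm (far_symm h hmf), hS.x f hf b hb (far_symm h hbf)⟩ hτ hi
          (hP2 m hm b hb f hf hmbN hmf) (hmax b hb hjb) (hinv m hm b hb hmbN)
        have hE : Eqv Z (E.s j b f) (E.s m b f) := ⟨h1, h2⟩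
        have hi' : (E.s j b f)⁻¹ ∈ Z := hE.inv_mem (hn m b f hmbN hmf).2 hi
        refine ⟨E.s m b f, Or.inl ⟨m, hm, b, hb, f, hf, hmbN, hmf, rfl⟩, ?_⟩
        exact (hdE j hjI b (Finset.mem_insert_of_mem hb) f (Finset.mem_insert_of_mem hf) e he
          hjb hjf hje hi').trans (hn j b f hjb hjf).2 hE
    intro a ha b hb e he hab hae
    rw [Finset.mem_insert] at ha hb
    rcases ha with rfl | ha
    · exact kj b (hb.resolve_left hab.1.symm) e he hab hae
    · rcases hb with rfl | hb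
      · have hba := near_symm h hab
        have hbe := far_of_near h hM hab hae
        obtain ⟨W, hW, hE⟩ := kj a ha e he hba hbe
        obtain ⟨hi, -, h0⟩ := hτ' W hW
        have hi' := hE.inv_mem h0 hi
        refine ⟨W, hW, ?_⟩
        have h1 := Eqv.of_add hR hZ (hn b a e hba hbe).1 hi' hS.a1
        have h2 : E.s a b e = - (E.s b a e + E.a1) := by
          rw [h.s_swap hba.1 hae.1 hbe.1]
          ring
        rw [h2]
        exact h1.neg.trans (hn b a e hba hbe).2 hE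
      · obtain ⟨g, hg, hag, -⟩ := hfS a a
        refine ⟨E.s a b g, Or.inl ⟨a, ha, b, hb, g, hg, hab, hag, rfl⟩, ?_⟩
        exact hdE a (Finset.mem_insert_of_mem ha) b (Finset.mem_insert_of_mem hb) g
          (Finset.mem_insert_of_mem hg) e he hab hag hae (hS.inv a ha b hb g hg hab hag)
  refine ⟨hS.a1, hS.a2, hS.a3, hS.a4, hS.a6, hx, hy, hs, ?_, ?_⟩
  · intro a ha b hb e he hab hae
    obtain ⟨W, hW, hE⟩ := key a ha b hb e he hab hae
    obtain ⟨hi, -, h0⟩ := hτ' W hW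
    exact hE.inv_mem h0 hi
  · intro a ha b hb e he c hc d hd' g hg hab hae hcd hcg hle
    obtain ⟨W, hW, hE⟩ := key a ha b hb e he hab hae
    obtain ⟨W', hW', hE'⟩ := key c hc d hd' g hg hcd hcg
    obtain ⟨-, -, h0⟩ := hτ' W hW
    obtain ⟨-, -, h0'⟩ := hτ' W' hW'
    have n1 := (hn a b e hab hae).2
    have n2 := (hn c d g hcd hcg).2
    have v1 := hE.val hR hZ.le n1 h0
    have v2 := hE'.val hR hZ.le n2 h0'
    have hle' : v (E.s a b e) ≤ v (E.s c d g) := by
      rw [← (near_s h hM hab hae).2, ← (near_s h hM hcd hcg).2] at hle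
      exact (pow_le_pow_iff_left₀ zero_le zero_le two_ne_zero).mp hle
    rw [v1, v2] at hle'
    have h3 := hWc W W' hW hW' hle'
    have h4 : E.s a b e / E.s c d g = (E.s a b e / W) * (W / W') * (W' / E.s c d g) := by
      field_simp
    rw [h4]
    exact Z.mul_mem (Z.mul_mem hE.1 h3) hE'.2

end Pool.Agent.Helper49.Irr
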