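import Mathlib

/-!
# Definitions for MP_ec79f0_ag (an irrational smooth proper scheme over `ℤ`)

`Dat N Ω` is raw data attached to a family of points `p a` (`a : N`) on a Weierstrass cubic
`y² + a₁xy + a₃y = x³ + a₂x² + a₄x + a₆`:
* `x a b`, `y a b` are the coordinates of `p a - p b`;
* `s a b c` is the slope of the line through `p a - p b`, `p b - p c`, `p c - p a`.
-/

namespace Pool.Agent.Helper49.Irr

/-- Raw data of a configuration of points on a Weierstrass cubic. -/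
structure Dat (N Ω : Type*) where
  a1 : Ω
  a2 : Ω
  a3 : Ω
  a4 : Ω
  a6 : Ω
  x : N → N → Ω
  y : N → N → Ω
  s : N → N → N → Ω

/-- `a, b, c` are three distinct elements of `J`. -/
structure Tri {N : Type*} (J : Finset N) (a b c : N) : Prop where
  ha : a ∈ J
  hb : b ∈ J
  hc : c ∈ J
  hab : a ≠ b
  hbc : b ≠ c
  hac : a ≠ c

namespace Dat

variable {N Ω : Type*}

/-- All the relations between the `x`, `y`, `s` that we use. -/
structure Rel [CommRing Ω] (E : Dat N Ω) : Prop where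
  weier : ∀ a b, a ≠ b →
    E.y a b ^ 2 + E.a1 * E.x a b * E.y a b + E.a3 * E.y a b
      = E.x a b ^ 3 + E.a2 * E.x a b ^ 2 + E.a4 * E.x a b + E.a6
  x_symm : ∀ a b, a ≠ b → E.x b a = E.x a b
  y_symm : ∀ a b, a ≠ b → E.y a b + E.y b a = - E.a1 * E.x a b - E.a3
  s_cyc : ∀ a b c, a ≠ b → b ≠ c → a ≠ c → E.s b c a = E.s a b c
  s_anti : ∀ a b c, a ≠ b → b ≠ c → a ≠ c → E.s a b c + E.s a c b = - E.a1
  sum_x : ∀ a b c, a ≠ b → b ≠ c → a ≠ c →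
    E.x a b + E.x b c + E.x c a = E.s a b c ^ 2 + E.a1 * E.s a b c - E.a2
  slope : ∀ a b c, a ≠ b → b ≠ c → a ≠ c →
    E.y a b - E.y b c = E.s a b c * (E.x a b - E.x b c)
  cocycle : ∀ a b c d, a ≠ b → a ≠ c → a ≠ d → b ≠ c → b ≠ d → c ≠ d →
    E.s b c d - E.s a c d + E.s a b d - E.s a b c = 0
  x_diff : ∀ a b c d, a ≠ b → a ≠ c → a ≠ d → b ≠ c → b ≠ d → c ≠ d →
    E.x a b - E.x c d = (E.s a b d - E.s a c d) * (E.s a b c + E.s a c d + E.a1)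
  e2 : ∀ a b c, a ≠ b → b ≠ c → a ≠ c →
    E.x a b * E.x b c + E.x b c * E.x c a + E.x c a * E.x a b
      = E.a4 - (2 * E.s a b c + E.a1) * (E.y a b - E.s a b c * E.x a b) - E.a3 * E.s a b c
  r8 : ∀ a b c, a ≠ b → b ≠ c → a ≠ c →
    E.s a b c * (E.y a b + E.y b c + E.a1 * E.x b c + E.a3)
      = E.x a b ^ 2 + E.x a b * E.x b c + E.x b c ^ 2 + E.a2 * (E.x a b + E.x b c) + E.a4
        - E.a1 * E.y a b
  r10 : ∀ a b c e, a ≠ b → a ≠ c → a ≠ e → b ≠ c → b ≠ e → c ≠ e →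
    E.s a b c * E.s b e c + E.s b e c * E.s e a c + E.s e a c * E.s a b c
      + E.a1 * (E.s a b c + E.s b e c + E.s e a c) + E.a1 ^ 2
      = - (E.x c a + E.x c b + E.x c e) - E.a2

/-- The change of coordinates `x' = u²(x - r)`, `y' = u³(y - σ(x - r) - τ)`. -/
def gauge [CommRing Ω] (E : Dat N Ω) (u r σ τ : Ω) : Dat N Ω where
  a1 := u * (E.a1 + 2 * σ)
  a2 := u ^ 2 * (E.a2 - σ * E.a1 + 3 * r - σ ^ 2)
  a3 := u ^ 3 * (E.a3 + r * E.a1 + 2 * τ)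
  a4 := u ^ 4 * (E.a4 - σ * E.a3 + 2 * r * E.a2 - (τ + r * σ) * E.a1 + 3 * r ^ 2 - 2 * σ * τ)
  a6 := u ^ 6 * (E.a6 + r * E.a4 + r ^ 2 * E.a2 + r ^ 3 - τ * E.a3 - τ ^ 2 - r * τ * E.a1)
  x a b := u ^ 2 * (E.x a b - r)
  y a b := u ^ 3 * (E.y a b - σ * (E.x a b - r) - τ)
  s a b c := u * (E.s a b c - σ)

/-- The data obtained by applying a function to all the values and re-indexing. -/
def map {M Ω' : Type*} (E : Dat N Ω) (f : Ω → Ω') (g : M → N) : Dat M Ω' where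
  a1 := f E.a1
  a2 := f E.a2
  a3 := f E.a3
  a4 := f E.a4
  a6 := f E.a6
  x a b := f (E.x (g a) (g b))
  y a b := f (E.y (g a) (g b))
  s a b c := f (E.s (g a) (g b) (g c))

/-- All differences of two slopes with indices in `J`. -/
def G [CommRing Ω] (E : Dat N Ω) (J : Finset N) : Set Ω :=
  {g | ∃ a b c a' b' c', Tri J a b c ∧ Tri J a' b' c' ∧ g = E.s a b c - E.s a' b' c'}

section Valued

variable [Field Ω] {Γ₀ : Type*} [LinearOrderedCommGroupWithZero Γ₀]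

/-- `g` is a nonzero element of `E.G J` of maximal absolute value. -/
structure IsMax (E : Dat N Ω) (v : Valuation Ω Γ₀) (J : Finset N) (g : Ω) : Prop where
  mem : g ∈ E.G J
  ne_zero : g ≠ 0
  le : ∀ h ∈ E.G J, v h ≤ v g

/-- `a` and `b` have different positions. -/
def Far (E : Dat N Ω) (v : Valuation Ω Γ₀) (a b : N) : Prop := a ≠ b ∧ v (E.x a b) ≤ 1

/-- `a ≠ b` have the same position. -/
def Near (E : Dat N Ω) (v : Valuation Ω Γ₀) (a b : N) : Prop := a ≠ b ∧ 1 < v (E.x a b)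

/-- the elements of `S` have pairwise different positions. -/
def PFar (E : Dat N Ω) (v : Valuation Ω Γ₀) (S : Finset N) : Prop :=
  ∀ a ∈ S, ∀ b ∈ S, a ≠ b → v (E.x a b) ≤ 1

/-- `p a - p b` reduces to a nonsingular point (in an integral model). -/
def NonSing (E : Dat N Ω) (v : Valuation Ω Γ₀) (a b : N) : Prop :=
  E.Far v a b ∧ (v (2 * E.y a b + E.a1 * E.x a b + E.a3) = 1 ∨
    v (3 * E.x a b ^ 2 + 2 * E.a2 * E.x a b + E.a4 - E.a1 * E.y a b) = 1)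

/-- An integral model in which every 5-set has scale at least one. -/
structure IsModel (E : Dat N Ω) (v : Valuation Ω Γ₀) : Prop where
  a1 : v E.a1 ≤ 1
  a2 : v E.a2 ≤ 1
  a3 : v E.a3 ≤ 1
  a4 : v E.a4 ≤ 1
  a6 : v E.a6 ≤ 1
  big : ∀ J : Finset N, J.card = 5 → ∃ g ∈ E.G J, 1 ≤ v g
  exi : ∃ I : Finset N, I.card = 5 ∧ E.PFar v I

/-- the five slopes `s_{i,i+1,i+3}` of a 5-tuple. -/
def T (E : Dat N Ω) (p : Fin 5 → N) (i : Fin 5) : Ω := E.s (p i) (p (i + 1)) (p (i + 3))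

/-- Invariant of the induction on clusters: everything about the elements of `S` is in `Z`. -/
structure Clus (E : Dat N Ω) (v : Valuation Ω Γ₀) (Z : Subring Ω) (S : Finset N) : Prop where
  a1 : E.a1 ∈ Z
  a2 : E.a2 ∈ Z
  a3 : E.a3 ∈ Z
  a4 : E.a4 ∈ Z
  a6 : E.a6 ∈ Z
  x : ∀ a ∈ S, ∀ b ∈ S, E.Far v a b → E.x a b ∈ Z
  y : ∀ a ∈ S, ∀ b ∈ S, E.Far v a b → E.y a b ∈ Z
  s : ∀ a ∈ S, ∀ b ∈ S, ∀ c ∈ S, E.Far v a b → E.Far v b c → E.Far v a c → E.s a b c ∈ Z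
  inv : ∀ a ∈ S, ∀ b ∈ S, ∀ e ∈ S, E.Near v a b → E.Far v a e → (E.s a b e)⁻¹ ∈ Z
  ratio : ∀ a ∈ S, ∀ b ∈ S, ∀ e ∈ S, ∀ c ∈ S, ∀ d ∈ S, ∀ f ∈ S, E.Near v a b → E.Far v a e →
    E.Near v c d → E.Far v c f → v (E.x a b) ≤ v (E.x c d) → E.s a b e / E.s c d f ∈ Z

/-- normalisation with respect to a 5-tuple. -/
structure Normal (E : Dat N Ω) (v : Valuation Ω Γ₀) (p : Fin 5 → N) : Prop where
  inj : Function.Injective p
  far : ∀ i j, i ≠ j → v (E.x (p i) (p j)) ≤ 1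
  kappa : E.s (p 0) (p 1) (p 2) = E.s (p 0) (p 1) (p 3) + E.s (p 1) (p 2) (p 4)
  x0 : E.x (p 0) (p 1) = 0
  y0 : E.y (p 0) (p 1) = 0
  one : (∃ i, E.T p i = 1) ∨ E.a1 = 1

end Valued

/-- all the `x`, `y`, `s` with indices in `S` and the coefficients lie in `Z`. -/
structure FarIn [CommRing Ω] (E : Dat N Ω) (Z : Subring Ω) (S : Finset N) : Prop where
  a1 : E.a1 ∈ Z
  a2 : E.a2 ∈ Z
  a3 : E.a3 ∈ Z
  a4 : E.a4 ∈ Z
  a6 : E.a6 ∈ Z
  x : ∀ a ∈ S, ∀ b ∈ S, a ≠ b → E.x a b ∈ Z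
  y : ∀ a ∈ S, ∀ b ∈ S, a ≠ b → E.y a b ∈ Z
  s : ∀ a b c, Tri S a b c → E.s a b c ∈ Z

end Dat

section Local

variable {Ω : Type*} [Field Ω] {Γ₀ : Type*} [LinearOrderedCommGroupWithZero Γ₀]

/-- `R` is a local ring dominated by the valuation ring of `v`. -/
structure LocSub (v : Valuation Ω Γ₀) (R : Subring Ω) : Prop where
  le_one : ∀ x ∈ R, v x ≤ 1
  inv_mem : ∀ x ∈ R, v x = 1 → x⁻¹ ∈ R

/-- Properties of the kernel `Z` of a derivation from `R` to the residue field of `v`. -/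
structure Zer (v : Valuation Ω Γ₀) (R Z : Subring Ω) : Prop where
  le : Z ≤ R
  inv_mem : ∀ x ∈ Z, v x = 1 → x⁻¹ ∈ Z
  small_mul : ∀ x ∈ Z, v x < 1 → ∀ w ∈ R, x * w ∈ Z
  small_mul_small : ∀ x ∈ R, v x < 1 → ∀ w ∈ R, v w < 1 → x * w ∈ Z
  quad : ∀ w ∈ R, ∀ β ∈ Z, ∀ γ ∈ Z, w ^ 2 + β * w + γ = 0 → v (2 * w + β) = 1 → w ∈ Z
  cubic : ∀ w ∈ R, ∀ α ∈ Z, ∀ β ∈ Z, ∀ γ ∈ Z, w ^ 3 + α * w ^ 2 + β * w + γ = 0 →
    v (3 * w ^ 2 + 2 * α * w + β) = 1 → w ∈ Z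

end Local

end Pool.Agent.Helper49.Irr
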