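import Mathlib

/-!
# Definitions for the projective model of MP_ec79f0_ag
-/

namespace Pool.Agent.Helper49.Irr

open AlgebraicGeometry CategoryTheory

/-- The chart ring `ℤ[ψ_j/ψ_i : j]`. -/
def chartRing {K ι : Type} [Field K] (ψ : ι → K) (i : ι) : Subalgebra ℤ K :=
  Algebra.adjoin ℤ (Set.range fun j => ψ j / ψ i)

/-- A proper model covered by the spectra of the chart rings, with a common generic point. -/
structure ProjModel {K ι : Type} [Field K] (ψ : ι → K) where
  X : Scheme.{0}
  f : X ⟶ Spec (.of ℤ)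
  proper : IsProper f
  j : ∀ i, Spec (.of (chartRing ψ i)) ⟶ X
  openImm : ∀ i, IsOpenImmersion (j i)
  j_over : ∀ i, j i ≫ f = Spec.map (CommRingCat.ofHom (algebraMap ℤ (chartRing ψ i)))
  cover : ∀ x : X, ∃ i, x ∈ Set.range (j i)
  gen : Spec (.of K) ⟶ X
  gen_eq : ∀ i, Spec.map (CommRingCat.ofHom (algebraMap (chartRing ψ i) K)) ≫ j i = gen

/-- the subalgebra of `K[X]` of polynomials whose `i`-th coefficient lies in `M ^ i`. -/
def reesSub {K : Type} [Field K] (M : Submodule ℤ K) : Subalgebra ℤ (Polynomial K) where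
  carrier := {f | ∀ i, f.coeff i ∈ M ^ i}
  mul_mem' := by
    intro f g hf hg i
    rw [Polynomial.coeff_mul]
    refine Submodule.sum_mem _ fun c hc => ?_
    have hc' : c.1 + c.2 = i := Finset.HasAntidiagonal.mem_antidiagonal.mp hc
    rw [← hc', pow_add]
    exact Submodule.mul_mem_mul (hf _) (hg _)
  add_mem' := by
    intro f g hf hg i
    rw [Polynomial.coeff_add]
    exact Submodule.add_mem _ (hf i) (hg i)
  algebraMap_mem' := by
    intro r i
    rw [Polynomial.algebraMap_apply, Polynomial.coeff_C]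
    split_ifs with h
    · subst h
      rw [pow_zero, Submodule.mem_one]
      exact ⟨r, rfl⟩
    · exact Submodule.zero_mem _

/-- the homogeneous elements of degree `n` of `reesSub M`. -/
def reesGr {K : Type} [Field K] (M : Submodule ℤ K) (n : ℕ) : Submodule ℤ (reesSub M) where
  carrier := {f | ∃ c, (f : Polynomial K) = Polynomial.monomial n c}
  add_mem' := by
    rintro f g ⟨c, hc⟩ ⟨d, hd⟩
    exact ⟨c + d, by simp [hc, hd]⟩
  zero_mem' := ⟨0, by simp⟩
  smul_mem' := by
    rintro r f ⟨c, hc⟩
    exact ⟨r • c, by rw [← Polynomial.smul_monomial, ← hc]; rfl⟩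

end Pool.Agent.Helper49.Irr
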