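import Mathlib

/-!
# Definitions for the irrationality part of MP_ec79f0_ag
-/

namespace Pool.Agent.Helper49.Irr

/-- An additive derivation of a field (own structure, to avoid the instance problems of
`Derivation ℤ K K` on `LaurentSeries` and `AlgebraicClosure`). -/
structure Der (K : Type*) [Field K] where
  toFun : K → K
  map_add' : ∀ x y, toFun (x + y) = toFun x + toFun y
  map_mul' : ∀ x y, toFun (x * y) = x * toFun y + y * toFun x

namespace Der

variable {K : Type*} [Field K]

instance : CoeFun (Der K) (fun _ => K → K) := ⟨Der.toFun⟩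

variable (D : Der K)

theorem map_add (x y : K) : D (x + y) = D x + D y := D.map_add' x y

theorem map_mul (x y : K) : D (x * y) = x * D y + y * D x := D.map_mul' x y

@[simp] theorem map_zero : D 0 = 0 := by
  have := D.map_add 0 0
  rw [add_zero] at this
  simpa using this

@[simp] theorem map_one : D 1 = 0 := by
  have := D.map_mul 1 1
  simpa using this

theorem map_neg (x : K) : D (-x) = - D x := by
  have := D.map_add x (-x)
  rw [add_neg_cancel, D.map_zero] at this
  exact (neg_eq_of_add_eq_zero_right this.symm).symm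

theorem map_sub (x y : K) : D (x - y) = D x - D y := by
  rw [sub_eq_add_neg, D.map_add, D.map_neg, sub_eq_add_neg]

@[simp] theorem map_natCast (n : ℕ) : D (n : K) = 0 := by
  induction n with
  | zero => simp
  | succ n ih => rw [Nat.cast_succ, D.map_add, ih, D.map_one, add_zero]

@[simp] theorem map_ofNat (n : ℕ) [n.AtLeastTwo] : D (OfNat.ofNat n : K) = 0 :=
  D.map_natCast n

theorem map_pow (x : K) (n : ℕ) : D (x ^ n) = n * x ^ (n - 1) * D x := by
  induction n with
  | zero => simp
  | succ n ih =>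
    rw [pow_succ, D.map_mul, ih]
    cases n with
    | zero => simp
    | succ n =>
      simp only [Nat.add_sub_cancel, Nat.cast_succ]
      ring

theorem map_inv (x : K) : D x⁻¹ = - D x / x ^ 2 := by
  by_cases hx : x = 0
  · subst hx; simp
  · have := D.map_mul x x⁻¹
    rw [mul_inv_cancel₀ hx, D.map_one] at this
    field_simp
    field_simp at this
    linear_combination -this

theorem map_div (x y : K) : D (x / y) = (D x * y - x * D y) / y ^ 2 := by
  by_cases hy : y = 0
  · subst hy; simp
  · rw [div_eq_mul_inv, D.map_mul, D.map_inv]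
    field_simp
    ring

end Der

/-- The row `(d₀ f, …, d₁₀ f, w f)` of a homogeneous quantity `f` of weight `w`. -/
def rowOf {K : Type*} [Field K] (d : Fin 11 → Der K) (f w : K) : Fin 12 → K :=
  Fin.snoc (α := fun _ => K) (fun i => d i f) (w * f)

/-- The `12 × 12` matrix whose determinant is the coefficient of the weight 12 form. -/
def Wmat {K : Type*} [Field K] (d : Fin 11 → Der K) (a b : K) (x y : Fin 10 → K) :
    Matrix (Fin 12) (Fin 12) K :=
  Matrix.of (Fin.cons (rowOf d a 4) (Fin.cons (rowOf d b 6)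
    (fun j : Fin 10 => (y j)⁻¹ • rowOf d (x j) 2)))

/-- A field with eleven derivations adapted to a discrete valuation ring `O` with uniformiser `s`
(the model is `k((s))` with `d 0 = d/ds` and ten derivations of `k` applied coefficientwise). -/
structure Frame (K : Type*) [Field K] where
  O : Subring K
  s : K
  d : Fin 11 → Der K
  s_mem : s ∈ O
  s_ne : s ≠ 0
  s_inv : s⁻¹ ∉ O
  val : ∀ x, x ∈ O ∨ x⁻¹ ∈ O
  unit_or : ∀ x ∈ O, x⁻¹ ∈ O ∨ x / s ∈ O
  rat : ∀ n : ℕ, n ≠ 0 → (n : K)⁻¹ ∈ O
  sqrt : ∀ x ∈ O, x⁻¹ ∈ O → x ≠ 0 → ∃ y ∈ O, y ^ 2 = x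
  d_mem : ∀ i, ∀ x ∈ O, d i x ∈ O
  dlog : ∀ i, i ≠ 0 → ∀ x, x ≠ 0 → d i x / x ∈ O
  dlog0 : ∀ x, x ≠ 0 → s * d 0 x / x ∈ O

end Pool.Agent.Helper49.Irr
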