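import Pool.Agent.Helper49.Irr.DefsE

/-!
# Derivations extend to the algebraic closure in characteristic zero
-/

namespace Pool.Agent.Helper49.Irr

open TensorProduct

/-- Derivations extend along formally étale algebras. -/
theorem exists_derivation_extension (R S T : Type*) [CommRing R] [CommRing S] [CommRing T]
    [Algebra R S] [Algebra R T] [Algebra S T] [IsScalarTower R S T] [Algebra.FormallyEtale S T]
    (δ : Derivation R S S) : ∃ δ' : Derivation R T T,
      ∀ c : S, δ' (algebraMap S T c) = algebraMap S T (δ c) := by
  let e := KaehlerDifferential.tensorKaehlerEquivOfFormallyEtale R S T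
  let l : Ω[S⁄R] →ₗ[S] T := (Algebra.linearMap S T).comp δ.liftKaehlerDifferential
  let L : T ⊗[S] Ω[S⁄R] →ₗ[T] T := l.liftBaseChange T
  refine ⟨(L.comp e.symm.toLinearMap).compDer (KaehlerDifferential.D R T), fun c => ?_⟩
  change L (e.symm (KaehlerDifferential.D R T (algebraMap S T c))) = _
  rw [KaehlerDifferential.tensorKaehlerEquivOfFormallyEtale_symm_D_algebraMap]
  simp [L, l]

/-- The derivation attached to a `Der`. -/
def Der.toDerivation {K : Type*} [Field K] (D : Der K) : Derivation ℤ K K :=
  { toFun := D
    map_add' := D.map_add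
    map_smul' := fun n x => by
      have := map_intCast_smul (AddMonoidHom.mk' D D.map_add) ℤ ℤ n x
      simpa using this
    map_one_eq_zero' := D.map_one
    leibniz' := fun x y => by
      change D (x * y) = x * D y + y * D x
      exact D.map_mul x y }

/-- E4: derivations extend to the algebraic closure. -/
theorem exists_derivation_algebraicClosure (F : Type*) [Field F] [CharZero F]
    (δ : Der F) : ∃ δ' : Der (AlgebraicClosure F),
      ∀ c : F, δ' (algebraMap F (AlgebraicClosure F) c) = algebraMap F (AlgebraicClosure F) (δ c) := by
  have : Algebra.FormallyEtale F (AlgebraicClosure F) :=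
    Algebra.FormallyEtale.of_isSeparable F (AlgebraicClosure F)
  obtain ⟨δ', hδ'⟩ := exists_derivation_extension ℤ F (AlgebraicClosure F) δ.toDerivation
  exact ⟨⟨δ', fun x y => map_add δ' x y, fun x y => δ'.leibniz x y⟩, hδ'⟩

end Pool.Agent.Helper49.Irr
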