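import Pool.Agent.Helper49.Irr.DefsE

/-!
# Extension of derivations to fraction fields
-/

namespace Pool.Agent.Helper49.Irr

/-- A derivation of a domain with values in its fraction field extends. -/
theorem exists_der_extension {A K : Type*} [CommRing A] [IsDomain A] [Field K] [Algebra A K]
    [IsFractionRing A K] (D₀ : A → K) (hadd : ∀ x y, D₀ (x + y) = D₀ x + D₀ y)
    (hmul : ∀ x y, D₀ (x * y) = algebraMap A K x * D₀ y + algebraMap A K y * D₀ x) :
    ∃ D : Der K, ∀ x, D (algebraMap A K x) = D₀ x := by
  have h1 : D₀ 1 = 0 := by
    have := hmul 1 1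
    simpa using this
  have h0 : D₀ 0 = 0 := by
    have := hadd 0 0
    rw [add_zero] at this
    simpa using this
  let φ : A →+* TrivSqZeroExt K K :=
    { toFun := fun a => TrivSqZeroExt.inl (algebraMap A K a) + TrivSqZeroExt.inr (D₀ a)
      map_one' := by
        ext <;> simp [h1]
      map_mul' := by
        intro x y
        ext
        · simp
        · simp [hmul, mul_comm]
      map_zero' := by
        ext <;> simp [h0]
      map_add' := by
        intro x y
        ext
        · simp
        · simp [hadd] }
  have hunit : ∀ y : nonZeroDivisors A, IsUnit (φ y) := by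
    intro y
    rw [TrivSqZeroExt.isUnit_iff_isUnit_fst]
    have : (φ y).fst = algebraMap A K y := by simp [φ]
    rw [this]
    exact IsLocalization.map_units K y
  let ψ : K →+* TrivSqZeroExt K K := IsLocalization.lift hunit
  have hψ : ∀ x : A, ψ (algebraMap A K x) = φ x := fun x => IsLocalization.lift_eq hunit x
  have hfst : ∀ z : K, (ψ z).fst = z := by
    have : ((TrivSqZeroExt.fstHom ℤ K K : TrivSqZeroExt K K →ₐ[ℤ] K) : TrivSqZeroExt K K →+* K).comp ψ
        = RingHom.id K := by
      refine IsLocalization.ringHom_ext (nonZeroDivisors A) ?_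
      ext x
      simp [hψ, φ]
    intro z
    exact congrArg (fun f : K →+* K => f z) this
  refine ⟨⟨fun z => (ψ z).snd, fun x y => by simp, fun x y => ?_⟩, fun x => ?_⟩
  · rw [map_mul, TrivSqZeroExt.snd_mul, hfst, hfst]
    simp [mul_comm]
  · show (ψ (algebraMap A K x)).snd = D₀ x
    rw [hψ]; simp [φ]

/-- A derivation of the fraction field is determined by its values on the domain. -/
theorem der_eq_of_eq {A K : Type*} [CommRing A] [IsDomain A] [Field K] [Algebra A K]
    [IsFractionRing A K] (D D' : Der K) (h : ∀ x : A, D (algebraMap A K x) = D' (algebraMap A K x))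
    (z : K) : D z = D' z := by
  obtain ⟨a, b, hb, rfl⟩ := IsFractionRing.div_surjective (A := A) z
  rw [Der.map_div, Der.map_div, h, h]

end Pool.Agent.Helper49.Irr
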