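import Pool.Agent.Helper49.Irr.DefsE

/-!
# Integrality of the determinant for an integral non-cuspidal model (module E2)
-/

namespace Pool.Agent.Helper49.Irr

namespace FrameDet

section LinAlg

variable {K : Type*} [Field K]

/-- The matrix with rows `A`, `B`, `R`. -/
def m3 (A B : Fin 12 → K) (R : Fin 10 → Fin 12 → K) : Matrix (Fin 12) (Fin 12) K :=
  Matrix.of (Fin.cons A (Fin.cons B R))

omit [Field K] in
theorem m3_zero (A B : Fin 12 → K) (R : Fin 10 → Fin 12 → K) (c : Fin 12) :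
    m3 A B R 0 c = A c := rfl

omit [Field K] in
theorem m3_one (A B : Fin 12 → K) (R : Fin 10 → Fin 12 → K) (c : Fin 12) :
    m3 A B R 1 c = B c := rfl

omit [Field K] in
theorem m3_succ_succ (A B : Fin 12 → K) (R : Fin 10 → Fin 12 → K) (j : Fin 10) (c : Fin 12) :
    m3 A B R j.succ.succ c = R j c := rfl

theorem det_m3_congr (A B : Fin 12 → K) (R R' : Fin 10 → Fin 12 → K)
    (h : ∀ j, ∃ α β : K, ∀ c, R j c = R' j c + α * A c + β * B c) :
    (m3 A B R).det = (m3 A B R').det := by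
  choose α β h using h
  have h1 : (m3 A B R).det = (m3 A B (fun j c => R' j c + β j * B c)).det := by
    refine Matrix.det_eq_of_forall_row_eq_smul_add_const
      (Fin.cons 0 (Fin.cons 0 α) : Fin 12 → K) 0 rfl ?_
    intro i c
    refine Fin.cases ?_ (fun i => Fin.cases ?_ (fun i => ?_) i) i
    · simp [m3]
    · simp [m3]
    · simp only [m3_succ_succ, m3_zero, Fin.cons_succ]
      rw [h]; ring
  rw [h1]
  refine Matrix.det_eq_of_forall_row_eq_smul_add_const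
      (Fin.cons 0 (Fin.cons 0 β) : Fin 12 → K) 1 rfl ?_
  intro i c
  refine Fin.cases ?_ (fun i => Fin.cases ?_ (fun i => ?_) i) i
  · simp [m3]
  · simp [m3]
  · simp only [m3_succ_succ, m3_one, Fin.cons_succ]

theorem det_m3_smul (A B A' B' : Fin 12 → K) (R : Fin 10 → Fin 12 → K) (p q r : K)
    (hA : ∀ c, A' c = p * A c) (hB : ∀ c, B' c = q * B c + r * A c) :
    (m3 A' B' R).det = p * q * (m3 A B R).det := by
  by_cases hp : p = 0
  · subst hp
    rw [zero_mul, zero_mul]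
    refine Matrix.det_eq_zero_of_row_eq_zero 0 fun c => ?_
    rw [m3_zero, hA, zero_mul]
  have h1 : (m3 A' B' R).det = (m3 A' (fun c => q * B c) R).det := by
    refine Matrix.det_eq_of_forall_row_eq_smul_add_const
      (Fin.cons 0 (Fin.cons (r / p) 0) : Fin 12 → K) 0 rfl ?_
    intro i c
    refine Fin.cases ?_ (fun i => Fin.cases ?_ (fun i => ?_) i) i
    · simp [m3]
    · have : m3 A' B' R (Fin.succ 0) c = B' c := rfl
      rw [this]
      have : m3 A' (fun c => q * B c) R (Fin.succ 0) c = q * B c := rfl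
      rw [this, m3_zero, hA, hB]
      simp only [Fin.cons_succ, Fin.cons_zero]
      field_simp
    · simp [m3]
  rw [h1]
  have h2 := Matrix.det_mul_column (Fin.cons p (Fin.cons q 1) : Fin 12 → K) (m3 A B R)
  have h3 : (∏ i, (Fin.cons p (Fin.cons q 1) : Fin 12 → K) i) = p * q := by
    rw [Fin.prod_univ_succ, Fin.prod_univ_succ]
    simp
  rw [h3] at h2
  rw [← h2]
  congr 1
  ext i c
  refine Fin.cases ?_ (fun i => Fin.cases ?_ (fun i => ?_) i) i
  · simp [m3, hA]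
  · simp [m3]
  · simp [m3]

theorem det_mem (O : Subring K) (M : Matrix (Fin 12) (Fin 12) K) (h : ∀ i j, M i j ∈ O) :
    M.det ∈ O := by
  rw [Matrix.det_apply]
  refine Subring.sum_mem _ fun σ _ => ?_
  rw [Units.smul_def, zsmul_eq_mul]
  exact O.mul_mem (intCast_mem O _) (Subring.prod_mem _ fun i _ => h _ _)

theorem det_mem' (O : Subring K) (s : K) (M : Matrix (Fin 12) (Fin 12) K)
    (h0 : ∀ i, s * M i 0 ∈ O) (h : ∀ i (j : Fin 11), M i j.succ ∈ O) :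
    s * M.det ∈ O := by
  have h2 := Matrix.det_mul_row (Fin.cons s 1 : Fin 12 → K) M
  have h3 : (∏ i, (Fin.cons s 1 : Fin 12 → K) i) = s := by
    rw [Fin.prod_univ_succ]
    simp
  rw [h3] at h2
  rw [← h2]
  refine det_mem O _ fun i j => ?_
  refine Fin.cases ?_ (fun j => ?_) j
  · simpa using h0 i
  · simpa using h i j

end LinAlg

section Rows

variable {K : Type*} [Field K]

theorem rowOf_castSucc (d : Fin 11 → Der K) (f w : K) (i : Fin 11) :
    rowOf d f w i.castSucc = d i f := by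
  simp [rowOf]

theorem rowOf_last (d : Fin 11 → Der K) (f w : K) :
    rowOf d f w (Fin.last 11) = w * f := by
  unfold rowOf
  exact Fin.snoc_last (α := fun _ => K) _ _

variable (d : Fin 11 → Der K)

/-- the `c`-th entry of the row -/
def T (c : Fin 12) (f w : K) : K := rowOf d f w c

theorem T_castSucc (f w : K) (i : Fin 11) : T d i.castSucc f w = d i f := rowOf_castSucc _ _ _ _

theorem T_last (f w : K) : T d (Fin.last 11) f w = w * f := rowOf_last _ _ _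

theorem T_mul (c : Fin 12) (f g u v w : K) (hw : w = u + v) :
    T d c (f * g) w = f * T d c g v + g * T d c f u := by
  subst hw
  refine Fin.lastCases ?_ (fun i => ?_) c
  · simp only [T_last]; ring
  · simp only [T_castSucc, Der.map_mul]

theorem T_add (c : Fin 12) (f g w : K) :
    T d c (f + g) w = T d c f w + T d c g w := by
  refine Fin.lastCases ?_ (fun i => ?_) c
  · simp only [T_last]; ring
  · simp only [T_castSucc, Der.map_add]

theorem T_intmul (c : Fin 12) (n : ℤ) (f w : K) :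
    T d c (n * f) w = n * T d c f w := by
  refine Fin.lastCases ?_ (fun i => ?_) c
  · simp only [T_last]; ring
  · simp only [T_castSucc]
    have h : ∀ n : ℤ, d i (n : K) = 0 := by
      intro n
      obtain ⟨m, rfl | rfl⟩ := n.eq_nat_or_neg
      · rw [Int.cast_natCast]; exact (d i).map_natCast m
      · rw [Int.cast_neg, Int.cast_natCast, (d i).map_neg, (d i).map_natCast, neg_zero]
    rw [(d i).map_mul, h, mul_zero, add_zero]

theorem T_sq (c : Fin 12) (f u w : K) (hw : w = u + u) :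
    T d c (f ^ 2) w = 2 * f * T d c f u := by
  rw [pow_two, T_mul d c f f u u w hw]; ring

theorem T_cube (c : Fin 12) (f u w : K) (hw : w = u + u + u) :
    T d c (f ^ 3) w = 3 * f ^ 2 * T d c f u := by
  have : f ^ 3 = f * f ^ 2 := by ring
  rw [this, T_mul d c f (f ^ 2) u (u + u) w (by rw [hw]; ring), T_sq d c f u (u + u) rfl]; ring

/-- the differentiated Weierstrass equation -/
theorem T_weier (c : Fin 12) {a b x y : K} (hy : y ^ 2 = x ^ 3 + a * x + b) :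
    2 * y * T d c y 3 = (3 * x ^ 2 + a) * T d c x 2 + x * T d c a 4 + T d c b 6 := by
  have h1 := T_sq d c y 3 6 (by norm_num)
  rw [hy, T_add, T_add, T_cube d c x 2 6 (by norm_num), T_mul d c a x 4 2 6 (by norm_num)] at h1
  rw [← h1]; ring

end Rows

section Val

variable {K : Type*} [Field K] (Φ : Frame K)

theorem mem_of_small {x : K} (h : x / Φ.s ∈ Φ.O) : x ∈ Φ.O := by
  have := Φ.O.mul_mem h Φ.s_mem
  rwa [div_mul_cancel₀ _ Φ.s_ne] at this

theorem small_mul {x y : K} (hx : x ∈ Φ.O) (hy : y / Φ.s ∈ Φ.O) : (x * y) / Φ.s ∈ Φ.O := by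
  rw [mul_div_assoc]
  exact Φ.O.mul_mem hx hy

theorem small_add {x y : K} (hx : x / Φ.s ∈ Φ.O) (hy : y / Φ.s ∈ Φ.O) :
    (x + y) / Φ.s ∈ Φ.O := by
  rw [add_div]
  exact Φ.O.add_mem hx hy

theorem small_sub {x y : K} (hx : x / Φ.s ∈ Φ.O) (hy : y / Φ.s ∈ Φ.O) :
    (x - y) / Φ.s ∈ Φ.O := by
  rw [sub_div]
  exact Φ.O.sub_mem hx hy

theorem not_small {x : K} (h0 : x ≠ 0) (h : x⁻¹ ∈ Φ.O) : x / Φ.s ∉ Φ.O := by
  intro h1
  apply Φ.s_inv
  have := Φ.O.mul_mem h h1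
  rwa [← mul_div_assoc, inv_mul_cancel₀ h0, one_div] at this

theorem unit_of_not_small {x : K} (hx : x ∈ Φ.O) (h : x / Φ.s ∉ Φ.O) : x⁻¹ ∈ Φ.O ∧ x ≠ 0 := by
  refine ⟨(Φ.unit_or x hx).resolve_right h, ?_⟩
  rintro rfl
  exact h (by rw [zero_div]; exact Φ.O.zero_mem)

theorem unit_add {x y : K} (h0 : x ≠ 0) (hx : x ∈ Φ.O) (hx' : x⁻¹ ∈ Φ.O) (hy : y / Φ.s ∈ Φ.O) :
    (x + y)⁻¹ ∈ Φ.O ∧ x + y ≠ 0 := by
  apply unit_of_not_small Φ (Φ.O.add_mem hx (mem_of_small Φ hy))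
  intro h
  apply not_small Φ h0 hx'
  have := small_sub Φ h hy
  rwa [add_sub_cancel_right] at this

theorem small_of_sq {x : K} (hx : x ∈ Φ.O) (h : x ^ 2 / Φ.s ∈ Φ.O) : x / Φ.s ∈ Φ.O := by
  by_contra h1
  obtain ⟨h2, h3⟩ := unit_of_not_small Φ hx h1
  refine not_small Φ (pow_ne_zero 2 h3) ?_ h
  rw [← inv_pow]
  exact Φ.O.pow_mem h2 2

theorem inv_small {x : K} (hx : x ∉ Φ.O) : x⁻¹ / Φ.s ∈ Φ.O := by
  have h1 := (Φ.val x).resolve_left hx
  refine (Φ.unit_or _ h1).resolve_left ?_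
  rwa [inv_inv]

theorem mem_of_sq {x : K} (h : x ^ 2 ∈ Φ.O) : x ∈ Φ.O := by
  by_contra h1
  have h2 := (Φ.val x).resolve_left h1
  have h0 : x ≠ 0 := fun h => h1 (h ▸ Φ.O.zero_mem)
  apply h1
  have := Φ.O.mul_mem h h2
  rwa [pow_two, mul_assoc, mul_inv_cancel₀ h0, mul_one] at this

theorem nat_unit [CharZero K] (n : ℕ) (hn : n ≠ 0) {x : K}
    (h : ((n : K) * x) / Φ.s ∈ Φ.O) : x / Φ.s ∈ Φ.O := by
  have := Φ.O.mul_mem (Φ.rat n hn) h
  have hn' : (n : K) ≠ 0 := Nat.cast_ne_zero.mpr hn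
  rwa [← mul_div_assoc, ← mul_assoc, inv_mul_cancel₀ hn', one_mul] at this

theorem T_mem {f w : K} (hf : f ∈ Φ.O) (hw : w ∈ Φ.O) (c : Fin 12) : T Φ.d c f w ∈ Φ.O := by
  refine Fin.lastCases ?_ (fun i => ?_) c
  · rw [T_last]; exact Φ.O.mul_mem hw hf
  · rw [T_castSucc]; exact Φ.d_mem i f hf

/-- almost integral rows -/
def Alm (v : Fin 12 → K) : Prop := Φ.s * v 0 ∈ Φ.O ∧ ∀ c : Fin 11, v c.succ ∈ Φ.O

theorem Alm.of_mem {v : Fin 12 → K} (h : ∀ c, v c ∈ Φ.O) : Alm Φ v :=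
  ⟨Φ.O.mul_mem Φ.s_mem (h 0), fun _ => h _⟩

theorem Alm.smul {v : Fin 12 → K} (h : Alm Φ v) {r : K} (hr : r ∈ Φ.O) :
    Alm Φ (fun c => r * v c) := by
  refine ⟨?_, fun c => Φ.O.mul_mem hr (h.2 c)⟩
  have := Φ.O.mul_mem hr h.1
  have e : Φ.s * (r * v 0) = r * (Φ.s * v 0) := by ring
  rwa [e]

theorem Alm.dlog {f w : K} (hf : f ≠ 0) (hw : w ∈ Φ.O) : Alm Φ (fun c => T Φ.d c f w / f) := by
  have key : ∀ i : Fin 11, T Φ.d i.castSucc f w = Φ.d i f := fun i => T_castSucc _ _ _ _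
  constructor
  · have h0 : (0 : Fin 12) = (0 : Fin 11).castSucc := rfl
    simp only
    rw [h0, key, ← mul_div_assoc]
    exact Φ.dlog0 f hf
  · intro c
    refine Fin.lastCases ?_ (fun i => ?_) c
    · have h0 : (Fin.last 10).succ = Fin.last 11 := rfl
      simp only
      rw [h0, T_last, mul_div_assoc, div_self hf, mul_one]
      exact hw
    · have h0 : i.castSucc.succ = i.succ.castSucc := rfl
      simp only
      rw [h0, key]
      exact Φ.dlog _ (Fin.succ_ne_zero i) f hf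

theorem unit_of_ne {x y : K} (h0 : x ≠ 0) (hx : x ∈ Φ.O) (hx' : x⁻¹ ∈ Φ.O)
    (hy : (y - x) / Φ.s ∈ Φ.O) : y⁻¹ ∈ Φ.O ∧ y ≠ 0 := by
  have := unit_add Φ h0 hx hx' hy
  rwa [add_sub_cancel] at this

theorem small_or_small {x y : K} (hx : x ∈ Φ.O) (hy : y ∈ Φ.O) (h : (x * y) / Φ.s ∈ Φ.O) :
    x / Φ.s ∈ Φ.O ∨ y / Φ.s ∈ Φ.O := by
  by_contra hc
  push Not at hc
  obtain ⟨h1, h2⟩ := unit_of_not_small Φ hx hc.1
  obtain ⟨h3, h4⟩ := unit_of_not_small Φ hy hc.2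
  refine not_small Φ (mul_ne_zero h2 h4) ?_ h
  rw [mul_inv]
  exact Φ.O.mul_mem h1 h3

end Val

section Types

variable {K : Type*} [Field K] [CharZero K] (Φ : Frame K) {a b x y : K}

/-- types (i)-(iii): the row is integral modulo the rows of `a` and `b` -/
theorem good_row (ha : a ∈ Φ.O) (hb : b ∈ Φ.O) (hy : y ^ 2 = x ^ 3 + a * x + b) (hy0 : y ≠ 0)
    (h : ¬ (x ∈ Φ.O ∧ y / Φ.s ∈ Φ.O ∧ (3 * x ^ 2 + a) / Φ.s ∈ Φ.O)) :
    ∃ R' : Fin 12 → K, (∀ c, R' c ∈ Φ.O) ∧ ∃ α β : K, ∀ c,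
      y⁻¹ * T Φ.d c x 2 = R' c + α * T Φ.d c a 4 + β * T Φ.d c b 6 := by
  have h2 : (2 : K) ∈ Φ.O := by exact_mod_cast natCast_mem Φ.O 2
  have h3 : (3 : K) ∈ Φ.O := by exact_mod_cast natCast_mem Φ.O 3
  by_cases hx : x ∈ Φ.O
  · have hyO : y ∈ Φ.O := by
      apply mem_of_sq
      rw [hy]
      exact Φ.O.add_mem (Φ.O.add_mem (Φ.O.pow_mem hx 3) (Φ.O.mul_mem ha hx)) hb
    by_cases hys : y / Φ.s ∈ Φ.O
    · -- type (ii)
      have h3x : (3 * x ^ 2 + a) / Φ.s ∉ Φ.O := fun h' => h ⟨hx, hys, h'⟩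
      obtain ⟨h4, h5⟩ := unit_of_not_small Φ
        (Φ.O.add_mem (Φ.O.mul_mem h3 (Φ.O.pow_mem hx 2)) ha) h3x
      refine ⟨fun c => 2 * (3 * x ^ 2 + a)⁻¹ * T Φ.d c y 3, fun c => ?_,
        -(x * (y * (3 * x ^ 2 + a))⁻¹), -(y * (3 * x ^ 2 + a))⁻¹, fun c => ?_⟩
      · exact Φ.O.mul_mem (Φ.O.mul_mem h2 h4) (T_mem Φ hyO h3 c)
      · have := T_weier Φ.d c hy
        field_simp
        linear_combination -this
    · -- type (i)
      obtain ⟨h4, -⟩ := unit_of_not_small Φ hyO hys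
      refine ⟨fun c => y⁻¹ * T Φ.d c x 2, fun c => ?_, 0, 0, fun c => by ring⟩
      exact Φ.O.mul_mem h4 (T_mem Φ hx h2 c)
  · -- type (iii)
    have ht := inv_small Φ hx
    have htO := mem_of_small Φ ht
    have hx0 : x ≠ 0 := fun h => hx (h ▸ Φ.O.zero_mem)
    have hε := unit_add Φ one_ne_zero Φ.O.one_mem (by rw [inv_one]; exact Φ.O.one_mem)
      (small_mul Φ (Φ.O.add_mem (Φ.O.mul_mem ha htO) (Φ.O.mul_mem hb (Φ.O.pow_mem htO 2))) ht)
    set ε := 1 + (a * x⁻¹ + b * x⁻¹ ^ 2) * x⁻¹ with hεd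
    have hyε : y ^ 2 = ε * x ^ 3 := by
      rw [hy, hεd]; field_simp; ring
    have hw2 : (y⁻¹ ^ 2) / Φ.s ∈ Φ.O := by
      have e : y⁻¹ ^ 2 = (ε⁻¹ * x⁻¹ ^ 2) * x⁻¹ := by
        rw [inv_pow, hyε, mul_inv]; field_simp
      rw [e]
      exact small_mul Φ (Φ.O.mul_mem hε.1 (Φ.O.pow_mem htO 2)) ht
    have hwO : y⁻¹ ∈ Φ.O := mem_of_sq Φ (mem_of_small Φ hw2)
    have hw : y⁻¹ / Φ.s ∈ Φ.O := small_of_sq Φ hwO hw2
    have hz2 : ((x / y) ^ 2) / Φ.s ∈ Φ.O := by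
      have e : (x / y) ^ 2 = ε⁻¹ * x⁻¹ := by
        rw [div_pow, hyε]; field_simp
      rw [e]
      exact small_mul Φ hε.1 ht
    have hzO : x / y ∈ Φ.O := mem_of_sq Φ (mem_of_small Φ hz2)
    have hu := unit_add Φ one_ne_zero Φ.O.one_mem (by rw [inv_one]; exact Φ.O.one_mem)
      (small_mul Φ (Φ.O.neg_mem (Φ.O.add_mem (Φ.O.mul_mem (Φ.O.mul_mem h2 ha) hzO)
        (Φ.O.mul_mem (Φ.O.mul_mem h3 hb) hwO))) hw)
    set u := 1 + -(2 * a * (x / y) + 3 * b * y⁻¹) * y⁻¹ with hud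
    have huy : u * y ^ 2 = y ^ 2 - 2 * a * x - 3 * b := by
      rw [hud]; field_simp; ring
    have hV : y ^ 2 - 2 * a * x - 3 * b ≠ 0 := by
      rw [← huy]; exact mul_ne_zero hu.2 (pow_ne_zero 2 hy0)
    have hu' : u⁻¹ = y ^ 2 / (y ^ 2 - 2 * a * x - 3 * b) := by
      rw [← huy]; field_simp
    refine ⟨fun c => -2 * u⁻¹ * T Φ.d c (x / y) (-1), fun c => ?_,
        -(x ^ 2 / (y * (y ^ 2 - 2 * a * x - 3 * b))), -(x / (y * (y ^ 2 - 2 * a * x - 3 * b))),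
        fun c => ?_⟩
    · exact Φ.O.mul_mem (Φ.O.mul_mem (Φ.O.neg_mem h2) hu.1)
        (T_mem Φ hzO (Φ.O.neg_mem Φ.O.one_mem) c)
    · have h5 := T_weier Φ.d c hy
      have h6 := T_mul Φ.d c (x / y) y (-1) 3 2 (by norm_num)
      rw [div_mul_cancel₀ _ hy0] at h6
      have h7 : T Φ.d c x 2 * y = x * T Φ.d c y 3 + y ^ 2 * T Φ.d c (x / y) (-1) := by
        rw [h6]; field_simp
      rw [hu']
      field_simp
      linear_combination (-2 * y) * h7 + (-x) * h5 + (3 * T Φ.d c x 2) * hy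

/-- type (iv) -/
theorem bad_row (e q : K) (he : e ∈ Φ.O) (he' : e⁻¹ ∈ Φ.O) (he0 : e ≠ 0)
    (hq0 : q ≠ 0) (ha : a = -3 * e ^ 2) (hb : b = q + 2 * e ^ 3)
    (hy : y ^ 2 = x ^ 3 + a * x + b) (hy0 : y ≠ 0) (hx : (x - e) / Φ.s ∈ Φ.O) :
    ∃ R' : Fin 12 → K, Alm Φ R' ∧ ∃ α β : K, ∀ c,
      y⁻¹ * T Φ.d c x 2 = R' c + α * T Φ.d c e 2 + β * T Φ.d c q 6 := by
  have h2 : (2 : K) ∈ Φ.O := by exact_mod_cast natCast_mem Φ.O 2
  have h3 : (3 : K) ∈ Φ.O := by exact_mod_cast natCast_mem Φ.O 3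
  have h6 : (6 : K) ∈ Φ.O := by exact_mod_cast natCast_mem Φ.O 6
  have h3' : (3 : K)⁻¹ ∈ Φ.O := by exact_mod_cast Φ.rat 3 (by norm_num)
  have h6' : (6 : K)⁻¹ ∈ Φ.O := by exact_mod_cast Φ.rat 6 (by norm_num)
  obtain ⟨X, rfl⟩ : ∃ X, x = X + e := ⟨x - e, by ring⟩
  rw [add_sub_cancel_right] at hx
  have hXO := mem_of_small Φ hx
  have hR := unit_add Φ (x := 3 * e) (y := X) (mul_ne_zero (by norm_num) he0) (Φ.O.mul_mem h3 he)
    (by rw [mul_inv]; exact Φ.O.mul_mem h3' he') hx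
  have hP := unit_add Φ (x := 6 * e) (y := 3 * X) (mul_ne_zero (by norm_num) he0)
    (Φ.O.mul_mem h6 he) (by rw [mul_inv]; exact Φ.O.mul_mem h6' he') (small_mul Φ h3 hx)
  obtain ⟨r, hrO, hr⟩ := Φ.sqrt (3 * e + X) (Φ.O.add_mem (Φ.O.mul_mem h3 he) hXO) hR.1 hR.2
  have hPr : 2 * r ^ 2 + X = 6 * e + 3 * X := by rw [hr]; ring
  have hUV : (y + r * X) * (y - r * X) = q := by
    have : (y + r * X) * (y - r * X) = y ^ 2 - r ^ 2 * X ^ 2 := by ring
    rw [this, hy, hr, ha, hb]; ring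
  have hU0 : y + r * X ≠ 0 := by
    intro h; rw [h, zero_mul] at hUV; exact hq0 hUV.symm
  rw [← hPr] at hP
  refine ⟨fun c => (2 * r * (2 * r ^ 2 + X)⁻¹) * (T Φ.d c (y + r * X) 3 / (y + r * X)),
    (Alm.dlog Φ hU0 h3).smul Φ (Φ.O.mul_mem (Φ.O.mul_mem h2 hrO) hP.1),
    1 / y - 3 * X / (y * (2 * r ^ 2 + X)), -(r / ((2 * r ^ 2 + X) * (y + r * X) * y)),
    fun c => ?_⟩
  have e1 : T Φ.d c (X + e) 2 = T Φ.d c X 2 + T Φ.d c e 2 := T_add _ _ _ _ _
  have e2 : 2 * r * T Φ.d c r 1 = T Φ.d c X 2 + 3 * T Φ.d c e 2 := by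
    rw [← T_sq Φ.d c r 1 2 (by norm_num), hr, T_add]
    have := T_intmul Φ.d c 3 e 2
    push_cast at this
    rw [this]; ring
  have e3 : 2 * y * T Φ.d c y 3 = 2 * X ^ 2 * r * T Φ.d c r 1 + 2 * X * r ^ 2 * T Φ.d c X 2
      + T Φ.d c q 6 := by
    rw [← T_sq Φ.d c y 3 6 (by norm_num)]
    have : y ^ 2 = X ^ 2 * r ^ 2 + q := by rw [← hUV]; ring
    rw [this, T_add, T_mul Φ.d c (X ^ 2) (r ^ 2) 4 2 6 (by norm_num), T_sq Φ.d c X 2 4 (by norm_num),
      T_sq Φ.d c r 1 2 (by norm_num)]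
    ring
  have e4 : T Φ.d c (y + r * X) 3 = T Φ.d c y 3 + r * T Φ.d c X 2 + X * T Φ.d c r 1 := by
    rw [T_add, T_mul Φ.d c r X 1 2 3 (by norm_num)]; ring
  have key : (2 * r ^ 2 + X) * (y + r * X) * T Φ.d c X 2 = 2 * r * y * T Φ.d c (y + r * X) 3
      - 3 * X * (y + r * X) * T Φ.d c e 2 - r * T Φ.d c q 6 := by
    rw [e4]
    linear_combination (-r) * e3 + (-(r * X ^ 2 + y * X)) * e2
  have hP0 := hP.2
  rw [e1]
  field_simp
  linear_combination key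

end Types

end FrameDet

open FrameDet

/-- E2: integrality of the determinant for an integral non-cuspidal model. -/
theorem Frame.det_mem {K : Type*} [Field K] [CharZero K] (Φ : Frame K) (a b : K)
    (x y : Fin 10 → K) (ha : a ∈ Φ.O) (hb : b ∈ Φ.O) (hab : ¬ (a / Φ.s ∈ Φ.O ∧ b / Φ.s ∈ Φ.O))
    (hdisc : 4 * a ^ 3 + 27 * b ^ 2 ≠ 0) (hy : ∀ i, y i ^ 2 = x i ^ 3 + a * x i + b)
    (hy0 : ∀ i, y i ≠ 0) : (Wmat Φ.d a b x y).det ∈ Φ.O := by
  have h2 : (2 : K) ∈ Φ.O := by exact_mod_cast natCast_mem Φ.O 2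
  have h3 : (3 : K) ∈ Φ.O := by exact_mod_cast natCast_mem Φ.O 3
  have h4 : (4 : K) ∈ Φ.O := by exact_mod_cast natCast_mem Φ.O 4
  have h6 : (6 : K) ∈ Φ.O := by exact_mod_cast natCast_mem Φ.O 6
  have hW : (Wmat Φ.d a b x y) = m3 (fun c => T Φ.d c a 4) (fun c => T Φ.d c b 6)
      (fun j c => (y j)⁻¹ * T Φ.d c (x j) 2) := by
    ext i c
    refine Fin.cases ?_ (fun i => Fin.cases ?_ (fun i => ?_) i) i
    · rfl
    · rfl
    · rfl
  rw [hW]
  by_cases hiv : ∃ j, x j ∈ Φ.O ∧ y j / Φ.s ∈ Φ.O ∧ (3 * x j ^ 2 + a) / Φ.s ∈ Φ.O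
  · obtain ⟨j0, hx0, hys0, h3x0⟩ := hiv
    -- `a` is a unit
    have haU : a / Φ.s ∉ Φ.O := by
      intro has
      have h7 : (((3 : ℕ) : K) * x j0 ^ 2) / Φ.s ∈ Φ.O := by
        have := small_sub Φ h3x0 has
        rw [add_sub_cancel_right] at this
        exact_mod_cast this
      have h8 := small_of_sq Φ hx0 (nat_unit Φ 3 (by norm_num) h7)
      apply hab
      refine ⟨has, ?_⟩
      have e : b = y j0 * y j0 - (x j0 ^ 2 + a) * x j0 := by linear_combination (-1) * hy j0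
      rw [e]
      exact small_sub Φ (small_mul Φ (mem_of_small Φ hys0) hys0)
        (small_mul Φ (Φ.O.add_mem (Φ.O.pow_mem hx0 2) ha) h8)
    obtain ⟨haU', ha0⟩ := unit_of_not_small Φ ha haU
    have h3' : (3 : K)⁻¹ ∈ Φ.O := by exact_mod_cast Φ.rat 3 (by norm_num)
    obtain ⟨e1, he1O, he1⟩ := Φ.sqrt (-a * 3⁻¹) (Φ.O.mul_mem (Φ.O.neg_mem ha) h3')
      (by rw [mul_inv, inv_inv, inv_neg]; exact Φ.O.mul_mem (Φ.O.neg_mem haU') h3)
      (mul_ne_zero (neg_ne_zero.mpr ha0) (by norm_num))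
    have hprod : ∀ z : K, (z - e1) * (z + e1) = 3⁻¹ * (3 * z ^ 2 + a) := by
      intro z
      have : (z - e1) * (z + e1) = z ^ 2 - e1 ^ 2 := by ring
      rw [this, he1]; ring
    -- choose the sign
    obtain ⟨e, heO, he2, hxe⟩ : ∃ e ∈ Φ.O, e ^ 2 = -a * 3⁻¹ ∧ (x j0 - e) / Φ.s ∈ Φ.O := by
      rcases small_or_small Φ (Φ.O.sub_mem hx0 he1O) (Φ.O.add_mem hx0 he1O)
        (by rw [hprod]; exact small_mul Φ h3' h3x0) with h | h
      · exact ⟨e1, he1O, he1, h⟩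
      · exact ⟨-e1, Φ.O.neg_mem he1O, by rw [neg_sq, he1], by rwa [sub_neg_eq_add]⟩
    have hae : a = -3 * e ^ 2 := by rw [he2]; ring
    have heU : e / Φ.s ∉ Φ.O := by
      intro h
      apply haU
      have e' : a = (-3 * e) * e := by rw [hae]; ring
      rw [e']
      exact small_mul Φ (Φ.O.mul_mem (Φ.O.neg_mem h3) heO) h
    obtain ⟨he', he0⟩ := unit_of_not_small Φ heO heU
    obtain ⟨q, hbq⟩ : ∃ q, b = q + 2 * e ^ 3 := ⟨b - 2 * e ^ 3, by ring⟩
    have hq0 : q ≠ 0 := by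
      intro h
      apply hdisc
      rw [hae, hbq, h]; ring
    have hqs : q / Φ.s ∈ Φ.O := by
      have e' : q = y j0 * y j0 - ((x j0 - e) * (x j0 + 2 * e)) * (x j0 - e) := by
        have := hy j0
        rw [hae, hbq] at this
        linear_combination (-1) * this
      rw [e']
      exact small_sub Φ (small_mul Φ (mem_of_small Φ hys0) hys0)
        (small_mul Φ (Φ.O.mul_mem (mem_of_small Φ hxe) (Φ.O.add_mem hx0 (Φ.O.mul_mem h2 heO))) hxe)
    have hTa : ∀ c, T Φ.d c a 4 = (-6 * e) * T Φ.d c e 2 := by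
      intro c
      have h7 := T_intmul Φ.d c (-3) (e ^ 2) 4
      push_cast at h7
      rw [hae, h7, T_sq Φ.d c e 2 4 (by norm_num)]; ring
    have hTb : ∀ c, T Φ.d c b 6 = T Φ.d c q 6 + 6 * e ^ 2 * T Φ.d c e 2 := by
      intro c
      have h7 := T_intmul Φ.d c 2 (e ^ 3) 6
      push_cast at h7
      rw [hbq, T_add, h7, T_cube Φ.d c e 2 6 (by norm_num)]; ring
    -- the rows
    have hrows : ∀ j, ∃ R' : Fin 12 → K, Alm Φ R' ∧ ∃ α β : K, ∀ c,
        (y j)⁻¹ * T Φ.d c (x j) 2 = R' c + α * T Φ.d c a 4 + β * T Φ.d c b 6 := by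
      intro j
      by_cases hj : x j ∈ Φ.O ∧ y j / Φ.s ∈ Φ.O ∧ (3 * x j ^ 2 + a) / Φ.s ∈ Φ.O
      · obtain ⟨hx, hys, h3x⟩ := hj
        have hxe' : (x j - e) / Φ.s ∈ Φ.O := by
          have hp : (x j - e) * (x j + e) = 3⁻¹ * (3 * x j ^ 2 + a) := by
            rw [hae]; ring
          rcases small_or_small Φ (Φ.O.sub_mem hx heO) (Φ.O.add_mem hx heO)
            (by rw [hp]; exact small_mul Φ h3' h3x) with h | h
          · exact h
          · exfalso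
            have h8 : (((4 : ℕ) : K) * e ^ 3) / Φ.s ∈ Φ.O := by
              have e' : (((4 : ℕ) : K) * e ^ 3) = (y j * y j -
                  ((x j + e) * (x j - 2 * e)) * (x j + e)) - q := by
                have := hy j
                rw [hae, hbq] at this
                push_cast
                linear_combination (-1) * this
              rw [e']
              refine small_sub Φ (small_sub Φ (small_mul Φ (mem_of_small Φ hys) hys)
                (small_mul Φ (Φ.O.mul_mem (mem_of_small Φ h)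
                  (Φ.O.sub_mem hx (Φ.O.mul_mem h2 heO))) h)) hqs
            refine not_small Φ (pow_ne_zero 3 he0) ?_ (nat_unit Φ 4 (by norm_num) h8)
            rw [← inv_pow]
            exact Φ.O.pow_mem he' 3
        obtain ⟨R', hR', α, β, h⟩ := bad_row Φ e q heO he' he0 hq0 hae hbq (hy j) (hy0 j) hxe'
        refine ⟨R', hR', -(α / (6 * e)) + β * e, β, fun c => ?_⟩
        rw [h, hTa, hTb]
        field_simp
        ring
      · obtain ⟨R', hR', α, β, h⟩ := good_row Φ ha hb (hy j) (hy0 j) hj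
        exact ⟨R', Alm.of_mem Φ hR', α, β, h⟩
    choose R' hR' α β h using hrows
    rw [det_m3_congr _ _ _ R' fun j => ⟨α j, β j, h j⟩,
      det_m3_smul (fun c => T Φ.d c e 2) (fun c => T Φ.d c q 6 / q) _ _ R' (-6 * e) q (6 * e ^ 2)
        hTa (fun c => by rw [hTb, mul_div_cancel₀ _ hq0])]
    have hAe : Alm Φ (fun c => T Φ.d c e 2) := Alm.of_mem Φ fun c => T_mem Φ heO h2 c
    have hAq : Alm Φ (fun c => T Φ.d c q 6 / q) := Alm.dlog Φ hq0 h6
    have h9 := FrameDet.det_mem' Φ.O Φ.s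
      (m3 (fun c => T Φ.d c e 2) (fun c => T Φ.d c q 6 / q) R') ?_ ?_
    · have e' : -6 * e * q * (m3 (fun c => T Φ.d c e 2) (fun c => T Φ.d c q 6 / q) R').det
          = (-6 * e * (q / Φ.s)) *
            (Φ.s * (m3 (fun c => T Φ.d c e 2) (fun c => T Φ.d c q 6 / q) R').det) := by
        have := Φ.s_ne
        field_simp
      rw [e']
      exact Φ.O.mul_mem (Φ.O.mul_mem (Φ.O.mul_mem (Φ.O.neg_mem h6) heO) hqs) h9
    · intro i
      refine Fin.cases ?_ (fun i => Fin.cases ?_ (fun i => ?_) i) i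
      · exact hAe.1
      · exact hAq.1
      · exact (hR' i).1
    · intro i c
      refine Fin.cases ?_ (fun i => Fin.cases ?_ (fun i => ?_) i) i
      · exact hAe.2 c
      · exact hAq.2 c
      · exact (hR' i).2 c
  · have hrows : ∀ j, ∃ R' : Fin 12 → K, (∀ c, R' c ∈ Φ.O) ∧ ∃ α β : K, ∀ c,
        (y j)⁻¹ * T Φ.d c (x j) 2 = R' c + α * T Φ.d c a 4 + β * T Φ.d c b 6 :=
      fun j => good_row Φ ha hb (hy j) (hy0 j) fun h => hiv ⟨j, h⟩
    choose R' hR' α β h using hrows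
    rw [det_m3_congr _ _ _ R' fun j => ⟨α j, β j, h j⟩]
    refine FrameDet.det_mem Φ.O _ fun i c => ?_
    refine Fin.cases ?_ (fun i => Fin.cases ?_ (fun i => ?_) i) i
    · exact T_mem Φ ha h4 c
    · exact T_mem Φ hb h6 c
    · exact hR' i c

end Pool.Agent.Helper49.Irr
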