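import Mathlib

/-!
# Square roots of power series with a nonzero square as constant coefficient
-/

namespace Pool.Agent.Helper49.Irr

open PowerSeries in
theorem exists_sqrt_powerSeries {k : Type*} [Field k] (h2 : (2 : k) ≠ 0) (f : PowerSeries k)
    (c : k) (hc : c ≠ 0) (hf : PowerSeries.constantCoeff f = c ^ 2) :
    ∃ g : PowerSeries k, g ^ 2 = f := by
  let p : Polynomial (PowerSeries k) := Polynomial.X ^ 2 - Polynomial.C f
  have hp : p.Monic := Polynomial.monic_X_pow_sub_C f two_ne_zero
  have h1 : p.eval (PowerSeries.C c) ∈ (Ideal.span {PowerSeries.X} : Ideal (PowerSeries k)) := by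
    rw [Ideal.mem_span_singleton, PowerSeries.X_dvd_iff]
    simp [p, hf]
  have h3 : IsUnit (Ideal.Quotient.mk (Ideal.span {PowerSeries.X} : Ideal (PowerSeries k))
      (p.derivative.eval (PowerSeries.C c))) := by
    refine IsUnit.map _ ?_
    rw [PowerSeries.isUnit_iff_constantCoeff]
    simp only [p, Polynomial.derivative_sub, Polynomial.derivative_X_pow, Polynomial.derivative_C,
      sub_zero, Polynomial.eval_mul, Polynomial.eval_pow, Polynomial.eval_X, Polynomial.eval_C,
      map_mul, map_pow, PowerSeries.constantCoeff_C]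
    have h4 : (PowerSeries.constantCoeff (2 : PowerSeries k)) = 2 :=
      map_ofNat (PowerSeries.constantCoeff (R := k)) 2
    simp [h4, h2, hc]
  obtain ⟨a, ha, -⟩ := HenselianRing.is_henselian p hp (PowerSeries.C c) h1 h3
  refine ⟨a, ?_⟩
  have := ha
  simp only [p, Polynomial.IsRoot.def, Polynomial.eval_sub, Polynomial.eval_pow,
    Polynomial.eval_X, Polynomial.eval_C] at this
  exact sub_eq_zero.mp this

end Pool.Agent.Helper49.Irr
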