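import Pool.Agent.Helper49.Irr.DefsE
import Pool.Agent.Helper49.Irr.SqrtPS

/-!
# The frame of Laurent series
-/

namespace Pool.Agent.Helper49.Irr

theorem exists_frame_of {K : Type*} [Field K] (O : Subring K) (s : K) (δ : Fin 11 → K → K)
    (hadd : ∀ i x y, δ i (x + y) = δ i x + δ i y)
    (hmul : ∀ i x y, δ i (x * y) = x * δ i y + y * δ i x)
    (s_mem : s ∈ O) (s_ne : s ≠ 0) (s_inv : s⁻¹ ∉ O) (val : ∀ x, x ∈ O ∨ x⁻¹ ∈ O)
    (unit_or : ∀ x ∈ O, x⁻¹ ∈ O ∨ x / s ∈ O) (rat : ∀ n : ℕ, n ≠ 0 → (n : K)⁻¹ ∈ O)
    (sqrt : ∀ x ∈ O, x⁻¹ ∈ O → x ≠ 0 → ∃ y ∈ O, y ^ 2 = x)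
    (d_mem : ∀ i, ∀ x ∈ O, δ i x ∈ O)
    (dlog : ∀ i, i ≠ 0 → ∀ x, x ≠ 0 → δ i x / x ∈ O)
    (dlog0 : ∀ x, x ≠ 0 → s * δ 0 x / x ∈ O) :
    ∃ Φ : Frame K, Φ.O = O ∧ Φ.s = s ∧ ∀ i x, Φ.d i x = δ i x := by
  let D : Fin 11 → Der K := fun i => ⟨δ i, hadd i, hmul i⟩
  have hD : ∀ i x, D i x = δ i x := fun i x => rfl
  refine ⟨{ O := O, s := s, d := D, s_mem := s_mem, s_ne := s_ne, s_inv := s_inv, val := val,
            unit_or := unit_or, rat := rat, sqrt := sqrt, d_mem := ?_, dlog := ?_,
            dlog0 := ?_ }, rfl, rfl, hD⟩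
  · intro i x hx
    rw [hD]
    exact d_mem i x hx
  · intro i hi x hx
    rw [hD]
    exact dlog i hi x hx
  · intro x hx
    rw [hD]
    exact dlog0 x hx

section LaurentAux

variable {k : Type*} [Field k]

/-- a coefficientwise operator -/
def coeffMap (φ : ℤ → k →+ k) (f : LaurentSeries k) : LaurentSeries k where
  coeff n := φ n (f.coeff n)
  isPWO_support' := f.isPWO_support.mono (by
    intro n hn h0
    refine hn ?_
    simp only at *
    rw [h0, map_zero])

theorem coeff_coeffMap (φ : ℤ → k →+ k) (f : LaurentSeries k) (n : ℤ) :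
    (coeffMap φ f).coeff n = φ n (f.coeff n) := rfl

theorem support_coeffMap (φ : ℤ → k →+ k) (f : LaurentSeries k) :
    (coeffMap φ f).support ⊆ f.support := by
  intro n hn h0
  refine hn ?_
  change φ n (f.coeff n) = 0
  rw [h0, map_zero]

theorem coeffMap_add (φ : ℤ → k →+ k) (f g : LaurentSeries k) :
    coeffMap φ (f + g) = coeffMap φ f + coeffMap φ g := by
  ext n
  change φ n (f.coeff n + g.coeff n) = φ n (f.coeff n) + φ n (g.coeff n)
  rw [map_add]

theorem coeffMap_mul (φ : ℤ → k →+ k)
    (h : ∀ m n a b, φ (m + n) (a * b) = φ m a * b + a * φ n b) (f g : LaurentSeries k) :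
    coeffMap φ (f * g) = f * coeffMap φ g + g * coeffMap φ f := by
  ext n
  have h1 : (coeffMap φ f * g).coeff n = _ :=
    HahnSeries.coeff_mul_left' (x := coeffMap φ f) (y := g) (a := n) f.isPWO_support
      (support_coeffMap φ f)
  have h2 : (f * coeffMap φ g).coeff n = _ :=
    HahnSeries.coeff_mul_right' (x := f) (y := coeffMap φ g) (a := n) g.isPWO_support
      (support_coeffMap φ g)
  have h3 : (f * g).coeff n = _ := HahnSeries.coeff_mul
  change φ n ((f * g).coeff n) = (f * coeffMap φ g + g * coeffMap φ f).coeff n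
  rw [HahnSeries.coeff_add, mul_comm g, h1, h2, h3, map_sum, ← Finset.sum_add_distrib]
  refine Finset.sum_congr rfl fun ij hij => ?_
  obtain ⟨-, -, hn⟩ := Finset.mem_antidiagonal.mp hij
  rw [← hn, h]
  change φ ij.1 (f.coeff ij.1) * g.coeff ij.2 + f.coeff ij.1 * φ ij.2 (g.coeff ij.2) =
    f.coeff ij.1 * φ ij.2 (g.coeff ij.2) + φ ij.1 (f.coeff ij.1) * g.coeff ij.2
  ring

variable (k) in
/-- the valuation ring -/
noncomputable def Olaur : Subring (LaurentSeries k) := (HahnSeries.ofPowerSeries ℤ k).range

theorem mem_Olaur_iff (f : LaurentSeries k) :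
    f ∈ Olaur k ↔ ∀ n : ℤ, n < 0 → f.coeff n = 0 := by
  constructor
  · rintro ⟨p, rfl⟩ n hn
    rw [PowerSeries.coeff_coe, if_pos hn]
  · intro h
    refine ⟨PowerSeries.mk (fun n => f.coeff n), ?_⟩
    ext n
    rw [PowerSeries.coeff_coe]
    split_ifs with hn
    · exact (h n hn).symm
    · rw [PowerSeries.coeff_mk, Int.natAbs_of_nonneg (by omega)]

theorem mem_Olaur_iff_order (f : LaurentSeries k) : f ∈ Olaur k ↔ 0 ≤ f.order := by
  rw [mem_Olaur_iff]
  constructor
  · intro h
    by_contra hneg
    push Not at hneg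
    have hf : f ≠ 0 := by
      rintro rfl
      simp at hneg
    exact HahnSeries.coeff_order_eq_zero.not.mpr hf (h _ hneg)
  · intro h n hn
    exact HahnSeries.coeff_eq_zero_of_lt_order (by omega)

theorem order_inv' {f : LaurentSeries k} (hf : f ≠ 0) : f⁻¹.order = - f.order := by
  have h := HahnSeries.order_mul hf (inv_ne_zero hf)
  rw [mul_inv_cancel₀ hf, HahnSeries.order_one] at h
  omega

theorem order_div' {f g : LaurentSeries k} (hf : f ≠ 0) (hg : g ≠ 0) :
    (f / g).order = f.order - g.order := by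
  rw [div_eq_mul_inv, HahnSeries.order_mul hf (inv_ne_zero hg), order_inv' hg]
  ring

theorem coeffMap_div_mem (φ : ℤ → k →+ k) (f : LaurentSeries k) (hf : f ≠ 0) :
    coeffMap φ f / f ∈ Olaur k := by
  by_cases h0 : coeffMap φ f = 0
  · rw [h0, zero_div]
    exact zero_mem _
  rw [mem_Olaur_iff_order, order_div' h0 hf, sub_nonneg]
  by_contra hlt
  push Not at hlt
  have h1 := HahnSeries.coeff_order_eq_zero.not.mpr h0
  rw [coeff_coeffMap, HahnSeries.coeff_eq_zero_of_lt_order hlt, map_zero] at h1
  exact h1 rfl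

/-- the operator `s d/ds` -/
def thetaFam (k : Type*) [Field k] : ℤ → k →+ k := fun n => AddMonoidHom.mulLeft (n : k)

end LaurentAux

/-- E3: the frame of Laurent series. -/
theorem exists_laurentFrame (k : Type*) [Field k] [CharZero k] [IsAlgClosed k]
    (δ : Fin 10 → Der k) : ∃ Φ : Frame (LaurentSeries k),
      (∀ f, f ∈ Φ.O ↔ ∀ n : ℤ, n < 0 → f.coeff n = 0) ∧
      Φ.s = HahnSeries.single (1 : ℤ) (1 : k) ∧
      (∀ c : k, Φ.d 0 (HahnSeries.C c) = 0) ∧ Φ.d 0 Φ.s = 1 ∧
      (∀ (i : Fin 10) (c : k), Φ.d i.succ (HahnSeries.C c) = HahnSeries.C (δ i c)) ∧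
      (∀ i : Fin 10, Φ.d i.succ Φ.s = 0) := by
  -- the operators
  let s : LaurentSeries k := HahnSeries.single (1 : ℤ) (1 : k)
  let s' : LaurentSeries k := HahnSeries.single (-1 : ℤ) (1 : k)
  have hss : s * s' = 1 := by
    simp only [s, s', HahnSeries.single_mul_single]
    simp
  have hsne : s ≠ 0 := left_ne_zero_of_mul_eq_one hss
  have hsinv : s⁻¹ = s' := inv_eq_of_mul_eq_one_right hss
  have hsord : s.order = 1 := HahnSeries.order_single one_ne_zero
  let dfam : Fin 10 → ℤ → k →+ k := fun i _ => AddMonoidHom.mk' (δ i) (δ i).map_add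
  let Δ : Fin 11 → LaurentSeries k → LaurentSeries k :=
    Fin.cons (fun f => s' * coeffMap (thetaFam k) f) (fun i => coeffMap (dfam i))
  have hθ : ∀ m n a b, thetaFam k (m + n) (a * b) =
      thetaFam k m a * b + a * thetaFam k n b := by
    intro m n a b
    simp only [thetaFam, AddMonoidHom.coe_mulLeft]
    push_cast
    ring
  have hδ : ∀ i m n a b, dfam i (m + n) (a * b) = dfam i m a * b + a * dfam i n b := by
    intro i m n a b
    change δ i (a * b) = δ i a * b + a * δ i b
    rw [Der.map_mul]
    ring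
  obtain ⟨Φ, hO, hs, hd⟩ := exists_frame_of (Olaur k) s Δ
    (by
      intro i
      refine Fin.cases ?_ (fun i => ?_) i
      · intro x y
        change s' * coeffMap (thetaFam k) (x + y) = _
        rw [coeffMap_add, mul_add]
        rfl
      · intro x y
        exact coeffMap_add _ _ _)
    (by
      intro i
      refine Fin.cases ?_ (fun i => ?_) i
      · intro x y
        change s' * coeffMap (thetaFam k) (x * y) = x * (s' * coeffMap (thetaFam k) y) +
          y * (s' * coeffMap (thetaFam k) x)
        rw [coeffMap_mul _ hθ]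
        ring
      · intro x y
        exact coeffMap_mul _ (hδ i) _ _)
    (by
      rw [mem_Olaur_iff_order, hsord]
      norm_num)
    hsne
    (by
      rw [mem_Olaur_iff_order, order_inv' hsne, hsord]
      norm_num)
    (by
      intro x
      by_cases hx : x = 0
      · left
        rw [hx]
        exact zero_mem _
      rw [mem_Olaur_iff_order, mem_Olaur_iff_order, order_inv' hx]
      omega)
    (by
      intro x hxO
      by_cases hx : x = 0
      · left
        rw [hx, inv_zero]
        exact zero_mem _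
      rw [mem_Olaur_iff_order] at hxO
      rw [mem_Olaur_iff_order, mem_Olaur_iff_order, order_inv' hx, order_div' hx hsne, hsord]
      omega)
    (by
      intro n hn
      have h1 : ((n : LaurentSeries k)) = HahnSeries.C (n : k) := by simp
      have h2 : (HahnSeries.C (n : k) : LaurentSeries k) ≠ 0 := by
        intro h3
        have h4 := congrArg (fun f : LaurentSeries k => f.coeff 0) h3
        simp only [HahnSeries.C_apply, HahnSeries.coeff_single, HahnSeries.coeff_zero,
          if_true] at h4
        exact hn (by exact_mod_cast h4)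
      rw [mem_Olaur_iff_order, h1, order_inv' h2, HahnSeries.order_C]
      simp)
    (by
      intro x hx hxi hx0
      have hord : x.order = 0 := by
        rw [mem_Olaur_iff_order] at hx hxi
        rw [order_inv' hx0] at hxi
        omega
      obtain ⟨p, hp⟩ := hx
      have hp0 : PowerSeries.constantCoeff p ≠ 0 := by
        have h1 := HahnSeries.coeff_order_eq_zero.not.mpr hx0
        rw [hord, ← hp, PowerSeries.coeff_coe] at h1
        simpa using h1
      obtain ⟨c, hc⟩ := IsAlgClosed.exists_pow_nat_eq (PowerSeries.constantCoeff p)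
        (n := 2) (by norm_num)
      have hc0 : c ≠ 0 := by
        rintro rfl
        exact hp0 (by rw [← hc]; simp)
      obtain ⟨g, hg⟩ := exists_sqrt_powerSeries two_ne_zero p c hc0 hc.symm
      refine ⟨HahnSeries.ofPowerSeries ℤ k g, ⟨g, rfl⟩, ?_⟩
      rw [← map_pow, hg, hp])
    (by
      intro i
      refine Fin.cases ?_ (fun i => ?_) i
      · intro x hx
        rw [mem_Olaur_iff] at hx ⊢
        intro n hn
        change (s' * coeffMap (thetaFam k) x).coeff n = 0
        simp only [s', HahnSeries.coeff_single_mul, coeff_coeffMap, one_mul, thetaFam,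
          AddMonoidHom.coe_mulLeft]
        by_cases h1 : n = -1
        · subst h1
          simp
        · rw [hx _ (by omega), mul_zero]
      · intro x hx
        rw [mem_Olaur_iff] at hx ⊢
        intro n hn
        change (coeffMap (dfam i) x).coeff n = 0
        rw [coeff_coeffMap, hx n hn, map_zero])
    (by
      intro i
      refine Fin.cases ?_ (fun i => ?_) i
      · intro h
        exact absurd rfl h
      · intro _ x hx
        exact coeffMap_div_mem (dfam i) x hx)
    (by
      intro x hx
      have h1 : s * Δ 0 x = coeffMap (thetaFam k) x := by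
        change s * (s' * coeffMap (thetaFam k) x) = _
        rw [← mul_assoc, hss, one_mul]
      rw [h1]
      exact coeffMap_div_mem (thetaFam k) x hx)
  refine ⟨Φ, ?_, hs, ?_, ?_, ?_, ?_⟩
  · intro f
    rw [hO]
    exact mem_Olaur_iff f
  · intro c
    rw [hd]
    change s' * coeffMap (thetaFam k) (HahnSeries.C c) = 0
    have : coeffMap (thetaFam k) (HahnSeries.C c) = 0 := by
      ext n
      rw [coeff_coeffMap, HahnSeries.C_apply, HahnSeries.coeff_single]
      by_cases hn : n = 0
      · subst hn
        simp [thetaFam]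
      · simp [hn]
    rw [this, mul_zero]
  · rw [hd, hs]
    change s' * coeffMap (thetaFam k) s = 1
    have : coeffMap (thetaFam k) s = s := by
      ext n
      rw [coeff_coeffMap]
      simp only [s, HahnSeries.coeff_single, thetaFam, AddMonoidHom.coe_mulLeft]
      split_ifs with hn
      · subst hn
        simp
      · simp
    rw [this, mul_comm, hss]
  · intro i c
    rw [hd]
    change coeffMap (dfam i) (HahnSeries.C c) = _
    ext n
    rw [coeff_coeffMap, HahnSeries.C_apply, HahnSeries.C_apply, HahnSeries.coeff_single,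
      HahnSeries.coeff_single]
    split_ifs with hn
    · rfl
    · rw [map_zero]
  · intro i
    rw [hd, hs]
    change coeffMap (dfam i) s = _
    ext n
    rw [coeff_coeffMap]
    simp only [s, HahnSeries.coeff_single]
    split_ifs with hn
    · change δ i 1 = 0
      simp
    · simp

end Pool.Agent.Helper49.Irr
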