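import Mathlib

/-!
# Places of `F(t)`
-/

namespace Pool.Agent.Helper49.Irr

section PlacesAux

open Polynomial

variable {F : Type*} [Field F]

/-- the polynomial evaluation in the Laurent series -/
theorem pev_eq (τ : LaurentSeries (AlgebraicClosure F)) (p : F[X]) :
    p.eval₂ ((HahnSeries.C : AlgebraicClosure F →+* LaurentSeries (AlgebraicClosure F)).comp
      (algebraMap F (AlgebraicClosure F))) τ =
    HahnSeries.C (algebraMap F _ p.leadingCoeff) *
      ((p.map (algebraMap F (AlgebraicClosure F))).roots.map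
        (fun r => τ - HahnSeries.C r)).prod := by
  have key : ∀ q : (AlgebraicClosure F)[X],
      q.eval₂ (HahnSeries.C : AlgebraicClosure F →+* LaurentSeries (AlgebraicClosure F)) τ =
      HahnSeries.C q.leadingCoeff * (q.roots.map (fun r => τ - HahnSeries.C r)).prod := by
    intro q
    have h := (IsAlgClosed.splits q).eq_prod_roots
    conv_lhs => rw [h]
    rw [Polynomial.eval₂_mul, Polynomial.eval₂_C, Polynomial.eval₂_multiset_prod,
      Multiset.map_map]
    congr 2
    refine Multiset.map_congr rfl fun r _ => ?_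
    simp only [Function.comp_apply, Polynomial.eval₂_sub, Polynomial.eval₂_X, Polynomial.eval₂_C]
  rw [← Polynomial.eval₂_map, key, Polynomial.leadingCoeff_map]

open Classical in
/-- orders of `τ - r` at a finite place -/
theorem sub_fin {k : Type*} [Field k] (c r : k) :
    (HahnSeries.C c + HahnSeries.single (12 : ℤ) 1 - HahnSeries.C r : LaurentSeries k) ≠ 0 ∧
    (HahnSeries.C c + HahnSeries.single (12 : ℤ) 1 - HahnSeries.C r : LaurentSeries k).order =
      if r = c then 12 else 0 := by
  have hne : (HahnSeries.C c + HahnSeries.single (12 : ℤ) 1 - HahnSeries.C r :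
      LaurentSeries k).coeff 12 = 1 := by
    simp [HahnSeries.C_apply, HahnSeries.coeff_single_of_ne]
  have hne' : (HahnSeries.C c + HahnSeries.single (12 : ℤ) 1 - HahnSeries.C r :
      LaurentSeries k) ≠ 0 := by
    intro h0
    rw [h0] at hne
    simp at hne
  refine ⟨hne', ?_⟩
  split_ifs with h
  · subst h
    rw [add_sub_cancel_left, HahnSeries.order_single one_ne_zero]
  · have hc0 : (HahnSeries.C c + HahnSeries.single (12 : ℤ) 1 - HahnSeries.C r :
      LaurentSeries k).coeff 0 = c - r := by
      simp [HahnSeries.C_apply, HahnSeries.coeff_single_of_ne]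
    have hle := HahnSeries.order_le_of_coeff_ne_zero (x := (HahnSeries.C c +
      HahnSeries.single (12 : ℤ) 1 - HahnSeries.C r : LaurentSeries k)) (g := 0)
      (by rw [hc0]; exact sub_ne_zero.mpr (fun h' => h h'.symm))
    refine le_antisymm hle ?_
    rw [HahnSeries.order_of_ne hne']
    refine (Set.IsWF.le_min_iff _ _).mpr ?_
    intro b hb
    by_contra hb0
    push Not at hb0
    refine hb ?_
    simp only [HahnSeries.coeff_sub, HahnSeries.coeff_add, HahnSeries.C_apply]
    rw [HahnSeries.coeff_single_of_ne (by omega), HahnSeries.coeff_single_of_ne (by omega),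
      HahnSeries.coeff_single_of_ne (by omega)]
    simp

/-- orders of `τ - r` at the infinite place -/
theorem sub_inf {k : Type*} [Field k] (r : k) :
    (HahnSeries.single (-12 : ℤ) 1 - HahnSeries.C r : LaurentSeries k) ≠ 0 ∧
    (HahnSeries.single (-12 : ℤ) 1 - HahnSeries.C r : LaurentSeries k).order = -12 := by
  have hne : (HahnSeries.single (-12 : ℤ) 1 - HahnSeries.C r :
      LaurentSeries k).coeff (-12) = 1 := by
    simp [HahnSeries.C_apply, HahnSeries.coeff_single_of_ne]
  have hne' : (HahnSeries.single (-12 : ℤ) 1 - HahnSeries.C r :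
      LaurentSeries k) ≠ 0 := by
    intro h0
    rw [h0] at hne
    simp at hne
  refine ⟨hne', ?_⟩
  have hle := HahnSeries.order_le_of_coeff_ne_zero (x := (HahnSeries.single (-12 : ℤ) 1 -
    HahnSeries.C r : LaurentSeries k)) (g := -12) (by rw [hne]; exact one_ne_zero)
  refine le_antisymm hle ?_
  rw [HahnSeries.order_of_ne hne']
  refine (Set.IsWF.le_min_iff _ _).mpr ?_
  intro b hb
  by_contra hb0
  push Not at hb0
  refine hb ?_
  simp only [HahnSeries.coeff_sub, HahnSeries.C_apply]
  rw [HahnSeries.coeff_single_of_ne (by omega), HahnSeries.coeff_single_of_ne (by omega)]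
  simp

theorem order_multiset_prod {k : Type*} [Field k] (s : Multiset k) (g : k → LaurentSeries k)
    (hg : ∀ r, g r ≠ 0) : (s.map g).prod ≠ 0 ∧
      (s.map g).prod.order = (s.map (fun r => (g r).order)).sum := by
  induction s using Multiset.induction_on with
  | empty => simp
  | cons a s ih =>
    simp only [Multiset.map_cons, Multiset.prod_cons, Multiset.sum_cons]
    refine ⟨mul_ne_zero (hg a) ih.1, ?_⟩
    rw [HahnSeries.order_mul (hg a) ih.1, ih.2]

theorem pev_ne_zero (τ : LaurentSeries (AlgebraicClosure F))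
    (hτ : ∀ r, τ - HahnSeries.C r ≠ 0) {p : F[X]} (hp : p ≠ 0) :
    p.eval₂ ((HahnSeries.C : AlgebraicClosure F →+* LaurentSeries (AlgebraicClosure F)).comp
      (algebraMap F (AlgebraicClosure F))) τ ≠ 0 ∧
    (p.eval₂ ((HahnSeries.C : AlgebraicClosure F →+* LaurentSeries (AlgebraicClosure F)).comp
      (algebraMap F (AlgebraicClosure F))) τ).order =
      ((p.map (algebraMap F (AlgebraicClosure F))).roots.map
        (fun r => (τ - HahnSeries.C r).order)).sum := by
  have h1 : (HahnSeries.C (algebraMap F (AlgebraicClosure F) p.leadingCoeff) :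
      LaurentSeries (AlgebraicClosure F)) ≠ 0 := by
    simpa using hp
  have h2 := order_multiset_prod (p.map (algebraMap F (AlgebraicClosure F))).roots
    (fun r => τ - HahnSeries.C r) hτ
  rw [pev_eq]
  refine ⟨mul_ne_zero h1 h2.1, ?_⟩
  rw [HahnSeries.order_mul h1 h2.1, HahnSeries.order_C, zero_add, h2.2]

theorem hom_algebraMap (τ : LaurentSeries (AlgebraicClosure F))
    (j : RatFunc F →+* LaurentSeries (AlgebraicClosure F))
    (hC : ∀ c : F, j (RatFunc.C c) = HahnSeries.C (algebraMap F _ c)) (hX : j RatFunc.X = τ)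
    (p : F[X]) : j (algebraMap F[X] (RatFunc F) p) =
      p.eval₂ ((HahnSeries.C : AlgebraicClosure F →+* LaurentSeries (AlgebraicClosure F)).comp
      (algebraMap F (AlgebraicClosure F))) τ := by
  induction p using Polynomial.induction_on' with
  | add p q hp hq => rw [map_add, map_add, hp, hq, Polynomial.eval₂_add]
  | monomial n a =>
    rw [← Polynomial.C_mul_X_pow_eq_monomial, map_mul, map_mul, map_pow, map_pow,
      RatFunc.algebraMap_C, RatFunc.algebraMap_X, hC, hX, Polynomial.eval₂_mul,
      Polynomial.eval₂_C, Polynomial.eval₂_X_pow]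
    rfl

theorem exists_hom (τ : LaurentSeries (AlgebraicClosure F))
    (hτ : ∀ r, τ - HahnSeries.C r ≠ 0) :
    ∃ j : RatFunc F →+* LaurentSeries (AlgebraicClosure F),
      (∀ c : F, j (RatFunc.C c) = HahnSeries.C (algebraMap F _ c)) ∧ j RatFunc.X = τ := by
  let φ : F[X] →+* LaurentSeries (AlgebraicClosure F) := Polynomial.eval₂RingHom
    ((HahnSeries.C : AlgebraicClosure F →+* LaurentSeries (AlgebraicClosure F)).comp
      (algebraMap F (AlgebraicClosure F))) τ
  have hφ : nonZeroDivisors F[X] ≤
      (nonZeroDivisors (LaurentSeries (AlgebraicClosure F))).comap φ := by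
    intro p hp
    exact mem_nonZeroDivisors_of_ne_zero (pev_ne_zero τ hτ (nonZeroDivisors.ne_zero hp)).1
  refine ⟨RatFunc.liftRingHom φ hφ, fun c => ?_, ?_⟩
  · rw [RatFunc.liftRingHom_C]
    simp [φ]
  · rw [RatFunc.liftRingHom_X]
    simp [φ]

theorem hom_order (τ : LaurentSeries (AlgebraicClosure F))
    (hτ : ∀ r, τ - HahnSeries.C r ≠ 0)
    (j : RatFunc F →+* LaurentSeries (AlgebraicClosure F))
    (hC : ∀ c : F, j (RatFunc.C c) = HahnSeries.C (algebraMap F _ c)) (hX : j RatFunc.X = τ)
    (f : RatFunc F) (hf : f ≠ 0) : (j f).order =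
      ((f.num.map (algebraMap F (AlgebraicClosure F))).roots.map
        (fun r => (τ - HahnSeries.C r).order)).sum -
      ((f.denom.map (algebraMap F (AlgebraicClosure F))).roots.map
        (fun r => (τ - HahnSeries.C r).order)).sum := by
  have hn := pev_ne_zero τ hτ (RatFunc.num_ne_zero hf)
  have hd := pev_ne_zero τ hτ (RatFunc.denom_ne_zero f)
  have h1 : j f * j (algebraMap F[X] (RatFunc F) f.denom) =
      j (algebraMap F[X] (RatFunc F) f.num) := by
    rw [← map_mul]
    congr 1
    have := RatFunc.num_div_denom f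
    rw [div_eq_iff] at this
    · exact this.symm
    · exact (map_ne_zero_iff _ (RatFunc.algebraMap_injective F)).mpr (RatFunc.denom_ne_zero f)
  rw [hom_algebraMap τ j hC hX, hom_algebraMap τ j hC hX] at h1
  have hjf : j f ≠ 0 := (map_ne_zero j).mpr hf
  have h2 := HahnSeries.order_mul hjf hd.1
  rw [h1, hn.2, hd.2] at h2
  rw [h2]
  ring

end PlacesAux

/-- E5a: the places of `F(t)` -/
theorem dvd_order_place (F : Type*) [Field F] [CharZero F] (τ : LaurentSeries (AlgebraicClosure F))
    (hτ : (∃ c : AlgebraicClosure F, τ = HahnSeries.C c + HahnSeries.single (12 : ℤ) 1) ∨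
      τ = HahnSeries.single (-12 : ℤ) 1)
    (j : RatFunc F →+* LaurentSeries (AlgebraicClosure F))
    (hC : ∀ c : F, j (RatFunc.C c) = HahnSeries.C (algebraMap F _ c)) (hX : j RatFunc.X = τ)
    (f : RatFunc F) (hf : f ≠ 0) : (12 : ℤ) ∣ (j f).order := by
  classical
  have hne : ∀ r, τ - HahnSeries.C r ≠ 0 := by
    intro r
    rcases hτ with ⟨c, rfl⟩ | rfl
    · exact (sub_fin c r).1
    · exact (sub_inf r).1
  have hdvd : ∀ r, (12 : ℤ) ∣ (τ - HahnSeries.C r).order := by
    intro r
    rcases hτ with ⟨c, rfl⟩ | rfl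
    · rw [(sub_fin c r).2]
      split_ifs <;> norm_num
    · rw [(sub_inf r).2]
      norm_num
  rw [hom_order τ hne j hC hX f hf]
  refine dvd_sub (Multiset.dvd_sum ?_) (Multiset.dvd_sum ?_) <;>
  · intro x hx
    obtain ⟨r, -, rfl⟩ := Multiset.mem_map.mp hx
    exact hdvd r

/-- E5b: a nonzero rational function has a pole or does not vanish at infinity. -/
theorem exists_pole (F : Type*) [Field F] [CharZero F] (f : RatFunc F) (hf : f ≠ 0)
    (hfin : ∀ (c : AlgebraicClosure F) (j : RatFunc F →+* LaurentSeries (AlgebraicClosure F)),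
      (∀ c : F, j (RatFunc.C c) = HahnSeries.C (algebraMap F _ c)) →
      j RatFunc.X = HahnSeries.C c + HahnSeries.single (12 : ℤ) 1 → -12 < (j f).order)
    (hinf : ∀ (j : RatFunc F →+* LaurentSeries (AlgebraicClosure F)),
      (∀ c : F, j (RatFunc.C c) = HahnSeries.C (algebraMap F _ c)) →
      j RatFunc.X = HahnSeries.single (-12 : ℤ) 1 → 0 < (j f).order) : False := by
  classical
  -- no roots of the denominator
  have hroots : (f.denom.map (algebraMap F (AlgebraicClosure F))).roots = 0 := by
    by_contra hne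
    obtain ⟨c, hc⟩ := Multiset.exists_mem_of_ne_zero hne
    obtain ⟨j, hC, hX⟩ := exists_hom (F := F)
      (HahnSeries.C c + HahnSeries.single (12 : ℤ) 1) (fun r => (sub_fin c r).1)
    have h1 := hfin c j hC hX
    rw [hom_order _ (fun r => (sub_fin c r).1) j hC hX f hf] at h1
    have hnum : ((f.num.map (algebraMap F (AlgebraicClosure F))).roots.map
        (fun r => (HahnSeries.C c + HahnSeries.single (12 : ℤ) 1 - HahnSeries.C r :
          LaurentSeries (AlgebraicClosure F)).order)).sum = 0 := by
      refine Multiset.sum_eq_zero ?_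
      intro x hx
      obtain ⟨r, hr, rfl⟩ := Multiset.mem_map.mp hx
      rw [(sub_fin c r).2, if_neg]
      rintro rfl
      -- common root
      have hcop := RatFunc.isCoprime_num_denom f
      obtain ⟨u, w, huw⟩ := hcop
      have h2 := congrArg (fun p => (p.map (algebraMap F (AlgebraicClosure F))).eval r) huw
      have hr1 := Polynomial.isRoot_of_mem_roots hr
      have hr2 := Polynomial.isRoot_of_mem_roots hc
      simp only [Polynomial.map_add, Polynomial.map_mul, Polynomial.eval_add,
        Polynomial.eval_mul, Polynomial.map_one, Polynomial.eval_one] at h2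
      rw [hr1, hr2] at h2
      simp at h2
    have hden : (12 : ℤ) ≤ ((f.denom.map (algebraMap F (AlgebraicClosure F))).roots.map
        (fun r => (HahnSeries.C c + HahnSeries.single (12 : ℤ) 1 - HahnSeries.C r :
          LaurentSeries (AlgebraicClosure F)).order)).sum := by
      have hmem : (12 : ℤ) ∈ ((f.denom.map (algebraMap F (AlgebraicClosure F))).roots.map
        (fun r => (HahnSeries.C c + HahnSeries.single (12 : ℤ) 1 - HahnSeries.C r :
          LaurentSeries (AlgebraicClosure F)).order)) := by
        refine Multiset.mem_map.mpr ⟨c, hc, ?_⟩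
        rw [(sub_fin c c).2, if_pos rfl]
      refine Multiset.single_le_sum ?_ _ hmem
      intro x hx
      obtain ⟨r, hr, rfl⟩ := Multiset.mem_map.mp hx
      rw [(sub_fin c r).2]
      split_ifs <;> norm_num
    rw [hnum] at h1
    linarith
  obtain ⟨j, hC, hX⟩ := exists_hom (F := F)
      (HahnSeries.single (-12 : ℤ) 1) (fun r => (sub_inf r).1)
  have h1 := hinf j hC hX
  rw [hom_order _ (fun r => (sub_inf r).1) j hC hX f hf, hroots] at h1
  have hnum : ((f.num.map (algebraMap F (AlgebraicClosure F))).roots.map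
        (fun r => (HahnSeries.single (-12 : ℤ) 1 - HahnSeries.C r :
          LaurentSeries (AlgebraicClosure F)).order)).sum ≤ 0 := by
    rw [← neg_nonneg, ← Multiset.sum_map_neg']
    refine Multiset.sum_nonneg ?_
    intro y hy
    obtain ⟨x, hx, rfl⟩ := Multiset.mem_map.mp hy
    obtain ⟨r, hr, rfl⟩ := Multiset.mem_map.mp hx
    rw [(sub_inf r).2]
    norm_num
  simp only [Multiset.map_zero, Multiset.sum_zero, sub_zero] at h1
  linarith

end Pool.Agent.Helper49.Irr
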