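import Pool.Agent.Helper49.Irr.DefsE

/-!
# E6: derivations of rational function fields
-/

open Polynomial

namespace Pool.Agent.Helper49.Irr

/-- The ring homomorphism `a ↦ a + ε D a` into the dual numbers of a field over `A`. -/
noncomputable def dualHom {A K : Type*} [CommRing A] [Field K] (f : A →+* K) (D : A → K)
    (hadd : ∀ a b, D (a + b) = D a + D b) (hmul : ∀ a b, D (a * b) = f a * D b + f b * D a) :
    A →+* DualNumber K where
  toFun a := TrivSqZeroExt.inl (f a) + TrivSqZeroExt.inr (D a)
  map_zero' := by
    have h0 : D 0 = 0 := by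
      have := hadd 0 0
      rw [add_zero] at this
      simpa using this
    simp [h0]
  map_one' := by
    have h1 : D 1 = 0 := by
      have := hmul 1 1
      simp only [mul_one, map_one, one_mul] at this
      simpa using this
    simp [h1]
  map_add' a b := by
    rw [map_add, hadd]
    ext <;> simp
  map_mul' a b := by
    rw [map_mul, hmul]
    ext <;> simp [mul_comm]

theorem exists_extension {A K : Type*} [CommRing A] [IsDomain A] [Field K] [Algebra A K]
    [IsFractionRing A K] (D : A → A)
    (hadd : ∀ a b, D (a + b) = D a + D b) (hmul : ∀ a b, D (a * b) = a * D b + b * D a) :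
    ∃ d : Der K, ∀ a : A, d (algebraMap A K a) = algebraMap A K (D a) := by
  let g : A →+* DualNumber K := dualHom (algebraMap A K) (fun a => algebraMap A K (D a))
    (fun a b => by rw [hadd, map_add]) (fun a b => by rw [hmul, map_add, map_mul, map_mul])
  have hg : ∀ y : nonZeroDivisors A, IsUnit (g y) := by
    intro y
    rw [TrivSqZeroExt.isUnit_iff_isUnit_fst]
    have : (g y).fst = algebraMap A K y := by simp [g, dualHom]
    rw [this]
    exact IsLocalization.map_units K y
  let φ : K →+* DualNumber K := IsLocalization.lift (M := nonZeroDivisors A) hg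
  have hφ : ∀ a : A, φ (algebraMap A K a) = g a := fun a => IsLocalization.lift_eq hg a
  have hfst : ∀ x : K, (φ x).fst = x := by
    have : (TrivSqZeroExt.fstHom K K K).toRingHom.comp φ = RingHom.id K := by
      apply IsLocalization.ringHom_ext (nonZeroDivisors A)
      ext a
      simp [hφ, g, dualHom]
    intro x
    exact congrArg (fun h : K →+* K => h x) this
  refine ⟨⟨fun x => (φ x).snd, ?_, ?_⟩, ?_⟩
  · intro x y
    simp
  · intro x y
    simp only [map_mul, TrivSqZeroExt.snd_mul, hfst, smul_eq_mul, MulOpposite.smul_eq_mul_unop,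
      MulOpposite.unop_op]
    ring
  · intro a
    show (φ (algebraMap A K a)).snd = _
    rw [hφ]
    show (TrivSqZeroExt.inl (algebraMap A K a) +
      TrivSqZeroExt.inr (algebraMap A K (D a)) : DualNumber K).snd = _
    rw [TrivSqZeroExt.snd_add, TrivSqZeroExt.snd_inl, TrivSqZeroExt.snd_inr, zero_add]

/-- E6a: derivations of `F(t)`. -/
theorem exists_ratFunc_derivations (F : Type*) [Field F] [CharZero F]
    (δ : Fin 10 → Der F) : ∃ d : Fin 11 → Der (RatFunc F),
      (∀ c : F, d 0 (RatFunc.C c) = 0) ∧ d 0 RatFunc.X = 1 ∧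
      (∀ (i : Fin 10) (c : F), d i.succ (RatFunc.C c) = RatFunc.C (δ i c)) ∧
      (∀ i : Fin 10, d i.succ RatFunc.X = 0) := by
  classical
  obtain ⟨d0, hd0⟩ := exists_extension (K := RatFunc F) (A := F[X]) (fun p => derivative p)
    (fun a b => by simp) (fun a b => by rw [derivative_mul]; ring)
  -- coefficientwise derivation
  have key : ∀ D : Der F, ∃ d : Der (RatFunc F), ∀ p : F[X],
      d (algebraMap F[X] (RatFunc F) p) =
        algebraMap F[X] (RatFunc F) (p.sum fun n c => monomial n (D c)) := by
    intro D
    let T : F[X] → F[X] := fun p => p.sum fun n c => monomial n (D c)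
    have hT : ∀ p n, (T p).coeff n = D (p.coeff n) := by
      intro p n
      simp only [T, Polynomial.sum_def, finsetSum_coeff, coeff_monomial]
      rw [Finset.sum_ite_eq']
      split_ifs with h
      · rfl
      · rw [notMem_support_iff.1 h, D.map_zero]
    obtain ⟨d, hd⟩ := exists_extension (K := RatFunc F) (A := F[X]) T
      (fun a b => by
        ext n
        rw [coeff_add, hT, hT, hT, coeff_add, D.map_add])
      (fun a b => by
        ext n
        rw [coeff_add, hT, coeff_mul, coeff_mul, coeff_mul]
        have hs : ∀ (s : Finset (ℕ × ℕ)) (f : ℕ × ℕ → F), D (∑ i ∈ s, f i) = ∑ i ∈ s, D (f i) := by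
          intro s f
          induction s using Finset.induction_on with
          | empty => simp
          | insert i s hi ih => rw [Finset.sum_insert hi, Finset.sum_insert hi, D.map_add, ih]
        rw [hs, ← Finset.Nat.sum_antidiagonal_swap (n := n)
          (f := fun x : ℕ × ℕ => b.coeff x.1 * (T a).coeff x.2), ← Finset.sum_add_distrib]
        refine Finset.sum_congr rfl fun x _ => ?_
        rw [D.map_mul, hT]
        simp only [Prod.fst_swap, Prod.snd_swap, hT])
    exact ⟨d, hd⟩
  choose d hd using fun i => key (δ i)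
  refine ⟨Fin.cons d0 d, ?_, ?_, ?_, ?_⟩
  · intro c
    simp only [Fin.cons_zero]
    rw [← RatFunc.algebraMap_C, hd0]
    simp
  · simp only [Fin.cons_zero]
    rw [← RatFunc.algebraMap_X, hd0]
    simp
  · intro i c
    simp only [Fin.cons_succ]
    rw [← RatFunc.algebraMap_C, hd, ← RatFunc.algebraMap_C]
    congr 1
    rw [sum_C_index (by simp)]
    rfl
  · intro i
    simp only [Fin.cons_succ]
    rw [← RatFunc.algebraMap_X, hd]
    rw [sum_X_index (by simp)]
    simp

/-- Two derivations along `j` that agree on constants and on `X` agree. -/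
theorem ratFunc_ext {F K : Type*} [Field F] [Field K] (j : RatFunc F →+* K)
    (D E : RatFunc F → K)
    (hDa : ∀ a b, D (a + b) = D a + D b) (hDm : ∀ a b, D (a * b) = j a * D b + j b * D a)
    (hEa : ∀ a b, E (a + b) = E a + E b) (hEm : ∀ a b, E (a * b) = j a * E b + j b * E a)
    (hC : ∀ c, D (RatFunc.C c) = E (RatFunc.C c)) (hX : D RatFunc.X = E RatFunc.X)
    (f : RatFunc F) : D f = E f := by
  have hpow : ∀ n : ℕ, D (RatFunc.X ^ n) = E (RatFunc.X ^ n) := by
    intro n
    induction n with
    | zero =>
      have := hC 1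
      rwa [map_one] at this
    | succ n ih => rw [pow_succ, hDm, hEm, ih, hX]
  have hpoly : ∀ p : F[X], D (algebraMap F[X] (RatFunc F) p) = E (algebraMap F[X] (RatFunc F) p) := by
    intro p
    induction p using Polynomial.induction_on' with
    | add p q hp hq => rw [map_add, hDa, hEa, hp, hq]
    | monomial n c =>
      rw [← C_mul_X_pow_eq_monomial, map_mul, map_pow, RatFunc.algebraMap_C, RatFunc.algebraMap_X,
        hDm, hEm, hC, hpow]
  obtain ⟨p, q, hq, rfl⟩ := IsFractionRing.div_surjective (A := F[X]) f
  have hq0 : algebraMap F[X] (RatFunc F) q ≠ 0 := by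
    simpa using nonZeroDivisors.ne_zero hq
  set P := algebraMap F[X] (RatFunc F) p
  set Q := algebraMap F[X] (RatFunc F) q
  have e : P = Q * (P / Q) := by field_simp
  have h1 : D P = j Q * D (P / Q) + j (P / Q) * D Q := by rw [← hDm, ← e]
  have h2 : E P = j Q * E (P / Q) + j (P / Q) * E Q := by rw [← hEm, ← e]
  have hjQ : j Q ≠ 0 := by simpa using hq0
  have h3 : D P = E P := hpoly p
  have h4 : D Q = E Q := hpoly q
  have : j Q * D (P / Q) = j Q * E (P / Q) := by
    rw [h3, h4] at h1
    linear_combination h2 - h1
  exact mul_left_cancel₀ hjQ this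

/-- E6b: change of derivations under an embedding. -/
theorem det_Wmat_map {F K : Type*} [Field F] [CharZero F] [Field K] [CharZero K]
    (δ : Fin 10 → Der F) (d : Fin 11 → Der (RatFunc F))
    (hd0C : ∀ c : F, d 0 (RatFunc.C c) = 0) (hd0X : d 0 RatFunc.X = 1)
    (hdC : ∀ (i : Fin 10) (c : F), d i.succ (RatFunc.C c) = RatFunc.C (δ i c))
    (hdX : ∀ i : Fin 10, d i.succ RatFunc.X = 0)
    (j : RatFunc F →+* K) (d' : Fin 11 → Der K)
    (h0 : ∀ c : F, d' 0 (j (RatFunc.C c)) = 0)
    (h1 : ∀ (i : Fin 10) (c : F), d' i.succ (j (RatFunc.C c)) = j (RatFunc.C (δ i c)))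
    (a b : RatFunc F) (x y : Fin 10 → RatFunc F) :
    (Wmat d' (j a) (j b) (fun i => j (x i)) (fun i => j (y i))).det
      = d' 0 (j RatFunc.X) * j (Wmat d a b x y).det := by
  -- the chain rule
  have e0 : ∀ f, d' 0 (j f) = j (d 0 f) * d' 0 (j RatFunc.X) := by
    apply ratFunc_ext j
    · intro a b; rw [map_add, Der.map_add]
    · intro a b; rw [map_mul, Der.map_mul]
    · intro a b; rw [Der.map_add, map_add]; ring
    · intro a b; rw [Der.map_mul, map_add, map_mul, map_mul]; ring
    · intro c; rw [h0, hd0C]; simp
    · rw [hd0X]; simp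
  have e1 : ∀ (i : Fin 10) f, d' i.succ (j f) =
      j (d i.succ f) + j (d 0 f) * d' i.succ (j RatFunc.X) := by
    intro i
    apply ratFunc_ext j
    · intro a b; rw [map_add, Der.map_add]
    · intro a b; rw [map_mul, Der.map_mul]
    · intro a b; rw [Der.map_add, map_add, Der.map_add, map_add]; ring
    · intro a b
      rw [Der.map_mul, map_add, map_mul, map_mul, Der.map_mul, map_add, map_mul, map_mul]; ring
    · intro c; rw [h1, hdC, hd0C]; simp
    · rw [hd0X, hdX]; simp
  -- the change of basis matrix
  let U : Matrix (Fin 12) (Fin 12) K := fun r c =>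
    if r = 0 then (Fin.snoc (α := fun _ => K) (fun i => d' i (j RatFunc.X)) 0 : Fin 12 → K) c
    else if r = c then 1 else 0
  have hU : U.det = d' 0 (j RatFunc.X) := by
    rw [Matrix.det_of_isUpperTriangular]
    · rw [Fin.prod_univ_succ]
      have : ∀ i : Fin 11, U i.succ i.succ = 1 := by
        intro i; simp [U, Fin.succ_ne_zero]
      simp only [this, Finset.prod_const_one, mul_one]
      show (if (0 : Fin 12) = 0 then _ else _) = _
      rw [if_pos rfl]
      rw [show (0 : Fin 12) = Fin.castSucc (0 : Fin 11) from rfl, Fin.snoc_castSucc]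
    · intro r c hrc
      have hr : r ≠ 0 := by
        rintro rfl
        exact absurd hrc (by simp)
      have hne : r ≠ c := ne_of_gt hrc
      simp [U, hr, hne]
  -- multiplication by `U`
  have hrow : ∀ (f w : RatFunc F) (w' : K), j (w * f) = w' * j f → ∀ c : Fin 12,
      rowOf d' (j f) w' c = ∑ r : Fin 12, j (rowOf d f w r) * U r c := by
    intro f w w' hw c
    rw [Fin.sum_univ_succ]
    have hz : U 0 c = (Fin.snoc (α := fun _ => K) (fun i => d' i (j RatFunc.X)) 0 :
        Fin 12 → K) c := by simp [U]
    have hs : ∀ r : Fin 11, U r.succ c = if r.succ = c then 1 else 0 := by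
      intro r; simp [U, Fin.succ_ne_zero]
    rw [hz]
    simp only [hs, mul_ite, mul_one, mul_zero]
    have hr0 : rowOf d f w 0 = d 0 f := by
      show (Fin.snoc (α := fun _ => RatFunc F) (fun i => d i f) (w * f) : Fin 12 → RatFunc F) 0 = _
      rw [show (0 : Fin 12) = Fin.castSucc (0 : Fin 11) from rfl, Fin.snoc_castSucc]
    rw [hr0]
    refine Fin.lastCases ?_ (fun c' => ?_) c
    · rw [Finset.sum_eq_single (Fin.last 10)]
      · rw [if_pos (Fin.succ_last 10)]
        show (Fin.snoc (α := fun _ => K) (fun i => d' i (j f)) (w' * j f) : Fin 12 → K)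
          (Fin.last 11) = _
        rw [Fin.snoc_last, Fin.snoc_last, mul_zero, zero_add]
        show _ = j ((Fin.snoc (α := fun _ => RatFunc F) (fun i => d i f) (w * f) :
          Fin 12 → RatFunc F) (Fin.last 10).succ)
        rw [Fin.succ_last, Fin.snoc_last, hw]
      · intro r _ hr
        rw [if_neg]
        intro h
        apply hr
        rw [← Fin.succ_last] at h
        exact Fin.succ_injective _ h
      · simp
    · show (Fin.snoc (α := fun _ => K) (fun i => d' i (j f)) (w' * j f) : Fin 12 → K)
          (Fin.castSucc c') = _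
      rw [Fin.snoc_castSucc, Fin.snoc_castSucc]
      refine Fin.cases ?_ (fun i => ?_) c'
      · rw [Finset.sum_eq_zero, add_zero, e0]
        intro r _
        rw [if_neg]
        exact Fin.succ_ne_zero r
      · rw [Finset.sum_eq_single (Fin.castSucc i)]
        · rw [if_pos (by rw [Fin.succ_castSucc])]
          show _ = _ + j ((Fin.snoc (α := fun _ => RatFunc F) (fun i => d i f) (w * f) :
            Fin 12 → RatFunc F) (Fin.castSucc i).succ)
          rw [Fin.succ_castSucc, Fin.snoc_castSucc, e1]
          ring
        · intro r _ hr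
          rw [if_neg]
          intro h
          apply hr
          rw [← Fin.succ_castSucc] at h
          exact Fin.succ_injective _ h
        · simp
  have hmat : Wmat d' (j a) (j b) (fun i => j (x i)) (fun i => j (y i))
      = (j.mapMatrix (Wmat d a b x y)) * U := by
    ext r c
    rw [Matrix.mul_apply]
    simp only [RingHom.mapMatrix_apply, Matrix.map_apply]
    refine Fin.cases ?_ (fun r => Fin.cases ?_ (fun r => ?_) r) r
    · have := hrow a 4 4 (by rw [map_mul, map_ofNat]) c
      simpa [Wmat] using this
    · have := hrow b 6 6 (by rw [map_mul, map_ofNat]) c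
      simpa [Wmat] using this
    · have := hrow (x r) 2 2 (by rw [map_mul, map_ofNat]) c
      simp only [Wmat, Matrix.of_apply, Fin.cons_succ, Pi.smul_apply, smul_eq_mul, map_mul,
        map_inv₀]
      rw [this, Finset.mul_sum]
      exact Finset.sum_congr rfl fun i _ => by ring
  rw [hmat, Matrix.det_mul, hU, RingHom.map_det]
  ring

end Pool.Agent.Helper49.Irr
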