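import Pool.Agent.Helper49.Irr.Scale
import Pool.Agent.Helper49.Irr.FrameDet
import Pool.Agent.Helper49.Irr.LaurentFrame
import Pool.Agent.Helper49.Irr.DerAlgClos
import Pool.Agent.Helper49.Irr.Places
import Pool.Agent.Helper49.Irr.RatDer

/-!
# The weight 12 form on a rational variety vanishes
-/

namespace Pool.Agent.Helper49.Irr

section

variable {k : Type*} [Field k]

theorem ls_mem_iff (f : LaurentSeries k) :
    (∀ n : ℤ, n < 0 → f.coeff n = 0) ↔ f = 0 ∨ 0 ≤ f.order := by
  constructor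
  · intro h
    by_cases hf : f = 0
    · exact Or.inl hf
    · right
      by_contra hlt
      exact HahnSeries.coeff_order_eq_zero.not.mpr hf (h _ (not_le.mp hlt))
  · rintro (rfl | h) n hn
    · simp
    · exact HahnSeries.coeff_eq_zero_of_lt_order (lt_of_lt_of_le hn h)

theorem ls_single_ne (m : ℤ) : (HahnSeries.single m (1 : k) : LaurentSeries k) ≠ 0 :=
  HahnSeries.single_ne_zero one_ne_zero

theorem ls_order_single_mul (m : ℤ) {f : LaurentSeries k} (hf : f ≠ 0) :
    ((HahnSeries.single m (1 : k) : LaurentSeries k) * f).order = m + f.order := by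
  rw [HahnSeries.order_mul (ls_single_ne m) hf, HahnSeries.order_single one_ne_zero]

theorem ls_single_pow (m : ℤ) (n : ℕ) :
    (HahnSeries.single m (1 : k) : LaurentSeries k) ^ n = HahnSeries.single (n * m) 1 := by
  rw [HahnSeries.single_pow, one_pow, nsmul_eq_mul]

/-- scaling to an integral model which is not cuspidal -/
theorem exists_ls_scale (a b : LaurentSeries k) (hab : a ≠ 0 ∨ b ≠ 0)
    (ha : a ≠ 0 → (12 : ℤ) ∣ a.order) (hb : b ≠ 0 → (12 : ℤ) ∣ b.order) :
    ∃ m : ℤ, (∀ n : ℤ, n < 0 → ((HahnSeries.single m (1 : k) : LaurentSeries k) ^ 4 * a).coeff n = 0)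
      ∧ (∀ n : ℤ, n < 0 → ((HahnSeries.single m (1 : k) : LaurentSeries k) ^ 6 * b).coeff n = 0)
      ∧ ¬ ((∀ n : ℤ, n < 0 → ((HahnSeries.single m (1 : k) : LaurentSeries k) ^ 4 * a
              / HahnSeries.single (1 : ℤ) (1 : k)).coeff n = 0)
          ∧ (∀ n : ℤ, n < 0 → ((HahnSeries.single m (1 : k) : LaurentSeries k) ^ 6 * b
              / HahnSeries.single (1 : ℤ) (1 : k)).coeff n = 0)) := by
  have hdiv : ∀ f : LaurentSeries k, f / HahnSeries.single (1 : ℤ) (1 : k)
      = HahnSeries.single (-1 : ℤ) (1 : k) * f := by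
    intro f
    rw [div_eq_iff (ls_single_ne 1), mul_comm, ← mul_assoc, HahnSeries.single_mul_single]
    norm_num
  have hor : ∀ (n m : ℤ) {f : LaurentSeries k}, f ≠ 0 → True := fun _ _ _ _ => trivial
  have hc4 : ∀ (m : ℤ) {f : LaurentSeries k}, f ≠ 0 →
      ((HahnSeries.single m (1 : k) : LaurentSeries k) ^ 4 * f).order = 4 * m + f.order := by
    intro m f hf
    rw [ls_single_pow, ls_order_single_mul _ hf]; norm_num
  have hc6 : ∀ (m : ℤ) {f : LaurentSeries k}, f ≠ 0 →
      ((HahnSeries.single m (1 : k) : LaurentSeries k) ^ 6 * f).order = 6 * m + f.order := by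
    intro m f hf
    rw [ls_single_pow, ls_order_single_mul _ hf]; norm_num
  have hne : ∀ (m : ℤ) (n : ℕ) {f : LaurentSeries k}, f ≠ 0 →
      (HahnSeries.single m (1 : k) : LaurentSeries k) ^ n * f ≠ 0 :=
    fun m n f hf => mul_ne_zero (pow_ne_zero _ (ls_single_ne m)) hf
  have hd : ∀ {f : LaurentSeries k}, f ≠ 0 →
      ((HahnSeries.single (-1 : ℤ) (1 : k) : LaurentSeries k) * f).order = -1 + f.order :=
    fun hf => ls_order_single_mul _ hf
  have hdne : ∀ {f : LaurentSeries k}, f ≠ 0 →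
      (HahnSeries.single (-1 : ℤ) (1 : k) : LaurentSeries k) * f ≠ 0 :=
    fun hf => mul_ne_zero (ls_single_ne _) hf
  simp only [hdiv, ls_mem_iff]
  by_cases ha0 : a = 0
  · have hb0 : b ≠ 0 := by
      rcases hab with h | h
      · exact absurd ha0 h
      · exact h
    obtain ⟨β, hβ⟩ := hb hb0
    refine ⟨-2 * β, Or.inl (by rw [ha0, mul_zero]), Or.inr (by rw [hc6 _ hb0, hβ]; ring_nf; rfl), ?_⟩
    rintro ⟨-, h | h⟩
    · exact hdne (hne _ _ hb0) h
    · rw [hd (hne _ _ hb0), hc6 _ hb0, hβ] at h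
      omega
  · obtain ⟨α, hα⟩ := ha ha0
    by_cases hb0 : b = 0
    · refine ⟨-3 * α, Or.inr (by rw [hc4 _ ha0, hα]; ring_nf; rfl), Or.inl (by rw [hb0, mul_zero]), ?_⟩
      rintro ⟨h | h, -⟩
      · exact hdne (hne _ _ ha0) h
      · rw [hd (hne _ _ ha0), hc4 _ ha0, hα] at h
        omega
    · obtain ⟨β, hβ⟩ := hb hb0
      refine ⟨max (-3 * α) (-2 * β), Or.inr ?_, Or.inr ?_, ?_⟩
      · rw [hc4 _ ha0, hα]
        have := le_max_left (-3 * α) (-2 * β)
        omega
      · rw [hc6 _ hb0, hβ]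
        have := le_max_right (-3 * α) (-2 * β)
        omega
      · rintro ⟨h1, h2⟩
        rcases h1 with h1 | h1
        · exact hdne (hne _ _ ha0) h1
        rcases h2 with h2 | h2
        · exact hdne (hne _ _ hb0) h2
        rw [hd (hne _ _ ha0), hc4 _ ha0, hα] at h1
        rw [hd (hne _ _ hb0), hc6 _ hb0, hβ] at h2
        rcases max_cases (-3 * α) (-2 * β) with ⟨h3, -⟩ | ⟨h3, -⟩ <;> rw [h3] at h1 h2 <;> omega

end

/-- E7 -/
theorem det_Wmat_eq_zero {F : Type*} [Field F] [CharZero F]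
    (δ : Fin 10 → Der F) (d : Fin 11 → Der (RatFunc F))
    (hd0C : ∀ c : F, d 0 (RatFunc.C c) = 0) (hd0X : d 0 RatFunc.X = 1)
    (hdC : ∀ (i : Fin 10) (c : F), d i.succ (RatFunc.C c) = RatFunc.C (δ i c))
    (hdX : ∀ i : Fin 10, d i.succ RatFunc.X = 0)
    (a b : RatFunc F) (x y : Fin 10 → RatFunc F)
    (hdisc : 4 * a ^ 3 + 27 * b ^ 2 ≠ 0) (hy : ∀ i, y i ^ 2 = x i ^ 3 + a * x i + b)
    (hy0 : ∀ i, y i ≠ 0) : (Wmat d a b x y).det = 0 := by
  have hC0 : CharZero (LaurentSeries (AlgebraicClosure F)) :=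
    charZero_of_injective_ringHom (HahnSeries.C_injective (Γ := ℤ) (R := AlgebraicClosure F))
  by_contra hf
  set f := (Wmat d a b x y).det with hfdef
  choose δ' hδ' using fun i => exists_derivation_algebraicClosure F (δ i)
  obtain ⟨Φ, hO, hs, hd0, hds, hdi, hdis⟩ := exists_laurentFrame (AlgebraicClosure F) δ'
  have hs12 : (HahnSeries.single (12 : ℤ) (1 : AlgebraicClosure F) :
      LaurentSeries (AlgebraicClosure F)) = Φ.s ^ 12 := by
    rw [hs, ls_single_pow]; norm_num
  -- the general bound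
  have key : ∀ (τ : LaurentSeries (AlgebraicClosure F)),
      ((∃ c : AlgebraicClosure F, τ = HahnSeries.C c + HahnSeries.single (12 : ℤ) 1) ∨
        τ = HahnSeries.single (-12 : ℤ) 1) →
      ∀ (j : RatFunc F →+* LaurentSeries (AlgebraicClosure F)),
      (∀ c : F, j (RatFunc.C c) = HahnSeries.C (algebraMap F (AlgebraicClosure F) c)) →
      j RatFunc.X = τ →
      Φ.d 0 τ ≠ 0 → 0 ≤ (Φ.d 0 τ).order + (j f).order := by
    intro τ hτ j hC hX hτ0
    have hj : Function.Injective j := j.injective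
    have hW := det_Wmat_map δ d hd0C hd0X hdC hdX j Φ.d (fun c => by rw [hC, hd0])
      (fun i c => by rw [hC, hC, hdi, hδ']) a b x y
    rw [← hfdef, hX] at hW
    have hab : j a ≠ 0 ∨ j b ≠ 0 := by
      by_contra hcon
      push Not at hcon
      have ha : a = 0 := hj (by rw [hcon.1, map_zero])
      have hb : b = 0 := hj (by rw [hcon.2, map_zero])
      exact hdisc (by rw [ha, hb]; ring)
    have hda : j a ≠ 0 → (12 : ℤ) ∣ (j a).order := fun h =>
      dvd_order_place F τ hτ j hC hX a (fun h0 => h (by rw [h0, map_zero]))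
    have hdb : j b ≠ 0 → (12 : ℤ) ∣ (j b).order := fun h =>
      dvd_order_place F τ hτ j hC hX b (fun h0 => h (by rw [h0, map_zero]))
    obtain ⟨m, h1, h2, h3⟩ := exists_ls_scale (j a) (j b) hab hda hdb
    set l : LaurentSeries (AlgebraicClosure F) := HahnSeries.single m 1 with hl
    have hl0 : l ≠ 0 := ls_single_ne m
    have hyj : ∀ i, j (y i) ^ 2 = j (x i) ^ 3 + j a * j (x i) + j b := by
      intro i
      rw [← map_pow, hy i]; simp only [map_add, map_mul, map_pow]
    have hmem := Φ.det_mem (l ^ 4 * j a) (l ^ 6 * j b) (fun i => l ^ 2 * j (x i))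
      (fun i => l ^ 3 * j (y i)) ((hO _).mpr h1) ((hO _).mpr h2)
      (by rw [hs, hO, hO]; exact h3)
      (by
        have h4 : 4 * (l ^ 4 * j a) ^ 3 + 27 * (l ^ 6 * j b) ^ 2
            = l ^ 12 * j (4 * a ^ 3 + 27 * b ^ 2) := by
          simp only [map_add, map_mul, map_pow, map_ofNat]; ring
        rw [h4]
        exact mul_ne_zero (pow_ne_zero _ hl0) (by rwa [Ne, map_eq_zero_iff _ hj]))
      (fun i => by
        have := hyj i
        linear_combination l ^ 6 * this)
      (fun i => mul_ne_zero (pow_ne_zero _ hl0) (by rw [Ne, map_eq_zero_iff _ hj]; exact hy0 i))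
    rw [det_Wmat_scale Φ.d (j a) (j b) (fun i => j (x i)) (fun i => j (y i)) l hl0, hW, hO,
      ls_mem_iff] at hmem
    have hjf : j f ≠ 0 := by rwa [Ne, map_eq_zero_iff _ hj]
    rcases hmem with hmem | hmem
    · exact absurd hmem (mul_ne_zero hτ0 hjf)
    · rwa [HahnSeries.order_mul hτ0 hjf] at hmem
  have h12 : (12 : AlgebraicClosure F) ≠ 0 := by norm_num
  have hnat : ((12 : ℕ) : LaurentSeries (AlgebraicClosure F))
      = HahnSeries.single (0 : ℤ) (12 : AlgebraicClosure F) := by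
    rw [← HahnSeries.C_apply, ← map_natCast (HahnSeries.C (Γ := ℤ) (R := AlgebraicClosure F)) 12]
    norm_num
  refine exists_pole F f hf ?_ ?_
  · intro c j hC hX
    have hder : Φ.d 0 (HahnSeries.C c + HahnSeries.single (12 : ℤ) 1) =
        HahnSeries.single (11 : ℤ) (12 : AlgebraicClosure F) := by
      rw [Der.map_add, hd0, zero_add, hs12, Der.map_pow, hds, hs, ls_single_pow, hnat, mul_one,
        HahnSeries.single_mul_single]
      norm_num
    have h0 : Φ.d 0 (HahnSeries.C c + HahnSeries.single (12 : ℤ) 1) ≠ 0 := by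
      rw [hder]; exact HahnSeries.single_ne_zero h12
    have := key _ (Or.inl ⟨c, rfl⟩) j hC hX h0
    rw [hder, HahnSeries.order_single h12] at this
    omega
  · intro j hC hX
    have hinv : (HahnSeries.single (-12 : ℤ) (1 : AlgebraicClosure F) :
        LaurentSeries (AlgebraicClosure F)) = (Φ.s ^ 12)⁻¹ := by
      rw [← hs12]
      refine eq_inv_of_mul_eq_one_left ?_
      rw [HahnSeries.single_mul_single]
      norm_num
    have hder : Φ.d 0 (HahnSeries.single (-12 : ℤ) 1) =
        HahnSeries.single (-13 : ℤ) (-12 : AlgebraicClosure F) := by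
      rw [hinv, Der.map_inv, Der.map_pow, hds, hs, ls_single_pow, ls_single_pow, hnat, mul_one,
        HahnSeries.single_mul_single, ls_single_pow,
        div_eq_iff (ls_single_ne _), HahnSeries.single_mul_single, ← HahnSeries.single_neg]
      norm_num
    have h12' : (-12 : AlgebraicClosure F) ≠ 0 := neg_ne_zero.mpr h12
    have h0 : Φ.d 0 (HahnSeries.single (-12 : ℤ) 1) ≠ 0 := by
      rw [hder]; exact HahnSeries.single_ne_zero h12'
    have := key _ (Or.inr rfl) j hC hX h0
    rw [hder, HahnSeries.order_single h12'] at this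
    omega

end Pool.Agent.Helper49.Irr
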