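import Mathlib

/-!
# Unramified and injective over a normal domain is étale
-/

namespace Pool.Agent.Helper49.Irr

open TensorProduct

set_option backward.isDefEq.respectTransparency false in
/-- A domain `T` which is the image of an étale algebra over the normal domain `R ⊆ T` is étale. -/
theorem etale_of_surjective_of_injective {R C T : Type*} [CommRing R] [IsDomain R]
    [IsIntegrallyClosed R] [CommRing C] [Algebra R C] [Algebra.Etale R C] [CommRing T] [IsDomain T]
    [Algebra R T] (hinj : Function.Injective (algebraMap R T)) (φ : C →ₐ[R] T)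
    (hφ : Function.Surjective φ) : Algebra.Etale R T := by
  let K := FractionRing R
  let L := FractionRing T
  have hRL : Function.Injective (algebraMap R L) := by
    rw [IsScalarTower.algebraMap_eq R T L]
    exact (IsFractionRing.injective T L).comp hinj
  have : FaithfulSMul R L := (faithfulSMul_iff_algebraMap_injective R L).mpr hRL
  let _ : Algebra K L := FractionRing.liftAlgebra R L
  have : IsScalarTower R K L := FractionRing.isScalarTower_liftAlgebra R L
  let g1 : C →ₐ[R] L := (IsScalarTower.toAlgHom R T L).comp φ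
  let g2 : K →ₐ[R] L := IsScalarTower.toAlgHom R K L
  let Ψ : C ⊗[R] K →ₐ[R] L := Algebra.TensorProduct.lift g1 g2 (fun _ _ => Commute.all _ _)
  have hss : IsSemisimpleRing (C ⊗[R] K) := by
    have h1 : Algebra.Etale K (K ⊗[R] C) := inferInstance
    have h2 : IsReduced (K ⊗[R] C) := Algebra.FormallyUnramified.isReduced_of_field K _
    have h3 : Module.Finite K (K ⊗[R] C) := Algebra.FormallyUnramified.finite_of_free K _
    have h4 : IsArtinianRing (K ⊗[R] C) := IsArtinianRing.of_finite K _
    have h5 : IsSemisimpleRing (K ⊗[R] C) := IsArtinianRing.isSemisimpleRing_of_isReduced _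
    exact RingHom.isSemisimpleRing_of_surjective
      (Algebra.TensorProduct.comm R K C).toAlgHom.toRingHom
      (Algebra.TensorProduct.comm R K C).surjective
  obtain ⟨e, he, hspan⟩ := IsSemisimpleRing.ideal_eq_span_idempotent (RingHom.ker Ψ)
  have hKi : Function.Injective (algebraMap R K) := IsFractionRing.injective R K
  have hCi : Function.Injective (fun c : C => (c ⊗ₜ[R] (1 : K))) := by
    have := Module.Flat.lTensor_preserves_injective_linearMap (M := C)
      (Algebra.linearMap R K) hKi
    intro a b hab
    have h2 : (Algebra.linearMap R K).lTensor C (a ⊗ₜ 1) =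
        (Algebra.linearMap R K).lTensor C (b ⊗ₜ 1) := by simpa using hab
    have h3 := this h2
    simpa using congrArg (TensorProduct.rid R C) h3
  -- `e` comes from `C`
  obtain ⟨c, hc⟩ : ∃ c : C, c ⊗ₜ[R] (1 : K) = e := by
    have hint : IsIntegral C e :=
      ⟨Polynomial.X ^ 2 - Polynomial.X, Polynomial.monic_X_pow_sub
        (Polynomial.degree_X_le.trans_lt (by norm_num)), by
        simp [sq, he.eq]⟩
    obtain ⟨z, hz⟩ := (TensorProduct.toIntegralClosure_bijective_of_smooth
      (R := R) (S := C) (B := K)).2 ⟨e, hint⟩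
    have hz' : (Algebra.TensorProduct.map (.id C C) (integralClosure R K).val) z = e :=
      congrArg Subtype.val hz
    have key : ∀ z : C ⊗[R] integralClosure R K, ∃ c : C, c ⊗ₜ[R] (1 : K) =
        (Algebra.TensorProduct.map (.id C C) (integralClosure R K).val) z := by
      intro z
      induction z with
      | zero => exact ⟨0, by simp⟩
      | add x y hx hy =>
        obtain ⟨a, ha⟩ := hx
        obtain ⟨b, hb⟩ := hy
        exact ⟨a + b, by rw [map_add, ← ha, ← hb, TensorProduct.add_tmul]⟩
      | tmul x y =>
        obtain ⟨r, hr⟩ := (IsIntegrallyClosed.isIntegral_iff (R := R)).mp y.2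
        refine ⟨r • x, ?_⟩
        rw [TensorProduct.smul_tmul]
        simp [Algebra.smul_def, hr]
    obtain ⟨c, hc⟩ := key z
    exact ⟨c, hc.trans hz'⟩
  have hcc : IsIdempotentElem c := by
    apply hCi
    change (c * c) ⊗ₜ[R] (1 : K) = c ⊗ₜ[R] (1 : K)
    have := he.eq
    rw [← hc] at this
    simpa using this
  have hΨ : ∀ x : C, Ψ (x ⊗ₜ 1) = algebraMap T L (φ x) := by
    intro x
    simp [Ψ, g1]
  have hker : RingHom.ker φ = Ideal.span {c} := by
    ext x
    constructor
    · intro hx
      have h1 : (x ⊗ₜ[R] (1 : K)) ∈ RingHom.ker Ψ := by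
        rw [RingHom.mem_ker, hΨ, RingHom.mem_ker.mp hx, map_zero]
      rw [hspan, Ideal.mem_span_singleton] at h1
      obtain ⟨y, hy⟩ := h1
      have h2 : e * (x ⊗ₜ[R] (1 : K)) = x ⊗ₜ[R] (1 : K) := by
        rw [hy, ← mul_assoc, he.eq]
      have h3 : c * x = x := by
        apply hCi
        change (c * x) ⊗ₜ[R] (1 : K) = x ⊗ₜ[R] (1 : K)
        rw [← h2, ← hc]
        simp
      rw [← h3]
      exact Ideal.mul_mem_right _ _ (Ideal.mem_span_singleton_self c)
    · intro hx
      have h1 : Ψ (c ⊗ₜ[R] (1 : K)) = 0 := by
        have : e ∈ RingHom.ker Ψ := by rw [hspan]; exact Ideal.mem_span_singleton_self e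
        rw [hc]; exact this
      have h2 : φ c = 0 := by
        rw [hΨ] at h1
        exact (map_eq_zero_iff _ (IsFractionRing.injective T L)).mp h1
      obtain ⟨y, rfl⟩ := Ideal.mem_span_singleton.mp hx
      rw [RingHom.mem_ker, map_mul, h2, zero_mul]
  let _ : Algebra C T := φ.toRingHom.toAlgebra
  have : IsScalarTower R C T := .of_algebraMap_eq' φ.comp_algebraMap.symm
  have : IsLocalization.Away (1 - c) T :=
    IsLocalization.away_of_isIdempotentElem hcc.one_sub (hker.trans (by simp)) hφ
  have : Algebra.Etale C T := Algebra.Etale.of_isLocalizationAway (1 - c)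
  exact Algebra.Etale.comp R C T

/-- A1 -/
theorem etale_of_unramified {R B : Type} [CommRing R] [IsDomain R] [IsIntegrallyClosed R]
    [IsNoetherianRing R] [CommRing B] [IsDomain B] [Algebra R B] [Algebra.FiniteType R B]
    (hinj : Function.Injective (algebraMap R B)) (Q : Ideal B) [Q.IsPrime]
    [Algebra.IsUnramifiedAt R Q] : ∃ f ∉ Q, Algebra.Etale R (Localization.Away f) := by
  obtain ⟨f, hf, P, φ, hφ⟩ :=
    Algebra.IsUnramifiedAt.exists_hasStandardEtaleSurjectionOn (R := R) Q
  refine ⟨f, hf, ?_⟩
  have hf0 : f ≠ 0 := fun h => hf (h ▸ Q.zero_mem)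
  have hle : Submonoid.powers f ≤ nonZeroDivisors B := powers_le_nonZeroDivisors_of_noZeroDivisors hf0
  have : IsDomain (Localization.Away f) := IsLocalization.isDomain_localization hle
  have hinj' : Function.Injective (algebraMap R (Localization.Away f)) := by
    rw [IsScalarTower.algebraMap_eq R B (Localization.Away f)]
    exact (IsLocalization.injective (Localization.Away f) hle).comp hinj
  exact etale_of_surjective_of_injective hinj' φ hφ

end Pool.Agent.Helper49.Irr
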