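import Mathlib

/-!
# A criterion for being unramified in terms of derivations into the residue field
-/

namespace Pool.Agent.Helper49.Irr

open MvPolynomial TensorProduct

theorem formallyUnramified_of_derivation {P L : Type*} [CommRing P] [CommRing L] [IsLocalRing L]
    [Algebra P L] [Algebra.EssFiniteType P L]
    (h : ∀ D : Derivation P L (IsLocalRing.ResidueField L), D = 0) :
    Algebra.FormallyUnramified P L := by
  constructor
  rw [← IsLocalRing.subsingleton_tensorProduct (R := L)]
  refine subsingleton_of_forall_eq 0 fun v => ?_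
  rw [← Module.forall_dual_apply_eq_zero_iff (IsLocalRing.ResidueField L)]
  intro φ
  induction v with
  | zero => simp
  | add x y hx hy => rw [map_add, hx, hy, add_zero]
  | tmul c ω =>
    let ψ : Ω[L⁄P] →ₗ[L] IsLocalRing.ResidueField L :=
      (φ.restrictScalars L).comp (TensorProduct.mk L (IsLocalRing.ResidueField L) (Ω[L⁄P]) 1)
    have hψ : ψ = 0 := by
      have h1 : ψ.compDer (KaehlerDifferential.D P L) = 0 := h _
      have h2 : (Derivation.liftKaehlerDifferential (ψ.compDer (KaehlerDifferential.D P L))) = ψ := by
        apply Derivation.liftKaehlerDifferential_unique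
        rw [Derivation.liftKaehlerDifferential_comp]
      rw [← h2, h1]
      apply Derivation.liftKaehlerDifferential_unique
      rw [Derivation.liftKaehlerDifferential_comp]
      ext; simp
    have h3 : c ⊗ₜ[L] ω = c • ((1 : IsLocalRing.ResidueField L) ⊗ₜ[L] ω) := by
      rw [TensorProduct.smul_tmul', smul_eq_mul, mul_one]
    rw [h3, map_smul]
    have h4 : φ ((1 : IsLocalRing.ResidueField L) ⊗ₜ[L] ω) = ψ ω := rfl
    rw [h4, hψ]
    simp

/-- A2 -/
theorem exists_unramified (A : Type) [CommRing A] [Algebra.FiniteType ℤ A] (P : Ideal A)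
    [P.IsPrime] {d : ℕ} (t : Fin d → Localization.AtPrime P)
    (ht : ∀ D : Derivation ℤ (Localization.AtPrime P) P.ResidueField, (∀ i, D (t i) = 0) → D = 0) :
    ∃ (g : A) (_ : g ∉ P) (t' : Fin d → Localization.Away g),
      letI := (MvPolynomial.aeval (R := ℤ) t').toAlgebra
      ∃ (Q : Ideal (Localization.Away g)) (_ : Q.IsPrime),
        Q.comap (algebraMap A (Localization.Away g)) = P ∧
        Algebra.IsUnramifiedAt (MvPolynomial (Fin d) ℤ) Q := by
  obtain ⟨⟨g, hg⟩, hb⟩ := IsLocalization.exist_integer_multiples_of_finite P.primeCompl t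
  choose a ha using hb
  have hgP : g ∉ P := hg
  let Ag := Localization.Away g
  let t' : Fin d → Ag := fun i => IsLocalization.mk' Ag (a i) ⟨g, Submonoid.mem_powers g⟩
  refine ⟨g, hgP, t', ?_⟩
  let _ : Algebra (MvPolynomial (Fin d) ℤ) Ag := (MvPolynomial.aeval (R := ℤ) t').toAlgebra
  change ∃ (Q : Ideal (Localization.Away g)) (_ : Q.IsPrime),
        Q.comap (algebraMap A (Localization.Away g)) = P ∧
        Algebra.IsUnramifiedAt (MvPolynomial (Fin d) ℤ) Q
  have hdisj : Disjoint (Submonoid.powers g : Set A) P := by
    exact (Ideal.disjoint_powers_iff_notMem_of_isPrime _).mpr hgP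
  let Q : Ideal Ag := P.map (algebraMap A Ag)
  have hQ : Q.IsPrime :=
    IsLocalization.isPrime_of_isPrime_disjoint (.powers g) _ _ ‹_› hdisj
  have hcomap : Q.comap (algebraMap A Ag) = P :=
    IsLocalization.under_map_of_isPrime_disjoint (.powers g) _ inferInstance hdisj
  refine ⟨Q, hQ, hcomap, ?_⟩
  let L := Localization.AtPrime Q
  have hLP : IsLocalization.AtPrime L P := by
    have := IsLocalization.isLocalization_isLocalization_atPrime_isLocalization
      (M := .powers g) (S := Ag) L Q
    convert this
    exact hcomap.symm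
  let e : Localization.AtPrime P ≃ₐ[A] L := IsLocalization.algEquiv P.primeCompl _ _
  have het : ∀ i, e (t i) = algebraMap Ag L (t' i) := by
    intro i
    have hunit : IsUnit (algebraMap A L g) := IsLocalization.map_units L (⟨g, hg⟩ : P.primeCompl)
    apply hunit.mul_left_cancel
    have h1 : algebraMap A L g * e (t i) = algebraMap A L (a i) := by
      rw [← e.commutes, ← map_mul, ← Algebra.smul_def, ← e.commutes]
      exact congrArg e (ha i).symm
    rw [h1, IsScalarTower.algebraMap_apply A Ag L, IsScalarTower.algebraMap_apply A Ag L,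
      ← map_mul]
    congr 1
    exact (IsLocalization.mk'_spec' Ag (a i) ⟨g, Submonoid.mem_powers g⟩).symm
  have hess : Algebra.EssFiniteType (MvPolynomial (Fin d) ℤ) L := by
    have h1 : Algebra.EssFiniteType ℤ L := by
      have : Algebra.EssFiniteType ℤ Ag := Algebra.EssFiniteType.comp ℤ A Ag
      have : Algebra.EssFiniteType Ag L := Algebra.EssFiniteType.of_isLocalization L Q.primeCompl
      exact Algebra.EssFiniteType.comp ℤ Ag L
    exact Algebra.EssFiniteType.of_comp ℤ (MvPolynomial (Fin d) ℤ) L
  refine formallyUnramified_of_derivation fun D => ?_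
  let ε := (IsLocalRing.ResidueField.mapEquiv e.toRingEquiv).symm
  have hε : ∀ x : Localization.AtPrime P, ε (IsLocalRing.residue L (e x)) =
      IsLocalRing.residue (Localization.AtPrime P) x := by
    intro x
    rw [RingEquiv.symm_apply_eq]
    rfl
  let f : Localization.AtPrime P →+ P.ResidueField :=
    { toFun := fun x => ε (D (e x))
      map_zero' := by simp
      map_add' := by intro x y; simp }
  have hleib : ∀ x y, f (x * y) = x • f y + y • f x := by
    intro x y
    change ε (D (e (x * y))) = x • ε (D (e y)) + y • ε (D (e x))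
    rw [map_mul, Derivation.leibniz, map_add]
    have h1 : ∀ (x : Localization.AtPrime P) (z : IsLocalRing.ResidueField L),
        ε (e x • z) = x • ε z := by
      intro x z
      have h2 : e x • z = IsLocalRing.residue L (e x) * z := by
        rw [Algebra.smul_def]; rfl
      rw [h2, map_mul, hε, Algebra.smul_def]
      rfl
    rw [h1, h1]
  let D' : Derivation ℤ (Localization.AtPrime P) P.ResidueField :=
    { toFun := f
      map_add' := f.map_add
      map_smul' := fun n x => by
        have := map_intCast_smul f ℤ ℤ n x
        simpa using this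
      map_one_eq_zero' := by
        have := hleib 1 1
        simpa using this
      leibniz' := hleib }
  have hD' : D' = 0 := ht D' fun i => by
    change ε (D (e (t i))) = 0
    have h1 : e (t i) = algebraMap (MvPolynomial (Fin d) ℤ) L (X i) := by
      rw [het, IsScalarTower.algebraMap_apply (MvPolynomial (Fin d) ℤ) Ag L]
      congr 1
      exact (MvPolynomial.aeval_X t' i).symm
    rw [h1, Derivation.map_algebraMap, map_zero]
  ext x
  have h1 : D' (e.symm x) = 0 := by rw [hD']; rfl
  have h2 : ε (D (e (e.symm x))) = 0 := h1
  rw [e.apply_symm_apply] at h2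
  exact (map_eq_zero_iff ε ε.injective).mp h2

end Pool.Agent.Helper49.Irr
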