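import Pool.Agent.Helper49.Irr.Basic

/-!
# D1: every configuration has a model

MP_ec79f0_ag, module D1 (helper75).
-/

namespace Pool.Agent.Helper49.Irr

open Dat

variable {N Ω : Type*} [Fintype N] [DecidableEq N] [Field Ω]
  {Γ₀ : Type*} [LinearOrderedCommGroupWithZero Γ₀] {v : Valuation Ω Γ₀} {E : Dat N Ω}

omit [DecidableEq N] in
theorem exists_isMax_aux {J : Finset N} (hG : ∃ g ∈ E.G J, g ≠ 0) : ∃ g, E.IsMax v J g := by
  have hfin : (E.G J).Finite := by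
    refine (Set.finite_range (fun t : N × N × N × N × N × N =>
      E.s t.1 t.2.1 t.2.2.1 - E.s t.2.2.2.1 t.2.2.2.2.1 t.2.2.2.2.2)).subset ?_
    rintro g ⟨a, b, c, a', b', c', -, -, rfl⟩
    exact ⟨(a, b, c, a', b', c'), rfl⟩
  obtain ⟨g0, hg0, h0⟩ := hG
  obtain ⟨g, hg, hmax⟩ := Set.exists_max_image (E.G J) v hfin ⟨g0, hg0⟩
  refine ⟨g, hg, ?_, hmax⟩
  rintro rfl
  have := hmax g0 hg0
  rw [map_zero, le_zero_iff, map_eq_zero] at this
  exact h0 this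

omit [Fintype N] [DecidableEq N] in
theorem mem_G_gauge_aux {u r σ τ g : Ω} {J : Finset N} :
    g ∈ (E.gauge u r σ τ).G J ↔ ∃ g₀ ∈ E.G J, g = u * g₀ := by
  constructor
  · rintro ⟨a, b, c, a', b', c', h1, h2, rfl⟩
    refine ⟨_, ⟨a, b, c, a', b', c', h1, h2, rfl⟩, ?_⟩
    simp only [Dat.gauge]; ring
  · rintro ⟨g₀, ⟨a, b, c, a', b', c', h1, h2, rfl⟩, rfl⟩
    refine ⟨a, b, c, a', b', c', h1, h2, ?_⟩
    simp only [Dat.gauge]; ring

omit [Fintype N] in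
/-- if a 5-set `I` has integral slopes and one pair with integral coordinates, everything is
integral. -/
theorem integral_of_slopes (h : E.Rel) {Z : Subring Ω} {I : Finset N} (hI : I.card = 5)
    (hs : ∀ a b c, Tri I a b c → E.s a b c ∈ Z) {a b : N} (ha : a ∈ I) (hb : b ∈ I) (hab : a ≠ b)
    (hx : E.x a b ∈ Z) (hy : E.y a b ∈ Z) :
    E.a1 ∈ Z ∧ E.a2 ∈ Z ∧ E.a3 ∈ Z ∧ E.a4 ∈ Z ∧ E.a6 ∈ Z ∧
      (∀ p ∈ I, ∀ q ∈ I, p ≠ q → E.x p q ∈ Z) := by
  -- choice of further elements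
  have pick : ∀ S : Finset N, S.card ≤ 4 → ∃ e ∈ I, e ∉ S := by
    intro S hS
    by_contra hcon
    push Not at hcon
    have : I ⊆ S := fun e he => hcon e he
    have := Finset.card_le_card this
    omega
  have c2 : ∀ p q : N, ({p, q} : Finset N).card ≤ 2 := fun p q => Finset.card_le_two
  have c3 : ∀ p q r : N, ({p, q, r} : Finset N).card ≤ 3 := fun p q r => Finset.card_le_three
  have c4 : ∀ p q r s : N, ({p, q, r, s} : Finset N).card ≤ 4 := fun p q r s =>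
    Finset.card_le_four
  obtain ⟨c, hc, hc'⟩ := pick {a, b} ((c2 _ _).trans (by norm_num))
  simp only [Finset.mem_insert, Finset.mem_singleton, not_or] at hc'
  have hac : a ≠ c := fun e => hc'.1 e.symm
  have hbc : b ≠ c := fun e => hc'.2 e.symm
  have sabc : E.s a b c ∈ Z := hs a b c ⟨ha, hb, hc, hab, hbc, hac⟩
  have sacb : E.s a c b ∈ Z := hs a c b ⟨ha, hc, hb, hac, hbc.symm, hab⟩
  have h1 : E.a1 ∈ Z := by
    have e1 := h.s_anti a b c hab hbc hac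
    have : E.a1 = - (E.s a b c + E.s a c b) := by rw [e1]; ring
    rw [this]; exact Z.neg_mem (Z.add_mem sabc sacb)
  -- differences of `x` at disjoint pairs
  have hxd : ∀ p ∈ I, ∀ q ∈ I, ∀ r ∈ I, ∀ s ∈ I, p ≠ q → p ≠ r → p ≠ s → q ≠ r → q ≠ s → r ≠ s →
      E.x p q - E.x r s ∈ Z := by
    intro p hp q hq r hr s hs' hpq hpr hps hqr hqs hrs
    rw [h.x_diff p q r s hpq hpr hps hqr hqs hrs]
    refine Z.mul_mem (Z.sub_mem (hs _ _ _ ⟨hp, hq, hs', hpq, hqs, hps⟩)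
      (hs _ _ _ ⟨hp, hr, hs', hpr, hrs, hps⟩)) ?_
    exact Z.add_mem (Z.add_mem (hs _ _ _ ⟨hp, hq, hr, hpq, hqr, hpr⟩)
      (hs _ _ _ ⟨hp, hr, hs', hpr, hrs, hps⟩)) h1
  have hxd' : ∀ p ∈ I, ∀ q ∈ I, ∀ r ∈ I, ∀ s ∈ I, p ≠ q → p ≠ r → p ≠ s → q ≠ r → q ≠ s → r ≠ s →
      E.x p q ∈ Z → E.x r s ∈ Z := by
    intro p hp q hq r hr s hs' hpq hpr hps hqr hqs hrs hpq'
    have := Z.sub_mem hpq' (hxd p hp q hq r hr s hs' hpq hpr hps hqr hqs hrs)
    simpa using this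
  -- `x e f` for `e, f` different from `a, b`
  have hxe : ∀ e ∈ I, ∀ f ∈ I, e ≠ a → e ≠ b → f ≠ a → f ≠ b → e ≠ f → E.x e f ∈ Z := by
    intro e he f hf hea heb hfa hfb hef
    exact hxd' a ha b hb e he f hf hab hea.symm hfa.symm heb.symm hfb.symm hef hx
  -- two elements outside three given ones
  have pick2 : ∀ S : Finset N, S.card ≤ 3 → ∃ e ∈ I, ∃ f ∈ I, e ∉ S ∧ f ∉ S ∧ e ≠ f := by
    intro S hS
    obtain ⟨e, he, heS⟩ := pick S (hS.trans (by norm_num))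
    obtain ⟨f, hf, hfS⟩ := pick (insert e S) ((Finset.card_insert_le _ _).trans (by omega))
    simp only [Finset.mem_insert, not_or] at hfS
    exact ⟨e, he, f, hf, heS, hfS.2, fun e' => hfS.1 e'.symm⟩
  have hxall : ∀ p ∈ I, ∀ q ∈ I, p ≠ q → E.x p q ∈ Z := by
    -- if one of `p, q` is in `{a, b}`
    have aux : ∀ p ∈ I, ∀ q ∈ I, p ≠ q → (∃ w, ({a, b, p, q} : Finset N) = {a, b, w}) →
        E.x p q ∈ Z := by
      rintro p hp q hq hpq ⟨w, hw⟩
      obtain ⟨e, he, f, hf, heS, hfS, hef⟩ := pick2 {a, b, p, q} (by rw [hw]; exact c3 _ _ _)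
      simp only [Finset.mem_insert, Finset.mem_singleton, not_or] at heS hfS
      obtain ⟨ea, eb, ep, eq⟩ := heS
      obtain ⟨fa, fb, fp, fq⟩ := hfS
      exact hxd' e he f hf p hp q hq hef ep eq fp fq hpq (hxe e he f hf ea eb fa fb hef)
    intro p hp q hq hpq
    by_cases hpa : p = a
    · exact aux p hp q hq hpq ⟨q, by subst hpa; ext z; simp only [Finset.mem_insert, Finset.mem_singleton]; tauto⟩
    by_cases hpb : p = b
    · exact aux p hp q hq hpq ⟨q, by subst hpb; ext z; simp only [Finset.mem_insert, Finset.mem_singleton]; tauto⟩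
    by_cases hqa : q = a
    · exact aux p hp q hq hpq ⟨p, by subst hqa; ext z; simp only [Finset.mem_insert, Finset.mem_singleton]; tauto⟩
    by_cases hqb : q = b
    · exact aux p hp q hq hpq ⟨p, by subst hqb; ext z; simp only [Finset.mem_insert, Finset.mem_singleton]; tauto⟩
    exact hxe p hp q hq hpa hpb hqa hqb hpq
  have h2 : E.a2 ∈ Z := by
    have e1 := h.sum_x a b c hab hbc hac
    have : E.a2 = E.s a b c * E.s a b c + E.a1 * E.s a b c -
      (E.x a b + E.x b c + E.x c a) := by rw [e1]; ring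
    rw [this]
    exact Z.sub_mem (Z.add_mem (Z.mul_mem sabc sabc) (Z.mul_mem h1 sabc))
      (Z.add_mem (Z.add_mem hx (hxall _ hb _ hc hbc)) (hxall _ hc _ ha hac.symm))
  -- ordinates
  have hystep : ∀ p ∈ I, ∀ q ∈ I, ∀ r ∈ I, p ≠ q → q ≠ r → p ≠ r → E.y p q ∈ Z → E.y q r ∈ Z := by
    intro p hp q hq r hr hpq hqr hpr hpq'
    have e1 := h.slope p q r hpq hqr hpr
    have : E.y q r = E.y p q - E.s p q r * (E.x p q - E.x q r) := by rw [← e1]; ring
    rw [this]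
    exact Z.sub_mem hpq' (Z.mul_mem (hs _ _ _ ⟨hp, hq, hr, hpq, hqr, hpr⟩)
      (Z.sub_mem (hxall _ hp _ hq hpq) (hxall _ hq _ hr hqr)))
  have hyall : ∀ p ∈ I, ∀ q ∈ I, p ≠ q → E.y p q ∈ Z := by
    intro p hp q hq hpq
    obtain ⟨e, he, he'⟩ := pick {a, b, p} ((c3 _ _ _).trans (by norm_num))
    obtain ⟨f, hf, hf'⟩ := pick {b, e, p, q} (c4 _ _ _ _)
    simp only [Finset.mem_insert, Finset.mem_singleton, not_or] at he' hf'
    obtain ⟨ea, eb, ep⟩ := he'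
    obtain ⟨fb, fe, fp, fq⟩ := hf'
    have y1 := hystep a ha b hb e he hab (Ne.symm eb) (Ne.symm ea) hy
    have y2 := hystep b hb e he f hf (Ne.symm eb) (Ne.symm fe) (Ne.symm fb) y1
    have y3 := hystep e he f hf p hp (Ne.symm fe) fp ep y2
    exact hystep f hf p hp q hq fp hpq fq y3
  have h3 : E.a3 ∈ Z := by
    have e1 := h.y_symm a b hab
    have : E.a3 = - (E.a1 * E.x a b) - (E.y a b + E.y b a) := by rw [e1]; ring
    rw [this]
    exact Z.sub_mem (Z.neg_mem (Z.mul_mem h1 hx))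
      (Z.add_mem hy (hyall _ hb _ ha hab.symm))
  have hxbc := hxall _ hb _ hc hbc
  have hybc := hyall _ hb _ hc hbc
  have h4 : E.a4 ∈ Z := by
    have e1 := h.r8 a b c hab hbc hac
    have : E.a4 = E.s a b c * (E.y a b + E.y b c + E.a1 * E.x b c + E.a3) -
        (E.x a b * E.x a b + E.x a b * E.x b c + E.x b c * E.x b c
          + E.a2 * (E.x a b + E.x b c)) + E.a1 * E.y a b := by rw [e1]; ring
    rw [this]
    exact Z.add_mem (Z.sub_mem (Z.mul_mem sabc (Z.add_mem (Z.add_mem (Z.add_mem hy hybc)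
      (Z.mul_mem h1 hxbc)) h3)) (Z.add_mem (Z.add_mem (Z.add_mem (Z.mul_mem hx hx)
      (Z.mul_mem hx hxbc)) (Z.mul_mem hxbc hxbc)) (Z.mul_mem h2 (Z.add_mem hx hxbc))))
      (Z.mul_mem h1 hy)
  have h6 : E.a6 ∈ Z := by
    have e1 := h.weier a b hab
    have : E.a6 = E.y a b * E.y a b + E.a1 * E.x a b * E.y a b + E.a3 * E.y a b -
        (E.x a b * E.x a b * E.x a b + E.a2 * (E.x a b * E.x a b) + E.a4 * E.x a b) := by
      linear_combination -e1
    rw [this]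
    exact Z.sub_mem (Z.add_mem (Z.add_mem (Z.mul_mem hy hy) (Z.mul_mem (Z.mul_mem h1 hx) hy))
      (Z.mul_mem h3 hy)) (Z.add_mem (Z.add_mem (Z.mul_mem (Z.mul_mem hx hx) hx)
      (Z.mul_mem h2 (Z.mul_mem hx hx))) (Z.mul_mem h4 hx))
  exact ⟨h1, h2, h3, h4, h6, hxall⟩

/-- D1 -/
theorem exists_model (hN : 5 ≤ Fintype.card N) (h : E.Rel)
    (hG : ∀ J : Finset N, J.card = 5 → ∃ g ∈ E.G J, g ≠ 0) :
    ∃ u r σ τ : Ω, u ≠ 0 ∧ (E.gauge u r σ τ).IsModel v := by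
  classical
  have hmax : ∀ J : Finset N, J.card = 5 → ∃ g, E.IsMax v J g := fun J hJ =>
    exists_isMax_aux (hG J hJ)
  choose! m hm using hmax
  -- the best 5-set
  obtain ⟨I₁, -, hI₁⟩ := Finset.exists_subset_card_eq (s := (Finset.univ : Finset N)) (n := 5)
    (by rwa [Finset.card_univ])
  obtain ⟨I, hI, hmin⟩ := Set.exists_min_image {J : Finset N | J.card = 5} (fun J => v (m J))
    (Set.toFinite _) ⟨I₁, hI₁⟩
  have hI5 : I.card = 5 := hI
  have hmI := hm I hI5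
  obtain ⟨a, b, c, -, -, -, ht, -, -⟩ := hmI.mem
  obtain ⟨ha, hb, hc, hab, hbc, hac⟩ := ht
  set u : Ω := (m I)⁻¹ with hu
  have hu0 : u ≠ 0 := inv_ne_zero hmI.ne_zero
  refine ⟨u, E.x a b, E.s a b c, E.y a b, hu0, ?_⟩
  set E' := E.gauge u (E.x a b) (E.s a b c) (E.y a b) with hE'
  have h' : E'.Rel := h.gauge _ _ _ _
  have hx0 : E'.x a b = 0 := by simp [hE', Dat.gauge]
  have hy0 : E'.y a b = 0 := by simp [hE', Dat.gauge]
  have hs0 : E'.s a b c = 0 := by simp [hE', Dat.gauge]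
  -- slopes on `I`
  have hG1 : ∀ g ∈ E'.G I, v g ≤ 1 := by
    intro g hg
    obtain ⟨g₀, hg₀, rfl⟩ := mem_G_gauge_aux.mp hg
    rw [map_mul, hu, map_inv₀]
    have h1 := hmI.le g₀ hg₀
    have h2 : v (m I) ≠ 0 := by simpa using hmI.ne_zero
    calc (v (m I))⁻¹ * v g₀ ≤ (v (m I))⁻¹ * v (m I) := mul_le_mul_right h1 _
      _ = 1 := inv_mul_cancel₀ h2
  have hs : ∀ p q r, Tri I p q r → E'.s p q r ∈ v.integer := by
    intro p q r ht
    rw [Valuation.mem_integer_iff]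
    have := hG1 (E'.s p q r - E'.s a b c) ⟨p, q, r, a, b, c, ht, ⟨ha, hb, hc, hab, hbc, hac⟩, rfl⟩
    rwa [hs0, sub_zero] at this
  obtain ⟨h1, h2, h3, h4, h6, hx⟩ := integral_of_slopes h' hI5 hs ha hb hab
    (by rw [hx0]; exact zero_mem _) (by rw [hy0]; exact zero_mem _)
  refine ⟨h1, h2, h3, h4, h6, ?_, I, hI5, hx⟩
  intro J hJ
  refine ⟨u * m J, mem_G_gauge_aux.mpr ⟨m J, (hm J hJ).mem, rfl⟩, ?_⟩
  rw [map_mul, hu, map_inv₀]
  have h2 : v (m I) ≠ 0 := by simpa using hmI.ne_zero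
  calc (1 : Γ₀) = (v (m I))⁻¹ * v (m I) := (inv_mul_cancel₀ h2).symm
    _ ≤ (v (m I))⁻¹ * v (m J) := mul_le_mul_right (hmin J hJ) _

end Pool.Agent.Helper49.Irr
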