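import Pool.Agent.Helper49.Irr.DefsC

/-!
# Genericity of the coordinates of differences (modules C2a, C2)
-/

namespace Pool.Agent.Helper49.Irr

section ClF

variable {L Ω : Type*} [Field L] [Field Ω] [Algebra L Ω]

/-- The field of all elements of `Ω` algebraic over `L(S)`. -/
noncomputable def clF (L : Type*) {Ω : Type*} [Field L] [Field Ω] [Algebra L Ω] (S : Set Ω) :
    Subfield Ω :=
  (algebraicClosure (IntermediateField.adjoin L S) Ω).toSubfield

theorem mem_clF_iff {S : Set Ω} {x : Ω} :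
    x ∈ clF L S ↔ IsAlgebraic (IntermediateField.adjoin L S) x :=
  mem_algebraicClosure_iff

theorem mem_clF_iff_closure {S : Set Ω} {x : Ω} :
    x ∈ clF L S ↔ x ∈ (AlgebraicIndependent.matroid L Ω).closure S := by
  rw [mem_clF_iff, AlgebraicIndependent.matroid_closure_eq, SetLike.mem_coe,
    Subalgebra.mem_algebraicClosure, IntermediateField.isAlgebraic_adjoin_iff]

theorem subset_clF {S : Set Ω} {x : Ω} (hx : x ∈ S) : x ∈ clF L S := by
  rw [mem_clF_iff]
  exact isAlgebraic_algebraMap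
    (⟨x, IntermediateField.subset_adjoin L S hx⟩ : IntermediateField.adjoin L S)

theorem mem_clF_of_adjoin {S : Set Ω} {x : Ω} (hx : x ∈ IntermediateField.adjoin L S) :
    x ∈ clF L S := by
  rw [mem_clF_iff]
  exact isAlgebraic_algebraMap (⟨x, hx⟩ : IntermediateField.adjoin L S)

theorem mem_clF_of_isAlgebraic {S : Set Ω} {x : Ω} (hx : IsAlgebraic (clF L S) x) :
    x ∈ clF L S := by
  have h1 : x ∈ algebraicClosure (algebraicClosure (IntermediateField.adjoin L S) Ω) Ω :=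
    mem_algebraicClosure_iff.mpr hx
  rw [algebraicClosure.algebraicClosure_eq_bot, IntermediateField.mem_bot] at h1
  obtain ⟨y, rfl⟩ := h1
  exact y.2

open Polynomial in
theorem isAlgebraic_of_cubic {F : Subfield Ω} {x c2 c1 c0 : Ω} (h2 : c2 ∈ F)
    (h1 : c1 ∈ F) (h0 : c0 ∈ F) (h : x ^ 3 + c2 * x ^ 2 + c1 * x + c0 = 0) :
    IsAlgebraic F x := by
  refine ⟨X ^ 3 + C (⟨c2, h2⟩ : F) * X ^ 2 + C (⟨c1, h1⟩ : F) * X + C (⟨c0, h0⟩ : F), ?_, ?_⟩
  · have : (X ^ 3 + C (⟨c2, h2⟩ : F) * X ^ 2 + C (⟨c1, h1⟩ : F) * X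
        + C (⟨c0, h0⟩ : F) : F[X]).Monic := by monicity!
    exact this.ne_zero
  · simp only [map_add, map_mul, map_pow, aeval_X, aeval_C]
    exact h

theorem clF_of_cubic {S : Set Ω} {x c2 c1 c0 : Ω} (h2 : c2 ∈ clF L S)
    (h1 : c1 ∈ clF L S) (h0 : c0 ∈ clF L S) (h : x ^ 3 + c2 * x ^ 2 + c1 * x + c0 = 0) :
    x ∈ clF L S :=
  mem_clF_of_isAlgebraic (isAlgebraic_of_cubic h2 h1 h0 h)

theorem clF_of_sq {S : Set Ω} {y : Ω} (h : y ^ 2 ∈ clF L S) : y ∈ clF L S := by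
  refine clF_of_cubic (c2 := 0) (c1 := - y ^ 2) (c0 := 0) (zero_mem _) (neg_mem h) (zero_mem _) ?_
  ring

theorem transcendental_clF {ι : Type*} {u : ι → Ω} (hu : AlgebraicIndependent L u) {s : Set ι}
    {i : ι} (hi : i ∉ s) : Transcendental (clF L (u '' s)) (u i) := by
  have h1 := hu.transcendental_adjoin hi
  rw [← IntermediateField.transcendental_adjoin_iff] at h1
  exact h1.algebraicClosure

end ClF

section Gen

variable {N Ω : Type*} [Field Ω]

open Polynomial in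
theorem quartic_coeff {F : Type*} [Field F] (c4 c3 c2 c1 c0 : F)
    (h : C c4 * X ^ 4 + C c3 * X ^ 3 + C c2 * X ^ 2 + C c1 * X + C c0 = 0) :
    c4 = 0 ∧ c3 = 0 := by
  constructor
  · have := congrArg (fun q => q.coeff 4) h
    simpa [coeff_X, coeff_C] using this
  · have := congrArg (fun q => q.coeff 3) h
    simpa [coeff_X, coeff_C] using this

open Polynomial in
/-- C2a -/
theorem genDat_x_not_mem [CharZero Ω] {a b : Ω} {X Y : N → Ω}
    (hY : ∀ i, Y i ^ 2 = X i ^ 3 + a * X i + b) (F0 : Subfield Ω) (ha : a ∈ F0) (hb : b ∈ F0)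
    {i j : N} (hXi : X i ∈ F0) (hYi : Y i ∈ F0) (hYi0 : Y i ≠ 0) (hXj : Transcendental F0 (X j)) :
    (genDat a b X Y).x i j ∉ F0 := by
  intro hx
  have hne : X j - X i ≠ 0 := by
    intro h0
    have h1 : X j = algebraMap F0 Ω ⟨X i, hXi⟩ := by
      rw [sub_eq_zero.mp h0]; rfl
    apply hXj
    rw [h1]
    exact isAlgebraic_algebraMap _
  set x := (genDat a b X Y).x i j with hxdef
  have hxe : (x + X i + X j) * (X j - X i) ^ 2 = (Y i + Y j) ^ 2 := by
    rw [hxdef]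
    simp only [genDat, sg]
    field_simp
    ring
  set A := x - X i with hA
  set B := - 2 * x * X i - X i ^ 2 - a with hB
  set Γ := x * X i ^ 2 + X i ^ 3 - b - Y i ^ 2 with hΓ
  have key : A * X j ^ 2 + B * X j + Γ = 2 * Y i * Y j := by
    rw [hA, hB, hΓ]
    linear_combination hxe + hY j
  have key2 : (A * X j ^ 2 + B * X j + Γ) ^ 2 - 4 * Y i ^ 2 * (X j ^ 3 + a * X j + b) = 0 := by
    rw [key, ← hY j]; ring
  have hAm : A ∈ F0 := sub_mem hx hXi
  have h2m : (2 : Ω) ∈ F0 := ofNat_mem _ 2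
  have h4m : (4 : Ω) ∈ F0 := ofNat_mem _ 4
  have hBm : B ∈ F0 := sub_mem (sub_mem (mul_mem (mul_mem (neg_mem h2m) hx) hXi) (pow_mem hXi 2)) ha
  have hΓm : Γ ∈ F0 := sub_mem (sub_mem (add_mem (mul_mem hx (pow_mem hXi 2)) (pow_mem hXi 3)) hb)
    (pow_mem hYi 2)
  let A' : F0 := ⟨A, hAm⟩
  let B' : F0 := ⟨B, hBm⟩
  let Γ' : F0 := ⟨Γ, hΓm⟩
  let Y' : F0 := ⟨Y i, hYi⟩
  let a' : F0 := ⟨a, ha⟩
  let b' : F0 := ⟨b, hb⟩
  set p : F0[X] := C (A' ^ 2) * Polynomial.X ^ 4 + C (2 * A' * B' - 4 * Y' ^ 2) * Polynomial.X ^ 3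
    + C (B' ^ 2 + 2 * A' * Γ') * Polynomial.X ^ 2 + C (2 * B' * Γ' - 4 * Y' ^ 2 * a') * Polynomial.X
    + C (Γ' ^ 2 - 4 * Y' ^ 2 * b') with hp
  have hp0 : p = 0 := by
    by_contra hne'
    apply hXj
    refine ⟨p, hne', ?_⟩
    have e : aeval (X j) p = A ^ 2 * X j ^ 4 + (2 * A * B - 4 * Y i ^ 2) * X j ^ 3
        + (B ^ 2 + 2 * A * Γ) * X j ^ 2 + (2 * B * Γ - 4 * Y i ^ 2 * a) * X j
        + (Γ ^ 2 - 4 * Y i ^ 2 * b) := by
      rw [hp]
      simp only [map_add, map_mul, map_sub, map_pow, aeval_X, aeval_C]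
      have hr : ∀ z : F0, algebraMap F0 Ω z = (z : Ω) := fun _ => rfl
      simp only [hr]
      rfl
    rw [e]
    linear_combination key2
  obtain ⟨c4, c3⟩ := quartic_coeff _ _ _ _ _ hp0
  have hA0 : A' = 0 := by simpa using c4
  rw [hA0] at c3
  have hY0 : (Y' : F0) ^ 2 = 0 := by
    have h4 : (4 : F0) ≠ 0 := by norm_num
    have : 4 * Y' ^ 2 = 0 := by linear_combination - c3
    exact (mul_eq_zero.mp this).resolve_left h4
  have hY0' : Y' = 0 := by simpa using hY0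
  exact hYi0 (congrArg Subtype.val hY0')

section Params

variable {L Ω : Type*} [Field L] [Field Ω] [Algebra L Ω] {a b : Ω}
    {X Y : Fin 11 → Ω}

/-- The field of elements algebraic over `L(a, b, X i : i ∈ s)`. -/
noncomputable def fieldOf (L : Type*) {Ω : Type*} [Field L] [Field Ω] [Algebra L Ω] (a b : Ω)
    (X : Fin 11 → Ω) (s : Set (Fin 11)) : Subfield Ω :=
  clF L (params a b X '' ({0, 1} ∪ (fun i : Fin 11 => i.succ.succ) '' s))

theorem a_mem_fieldOf {s : Set (Fin 11)} : a ∈ fieldOf L a b X s :=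
  subset_clF ⟨0, by simp, rfl⟩

theorem b_mem_fieldOf {s : Set (Fin 11)} : b ∈ fieldOf L a b X s :=
  subset_clF ⟨1, by simp, rfl⟩

theorem X_mem_fieldOf {s : Set (Fin 11)} {i : Fin 11} (hi : i ∈ s) : X i ∈ fieldOf L a b X s :=
  subset_clF ⟨i.succ.succ, Or.inr ⟨i, hi, rfl⟩, rfl⟩

theorem Y_mem_fieldOf (hY : ∀ i, Y i ^ 2 = X i ^ 3 + a * X i + b) {s : Set (Fin 11)} {i : Fin 11}
    (hi : i ∈ s) : Y i ∈ fieldOf L a b X s := by
  have h1 : X i ∈ fieldOf L a b X s := X_mem_fieldOf hi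
  refine clF_of_sq ?_
  rw [hY i]
  exact add_mem (add_mem (pow_mem h1 3) (mul_mem a_mem_fieldOf h1)) b_mem_fieldOf

theorem X_transcendental (hu : AlgebraicIndependent L (params a b X)) {s : Set (Fin 11)}
    {i : Fin 11} (hi : i ∉ s) : Transcendental (fieldOf L a b X s) (X i) := by
  refine transcendental_clF (u := params a b X) (i := i.succ.succ) hu ?_
  rintro (h | ⟨k, hk, hke⟩)
  · rcases h with h | h
    · exact absurd h (Fin.succ_ne_zero _)
    · have : i.succ.succ = Fin.succ 0 := h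
      exact absurd (Fin.succ_injective _ this) (Fin.succ_ne_zero _)
  · have : k = i := Fin.succ_injective _ (Fin.succ_injective _ hke)
    exact hi (this ▸ hk)

theorem Y_ne_zero [CharZero L] (hu : AlgebraicIndependent L (params a b X))
    (hY : ∀ i, Y i ^ 2 = X i ^ 3 + a * X i + b) (i : Fin 11) : Y i ≠ 0 := by
  intro h0
  have h1 := X_transcendental hu (s := ∅) (i := i) (by simp)
  apply h1
  refine isAlgebraic_of_cubic (c2 := 0) (c1 := a) (c0 := b) (zero_mem _) a_mem_fieldOf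
    b_mem_fieldOf ?_
  have := hY i
  rw [h0] at this
  linear_combination - this

theorem X_injective (hu : AlgebraicIndependent L (params a b X)) : Function.Injective X := by
  intro i j hij
  have h1 : params a b X i.succ.succ = params a b X j.succ.succ := hij
  exact Fin.succ_injective _ (Fin.succ_injective _ (hu.injective h1))

theorem charZero_of_algebra (L Ω : Type*) [Field L] [CharZero L] [Field Ω] [Algebra L Ω] :
    CharZero Ω := charZero_of_injective_algebraMap (algebraMap L Ω).injective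

theorem sg_mem {F0 : Subfield Ω} {i j : Fin 11} (h1 : X i ∈ F0) (h2 : X j ∈ F0) (h3 : Y i ∈ F0)
    (h4 : Y j ∈ F0) : sg X Y i j ∈ F0 :=
  div_mem (add_mem h3 h4) (sub_mem h2 h1)

theorem genDat_x_mem {F0 : Subfield Ω} {i j : Fin 11} (h1 : X i ∈ F0) (h2 : X j ∈ F0)
    (h3 : Y i ∈ F0) (h4 : Y j ∈ F0) : (genDat a b X Y).x i j ∈ F0 :=
  sub_mem (sub_mem (pow_mem (sg_mem h1 h2 h3 h4) 2) h1) h2

theorem genDat_y_mem {F0 : Subfield Ω} {i j : Fin 11} (h1 : X i ∈ F0) (h2 : X j ∈ F0)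
    (h3 : Y i ∈ F0) (h4 : Y j ∈ F0) : (genDat a b X Y).y i j ∈ F0 :=
  add_mem h4 (mul_mem (sg_mem h1 h2 h3 h4)
    (sub_mem (sub_mem (sub_mem (pow_mem (sg_mem h1 h2 h3 h4) 2) h1) h2) h2))

/-- `x j k` is not algebraic over `L(a, b, X i : i ∈ s)` if `j ∈ s` and `k ∉ s`. -/
theorem genDat_x_not_mem_fieldOf [CharZero L] (hu : AlgebraicIndependent L (params a b X))
    (hY : ∀ i, Y i ^ 2 = X i ^ 3 + a * X i + b) {s : Set (Fin 11)} {j k : Fin 11} (hj : j ∈ s)
    (hk : k ∉ s) : (genDat a b X Y).x j k ∉ fieldOf L a b X s := by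
  have := charZero_of_algebra L Ω
  exact genDat_x_not_mem hY _ a_mem_fieldOf b_mem_fieldOf (X_mem_fieldOf hj) (Y_mem_fieldOf hY hj)
    (Y_ne_zero hu hY j) (X_transcendental hu hk)

end Params

/-- C2 -/
theorem genDat_x_ne {L Ω : Type*} [Field L] [CharZero L] [Field Ω] [Algebra L Ω] {a b : Ω}
    {X Y : Fin 11 → Ω}
    (hu : AlgebraicIndependent L (params a b X)) (hY : ∀ i, Y i ^ 2 = X i ^ 3 + a * X i + b) :
    Function.Injective X ∧ ∀ i j k, i ≠ j → j ≠ k → i ≠ k →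
      (genDat a b X Y).x i j ≠ (genDat a b X Y).x j k := by
  refine ⟨X_injective hu, fun i j k hij hjk hik h => ?_⟩
  have hi : i ∈ ({i, j} : Set (Fin 11)) := Or.inl rfl
  have hj : j ∈ ({i, j} : Set (Fin 11)) := Or.inr rfl
  have hk : k ∉ ({i, j} : Set (Fin 11)) := by
    rintro (h | h)
    · exact hik h.symm
    · exact hjk h.symm
  apply genDat_x_not_mem_fieldOf hu hY hj hk
  rw [← h]
  exact genDat_x_mem (X_mem_fieldOf hi) (X_mem_fieldOf hj) (Y_mem_fieldOf hY hi)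
    (Y_mem_fieldOf hY hj)

end Gen

end Pool.Agent.Helper49.Irr
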