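import Pool.Agent.Helper49.Irr.GenNe
import Pool.Agent.Helper49.Irr.GenRel

/-!
# The normalised coordinates of the generic configuration lie in the field of ratios
-/

namespace Pool.Agent.Helper49.Irr

open Dat

section

variable {L Ω : Type*} [Field L] [CharZero L] [Field Ω] [Algebra L Ω] {a b : Ω}
    {X Y : Fin 11 → Ω}

/-- the ordinates of the differences do not vanish. -/
theorem genDat_y_ne (hu : AlgebraicIndependent L (params a b X))
    (hY : ∀ i, Y i ^ 2 = X i ^ 3 + a * X i + b) {i j : Fin 11} (hij : i ≠ j) :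
    (genDat a b X Y).y i j ≠ 0 := by
  have := charZero_of_algebra L Ω
  obtain ⟨hX, hne⟩ := genDat_x_ne hu hY
  have h := genDat_rel hY hX hne
  intro h0
  have hi : i ∈ ({i} : Set (Fin 11)) := rfl
  have hj : j ∉ ({i} : Set (Fin 11)) := fun e => hij (Set.mem_singleton_iff.mp e).symm
  apply genDat_x_not_mem_fieldOf hu hY hi hj
  refine clF_of_cubic (c2 := 0) (c1 := a) (c0 := b) (zero_mem _) a_mem_fieldOf b_mem_fieldOf ?_
  have h1 := h.weier i j hij
  rw [h0] at h1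
  have e2 : (genDat a b X Y).a2 = 0 := rfl
  have e4 : (genDat a b X Y).a4 = a := rfl
  have e6 : (genDat a b X Y).a6 = b := rfl
  rw [e2, e4, e6] at h1
  linear_combination - h1

end

theorem exists_notMem_fin11 (S : Finset (Fin 11)) (hS : S.card < 11) : ∃ x, x ∉ S := by
  by_contra hcon
  push Not at hcon
  have : S = Finset.univ := Finset.eq_univ_iff_forall.mpr hcon
  rw [this] at hS
  simp at hS

section

variable {L Ω : Type*} [Field L] [Field Ω] [Algebra L Ω] {E : Dat (Fin 11) Ω}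

theorem two_s_mem_G (h : E.Rel) (h1 : E.a1 = 0) {J : Finset (Fin 11)} {i j k : Fin 11}
    (hT : Tri J i j k) : 2 * E.s i j k ∈ E.G J := by
  refine ⟨i, j, k, i, k, j, hT, ⟨hT.ha, hT.hc, hT.hb, hT.hac, hT.hbc.symm, hT.hab⟩, ?_⟩
  rw [h.s_anti' hT.hab hT.hbc hT.hac, h1]
  ring

theorem s_div_mem [CharZero Ω] (h : E.Rel) (h1 : E.a1 = 0) {J : Finset (Fin 11)}
    (hJ : J.card = 5) {i j k i' j' k' : Fin 11} (hT : Tri J i j k) (hT' : Tri J i' j' k')
    (h0 : E.s i' j' k' ≠ 0) : E.s i j k / E.s i' j' k' ∈ ratioField L E := by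
  apply IntermediateField.subset_adjoin
  refine ⟨J, hJ, _, two_s_mem_G h h1 hT, _, two_s_mem_G h h1 hT', mul_ne_zero two_ne_zero h0, ?_⟩
  rw [mul_div_mul_left _ _ (two_ne_zero)]

theorem exists_s_ne_zero [CharZero Ω] (h : E.Rel) (h1 : E.a1 = 0) (h3 : E.a3 = 0)
    (hy : ∀ i j, i ≠ j → E.y i j ≠ 0) {Q : Finset (Fin 11)} (hQ : Q.card = 4) :
    ∃ i j k, Tri Q i j k ∧ E.s i j k ≠ 0 := by
  obtain ⟨p, q, r, t, hpq, hpr, hpt, hqr, hqt, hrt, rfl⟩ := Finset.card_eq_four.mp hQ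
  by_contra hcon
  push Not at hcon
  have s1 : E.s p q r = 0 := hcon p q r ⟨by simp, by simp, by simp, hpq, hqr, hpr⟩
  have s2 : E.s p q t = 0 := hcon p q t ⟨by simp, by simp, by simp, hpq, hqt, hpt⟩
  have s3 : E.s p r t = 0 := hcon p r t ⟨by simp, by simp, by simp, hpr, hrt, hpt⟩
  have a1 := h.slope p q r hpq hqr hpr
  have a2 := h.slope q r p hqr hpr.symm hpq.symm
  have a3 := h.slope p q t hpq hqt hpt
  have a4 := h.slope q t p hqt hpt.symm hpq.symm
  have a5 := h.slope p r t hpr hrt hpt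
  have a6 := h.slope r t p hrt hpt.symm hpr.symm
  rw [h.s_cyc p q r hpq hqr hpr] at a2
  rw [h.s_cyc p q t hpq hqt hpt] at a4
  rw [h.s_cyc p r t hpr hrt hpt] at a6
  rw [s1, zero_mul] at a1 a2
  rw [s2, zero_mul] at a3 a4
  rw [s3, zero_mul] at a5 a6
  have b := h.y_symm p r hpr
  rw [h1, h3] at b
  apply hy p r hpr
  have : (2 : Ω) * E.y p r = 0 := by
    linear_combination b + a1 + a2 - a3 - a4 + a5 + a6
  exact (mul_eq_zero.mp this).resolve_left two_ne_zero

theorem s_div_mem_aux [CharZero Ω] (h : E.Rel) (h1 : E.a1 = 0) (h3 : E.a3 = 0)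
    (hy : ∀ i j, i ≠ j → E.y i j ≠ 0) (n : ℕ) : ∀ {Q Q' : Finset (Fin 11)}, Q.card = 4 →
    Q'.card = 4 → (Q' \ Q).card = n → ∀ {i j k i' j' k' : Fin 11}, Tri Q i j k → Tri Q' i' j' k' →
    E.s i' j' k' ≠ 0 → E.s i j k / E.s i' j' k' ∈ ratioField L E := by
  induction n with
  | zero =>
    intro Q Q' hQ hQ' hn i j k i' j' k' hT hT' h0
    have hsub : Q' ⊆ Q := by
      rwa [Finset.card_eq_zero, Finset.sdiff_eq_empty_iff_subset] at hn
    obtain ⟨x, hx⟩ := exists_notMem_fin11 Q (by omega)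
    refine s_div_mem h h1 (J := insert x Q) (by rw [Finset.card_insert_of_notMem hx]; omega) ?_ ?_ h0
    · exact ⟨Finset.mem_insert_of_mem hT.ha, Finset.mem_insert_of_mem hT.hb,
        Finset.mem_insert_of_mem hT.hc, hT.hab, hT.hbc, hT.hac⟩
    · exact ⟨Finset.mem_insert_of_mem (hsub hT'.ha), Finset.mem_insert_of_mem (hsub hT'.hb),
        Finset.mem_insert_of_mem (hsub hT'.hc), hT'.hab, hT'.hbc, hT'.hac⟩
  | succ n ih =>
    intro Q Q' hQ hQ' hn i j k i' j' k' hT hT' h0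
    have hne : (Q' \ Q).Nonempty := by
      rw [← Finset.card_pos]; omega
    obtain ⟨x, hx⟩ := hne
    rw [Finset.mem_sdiff] at hx
    have hcard : (Q \ Q').card = (Q' \ Q).card := Finset.card_sdiff_comm (by omega)
    have hne' : (Q \ Q').Nonempty := by
      rw [← Finset.card_pos]; omega
    obtain ⟨y, hy'⟩ := hne'
    rw [Finset.mem_sdiff] at hy'
    have hxe : x ∉ Q.erase y := fun hm => hx.2 (Finset.mem_of_mem_erase hm)
    have hQ1 : (insert x (Q.erase y)).card = 4 := by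
      rw [Finset.card_insert_of_notMem hxe, Finset.card_erase_of_mem hy'.1]; omega
    have hn1 : (Q' \ insert x (Q.erase y)).card = n := by
      have e : Q' \ insert x (Q.erase y) = (Q' \ Q).erase x := by
        ext z
        simp only [Finset.mem_sdiff, Finset.mem_insert, Finset.mem_erase, not_or, not_and]
        constructor
        · rintro ⟨hz, hzx, hzy⟩
          refine ⟨hzx, hz, ?_⟩
          intro hzQ
          exact hzy (fun e => hy'.2 (e ▸ hz)) hzQ
        · rintro ⟨hzx, hz, hzQ⟩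
          exact ⟨hz, hzx, fun _ h => hzQ h⟩
      rw [e, Finset.card_erase_of_mem (Finset.mem_sdiff.mpr hx)]; omega
    obtain ⟨i₁, j₁, k₁, hT₁, h₁⟩ := exists_s_ne_zero h h1 h3 hy hQ1
    have r1 : E.s i j k / E.s i₁ j₁ k₁ ∈ ratioField L E := by
      refine s_div_mem h h1 (J := insert x Q)
        (by rw [Finset.card_insert_of_notMem hx.2]; omega) ?_ ?_ h₁
      · exact ⟨Finset.mem_insert_of_mem hT.ha, Finset.mem_insert_of_mem hT.hb,
          Finset.mem_insert_of_mem hT.hc, hT.hab, hT.hbc, hT.hac⟩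
      · have hsub : insert x (Q.erase y) ⊆ insert x Q :=
          Finset.insert_subset_insert _ (Finset.erase_subset _ _)
        exact ⟨hsub hT₁.ha, hsub hT₁.hb, hsub hT₁.hc, hT₁.hab, hT₁.hbc, hT₁.hac⟩
    have r2 := ih hQ1 hQ' hn1 hT₁ hT' h0
    have := mul_mem r1 r2
    rwa [div_mul_div_cancel₀ h₁] at this

/-- All the normalised coordinates lie in the ratio field. -/
theorem exists_scale [CharZero Ω] (h : E.Rel) (h1 : E.a1 = 0) (h2 : E.a2 = 0) (h3 : E.a3 = 0)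
    (hy : ∀ i j, i ≠ j → E.y i j ≠ 0) :
    ∃ J₀ : Finset (Fin 11), J₀.card = 5 ∧ ∃ l ∈ E.G J₀, l ≠ 0 ∧
      (∀ i j k, i ≠ j → j ≠ k → i ≠ k → E.s i j k / l ∈ ratioField L E) ∧
      (∀ i j, i ≠ j → E.x i j / l ^ 2 ∈ ratioField L E) ∧
      (∀ i j, i ≠ j → E.y i j / l ^ 3 ∈ ratioField L E) ∧
      E.a4 / l ^ 4 ∈ ratioField L E ∧ E.a6 / l ^ 6 ∈ ratioField L E := by
  obtain ⟨i₀, j₀, k₀, hT₀, h₀⟩ := exists_s_ne_zero h h1 h3 hy (Q := {0, 1, 2, 3}) (by decide)
  have hsub : ({0, 1, 2, 3} : Finset (Fin 11)) ⊆ {0, 1, 2, 3, 4} := by decide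
  set l := 2 * E.s i₀ j₀ k₀ with hl
  have hl0 : l ≠ 0 := mul_ne_zero two_ne_zero h₀
  have hs : ∀ i j k, i ≠ j → j ≠ k → i ≠ k → E.s i j k / l ∈ ratioField L E := by
    intro i j k hij hjk hik
    have hc : ({i, j, k} : Finset (Fin 11)).card = 3 := by
      rw [Finset.card_eq_three]; exact ⟨i, j, k, hij, hik, hjk, rfl⟩
    obtain ⟨x, hx⟩ := exists_notMem_fin11 {i, j, k} (by omega)
    have hQ : (insert x ({i, j, k} : Finset (Fin 11))).card = 4 := by
      rw [Finset.card_insert_of_notMem hx]; omega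
    have r := s_div_mem_aux (L := L) h h1 h3 hy _ hQ (by decide) rfl
      (i := i) (j := j) (k := k) ⟨by simp, by simp, by simp, hij, hjk, hik⟩ hT₀ h₀
    have e : E.s i j k / l = (E.s i j k / E.s i₀ j₀ k₀) / 2 := by
      rw [hl]; field_simp
    rw [e]
    exact div_mem r (ofNat_mem _ 2)
  have hxd : ∀ p q r t, p ≠ q → p ≠ r → p ≠ t → q ≠ r → q ≠ t → r ≠ t →
      (E.x p q - E.x r t) / l ^ 2 ∈ ratioField L E := by
    intro p q r t hpq hpr hpt hqr hqt hrt
    rw [h.x_diff p q r t hpq hpr hpt hqr hqt hrt, h1]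
    have e : (E.s p q t - E.s p r t) * (E.s p q r + E.s p r t + 0) / l ^ 2
        = (E.s p q t / l - E.s p r t / l) * (E.s p q r / l + E.s p r t / l) := by
      field_simp
      ring
    rw [e]
    exact mul_mem (sub_mem (hs _ _ _ hpq hqt hpt) (hs _ _ _ hpr hrt hpt))
      (add_mem (hs _ _ _ hpq hqr hpr) (hs _ _ _ hpr hrt hpt))
  -- five different indices
  have five : ∀ i j : Fin 11, i ≠ j → ∃ k p q : Fin 11, i ≠ k ∧ j ≠ k ∧ i ≠ p ∧ j ≠ p ∧ k ≠ p ∧
      i ≠ q ∧ j ≠ q ∧ k ≠ q ∧ p ≠ q := by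
    intro i j hij
    obtain ⟨k, hk⟩ := exists_notMem_fin11 {i, j} (lt_of_le_of_lt Finset.card_le_two (by norm_num))
    obtain ⟨p, hp⟩ := exists_notMem_fin11 {i, j, k}
      (lt_of_le_of_lt Finset.card_le_three (by norm_num))
    obtain ⟨q, hq⟩ := exists_notMem_fin11 {i, j, k, p}
      (lt_of_le_of_lt Finset.card_le_four (by norm_num))
    simp only [Finset.mem_insert, Finset.mem_singleton, not_or] at hk hp hq
    exact ⟨k, p, q, Ne.symm hk.1, Ne.symm hk.2, Ne.symm hp.1, Ne.symm hp.2.1, Ne.symm hp.2.2,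
      Ne.symm hq.1, Ne.symm hq.2.1, Ne.symm hq.2.2.1, Ne.symm hq.2.2.2⟩
  have hxd' : ∀ i j k, i ≠ j → j ≠ k → i ≠ k → (E.x i j - E.x j k) / l ^ 2 ∈ ratioField L E := by
    intro i j k hij hjk hik
    obtain ⟨p, hp⟩ := exists_notMem_fin11 {i, j, k}
      (lt_of_le_of_lt Finset.card_le_three (by norm_num))
    obtain ⟨q, hq⟩ := exists_notMem_fin11 {i, j, k, p}
      (lt_of_le_of_lt Finset.card_le_four (by norm_num))
    simp only [Finset.mem_insert, Finset.mem_singleton, not_or] at hp hq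
    have e : (E.x i j - E.x j k) / l ^ 2
        = (E.x i j - E.x p q) / l ^ 2 - (E.x j k - E.x p q) / l ^ 2 := by ring
    rw [e]
    exact sub_mem (hxd i j p q hij (Ne.symm hp.1) (Ne.symm hq.1) (Ne.symm hp.2.1)
      (Ne.symm hq.2.1) (Ne.symm hq.2.2.2)) (hxd j k p q hjk (Ne.symm hp.2.1) (Ne.symm hq.2.1)
      (Ne.symm hp.2.2) (Ne.symm hq.2.2.1) (Ne.symm hq.2.2.2))
  have hx : ∀ i j, i ≠ j → E.x i j / l ^ 2 ∈ ratioField L E := by
    intro i j hij
    obtain ⟨k, p, q, hik, hjk, -, -, -, -, -, -, -⟩ := five i j hij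
    have h4 := h.sum_x i j k hij hjk hik
    rw [h1, h2] at h4
    have e : E.x i j / l ^ 2 = ((E.s i j k / l) ^ 2 + (E.x i j - E.x j k) / l ^ 2
        + ((E.x i j - E.x j k) / l ^ 2 + (E.x j k - E.x k i) / l ^ 2)) / 3 := by
      field_simp
      linear_combination h4
    rw [e]
    exact div_mem (add_mem (add_mem (pow_mem (hs i j k hij hjk hik) 2) (hxd' i j k hij hjk hik))
      (add_mem (hxd' i j k hij hjk hik) (hxd' j k i hjk hik.symm hij.symm))) (ofNat_mem _ 3)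
  have hyd : ∀ i j k, i ≠ j → j ≠ k → i ≠ k → (E.y i j - E.y j k) / l ^ 3 ∈ ratioField L E := by
    intro i j k hij hjk hik
    rw [h.slope i j k hij hjk hik]
    have e : E.s i j k * (E.x i j - E.x j k) / l ^ 3
        = (E.s i j k / l) * ((E.x i j - E.x j k) / l ^ 2) := by
      field_simp
    rw [e]
    exact mul_mem (hs i j k hij hjk hik) (hxd' i j k hij hjk hik)
  have hy' : ∀ i j, i ≠ j → E.y i j / l ^ 3 ∈ ratioField L E := by
    intro i j hij
    obtain ⟨k, p, q, hik, hjk, hip, hjp, hkp, -, -, -, -⟩ := five i j hij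
    have h5 := h.y_symm i j hij
    rw [h1, h3] at h5
    have e : E.y i j / l ^ 3 = ((E.y i j - E.y j k) / l ^ 3 + (E.y j k - E.y k p) / l ^ 3
        + (E.y k p - E.y p j) / l ^ 3 + (E.y p j - E.y j i) / l ^ 3) / 2 := by
      field_simp
      linear_combination h5
    rw [e]
    exact div_mem (add_mem (add_mem (add_mem (hyd i j k hij hjk hik) (hyd j k p hjk hkp hjp))
      (hyd k p j hkp hjp.symm hjk.symm)) (hyd p j i hjp.symm hij.symm hip.symm)) (ofNat_mem _ 2)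
  have ha4 : E.a4 / l ^ 4 ∈ ratioField L E := by
    have h8 := h.r8 0 1 2 (by decide) (by decide) (by decide)
    rw [h1, h2, h3] at h8
    have e : E.a4 / l ^ 4 = (E.s 0 1 2 / l) * (E.y 0 1 / l ^ 3 + E.y 1 2 / l ^ 3)
        - ((E.x 0 1 / l ^ 2) ^ 2 + (E.x 0 1 / l ^ 2) * (E.x 1 2 / l ^ 2)
          + (E.x 1 2 / l ^ 2) ^ 2) := by
      field_simp
      linear_combination - h8
    rw [e]
    exact sub_mem (mul_mem (hs _ _ _ (by decide) (by decide) (by decide))
      (add_mem (hy' _ _ (by decide)) (hy' _ _ (by decide))))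
      (add_mem (add_mem (pow_mem (hx _ _ (by decide)) 2)
        (mul_mem (hx _ _ (by decide)) (hx _ _ (by decide)))) (pow_mem (hx _ _ (by decide)) 2))
  have ha6 : E.a6 / l ^ 6 ∈ ratioField L E := by
    have h9 := h.weier 0 1 (by decide)
    rw [h1, h2, h3] at h9
    have e : E.a6 / l ^ 6 = (E.y 0 1 / l ^ 3) ^ 2 - (E.x 0 1 / l ^ 2) ^ 3
        - (E.a4 / l ^ 4) * (E.x 0 1 / l ^ 2) := by
      field_simp
      linear_combination - h9
    rw [e]
    exact sub_mem (sub_mem (pow_mem (hy' _ _ (by decide)) 2) (pow_mem (hx _ _ (by decide)) 3))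
      (mul_mem ha4 (hx _ _ (by decide)))
  refine ⟨{0, 1, 2, 3, 4}, by decide, l, two_s_mem_G h h1 ⟨hsub hT₀.ha, hsub hT₀.hb, hsub hT₀.hc,
    hT₀.hab, hT₀.hbc, hT₀.hac⟩, hl0, hs, hx, hy', ha4, ha6⟩

end

end Pool.Agent.Helper49.Irr
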