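import Pool.Agent.Helper49.Irr.DefsC
import Pool.Agent.Helper49.Irr.SqrtPS

/-!
# A generic configuration whose field of definition is geometrically irreducible
-/

namespace Pool.Agent.Helper49.Irr

open TensorProduct

section GenericAux

/-- Coefficientwise map of Laurent series. -/
def lmap {k l : Type*} [Field k] [Field l] (φ : k →+* l) (f : LaurentSeries k) :
    LaurentSeries l where
  coeff n := φ (f.coeff n)
  isPWO_support' := f.isPWO_support.mono (by
    intro n hn h0
    refine hn ?_
    simp only at *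
    rw [h0, map_zero])

theorem support_lmap {k l : Type*} [Field k] [Field l] (φ : k →+* l) (f : LaurentSeries k) :
    (lmap φ f).support ⊆ f.support := by
  intro n hn h0
  refine hn ?_
  change φ (f.coeff n) = 0
  rw [h0, map_zero]

/-- Coefficientwise map of Laurent series, as a ring homomorphism. -/
def lmapHom {k l : Type*} [Field k] [Field l] (φ : k →+* l) :
    LaurentSeries k →+* LaurentSeries l where
  toFun := lmap φ
  map_zero' := by
    ext n
    change φ 0 = 0
    rw [map_zero]
  map_one' := by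
    ext n
    change φ ((1 : LaurentSeries k).coeff n) = (1 : LaurentSeries l).coeff n
    rw [HahnSeries.coeff_one, HahnSeries.coeff_one]
    split_ifs <;> simp
  map_add' := by
    intro f g
    ext n
    change φ (f.coeff n + g.coeff n) = φ (f.coeff n) + φ (g.coeff n)
    rw [map_add]
  map_mul' := by
    intro f g
    ext n
    have h1 : (lmap φ f * lmap φ g).coeff n = ∑ ij ∈ Finset.antidiagonal f.isPWO_support
        g.isPWO_support n, (lmap φ f).coeff ij.1 * (lmap φ g).coeff ij.2 := by
      rw [HahnSeries.coeff_mul_left' (a := n) f.isPWO_support (support_lmap φ f)]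
      refine Finset.sum_subset ?_ ?_
      · exact Finset.antidiagonal_mono_right (support_lmap φ g)
      · intro ij h1 h2
        have h3 := Finset.mem_antidiagonal.mp h1
        have h4 : ij.2 ∉ (lmap φ g).support := fun h => h2
          (Finset.mem_antidiagonal.mpr ⟨h3.1, h, h3.2.2⟩)
        have h5 : (lmap φ g).coeff ij.2 = 0 := by
          by_contra h6
          exact h4 h6
        rw [h5, mul_zero]
    change φ ((f * g).coeff n) = (lmap φ f * lmap φ g).coeff n
    rw [h1, HahnSeries.coeff_mul, map_sum]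
    refine Finset.sum_congr rfl fun ij _ => ?_
    rw [map_mul]
    rfl

theorem coeff_lmapHom {k l : Type*} [Field k] [Field l] (φ : k →+* l) (f : LaurentSeries k)
    (n : ℤ) : (lmapHom φ f).coeff n = φ (f.coeff n) := rfl

/-- linear disjointness of `L` and the Laurent series over `ℚ` -/
def LinDisj (L Ω ΩL : Type) [Field L] [CharZero L] [Field Ω] [Field ΩL] [Algebra L ΩL]
    (ι : Ω →+* ΩL) : Prop :=
  ∀ (I : Type) (b : I → L), LinearIndependent ℚ b → ∀ (s : Finset I) (f : I → Ω),
    ∑ i ∈ s, algebraMap L ΩL (b i) * ι (f i) = 0 → ∀ i ∈ s, f i = 0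

theorem linDisj_laurent (L : Type) [Field L] [CharZero L] :
    letI : Algebra L (LaurentSeries L) := (HahnSeries.C : L →+* LaurentSeries L).toAlgebra
    LinDisj L (LaurentSeries ℚ) (LaurentSeries L) (lmapHom (algebraMap ℚ L)) := by
  intro I b hb s f hf i hi
  ext n
  have h1 := congrArg (fun g : LaurentSeries L => g.coeff n) hf
  have h2 : ∑ i ∈ s, (f i).coeff n • b i = 0 := by
    simp only [HahnSeries.coeff_sum, HahnSeries.coeff_zero] at h1
    rw [← h1]
    refine Finset.sum_congr rfl fun j _ => ?_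
    change _ = ((HahnSeries.C (b j) : LaurentSeries L) *
      lmapHom (algebraMap ℚ L) (f j)).coeff n
    rw [HahnSeries.C_mul_eq_smul, HahnSeries.coeff_smul, coeff_lmapHom, Algebra.smul_def,
      smul_eq_mul, mul_comm]
  exact linearIndependent_iff'.mp hb s (fun i => (f i).coeff n) h2 i hi

/-- every element of `L ⊗ Ω` in terms of a basis of `L` -/
theorem exists_repr_tensor {L Ω : Type} [Field L] [CharZero L] [Field Ω] [CharZero Ω]
    {I : Type} (B : Module.Basis I ℚ L) (z : L ⊗[ℤ] Ω) :
    ∃ f : I →₀ Ω, z = f.sum (fun i x => B i ⊗ₜ[ℤ] x) := by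
  classical
  induction z with
  | zero => exact ⟨0, by simp⟩
  | add x y hx hy =>
    obtain ⟨f, rfl⟩ := hx
    obtain ⟨g, rfl⟩ := hy
    refine ⟨f + g, ?_⟩
    rw [Finsupp.sum_add_index']
    · intro i; simp
    · intro i a b; rw [TensorProduct.tmul_add]
  | tmul l x =>
    have key : ∀ (q : ℚ) (c : L), (q • c) ⊗ₜ[ℤ] x = c ⊗ₜ[ℤ] (((q : ℚ) : Ω) * x) := by
      intro q c
      have hd : ((q.den : ℤ) : Ω) ≠ 0 := by
        exact_mod_cast q.den_nz
      have h1 : x = (q.den : ℤ) • ((((q.den : ℤ) : Ω))⁻¹ * x) := by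
        rw [zsmul_eq_mul, ← mul_assoc, mul_inv_cancel₀ hd, one_mul]
      have h2 : (q.den : ℤ) • (q • c) = q.num • c := by
        have h3 : ((q.den : ℤ) : L) * (q : L) = ((q.num : ℤ) : L) := by
          have h4 := Rat.mul_den_eq_num q
          have h5 : ((q * (q.den : ℚ) : ℚ) : L) = ((q.num : ℚ) : L) := by rw [h4]
          push_cast at h5 ⊢
          rw [mul_comm]
          exact h5
        rw [zsmul_eq_mul, zsmul_eq_mul, Rat.smul_def, ← mul_assoc, h3]
      have h6 : ((q : ℚ) : Ω) = ((q.num : ℤ) : Ω) * (((q.den : ℤ) : Ω))⁻¹ := by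
        rw [Rat.cast_def, div_eq_mul_inv]
        push_cast
        rfl
      calc (q • c) ⊗ₜ[ℤ] x = (q • c) ⊗ₜ[ℤ] ((q.den : ℤ) • ((((q.den : ℤ) : Ω))⁻¹ * x)) := by
            rw [← h1]
        _ = ((q.den : ℤ) • (q • c)) ⊗ₜ[ℤ] ((((q.den : ℤ) : Ω))⁻¹ * x) :=
            (TensorProduct.smul_tmul (q.den : ℤ) (q • c) _).symm
        _ = (q.num • c) ⊗ₜ[ℤ] ((((q.den : ℤ) : Ω))⁻¹ * x) := by rw [h2]
        _ = c ⊗ₜ[ℤ] (q.num • ((((q.den : ℤ) : Ω))⁻¹ * x)) := TensorProduct.smul_tmul _ _ _
        _ = c ⊗ₜ[ℤ] (((q : ℚ) : Ω) * x) := by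
            rw [zsmul_eq_mul, ← mul_assoc, h6]
    refine ⟨(B.repr l).mapRange (fun q : ℚ => (q : Ω) * x) (by simp), ?_⟩
    rw [Finsupp.sum_mapRange_index (by intro i; simp)]
    conv_lhs => rw [← B.linearCombination_repr l]
    rw [Finsupp.linearCombination_apply, Finsupp.sum, TensorProduct.sum_tmul]
    exact Finset.sum_congr rfl fun i _ => key _ _

/-- every polynomial over `L` in terms of a basis of `L` -/
theorem exists_repr_poly {L : Type} [Field L] [CharZero L] {σ : Type}
    {I : Type} (B : Module.Basis I ℚ L) (p : MvPolynomial σ L) :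
    ∃ q : I →₀ MvPolynomial σ ℚ, p = q.sum (fun i r => MvPolynomial.C (B i) *
      MvPolynomial.map (algebraMap ℚ L) r) := by
  classical
  induction p using MvPolynomial.induction_on' with
  | add x y hx hy =>
    obtain ⟨f, rfl⟩ := hx
    obtain ⟨g, rfl⟩ := hy
    refine ⟨f + g, ?_⟩
    rw [Finsupp.sum_add_index']
    · intro i; simp
    · intro i a b; rw [map_add, mul_add]
  | monomial u a =>
    refine ⟨(B.repr a).mapRange (fun q : ℚ => MvPolynomial.monomial u q) (by simp), ?_⟩
    rw [Finsupp.sum_mapRange_index (by intro i; simp)]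
    conv_lhs => rw [← B.linearCombination_repr a]
    rw [Finsupp.linearCombination_apply, Finsupp.sum, map_sum]
    refine Finset.sum_congr rfl fun i _ => ?_
    change _ = MvPolynomial.C (B i) * MvPolynomial.map (algebraMap ℚ L)
      (MvPolynomial.monomial u (B.repr a i))
    rw [MvPolynomial.map_monomial, MvPolynomial.C_mul_monomial, Algebra.smul_def, mul_comm]

theorem productMap_injective {L Ω ΩL : Type} [Field L] [CharZero L] [Field Ω] [CharZero Ω]
    [Field ΩL] [Algebra L ΩL] (ι : Ω →+* ΩL) (H : LinDisj L Ω ΩL ι) :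
    Function.Injective (Algebra.TensorProduct.productMap (algebraMap L ΩL).toIntAlgHom
        ι.toIntAlgHom : L ⊗[ℤ] Ω →ₐ[ℤ] ΩL) := by
  rw [injective_iff_map_eq_zero]
  intro z hz
  let B := Module.Basis.ofVectorSpace ℚ L
  obtain ⟨f, rfl⟩ := exists_repr_tensor B z
  rw [Finsupp.sum, map_sum] at hz
  have h := H _ B B.linearIndependent f.support f (by
    rw [← hz]
    refine Finset.sum_congr rfl fun i _ => ?_
    rw [Algebra.TensorProduct.productMap_apply_tmul]
    rfl)
  rw [Finsupp.sum]
  refine Finset.sum_eq_zero fun i hi => ?_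
  rw [h i hi, TensorProduct.tmul_zero]

theorem algebraicIndependent_of_linDisj {L Ω ΩL : Type} [Field L] [CharZero L] [Field Ω]
    [CharZero Ω] [Algebra ℚ Ω]
    [Field ΩL] [Algebra L ΩL] (ι : Ω →+* ΩL) (H : LinDisj L Ω ΩL ι) {σ : Type} (v : σ → Ω)
    (hv : AlgebraicIndependent ℚ v) : AlgebraicIndependent L (fun i => ι (v i)) := by
  rw [algebraicIndependent_iff]
  intro p hp
  let B := Module.Basis.ofVectorSpace ℚ L
  obtain ⟨q, rfl⟩ := exists_repr_poly B p
  have key : ∀ r : MvPolynomial σ ℚ, MvPolynomial.aeval (fun i => ι (v i))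
      (MvPolynomial.map (algebraMap ℚ L) r) = ι (MvPolynomial.aeval v r) := by
    intro r
    induction r using MvPolynomial.induction_on with
    | C a => 
      rw [MvPolynomial.map_C, MvPolynomial.aeval_C, MvPolynomial.aeval_C]
      simp
    | add x y hx hy => simp only [map_add, hx, hy]
    | mul_X x i hx => simp only [map_mul, hx, MvPolynomial.map_X, MvPolynomial.aeval_X]
  rw [Finsupp.sum, map_sum] at hp
  have h := H _ B B.linearIndependent q.support (fun i => MvPolynomial.aeval v (q i)) (by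
    rw [← hp]
    refine Finset.sum_congr rfl fun i _ => ?_
    rw [map_mul, MvPolynomial.aeval_C, key])
  rw [Finsupp.sum]
  refine Finset.sum_eq_zero fun i hi => ?_
  rw [algebraicIndependent_iff.mp hv _ (h i hi), map_zero, mul_zero]

theorem algebraicIndependent_shift {Ω : Type} [Field Ω] [Algebra ℚ Ω] {σ : Type} (v : σ → Ω)
    (hv : AlgebraicIndependent ℚ v) (c : σ → ℚ) :
    AlgebraicIndependent ℚ (fun i => v i + algebraMap ℚ Ω (c i)) := by
  rw [algebraicIndependent_iff_injective_aeval] at hv ⊢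
  let τ : MvPolynomial σ ℚ →ₐ[ℚ] MvPolynomial σ ℚ :=
    MvPolynomial.aeval (fun i => MvPolynomial.X i + MvPolynomial.C (c i))
  let τ' : MvPolynomial σ ℚ →ₐ[ℚ] MvPolynomial σ ℚ :=
    MvPolynomial.aeval (fun i => MvPolynomial.X i - MvPolynomial.C (c i))
  have h1 : τ'.comp τ = AlgHom.id ℚ _ := by
    apply MvPolynomial.algHom_ext
    intro i
    simp [τ, τ']
  have h2 : Function.Injective τ := by
    intro x y hxy
    have h3 := congrArg τ' hxy
    have h4 : ∀ z, τ' (τ z) = z := fun z => DFunLike.congr_fun h1 z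
    rwa [h4, h4] at h3
  have h5 : MvPolynomial.aeval (fun i => v i + algebraMap ℚ Ω (c i)) =
      (MvPolynomial.aeval v).comp τ := by
    apply MvPolynomial.algHom_ext
    intro i
    simp [τ]
  rw [h5]
  exact hv.comp h2

theorem countable_adjoin {Ω : Type} [Field Ω] [CharZero Ω] (T : Set Ω) (hT : T.Countable) :
    Countable (Algebra.adjoin ℚ T) := by
  have : Countable T := hT.to_subtype
  have h1 : Countable (MvPolynomial T ℚ) := by
    rw [← Cardinal.mk_le_aleph0_iff]
    refine MvPolynomial.cardinalMk_le_max.trans ?_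
    simp
  have h2 : Algebra.adjoin ℚ T = (MvPolynomial.aeval (R := ℚ) (fun x : T => (x : Ω))).range := by
    rw [← Algebra.adjoin_range_eq_range_aeval, Subtype.range_coe]
  rw [h2]
  exact (AlgHom.rangeRestrict_surjective _).countable

/-- algebraically independent elements in an uncountable set -/
theorem exists_indep_of_uncountable {Ω : Type} [Field Ω] [CharZero Ω] (S : Set Ω)
    (hS : ¬ S.Countable) (n : ℕ) : ∃ T : Finset Ω, (T : Set Ω) ⊆ S ∧ T.card = n ∧
      AlgebraicIndepOn ℚ (id : Ω → Ω) (T : Set Ω) := by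
  classical
  induction n with
  | zero =>
    refine ⟨∅, by simp, rfl, ?_⟩
    rw [Finset.coe_empty]
    exact (algebraicIndependent_empty_type_iff ..).mpr (algebraMap ℚ Ω).injective
  | succ n ih =>
    obtain ⟨T, hTS, hT, hind⟩ := ih
    have hc : Countable (Algebra.adjoin ℚ ((id : Ω → Ω) '' (T : Set Ω))) :=
      countable_adjoin _ (T.countable_toSet.image _)
    have hc2 := Algebraic.countable (Algebra.adjoin ℚ ((id : Ω → Ω) '' (T : Set Ω))) Ω
    obtain ⟨x, hxS, hx⟩ : ∃ x ∈ S, ¬ IsAlgebraic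
        (Algebra.adjoin ℚ ((id : Ω → Ω) '' (T : Set Ω))) x := by
      by_contra hcon
      push Not at hcon
      exact hS (hc2.mono fun x hx => hcon x hx)
    have hind2 := AlgebraicIndepOn.insert (i := x) hind hx
    have hxT : x ∉ T := by
      intro hxT
      refine hx ?_
      have hm : x ∈ Algebra.adjoin ℚ ((id : Ω → Ω) '' (T : Set Ω)) :=
        Algebra.subset_adjoin ⟨x, hxT, rfl⟩
      exact isAlgebraic_algebraMap
        (⟨x, hm⟩ : Algebra.adjoin ℚ ((id : Ω → Ω) '' (T : Set Ω)))
    refine ⟨insert x T, ?_, ?_, ?_⟩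
    · intro y hy
      rw [Finset.coe_insert] at hy
      rcases hy with rfl | hy
      · exact hxS
      · exact hTS hy
    · rw [Finset.card_insert_of_notMem hxT, hT]
    · rw [Finset.coe_insert]
      exact hind2

/-- 13 independent elements in an uncountable set -/
theorem exists_indep_fin {Ω : Type} [Field Ω] [CharZero Ω] (S : Set Ω)
    (hS : ¬ S.Countable) : ∃ v : Fin 13 → Ω, (∀ i, v i ∈ S) ∧ AlgebraicIndependent ℚ v := by
  obtain ⟨T, hTS, hT, hind⟩ := exists_indep_of_uncountable S hS 13
  let e : Fin 13 ≃ T := (T.equivFinOfCardEq hT).symm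
  refine ⟨fun i => (e i : Ω), fun i => hTS (e i).2, ?_⟩
  exact hind.comp (fun i => (⟨(e i : Ω), (e i).2⟩ : (T : Set Ω)))
    (fun i j h => e.injective (Subtype.ext (by simpa using h)))

/-- the series without constant term are uncountably many -/
theorem uncountable_series :
    ¬ {f : LaurentSeries ℚ | ∃ p : PowerSeries ℚ, PowerSeries.constantCoeff p = 0 ∧
      HahnSeries.ofPowerSeries ℤ ℚ p = f}.Countable := by
  classical
  intro hc
  have := hc.to_subtype
  obtain ⟨F, hF⟩ := exists_injective_nat {f : LaurentSeries ℚ | ∃ p : PowerSeries ℚ,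
    PowerSeries.constantCoeff p = 0 ∧ HahnSeries.ofPowerSeries ℤ ℚ p = f}
  let G : Set ℕ → {f : LaurentSeries ℚ | ∃ p : PowerSeries ℚ,
    PowerSeries.constantCoeff p = 0 ∧ HahnSeries.ofPowerSeries ℤ ℚ p = f} := fun A =>
      ⟨HahnSeries.ofPowerSeries ℤ ℚ (PowerSeries.mk (fun n =>
        if n = 0 then 0 else if (n - 1) ∈ A then 1 else 0)), _, by
          rw [← PowerSeries.coeff_zero_eq_constantCoeff_apply, PowerSeries.coeff_mk, if_pos rfl],
          rfl⟩
  have hG : Function.Injective G := by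
    intro A B hAB
    have h1 := HahnSeries.ofPowerSeries_injective (Subtype.ext_iff.mp hAB)
    ext n
    have h2 := congrArg (PowerSeries.coeff (n + 1)) h1
    rw [PowerSeries.coeff_mk, PowerSeries.coeff_mk] at h2
    simp only [Nat.add_eq_zero_iff, one_ne_zero, and_false, if_false, Nat.add_sub_cancel] at h2
    by_cases hA : n ∈ A <;> by_cases hB : n ∈ B <;> simp_all
  exact Function.cantor_injective (F ∘ G) (hF.comp hG)

theorem exists_core : ∃ (Ω : Type) (_ : Field Ω) (_ : CharZero Ω) (v : Fin 13 → Ω)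
    (Y : Fin 11 → Ω), AlgebraicIndependent ℚ v ∧
    (∀ i, Y i ^ 2 = v i.succ.succ ^ 3 + v 0 * v i.succ.succ + (v 1 + 1)) ∧
    ∀ (L : Type) [Field L] [CharZero L], ∃ (ΩL : Type) (_ : Field ΩL) (_ : Algebra L ΩL)
      (ι : Ω →+* ΩL), LinDisj L Ω ΩL ι := by
  have hchar : CharZero (LaurentSeries ℚ) :=
    charZero_of_injective_ringHom (HahnSeries.C_injective (Γ := ℤ) (R := ℚ))
  obtain ⟨v, hv, hind⟩ := exists_indep_fin _ uncountable_series
  choose p hp0 hp using hv
  have hsq : ∀ i : Fin 11, ∃ g : PowerSeries ℚ, g ^ 2 =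
      (p i.succ.succ) ^ 3 + p 0 * p i.succ.succ + (p 1 + 1) := by
    intro i
    refine exists_sqrt_powerSeries two_ne_zero _ 1 one_ne_zero ?_
    simp [hp0]
  choose g hg using hsq
  refine ⟨LaurentSeries ℚ, inferInstance, hchar, v,
    fun i => HahnSeries.ofPowerSeries ℤ ℚ (g i), hind, ?_, ?_⟩
  · intro i
    rw [← hp, ← hp, ← hp, ← map_pow, hg]
    simp only [map_add, map_mul, map_pow, map_one]
  · intro L _ _
    exact ⟨LaurentSeries L, inferInstance,
      (HahnSeries.C : L →+* LaurentSeries L).toAlgebra, lmapHom (algebraMap ℚ L),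
      linDisj_laurent L⟩

end GenericAux

/-- C4 : a generic configuration whose field of definition is geometrically irreducible. -/
theorem exists_generic : ∃ (Ω : Type) (_ : Field Ω) (_ : CharZero Ω) (a b : Ω) (X Y : Fin 11 → Ω),
    (∀ i, Y i ^ 2 = X i ^ 3 + a * X i + b) ∧
    ∀ (L : Type) [Field L] [CharZero L], ∃ (ΩL : Type) (_ : Field ΩL) (_ : Algebra L ΩL)
      (ι : Ω →+* ΩL),
      Function.Injective (Algebra.TensorProduct.productMap (algebraMap L ΩL).toIntAlgHom
        ι.toIntAlgHom : L ⊗[ℤ] Ω →ₐ[ℤ] ΩL) ∧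
      AlgebraicIndependent L (params (ι a) (ι b) (ι ∘ X)) := by
  obtain ⟨Ω, _, _, v, Y, hv0, hY, hL⟩ := exists_core
  let c : Fin 13 → ℚ := fun i => if i = 1 then 1 else 0
  have hv := algebraicIndependent_shift v hv0 c
  refine ⟨Ω, inferInstance, inferInstance, v 0, v 1 + 1, fun i => v i.succ.succ, Y, hY, ?_⟩
  intro L _ _
  obtain ⟨ΩL, _, _, ι, hι⟩ := hL L
  refine ⟨ΩL, inferInstance, inferInstance, ι, productMap_injective _ hι, ?_⟩
  have h := algebraicIndependent_of_linDisj _ hι _ hv
  have h2 : params (ι (v 0)) (ι (v 1 + 1)) (ι ∘ fun i => v i.succ.succ) =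
      fun i => ι (v i + algebraMap ℚ Ω (c i)) := by
    funext i
    refine Fin.cases ?_ (fun i => Fin.cases ?_ (fun i => ?_) i) i
    · simp [params, c]
    · simp [params, c]
    · have h3 : (i.succ.succ : Fin 13) ≠ 1 := by
        intro h
        have := congrArg Fin.val h
        simp at this
      change ι (v i.succ.succ) = ι (v i.succ.succ + algebraMap ℚ Ω (c i.succ.succ))
      rw [show c i.succ.succ = 0 from if_neg h3, map_zero, add_zero]
  rw [h2]
  exact h

end Pool.Agent.Helper49.Irr
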