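import Mathlib

/-!
# An unramified map from a polynomial ring which is injective for dimension reasons
-/

namespace Pool.Agent.Helper49.Irr

open MvPolynomial

/-- A3 -/
theorem injective_of_unramified {B : Type} [CommRing B] [IsDomain B] [CharZero B]
    [Algebra.FiniteType ℤ B] {d : ℕ} [Algebra (MvPolynomial (Fin d) ℤ) B] (Q : Ideal B) [Q.IsPrime]
    [Algebra.IsUnramifiedAt (MvPolynomial (Fin d) ℤ) Q] (K : Type) [Field K] [Algebra B K]
    [IsFractionRing B K] (u : Fin d → K) (hu : AlgebraicIndependent ℤ u) :
    Function.Injective (algebraMap (MvPolynomial (Fin d) ℤ) B) := by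
  let P := MvPolynomial (Fin d) ℤ
  let BQ := Localization.AtPrime Q
  have hBK : Function.Injective (algebraMap B K) := IsFractionRing.injective B K
  have : CharZero K := charZero_of_injective_algebraMap hBK
  -- `K` as an algebra over `B_Q` and over `P`
  have hunit : ∀ y : Q.primeCompl, IsUnit (algebraMap B K y) := fun y => by
    rw [isUnit_iff_ne_zero]
    intro h
    have h0 : (y : B) = 0 := (map_eq_zero_iff _ hBK).mp h
    exact y.2 (h0 ▸ Q.zero_mem)
  let _ : Algebra BQ K := (IsLocalization.lift (M := Q.primeCompl) hunit : BQ →+* K).toAlgebra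
  have : IsScalarTower B BQ K := .of_algebraMap_eq fun x => (IsLocalization.lift_eq hunit x).symm
  have hfr : IsFractionRing BQ K :=
    IsFractionRing.isFractionRing_of_isDomain_of_isLocalization Q.primeCompl BQ K
  have h1 : Algebra.FormallyUnramified BQ K :=
    Algebra.FormallyUnramified.of_isLocalization (nonZeroDivisors BQ)
  let _ : Algebra P K := ((algebraMap B K).comp (algebraMap P B)).toAlgebra
  have : IsScalarTower P B K := .of_algebraMap_eq' rfl
  have : IsScalarTower P BQ K := .of_algebraMap_eq fun x => by
    rw [IsScalarTower.algebraMap_apply P B BQ, ← IsScalarTower.algebraMap_apply B BQ K,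
      ← IsScalarTower.algebraMap_apply P B K]
  have h2 : Algebra.FormallyUnramified P K := Algebra.FormallyUnramified.comp P BQ K
  -- the ring generated by the images of the variables
  let t : Fin d → K := fun i => algebraMap P K (X i)
  let A0 := Algebra.adjoin ℤ (Set.range t)
  have hat : ∀ p : P, aeval t p = algebraMap P K p := by
    intro p
    have : ((aeval t : P →ₐ[ℤ] K) : P →+* K) = algebraMap P K := by
      refine MvPolynomial.ringHom_ext (fun r => ?_) (fun i => ?_)
      · simp
      · simp [t]
    exact congrArg (fun f : P →+* K => f p) this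
  have hmem : ∀ p : P, algebraMap P K p ∈ A0 := by
    intro p
    rw [← hat p]
    have : (aeval t : P →ₐ[ℤ] K) p ∈ (aeval t : P →ₐ[ℤ] K).range := ⟨p, rfl⟩
    rwa [← Algebra.adjoin_range_eq_range_aeval] at this
  let _ : Algebra P A0 := ((algebraMap P K).codRestrict A0 hmem).toAlgebra
  have : IsScalarTower P A0 K := .of_algebraMap_eq fun x => rfl
  let F := FractionRing A0
  have : FaithfulSMul A0 K := (faithfulSMul_iff_algebraMap_injective A0 K).mpr
    Subtype.val_injective
  let _ : Algebra F K := FractionRing.liftAlgebra A0 K
  have : IsScalarTower A0 F K := FractionRing.isScalarTower_liftAlgebra A0 K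
  have : IsScalarTower P A0 F := inferInstance
  have : IsScalarTower P F K := .of_algebraMap_eq fun x => by
    rw [IsScalarTower.algebraMap_apply P A0 F, ← IsScalarTower.algebraMap_apply A0 F K,
      ← IsScalarTower.algebraMap_apply P A0 K]
  have h3 : Algebra.FormallyUnramified F K := Algebra.FormallyUnramified.of_restrictScalars P F K
  have h4 : Algebra.EssFiniteType B K := Algebra.EssFiniteType.of_isLocalization K
    (nonZeroDivisors B)
  have h5 : Algebra.EssFiniteType ℤ K := Algebra.EssFiniteType.comp ℤ B K
  have h6 : Algebra.EssFiniteType F K := Algebra.EssFiniteType.of_comp ℤ F K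
  have h7 : Algebra.IsSeparable F K := Algebra.FormallyUnramified.isSeparable F K
  have h8 : Algebra.IsAlgebraic A0 K :=
    (IsFractionRing.comap_isAlgebraic_iff (A := A0) (K := F) (C := K)).mpr inferInstance
  have h9 : Algebra.IsAlgebraic (Algebra.adjoin ℤ (Set.range t)) K := h8
  have h10 : IsTranscendenceBasis ℤ t := by
    refine Algebra.IsAlgebraic.isTranscendenceBasis_of_le_trdeg_of_finite ℤ t ?_
    exact hu.cardinalMk_le_trdeg
  have h11 : Function.Injective (aeval t : P →ₐ[ℤ] K) := h10.1
  intro p q hpq
  apply h11
  rw [hat, hat, IsScalarTower.algebraMap_apply P B K, IsScalarTower.algebraMap_apply P B K]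
  exact congrArg _ hpq

end Pool.Agent.Helper49.Irr
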