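import Pool.Agent.Helper49.Irr.GenRatio

/-!
# Normal form over the ratio field, and absence of homogeneous derivations (module C3')
-/

namespace Pool.Agent.Helper49.Irr

open Dat

/-- the discriminant of a generic Weierstrass equation does not vanish. -/
theorem disc_ne_zero {L Ω : Type*} [Field L] [CharZero L] [Field Ω] [Algebra L Ω] {a b : Ω}
    {X : Fin 11 → Ω} (hu : AlgebraicIndependent L (params a b X)) :
    4 * a ^ 3 + 27 * b ^ 2 ≠ 0 := by
  intro h0
  have h1 := (algebraicIndependent_iff.mp hu)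
    (4 * MvPolynomial.X 0 ^ 3 + 27 * MvPolynomial.X 1 ^ 2) (by
      simp only [map_add, map_mul, map_pow, MvPolynomial.aeval_X, map_ofNat]
      exact h0)
  have h2 := congrArg (MvPolynomial.aeval (fun i : Fin 13 => if i = 0 then (1 : L) else 0)) h1
  simp only [map_add, map_mul, map_pow, MvPolynomial.aeval_X, map_ofNat, map_zero] at h2
  norm_num at h2

/-- The relation between a derivation and the weights on the ratio field. -/
theorem deriv_eq_zero {L Ω : Type*} [Field L] [Field Ω] [CharZero Ω] [Algebra L Ω]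
    {E : Dat (Fin 11) Ω} (h : E.Rel) (h1 : E.a1 = 0) (h2 : E.a2 = 0) (h3 : E.a3 = 0)
    (hne : ∀ i j k, i ≠ j → j ≠ k → i ≠ k → E.x i j ≠ E.x j k)
    (hy : ∀ i j, i ≠ j → E.y i j ≠ 0) {J₀ : Finset (Fin 11)} {l : Ω} (hlG : l ∈ E.G J₀)
    (hl : l ≠ 0)
    (hs : ∀ i j k, i ≠ j → j ≠ k → i ≠ k → E.s i j k / l ∈ ratioField L E)
    (hx : ∀ i j, i ≠ j → E.x i j / l ^ 2 ∈ ratioField L E)
    (hyK : ∀ i j, i ≠ j → E.y i j / l ^ 3 ∈ ratioField L E)
    (ha : E.a4 / l ^ 4 ∈ ratioField L E) (hb : E.a6 / l ^ 6 ∈ ratioField L E)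
    (D : Derivation L (ratioField L E) (ratioField L E)) (c : ratioField L E)
    (hDa : D ⟨_, ha⟩ = 4 * c * ⟨_, ha⟩) (hDb : D ⟨_, hb⟩ = 6 * c * ⟨_, hb⟩)
    (hDx : ∀ i : Fin 10, D ⟨_, hx i.succ 0 (Fin.succ_ne_zero i)⟩
      = 2 * c * ⟨_, hx i.succ 0 (Fin.succ_ne_zero i)⟩) : D = 0 ∧ c = 0 := by
  -- ordinates
  have hDy : ∀ i : Fin 10, D ⟨_, hyK i.succ 0 (Fin.succ_ne_zero i)⟩
      = 3 * c * ⟨_, hyK i.succ 0 (Fin.succ_ne_zero i)⟩ := by
    intro i
    have hi : i.succ ≠ 0 := Fin.succ_ne_zero i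
    set ξ : ratioField L E := ⟨_, hx i.succ 0 hi⟩ with hξ
    set η : ratioField L E := ⟨_, hyK i.succ 0 hi⟩ with hη
    set α : ratioField L E := ⟨_, ha⟩ with hα
    set β : ratioField L E := ⟨_, hb⟩ with hβ
    have e : η ^ 2 = ξ ^ 3 + α * ξ + β := by
      apply Subtype.ext
      have h4 := h.weier i.succ 0 hi
      rw [h1, h2, h3] at h4
      change (E.y i.succ 0 / l ^ 3) ^ 2 = (E.x i.succ 0 / l ^ 2) ^ 3
        + (E.a4 / l ^ 4) * (E.x i.succ 0 / l ^ 2) + E.a6 / l ^ 6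
      field_simp
      linear_combination h4
    have e' := congrArg D e
    simp only [map_add, Derivation.leibniz, Derivation.leibniz_pow, smul_eq_mul, nsmul_eq_mul] at e'
    have hη0 : η ≠ 0 := by
      intro h0
      have h5 : E.y i.succ 0 / l ^ 3 = 0 := congrArg Subtype.val h0
      rcases div_eq_zero_iff.mp h5 with h6 | h6
      · exact hy _ _ hi h6
      · exact (pow_ne_zero 3 hl) h6
    rw [hDx i, hDa, hDb] at e'
    have h20 : (2 : ratioField L E) ≠ 0 := two_ne_zero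
    apply mul_left_cancel₀ (mul_ne_zero h20 hη0)
    push_cast at e'
    simp only [pow_one] at e'
    linear_combination e' - 6 * c * e
  -- slopes with third index 0
  have hDs0 : ∀ i j : Fin 10, ∀ hij : i.succ ≠ j.succ,
      D ⟨_, hs i.succ j.succ 0 hij (Fin.succ_ne_zero j) (Fin.succ_ne_zero i)⟩
      = c * ⟨_, hs i.succ j.succ 0 hij (Fin.succ_ne_zero j) (Fin.succ_ne_zero i)⟩ := by
    intro i j hij
    have hi : i.succ ≠ 0 := Fin.succ_ne_zero i
    have hj : j.succ ≠ 0 := Fin.succ_ne_zero j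
    have hDyi := hDy i
    have hDyj := hDy j
    have hDxi := hDx i
    have hDxj := hDx j
    set ξi : ratioField L E := ⟨_, hx i.succ 0 hi⟩ with hξi
    set ηi : ratioField L E := ⟨_, hyK i.succ 0 hi⟩ with hηi
    set ξj : ratioField L E := ⟨_, hx j.succ 0 hj⟩ with hξj
    set ηj : ratioField L E := ⟨_, hyK j.succ 0 hj⟩ with hηj
    set S : ratioField L E := ⟨_, hs i.succ j.succ 0 hij hj hi⟩ with hS
    have hne' : ξj - ξi ≠ 0 := by
      intro h0
      have h5 : E.x j.succ 0 / l ^ 2 - E.x i.succ 0 / l ^ 2 = 0 := congrArg Subtype.val h0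
      have h6 := hne j.succ 0 i.succ hj hi.symm hij.symm
      rw [h.x_symm i.succ 0 hi] at h6
      apply h6
      have h7 : l ^ 2 ≠ 0 := pow_ne_zero 2 hl
      field_simp at h5
      rw [mul_zero] at h5
      exact sub_eq_zero.mp h5
    have e : S * (ξj - ξi) = ηj + ηi := by
      apply Subtype.ext
      change (E.s i.succ j.succ 0 / l) * (E.x j.succ 0 / l ^ 2 - E.x i.succ 0 / l ^ 2)
        = E.y j.succ 0 / l ^ 3 + E.y i.succ 0 / l ^ 3
      have h4 := h.slope j.succ 0 i.succ hj hi.symm hij.symm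
      rw [h.s_cyc i.succ j.succ 0 hij hj hi, h.x_symm i.succ 0 hi] at h4
      have h5 := h.y_symm i.succ 0 hi
      rw [h1, h3] at h5
      field_simp
      linear_combination - h4 - h5
    have e' := congrArg D e
    simp only [map_add, map_sub, Derivation.leibniz, smul_eq_mul] at e'
    rw [hDyi, hDyj, hDxi, hDxj] at e'
    apply mul_left_cancel₀ hne'
    linear_combination e' - 3 * c * e
  -- equality of slopes
  have hcongr : ∀ {z w : Ω} (hz : z ∈ ratioField L E) (hw : w ∈ ratioField L E), z = w →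
      D ⟨w, hw⟩ = c * ⟨w, hw⟩ → D ⟨z, hz⟩ = c * ⟨z, hz⟩ := by
    intro z w hz hw e hD
    subst e
    exact hD
  -- all slopes
  have hDs : ∀ i j k : Fin 11, ∀ (hij : i ≠ j) (hjk : j ≠ k) (hik : i ≠ k),
      D ⟨_, hs i j k hij hjk hik⟩ = c * ⟨_, hs i j k hij hjk hik⟩ := by
    have key0 : ∀ i j : Fin 11, ∀ (hij : i ≠ j) (hj : j ≠ 0) (hi : i ≠ 0),
        D ⟨_, hs i j 0 hij hj hi⟩ = c * ⟨_, hs i j 0 hij hj hi⟩ := by
      intro i j hij hj hi
      obtain ⟨i', rfl⟩ := Fin.exists_succ_eq.mpr hi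
      obtain ⟨j', rfl⟩ := Fin.exists_succ_eq.mpr hj
      exact hDs0 i' j' hij
    intro i j k hij hjk hik
    by_cases hk : k = 0
    · subst hk
      exact key0 i j hij hjk hik
    by_cases hj : j = 0
    · subst hj
      refine hcongr _ (hs k i 0 hik.symm hij hk) ?_ (key0 k i hik.symm hij hk)
      rw [h.s_cyc' hij hjk hik]
    by_cases hi : i = 0
    · subst hi
      refine hcongr _ (hs j k 0 hjk hk hj) ?_ (key0 j k hjk hk hj)
      rw [h.s_cyc 0 j k hij hjk hik]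
    have e : (⟨_, hs i j k hij hjk hik⟩ : ratioField L E)
        = ⟨_, hs i j 0 hij hj hi⟩ + ⟨_, hs j k 0 hjk hk hj⟩ + ⟨_, hs k i 0 hik.symm hi hk⟩ := by
      apply Subtype.ext
      change E.s i j k / l = E.s i j 0 / l + E.s j k 0 / l + E.s k i 0 / l
      have h4 := h.s_decomp hij hik hi hjk hj hk
      rw [h1] at h4
      rw [h4]
      ring
    rw [e, map_add, map_add, key0 i j hij hj hi, key0 j k hjk hk hj, key0 k i hik.symm hi hk]
    ring
  -- elements of `G J`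
  have hDG : ∀ (J : Finset (Fin 11)) (g : Ω), g ∈ E.G J →
      ∃ hg : g / l ∈ ratioField L E, D ⟨g / l, hg⟩ = c * ⟨g / l, hg⟩ := by
    rintro J g ⟨i, j, k, i', j', k', hT, hT', rfl⟩
    have m1 := hs i j k hT.hab hT.hbc hT.hac
    have m2 := hs i' j' k' hT'.hab hT'.hbc hT'.hac
    have e : (E.s i j k - E.s i' j' k') / l = E.s i j k / l - E.s i' j' k' / l := sub_div _ _ _
    refine ⟨e ▸ sub_mem m1 m2, ?_⟩
    have e' : (⟨(E.s i j k - E.s i' j' k') / l, e ▸ sub_mem m1 m2⟩ : ratioField L E)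
        = ⟨_, m1⟩ - ⟨_, m2⟩ := Subtype.ext e
    rw [e', map_sub, hDs i j k hT.hab hT.hbc hT.hac, hDs i' j' k' hT'.hab hT'.hbc hT'.hac]
    ring
  have hc : c = 0 := by
    obtain ⟨hg, hD⟩ := hDG J₀ l hlG
    have e : (⟨l / l, hg⟩ : ratioField L E) = 1 := Subtype.ext (div_self hl)
    rw [e, Derivation.map_one_eq_zero, mul_one] at hD
    exact hD.symm
  refine ⟨?_, hc⟩
  have hall : ∀ (z : Ω) (hz : z ∈ ratioField L E), D ⟨z, hz⟩ = 0 := by
    intro z hz
    refine IntermediateField.adjoin_induction L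
      (p := fun z hz => D (⟨z, hz⟩ : ratioField L E) = 0) ?_ ?_ ?_ ?_ ?_ hz
    · rintro z ⟨J, hJ, g, hg, g', hg', hg0, rfl⟩
      obtain ⟨m1, d1⟩ := hDG J g hg
      obtain ⟨m2, d2⟩ := hDG J g' hg'
      rw [hc, zero_mul] at d1 d2
      have e : (⟨g / g', IntermediateField.subset_adjoin _ _ ⟨J, hJ, g, hg, g', hg', hg0, rfl⟩⟩ :
          ratioField L E) = ⟨g / l, m1⟩ / ⟨g' / l, m2⟩ := by
        apply Subtype.ext
        change g / g' = (g / l) / (g' / l)
        rw [div_div_div_cancel_right₀ hl]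
      rw [e, Derivation.leibniz_div, d1, d2]
      simp
    · intro x
      exact D.map_algebraMap x
    · intro x y hx' hy' dx dy
      have e : (⟨x + y, add_mem hx' hy'⟩ : ratioField L E) = ⟨x, hx'⟩ + ⟨y, hy'⟩ := rfl
      rw [e, map_add, dx, dy, add_zero]
    · intro x hx' dx
      have e : (⟨x⁻¹, inv_mem hx'⟩ : ratioField L E) = (⟨x, hx'⟩)⁻¹ := rfl
      rw [e, Derivation.leibniz_inv, dx, smul_zero]
    · intro x y hx' hy' dx dy
      have e : (⟨x * y, mul_mem hx' hy'⟩ : ratioField L E) = ⟨x, hx'⟩ * ⟨y, hy'⟩ := rfl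
      rw [e, Derivation.leibniz, dx, dy, smul_zero, smul_zero, add_zero]
  ext z
  exact congrArg Subtype.val (hall z.1 z.2)

/-- C3' : normal form over the ratio field, and absence of homogeneous derivations. -/
theorem exists_normalForm {L Ω : Type*} [Field L] [CharZero L] [Field Ω] [Algebra L Ω] {a b : Ω}
    {X Y : Fin 11 → Ω}
    (hu : AlgebraicIndependent L (params a b X)) (hY : ∀ i, Y i ^ 2 = X i ^ 3 + a * X i + b) :
    ∃ (α β : ratioField L (genDat a b X Y)) (ξ η : Fin 10 → ratioField L (genDat a b X Y)),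
      4 * α ^ 3 + 27 * β ^ 2 ≠ 0 ∧ (∀ i, η i ^ 2 = ξ i ^ 3 + α * ξ i + β) ∧ (∀ i, η i ≠ 0) ∧
      ∀ (D : Derivation L (ratioField L (genDat a b X Y)) (ratioField L (genDat a b X Y)))
        (c : ratioField L (genDat a b X Y)), D α = 4 * c * α → D β = 6 * c * β →
        (∀ i, D (ξ i) = 2 * c * ξ i) → D = 0 ∧ c = 0 := by
  have hch := charZero_of_algebra L Ω
  obtain ⟨hX, hne⟩ := genDat_x_ne hu hY
  have h := genDat_rel hY hX hne
  have hy : ∀ i j, i ≠ j → (genDat a b X Y).y i j ≠ 0 := fun i j hij => genDat_y_ne hu hY hij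
  obtain ⟨J₀, hJ₀, l, hlG, hl, hs, hx, hyK, ha, hb⟩ :=
    exists_scale (L := L) h rfl rfl rfl hy
  have hdisc := disc_ne_zero hu
  refine ⟨⟨_, ha⟩, ⟨_, hb⟩, fun i => ⟨_, hx i.succ 0 (Fin.succ_ne_zero i)⟩,
    fun i => ⟨_, hyK i.succ 0 (Fin.succ_ne_zero i)⟩, ?_, ?_, ?_, ?_⟩
  · intro h0
    have h1 : 4 * (a / l ^ 4) ^ 3 + 27 * (b / l ^ 6) ^ 2 = 0 := congrArg Subtype.val h0
    apply hdisc
    have h2 : 4 * (a / l ^ 4) ^ 3 + 27 * (b / l ^ 6) ^ 2
        = (4 * a ^ 3 + 27 * b ^ 2) / l ^ 12 := by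
      field_simp
    rw [h2] at h1
    exact (div_eq_zero_iff.mp h1).resolve_right (pow_ne_zero 12 hl)
  · intro i
    apply Subtype.ext
    have h4 := h.weier i.succ 0 (Fin.succ_ne_zero i)
    have e1 : (genDat a b X Y).a1 = 0 := rfl
    have e2 : (genDat a b X Y).a2 = 0 := rfl
    have e3 : (genDat a b X Y).a3 = 0 := rfl
    rw [e1, e2, e3] at h4
    change ((genDat a b X Y).y i.succ 0 / l ^ 3) ^ 2 = ((genDat a b X Y).x i.succ 0 / l ^ 2) ^ 3
      + ((genDat a b X Y).a4 / l ^ 4) * ((genDat a b X Y).x i.succ 0 / l ^ 2)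
        + (genDat a b X Y).a6 / l ^ 6
    field_simp
    linear_combination h4
  · intro i h0
    have h5 : (genDat a b X Y).y i.succ 0 / l ^ 3 = 0 := congrArg Subtype.val h0
    rcases div_eq_zero_iff.mp h5 with h6 | h6
    · exact hy _ _ (Fin.succ_ne_zero i) h6
    · exact (pow_ne_zero 3 hl) h6
  · intro D c hDa hDb hDx
    exact deriv_eq_zero h rfl rfl rfl hne hy hlG hl hs hx hyK ha hb D c hDa hDb hDx

end Pool.Agent.Helper49.Irr
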