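import Pool.Agent.Helper49.Irr.DefsB

/-!
# Function fields of the charts (module IR-B4)
-/

set_option autoImplicit false

namespace Pool.Agent.Helper49.Irr

open AlgebraicGeometry CategoryTheory Limits TensorProduct

/-- the function field receives the ring of an affine base -/
noncomputable def ffHom {X : Scheme.{0}} [IrreducibleSpace X] {R : CommRingCat.{0}}
    (s : X ⟶ Spec R) : R ⟶ X.functionField :=
  Spec.preimage (X.fromSpecStalk (genericPoint X) ≫ s)

theorem map_ffHom {X : Scheme.{0}} [IrreducibleSpace X] {R : CommRingCat.{0}}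
    (s : X ⟶ Spec R) : Spec.map (ffHom s) = X.fromSpecStalk (genericPoint X) ≫ s :=
  Spec.map_preimage _

theorem ff_openImm {U X : Scheme.{0}} [IrreducibleSpace U] [IrreducibleSpace X] (f : U ⟶ X)
    [IsOpenImmersion f] {R : CommRingCat.{0}} (sX : X ⟶ Spec R) :
    ∃ e : X.functionField ≅ U.functionField, ffHom sX ≫ e.hom = ffHom (f ≫ sX) := by
  have h : f (genericPoint U) = genericPoint X := genericPoint_eq_of_isOpenImmersion f
  refine ⟨X.presheaf.stalkCongr (Inseparable.of_eq h.symm) ≪≫ asIso (f.stalkMap (genericPoint U)),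
    ?_⟩
  apply Spec.map_injective
  rw [Spec.map_comp, map_ffHom, map_ffHom]
  simp only [Iso.trans_hom, asIso_hom, Spec.map_comp, Category.assoc]
  rw [← Category.assoc (Spec.map (X.presheaf.stalkCongr _).hom)]
  have h1 : Spec.map (X.presheaf.stalkCongr (Inseparable.of_eq h.symm)).hom ≫
      X.fromSpecStalk (genericPoint X) = X.fromSpecStalk (f (genericPoint U)) :=
    Scheme.SpecMap_stalkSpecializes_fromSpecStalk (specializes_of_eq h)
  rw [h1, ← Category.assoc, Scheme.SpecMap_stalkMap_fromSpecStalk, Category.assoc]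

theorem ff_birational {X Y : Scheme.{0}} [IsIntegral X] [IsIntegral Y] {R : CommRingCat.{0}}
    {sX : X ⟶ Spec R} {sY : Y ⟶ Spec R} (h : Scheme.BirationalOver sX sY) :
    ∃ e : X.functionField ≅ Y.functionField, ffHom sX ≫ e.hom = ffHom sY := by
  let p := h.partialIso
  have hp : p.IsOver sX sY := h.partialIso_isOver
  have hs : Nonempty p.source := by
    obtain ⟨x, hx⟩ := p.dense_source.nonempty
    exact ⟨⟨x, hx⟩⟩
  have ht : Nonempty p.target := by
    obtain ⟨x, hx⟩ := p.dense_target.nonempty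
    exact ⟨⟨x, hx⟩⟩
  obtain ⟨e1, h1⟩ := ff_openImm p.source.ι sX
  obtain ⟨e2, h2⟩ := ff_openImm p.target.ι sY
  obtain ⟨e3, h3⟩ := ff_openImm p.iso.hom (p.target.ι ≫ sY)
  refine ⟨e1 ≪≫ e3.symm ≪≫ e2.symm, ?_⟩
  simp only [Iso.trans_hom, Iso.symm_hom]
  rw [← Category.assoc, h1, ← Category.assoc, Iso.comp_inv_eq, Iso.comp_inv_eq, h2, h3, hp]

/-- the function field of an affine integral scheme -/
theorem ff_affine' (A : CommRingCat.{0}) [IsDomain A] {R : CommRingCat.{0}} (φ : R ⟶ A) :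
    ∃ e : FractionRing A ≃+* (Spec A).functionField,
      ∀ r : R, e (algebraMap A (FractionRing A) (φ.hom r)) = (ffHom (Spec.map φ)).hom r := by
  let e := FractionRing.algEquiv A (Spec A).functionField
  refine ⟨e.toRingEquiv, fun r => ?_⟩
  have h1 : ffHom (Spec.map φ) = φ ≫ ((Scheme.ΓSpecIso A).inv ≫
      (Spec A).presheaf.germ ⊤ (genericPoint (Spec A)) trivial) := by
    apply Spec.map_injective
    rw [map_ffHom, Spec.map_comp, Spec.fromSpecStalk_eq]
  rw [h1]
  exact e.commutes _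

theorem frac_equiv_of_birational {A B : Type} [CommRing A] [IsDomain A] [Algebra ℂ A]
    [CommRing B] [IsDomain B] [Algebra ℂ B]
    (h : Scheme.BirationalOver (Spec.map (CommRingCat.ofHom (algebraMap ℂ A)))
      (Spec.map (CommRingCat.ofHom (algebraMap ℂ B)))) :
    Nonempty (FractionRing A ≃ₐ[ℂ] FractionRing B) := by
  have : IsDomain (CommRingCat.of A) := ‹IsDomain A›
  have : IsDomain (CommRingCat.of B) := ‹IsDomain B›
  obtain ⟨e, he⟩ := ff_birational h
  obtain ⟨eA, hA⟩ := ff_affine' (CommRingCat.of A) (CommRingCat.ofHom (algebraMap ℂ A))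
  obtain ⟨eB, hB⟩ := ff_affine' (CommRingCat.of B) (CommRingCat.ofHom (algebraMap ℂ B))
  refine ⟨AlgEquiv.ofRingEquiv
    (f := (eA.trans e.commRingCatIsoToRingEquiv).trans eB.symm) fun r => ?_⟩
  have h1 : algebraMap ℂ (FractionRing A) r =
      algebraMap A (FractionRing A) ((CommRingCat.ofHom (algebraMap ℂ A)).hom r) :=
    IsScalarTower.algebraMap_apply ℂ A (FractionRing A) r
  have h2 : algebraMap ℂ (FractionRing B) r =
      algebraMap B (FractionRing B) ((CommRingCat.ofHom (algebraMap ℂ B)).hom r) :=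
    IsScalarTower.algebraMap_apply ℂ B (FractionRing B) r
  have h3 : e.hom.hom ((ffHom (Spec.map (CommRingCat.ofHom (algebraMap ℂ A)))).hom r) =
      (ffHom (Spec.map (CommRingCat.ofHom (algebraMap ℂ B)))).hom r := by
    rw [← he]; rfl
  rw [h1, h2]
  refine (RingEquiv.symm_apply_eq eB).2 ?_
  rw [hB]
  refine Eq.trans ?_ h3
  change e.hom.hom (eA _) = _
  rw [hA]

/-! ### the geometry of the base change -/

section geometry

variable {K ι : Type} [Field K] {ψ : ι → K} (M : ProjModel ψ) (L : Type) [Field L]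

/-- the base change of the model to `L` -/
noncomputable abbrev baseL : Scheme.{0} :=
  pullback M.f (Spec.map (CommRingCat.ofHom (algebraMap ℤ L)))

/-- the chart `Spec (L ⊗ chartRing)` as a pullback of the chart -/
noncomputable def chartIso (i : ι) : Spec (.of (L ⊗[ℤ] chartRing ψ i)) ≅
    pullback (M.j i) (pullback.fst M.f (Spec.map (CommRingCat.ofHom (algebraMap ℤ L)))) :=
  Scheme.Spec.mapIso
    (Algebra.TensorProduct.comm ℤ (chartRing ψ i) L).toRingEquiv.toCommRingCatIso.op ≪≫
  (pullbackSpecIso ℤ (chartRing ψ i) L).symm ≪≫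
  pullback.congrHom (M.j_over i).symm rfl ≪≫
  (pullbackRightPullbackFstIso M.f (Spec.map (CommRingCat.ofHom (algebraMap ℤ L))) (M.j i)).symm

/-- the chart of the base change -/
noncomputable def chartMap (i : ι) : Spec (.of (L ⊗[ℤ] chartRing ψ i)) ⟶ baseL M L :=
  (chartIso M L i).hom ≫ pullback.snd _ _

instance (i : ι) : IsOpenImmersion (chartMap M L i) := by
  have := M.openImm i
  unfold chartMap
  infer_instance

theorem chartMap_snd (i : ι) : chartMap M L i ≫ pullback.snd _ _ =
    Spec.map (CommRingCat.ofHom (algebraMap L (L ⊗[ℤ] chartRing ψ i))) := by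
  simp only [chartMap, chartIso, Iso.trans_hom, Category.assoc, Iso.symm_hom,
    pullbackRightPullbackFstIso_inv_snd_snd, pullback.congrHom_hom]
  rw [pullback.lift_snd]
  simp only [Category.comp_id]
  rw [pullbackSpecIso_inv_snd]
  simp only [Functor.mapIso_hom, Iso.op_hom, Scheme.Spec_map, Quiver.Hom.unop_op]
  rw [← Spec.map_comp]
  congr 1

theorem range_chartMap (i : ι) : Set.range (chartMap M L i) =
    (pullback.fst M.f (Spec.map (CommRingCat.ofHom (algebraMap ℤ L)))) ⁻¹' Set.range (M.j i) := by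
  have := M.openImm i
  unfold chartMap
  rw [Scheme.Hom.comp_base, TopCat.coe_comp, Set.range_comp]
  have h1 : Set.range (chartIso M L i).hom = Set.univ := by
    rw [Set.range_eq_univ]
    exact (chartIso M L i).hom.surjective
  rw [h1, Set.image_univ]
  exact IsOpenImmersion.range_pullbackSnd _ _

theorem spec_field_int {F : Type} [Field F] [CharZero F] (x : Spec (.of F)) :
    (Spec.map (CommRingCat.ofHom (algebraMap ℤ F))) x = (⊥ : PrimeSpectrum ℤ) := by
  have h1 : (Spec.map (CommRingCat.ofHom (algebraMap ℤ F))) x =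
      PrimeSpectrum.comap (algebraMap ℤ F) x := rfl
  rw [h1]
  have hx : x = (⊥ : PrimeSpectrum F) := Subsingleton.elim _ _
  rw [hx]
  refine PrimeSpectrum.ext ?_
  rw [PrimeSpectrum.comap_asIdeal]
  exact (RingHom.injective_iff_ker_eq_bot (algebraMap ℤ F)).1 (RingHom.injective_int _)

theorem exists_common [CharZero K] [CharZero L] [Nonempty ι] :
    ∃ y : baseL M L, ∀ i, y ∈ Set.range (chartMap M L i) := by
  obtain ⟨i₀⟩ := ‹Nonempty ι›
  let x : Spec (.of K) := (⊥ : PrimeSpectrum K)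
  let z : Spec (.of L) := (⊥ : PrimeSpectrum L)
  have h1 : M.gen ≫ M.f = Spec.map (CommRingCat.ofHom (algebraMap ℤ K)) := by
    rw [← M.gen_eq i₀, Category.assoc, M.j_over, ← Spec.map_comp]
    rfl
  have h2 : M.f (M.gen x) = (Spec.map (CommRingCat.ofHom (algebraMap ℤ L))) z := by
    rw [spec_field_int]
    have h3 : M.f (M.gen x) = (M.gen ≫ M.f) x := rfl
    rw [h3, h1]
    exact spec_field_int x
  obtain ⟨y, hy, _⟩ := Scheme.Pullback.exists_preimage_pullback _ _ h2
  refine ⟨y, fun i => ?_⟩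
  rw [range_chartMap, Set.mem_preimage, hy]
  have h4 : M.gen x = (M.j i) ((Spec.map (CommRingCat.ofHom (algebraMap (chartRing ψ i) K))) x) := by
    rw [← M.gen_eq i]; rfl
  rw [h4]
  exact ⟨_, rfl⟩

theorem exists_chart (y : baseL M L) : ∃ i, y ∈ Set.range (chartMap M L i) := by
  obtain ⟨i, hi⟩ := M.cover ((pullback.fst M.f
    (Spec.map (CommRingCat.ofHom (algebraMap ℤ L)))) y)
  exact ⟨i, by rw [range_chartMap]; exact hi⟩

theorem chartMap_dominant [CharZero K] [CharZero L] [Nonempty ι]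
    (h : ∀ i : ι, IsDomain (L ⊗[ℤ] chartRing ψ i)) (i : ι) : IsDominant (chartMap M L i) := by
  refine ⟨?_⟩
  rw [DenseRange, dense_iff_inter_open]
  rintro W hW ⟨y, hy⟩
  obtain ⟨i', z, rfl⟩ := exists_chart M L y
  obtain ⟨y0, hy0⟩ := exists_common M L
  obtain ⟨z0, hz0⟩ := hy0 i'
  have := h i'
  have : IrreducibleSpace (Spec (.of (L ⊗[ℤ] chartRing ψ i'))) :=
    PrimeSpectrum.irreducibleSpace
  have hA : IsOpen ((chartMap M L i') ⁻¹' W) := hW.preimage (chartMap M L i').continuous
  have hB : IsOpen ((chartMap M L i') ⁻¹' Set.range (chartMap M L i)) :=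
    (chartMap M L i).isOpenEmbedding.isOpen_range.preimage (chartMap M L i').continuous
  obtain ⟨z1, hz1, hz2⟩ := nonempty_preirreducible_inter hA hB ⟨z, hy⟩
    ⟨z0, by rw [Set.mem_preimage, hz0]; exact hy0 i⟩
  exact ⟨_, hz1, hz2⟩

end geometry

/-- B4 -/
theorem ProjModel.nonempty_algEquiv {K ι : Type} [Field K] [CharZero K]
    {ψ : ι → K} (M : ProjModel ψ)
    (h : ∀ (L : Type) [Field L] [CharZero L] (i : ι), IsDomain (L ⊗[ℤ] chartRing ψ i)) (i : ι)
    (n : Type)
    (hb : Scheme.BirationalOver (pullback.snd M.f (Spec.map (CommRingCat.ofHom (algebraMap ℤ ℂ))))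
      (𝔸(n; Spec (.of ℂ)) ↘ Spec (.of ℂ))) :
    Nonempty (FractionRing (ℂ ⊗[ℤ] chartRing ψ i) ≃ₐ[ℂ] FractionRing (MvPolynomial n ℂ)) := by
  have : Nonempty ι := ⟨i⟩
  have := h ℂ i
  have := chartMap_dominant M ℂ (h ℂ) i
  have h1 : Scheme.BirationalOver
      (Spec.map (CommRingCat.ofHom (algebraMap ℂ (ℂ ⊗[ℤ] chartRing ψ i))))
      (pullback.snd M.f (Spec.map (CommRingCat.ofHom (algebraMap ℤ ℂ)))) :=
    (chartMap M ℂ i).birationalOver _ _ (chartMap_snd M ℂ i)
  have h2 : Scheme.BirationalOver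
      (Spec.map (CommRingCat.ofHom (algebraMap ℂ (MvPolynomial n ℂ))))
      (𝔸(n; Spec (.of ℂ)) ↘ Spec (.of ℂ)) :=
    (AffineSpace.SpecIso n (.of ℂ)).inv.birationalOver _ _
      (AffineSpace.SpecIso_inv_over (n := n) (.of ℂ))
  exact frac_equiv_of_birational ((h1.trans hb).trans h2.symm)

end Pool.Agent.Helper49.Irr
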