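import Pool.Agent.Helper49.Irr.DefsB

/-!
# Geometric integrality of the projective model (module B3 of MP_ec79f0_ag)
-/

namespace Pool.Agent.Helper49.Irr

open AlgebraicGeometry CategoryTheory Limits TensorProduct

/-- A scheme covered by integral open subschemes with pairwise intersections is integral. -/
theorem isIntegral_of_cover {ι : Type} [Nonempty ι] {Z : Scheme.{0}} (W : ι → Scheme.{0})
    (u : ∀ i, W i ⟶ Z) (hu : ∀ i, IsOpenImmersion (u i)) (hW : ∀ i, IsIntegral (W i))
    (hcov : ∀ z : Z, ∃ i, z ∈ Set.range (u i)) (z₀ : Z) (hz₀ : ∀ i, z₀ ∈ Set.range (u i)) :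
    IsIntegral Z := by
  have hred : IsReduced Z := by
    choose i hi using hcov
    let 𝒰 : Z.OpenCover := Scheme.Cover.mkOfCovers ι W u (fun z => ⟨i z, hi z⟩) hu
    have : ∀ i, IsReduced (𝒰.X i) := fun i => by
      have := hW i
      change IsReduced (W i)
      infer_instance
    exact IsReduced.of_openCover Z 𝒰
  have hirr : IrreducibleSpace Z := by
    have hne : Nonempty Z := ⟨z₀⟩
    let U : ι → TopologicalSpace.Opens Z := fun i => (u i).opensRange
    have hU : ∀ i, IsPreirreducible ((U i) : Set Z) := by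
      intro i
      have := hW i
      have h1 : IsPreirreducible (Set.univ : Set (W i)) :=
        PreirreducibleSpace.isPreirreducible_univ
      have h2 := h1.image (u i) (u i).continuous.continuousOn
      rw [Set.image_univ] at h2
      exact h2
    have hn : Pairwise (Function.onFun (fun a b => ¬ Disjoint a b) U) := by
      intro i j _ hd
      have h1 : z₀ ∈ (U i ⊓ U j) := ⟨hz₀ i, hz₀ j⟩
      rw [disjoint_iff.mp hd] at h1
      exact h1
    have h3 : IsPreirreducible (Set.univ : Set Z) := by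
      refine IsPreirreducible.of_subset_iUnion hn hU isOpen_univ ?_
      intro z _
      obtain ⟨i, hi⟩ := hcov z
      exact Set.mem_iUnion.mpr ⟨i, hi⟩
    have : PreirreducibleSpace Z := ⟨h3⟩
    exact ⟨inferInstance⟩
  exact isIntegral_of_irreducibleSpace_of_isReduced Z

/-- the spectrum of a field of characteristic zero maps to the generic point of `Spec ℤ`. -/
theorem specMap_int_eq (F : Type) [Field F] [CharZero F] (x : Spec (.of F)) :
    (Spec.map (CommRingCat.ofHom (algebraMap ℤ F))) x = (⊥ : PrimeSpectrum ℤ) := by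
  have hx : x = (⊥ : PrimeSpectrum F) := Subsingleton.elim (α := PrimeSpectrum F) _ _
  subst hx
  refine PrimeSpectrum.ext ?_
  change Ideal.comap (algebraMap ℤ F) ⊥ = ⊥
  exact Ideal.comap_bot_of_injective _ (algebraMap ℤ F).injective_int

theorem ProjModel.isIntegral_of_isPullback {K ι : Type} [Field K] [CharZero K] [Nonempty ι]
    {ψ : ι → K} (M : ProjModel ψ)
    (h : ∀ (L : Type) [Field L] [CharZero L] (i : ι), IsDomain (L ⊗[ℤ] chartRing ψ i))
    (L : Type) [Field L] [CharZero L] {Z : Scheme.{0}} (p : Z ⟶ M.X) (q : Z ⟶ Spec (.of L))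
    (hp : IsPullback p q M.f (Spec.map (CommRingCat.ofHom (algebraMap ℤ L)))) :
    IsIntegral Z := by
  have hopen := M.openImm
  -- the charts
  have hW : ∀ i, IsIntegral (pullback p (M.j i)) := by
    intro i
    have h1 := (IsPullback.of_hasPullback p (M.j i)).paste_horiz hp.flip
    rw [M.j_over i] at h1
    have e : pullback p (M.j i) ≅ Spec (.of (L ⊗[ℤ] chartRing ψ i)) :=
      h1.isoPullback ≪≫ pullbackSpecIso ℤ L (chartRing ψ i)
    have := h L i
    have h2 : IsIntegral (Spec (.of (L ⊗[ℤ] chartRing ψ i))) := inferInstance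
    have : Nonempty (pullback p (M.j i) : Scheme) :=
      ⟨e.inv h2.nonempty.some⟩
    exact isIntegral_of_isOpenImmersion e.hom
  -- the generic point
  obtain ⟨x₀⟩ : Nonempty (Spec (.of K)) := inferInstance
  obtain ⟨y₀⟩ : Nonempty (Spec (.of L)) := inferInstance
  have hgen : M.gen ≫ M.f = Spec.map (CommRingCat.ofHom (algebraMap ℤ K)) :=
    specZIsTerminal.hom_ext _ _
  have hpt : M.f (M.gen x₀) = (Spec.map (CommRingCat.ofHom (algebraMap ℤ L))) y₀ := by
    have h1 : M.f (M.gen x₀) = (Spec.map (CommRingCat.ofHom (algebraMap ℤ K))) x₀ := by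
      rw [← hgen]; rfl
    rw [h1, specMap_int_eq K x₀, specMap_int_eq L y₀]
  obtain ⟨z₀, hz₀, -⟩ := Scheme.Pullback.exists_preimage_pullback (f := M.f)
    (g := Spec.map (CommRingCat.ofHom (algebraMap ℤ L))) (M.gen x₀) y₀ hpt
  refine isIntegral_of_cover (fun i => pullback p (M.j i)) (fun i => pullback.fst p (M.j i))
    (fun i => inferInstance) hW ?_ (hp.isoPullback.inv z₀) ?_
  · intro z
    obtain ⟨i, hi⟩ := M.cover (p z)
    refine ⟨i, ?_⟩
    rw [Scheme.Pullback.range_fst]
    exact hi
  · intro i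
    rw [Scheme.Pullback.range_fst]
    change p (hp.isoPullback.inv z₀) ∈ Set.range (M.j i)
    have h1 : p (hp.isoPullback.inv z₀) = M.gen x₀ := by
      rw [← hz₀]
      have := hp.isoPullback_inv_fst
      rw [← this]; rfl
    rw [h1, ← M.gen_eq i]
    exact ⟨_, rfl⟩

/-- B3 -/
theorem ProjModel.geometricallyIntegral {K ι : Type} [Field K] [CharZero K] [Nonempty ι]
    {ψ : ι → K} (M : ProjModel ψ)
    (h : ∀ (L : Type) [Field L] [CharZero L] (i : ι), IsDomain (L ⊗[ℤ] chartRing ψ i)) :
    GeometricallyIntegral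
      (pullback.snd M.f (Spec.map (CommRingCat.ofHom (algebraMap ℤ ℚ)))) := by
  refine ⟨fun L _ y Z fst snd hZ => ?_⟩
  obtain ⟨φ, rfl⟩ := Spec.map_surjective y
  have : CharZero L := charZero_of_injective_ringHom φ.hom.injective
  have h1 := hZ.paste_horiz (IsPullback.of_hasPullback M.f
    (Spec.map (CommRingCat.ofHom (algebraMap ℤ ℚ))))
  have h2 : Spec.map φ ≫ Spec.map (CommRingCat.ofHom (algebraMap ℤ ℚ)) =
      Spec.map (CommRingCat.ofHom (algebraMap ℤ L)) := specZIsTerminal.hom_ext _ _
  rw [h2] at h1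
  exact M.isIntegral_of_isPullback h L _ _ h1

end Pool.Agent.Helper49.Irr
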