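import Pool.Agent.Helper49.Irr.DefsB

/-!
# The projective model is smooth of given relative dimension
-/

namespace Pool.Agent.Helper49.Irr

open AlgebraicGeometry CategoryTheory

theorem locally_standardSmooth {B : Type} [CommRing B] (n : ℕ)
    (h : ∀ (P : Ideal B) [P.IsPrime], ∃ g ∉ P,
      Algebra.IsStandardSmoothOfRelativeDimension n ℤ (Localization.Away g)) :
    RingHom.Locally (RingHom.IsStandardSmoothOfRelativeDimension n) (algebraMap ℤ B) := by
  refine ⟨{g | Algebra.IsStandardSmoothOfRelativeDimension n ℤ (Localization.Away g)}, ?_, ?_⟩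
  · by_contra hne
    obtain ⟨m, hm, hle⟩ := Ideal.exists_le_maximal _ hne
    obtain ⟨g, hg, hs⟩ := h m
    exact hg (hle (Ideal.subset_span hs))
  · intro t ht
    have h1 : (algebraMap B (Localization.Away t)).comp (algebraMap ℤ B)
        = algebraMap ℤ (Localization.Away t) := RingHom.ext_int _ _
    rw [h1]
    exact (RingHom.isStandardSmoothOfRelativeDimension_algebraMap n).mpr ht

/-- B2, with the relative dimension -/
theorem ProjModel.smoothOfRelativeDimension {K ι : Type} [Field K] [Finite ι] {ψ : ι → K}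
    (M : ProjModel ψ) (n : ℕ)
    (h : ∀ i (P : Ideal (chartRing ψ i)) [P.IsPrime], ∃ g ∉ P,
      Algebra.IsStandardSmoothOfRelativeDimension n ℤ (Localization.Away g)) :
    AlgebraicGeometry.SmoothOfRelativeDimension n M.f := by
  have := M.openImm
  have hU : ⨆ i, (M.j i).opensRange = ⊤ := by
    rw [eq_top_iff]
    intro x _
    obtain ⟨i, hi⟩ := M.cover x
    exact TopologicalSpace.Opens.mem_iSup.mpr ⟨i, hi⟩
  rw [IsZariskiLocalAtSource.iff_of_iSup_eq_top (P := @SmoothOfRelativeDimension n) _ hU]
  intro i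
  have h1 : (M.j i).opensRange.ι ≫ M.f = (M.j i).isoOpensRange.inv ≫ (M.j i ≫ M.f) := by
    rw [← Category.assoc, Scheme.Hom.isoOpensRange_inv_comp]
  rw [h1, MorphismProperty.cancel_left_of_respectsIso (@SmoothOfRelativeDimension n), M.j_over i,
    HasRingHomProperty.Spec_iff (P := @SmoothOfRelativeDimension n)]
  exact locally_standardSmooth n (h i)

end Pool.Agent.Helper49.Irr
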