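import Pool.Agent.Helper49.Irr.DefsB
import Pool.Agent.Helper49.Irr.DefsC

/-!
# Tensor products of chart rings with a field (MP_ec79f0_ag, module G4/G5)
-/

namespace Pool.Agent.Helper49.Irr

open TensorProduct

/-- The `L`-algebra map `L ⊗ A → ΩL`. -/
noncomputable def tensorHom {Ω : Type} [Field Ω] {L ΩL : Type} [Field L] [Field ΩL]
    [Algebra L ΩL] (ι : Ω →+* ΩL) (A : Subalgebra ℤ Ω) : L ⊗[ℤ] A →ₐ[L] ΩL :=
  Algebra.TensorProduct.lift (Algebra.ofId L ΩL) (ι.toIntAlgHom.comp A.val)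
    (fun _ _ => Commute.all _ _)

theorem tensorHom_tmul {Ω : Type} [Field Ω] {L ΩL : Type} [Field L] [Field ΩL]
    [Algebra L ΩL] (ι : Ω →+* ΩL) (A : Subalgebra ℤ Ω) (l : L) (a : A) :
    tensorHom ι A (l ⊗ₜ a) = algebraMap L ΩL l * ι a := by
  simp [tensorHom, Algebra.ofId_apply]

theorem tensorHom_injective {Ω : Type} [Field Ω] [CharZero Ω] {L ΩL : Type} [Field L] [CharZero L]
    [Field ΩL] [Algebra L ΩL] (ι : Ω →+* ΩL)
    (hι : Function.Injective (Algebra.TensorProduct.productMap (algebraMap L ΩL).toIntAlgHom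
        ι.toIntAlgHom : L ⊗[ℤ] Ω →ₐ[ℤ] ΩL)) (A : Subalgebra ℤ Ω) :
    Function.Injective (tensorHom (L := L) ι A) := by
  have h1 : Function.Injective (LinearMap.lTensor L (A.val.toLinearMap)) :=
    Module.Flat.lTensor_preserves_injective_linearMap _ Subtype.val_injective
  have h2 : ∀ z : L ⊗[ℤ] A, tensorHom (L := L) ι A z =
      Algebra.TensorProduct.productMap (algebraMap L ΩL).toIntAlgHom ι.toIntAlgHom
        (LinearMap.lTensor L (A.val.toLinearMap) z) := by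
    intro z
    induction z using TensorProduct.induction_on with
    | zero => simp
    | tmul l a =>
      rw [tensorHom_tmul]
      simp
    | add x y hx hy => rw [map_add, map_add, map_add, hx, hy]
  intro x y hxy
  rw [h2, h2] at hxy
  exact h1 (hι hxy)

/-- G4 -/
theorem isDomain_tensor {Ω : Type} [Field Ω] [CharZero Ω] {L ΩL : Type} [Field L] [CharZero L]
    [Field ΩL] [Algebra L ΩL] (ι : Ω →+* ΩL)
    (hι : Function.Injective (Algebra.TensorProduct.productMap (algebraMap L ΩL).toIntAlgHom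
        ι.toIntAlgHom : L ⊗[ℤ] Ω →ₐ[ℤ] ΩL)) (A : Subalgebra ℤ Ω) : IsDomain (L ⊗[ℤ] A) :=
  (tensorHom_injective ι hι A).isDomain (tensorHom (L := L) ι A).toRingHom

theorem tensorHom_range {Ω : Type} [Field Ω] {L ΩL : Type} [Field L]
    [Field ΩL] [Algebra L ΩL] (ι : Ω →+* ΩL) (S : Set Ω) :
    (tensorHom (L := L) ι (Algebra.adjoin ℤ S)).range = Algebra.adjoin L (ι '' S) := by
  apply le_antisymm
  · rintro _ ⟨z, rfl⟩
    change tensorHom (L := L) ι (Algebra.adjoin ℤ S) z ∈ _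
    induction z using TensorProduct.induction_on with
    | zero => rw [map_zero]; exact Subalgebra.zero_mem _
    | tmul l a =>
      rw [tensorHom_tmul]
      refine Subalgebra.mul_mem _ (Subalgebra.algebraMap_mem _ _) ?_
      obtain ⟨a, ha⟩ := a
      change ι a ∈ _
      induction ha using Algebra.adjoin_induction with
      | mem x hx => exact Algebra.subset_adjoin ⟨x, hx, rfl⟩
      | algebraMap r =>
        have : ι (algebraMap ℤ Ω r) = algebraMap L ΩL (r : L) := by simp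
        rw [this]
        exact Subalgebra.algebraMap_mem _ _
      | add x y _ _ hx hy => rw [map_add]; exact Subalgebra.add_mem _ hx hy
      | mul x y _ _ hx hy => rw [map_mul]; exact Subalgebra.mul_mem _ hx hy
    | add x y hx hy => rw [map_add]; exact Subalgebra.add_mem _ hx hy
  · rw [Algebra.adjoin_le_iff]
    rintro _ ⟨s, hs, rfl⟩
    refine ⟨1 ⊗ₜ ⟨s, Algebra.subset_adjoin hs⟩, ?_⟩
    change tensorHom (L := L) ι (Algebra.adjoin ℤ S) _ = _
    rw [tensorHom_tmul]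
    simp

theorem genDat_s_map {N Ω Ω' : Type*} [Field Ω] [Field Ω'] (ι : Ω →+* Ω') (a b : Ω)
    (X Y : N → Ω) (i j k : N) :
    (genDat (ι a) (ι b) (ι ∘ X) (ι ∘ Y)).s i j k = ι ((genDat a b X Y).s i j k) := by
  simp [genDat, sg]

theorem genDat_G_map {N Ω Ω' : Type*} [Field Ω] [Field Ω'] (ι : Ω →+* Ω') (a b : Ω)
    (X Y : N → Ω) (J : Finset N) :
    (genDat (ι a) (ι b) (ι ∘ X) (ι ∘ Y)).G J = ι '' ((genDat a b X Y).G J) := by
  ext g
  constructor
  · rintro ⟨i, j, k, i', j', k', h1, h2, rfl⟩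
    exact ⟨_, ⟨i, j, k, i', j', k', h1, h2, rfl⟩, by rw [genDat_s_map, genDat_s_map, map_sub]⟩
  · rintro ⟨_, ⟨i, j, k, i', j', k', h1, h2, rfl⟩, rfl⟩
    exact ⟨i, j, k, i', j', k', h1, h2, by rw [genDat_s_map, genDat_s_map, map_sub]⟩

theorem psi_ne_zero {Ω : Type} [Field Ω] {E : Dat (Fin 11) Ω} (φ : Idx E) : psi E φ ≠ 0 :=
  Finset.prod_ne_zero_iff.mpr fun J _ => (φ J).2.2

theorem exists_psi_update {Ω : Type} [Field Ω] {E : Dat (Fin 11) Ω} (φ : Idx E)
    (J : {J : Finset (Fin 11) // J.card = 5}) (g : {g : Ω // g ∈ E.G J ∧ g ≠ 0}) :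
    ∃ φ' : Idx E, psi E φ' / psi E φ = (g : Ω) / (φ J : Ω) := by
  classical
  have hex : ∃ φ' : Idx E, φ' J = g ∧ ∀ K, K ≠ J → φ' K = φ K :=
    ⟨fun K => if h : K = J then h ▸ g else φ K, by simp, fun K hK => by simp [hK]⟩
  obtain ⟨φ', h1, h1'⟩ := hex
  refine ⟨φ', ?_⟩
  have h : ∀ ξ : Idx E, psi E ξ = (ξ J : Ω) * ∏ K ∈ Finset.univ.erase J, (ξ K : Ω) := by
    intro ξ
    rw [psi, ← Finset.mul_prod_erase Finset.univ _ (Finset.mem_univ J)]
  have h2 : ∏ K ∈ Finset.univ.erase J, (φ' K : Ω)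
      = ∏ K ∈ Finset.univ.erase J, (φ K : Ω) := by
    refine Finset.prod_congr rfl fun K hK => ?_
    rw [h1' K (Finset.ne_of_mem_erase hK)]
  have h3 : ∏ K ∈ Finset.univ.erase J, (φ K : Ω) ≠ 0 :=
    Finset.prod_ne_zero_iff.mpr fun K _ => (φ K).2.2
  rw [h φ', h φ, h2, h1, mul_div_mul_right _ _ h3]

theorem adjoin_psi {Ω : Type} [Field Ω] {L ΩL : Type} [Field L]
    [Field ΩL] [Algebra L ΩL] (ι : Ω →+* ΩL) (a b : Ω) (X Y : Fin 11 → Ω)
    (φ : Idx (genDat a b X Y)) :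
    IntermediateField.adjoin L (ι '' (Set.range fun j => psi (genDat a b X Y) j /
      psi (genDat a b X Y) φ)) = ratioField L (genDat (ι a) (ι b) (ι ∘ X) (ι ∘ Y)) := by
  apply le_antisymm
  · rw [IntermediateField.adjoin_le_iff]
    rintro _ ⟨_, ⟨j, rfl⟩, rfl⟩
    simp only [psi, ← Finset.prod_div_distrib, map_prod]
    refine prod_mem fun J _ => IntermediateField.subset_adjoin _ _ ?_
    refine ⟨J.1, J.2, ι (j J), ?_, ι (φ J), ?_, ?_, map_div₀ _ _ _⟩
    · rw [genDat_G_map]; exact ⟨_, (j J).2.1, rfl⟩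
    · rw [genDat_G_map]; exact ⟨_, (φ J).2.1, rfl⟩
    · rw [map_ne_zero]; exact (φ J).2.2
  · rw [ratioField, IntermediateField.adjoin_le_iff]
    rintro _ ⟨J, hJ, g, hg, g', hg', hg'0, rfl⟩
    rw [genDat_G_map] at hg hg'
    obtain ⟨g, hg, rfl⟩ := hg
    obtain ⟨g', hg', rfl⟩ := hg'
    have key : ∀ g : Ω, g ∈ (genDat a b X Y).G J → g ≠ 0 →
        ι g / ι (φ ⟨J, hJ⟩) ∈ IntermediateField.adjoin L (ι '' (Set.range fun j =>
          psi (genDat a b X Y) j / psi (genDat a b X Y) φ)) := by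
      intro g hg hg0
      obtain ⟨φ', hφ'⟩ := exists_psi_update φ ⟨J, hJ⟩ ⟨g, hg, hg0⟩
      refine IntermediateField.subset_adjoin _ _ ⟨_, ⟨φ', rfl⟩, ?_⟩
      simp only [hφ', map_div₀]
    by_cases hg0 : g = 0
    · subst hg0
      rw [map_zero, zero_div]
      exact zero_mem _
    · have h1 := key g hg hg0
      have h2 := key g' hg' (fun e => hg'0 (by rw [e, map_zero]))
      have h3 : ι (φ ⟨J, hJ⟩) ≠ 0 := by rw [map_ne_zero]; exact (φ ⟨J, hJ⟩).2.2
      have : ι g / ι g' = (ι g / ι (φ ⟨J, hJ⟩)) / (ι g' / ι (φ ⟨J, hJ⟩)) := by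
        field_simp
      rw [SetLike.mem_coe, this]
      exact div_mem h1 h2

open IntermediateField.algebraAdjoinAdjoin in
/-- G5 -/
theorem fractionRing_equiv {Ω : Type} [Field Ω] [CharZero Ω] {L ΩL : Type} [Field L] [CharZero L]
    [Field ΩL] [Algebra L ΩL] (ι : Ω →+* ΩL)
    (hι : Function.Injective (Algebra.TensorProduct.productMap (algebraMap L ΩL).toIntAlgHom
        ι.toIntAlgHom : L ⊗[ℤ] Ω →ₐ[ℤ] ΩL)) (a b : Ω) (X Y : Fin 11 → Ω)
    (φ : Idx (genDat a b X Y)) :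
    Nonempty (FractionRing (L ⊗[ℤ] chartRing (psi (genDat a b X Y)) φ) ≃ₐ[L]
      ratioField L (genDat (ι a) (ι b) (ι ∘ X) (ι ∘ Y))) := by
  have hinj := tensorHom_injective ι hι (chartRing (psi (genDat a b X Y)) φ)
  have e1 : L ⊗[ℤ] chartRing (psi (genDat a b X Y)) φ ≃ₐ[L]
      (tensorHom (L := L) ι (chartRing (psi (genDat a b X Y)) φ)).range :=
    AlgEquiv.ofInjective _ hinj
  have hr := tensorHom_range (L := L) ι (Set.range fun j => psi (genDat a b X Y) j /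
    psi (genDat a b X Y) φ)
  have e2 : (tensorHom (L := L) ι (chartRing (psi (genDat a b X Y)) φ)).range ≃ₐ[L]
      Algebra.adjoin L (ι '' (Set.range fun j => psi (genDat a b X Y) j /
        psi (genDat a b X Y) φ)) := Subalgebra.equivOfEq _ _ hr
  have e3 : FractionRing (L ⊗[ℤ] chartRing (psi (genDat a b X Y)) φ) ≃ₐ[L]
      IntermediateField.adjoin L (ι '' (Set.range fun j => psi (genDat a b X Y) j /
        psi (genDat a b X Y) φ)) := IsFractionRing.algEquivOfAlgEquiv (e1.trans e2)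
  exact ⟨e3.trans (IntermediateField.equivOfEq (adjoin_psi ι a b X Y φ))⟩

end Pool.Agent.Helper49.Irr
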