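import Pool.Agent.Helper49.Irr.GenRel
import Pool.Agent.Helper49.Irr.GenNe

/-!
# Eleven algebraically independent elements of the ratio field (module C3)
-/

namespace Pool.Agent.Helper49.Irr

section Coords

variable {Ω : Type*} [Field Ω]

theorem exists_three (i j : Fin 11) : ∃ k l m : Fin 11, i ≠ k ∧ i ≠ l ∧ i ≠ m ∧ j ≠ k ∧ j ≠ l ∧
    j ≠ m ∧ k ≠ l ∧ k ≠ m ∧ l ≠ m := by
  obtain ⟨k, hk⟩ : ∃ k, k ∉ ({i, j} : Finset (Fin 11)) := by
    by_contra hc
    push Not at hc
    have h1 : (Finset.univ : Finset (Fin 11)) ⊆ {i, j} := fun x _ => hc x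
    have h2 := (Finset.card_le_card h1).trans Finset.card_le_two
    simp at h2
  obtain ⟨l, hl⟩ : ∃ l, l ∉ ({i, j, k} : Finset (Fin 11)) := by
    by_contra hc
    push Not at hc
    have h1 : (Finset.univ : Finset (Fin 11)) ⊆ {i, j, k} := fun x _ => hc x
    have h2 := (Finset.card_le_card h1).trans Finset.card_le_three
    simp at h2
  obtain ⟨m, hm⟩ : ∃ m, m ∉ ({i, j, k, l} : Finset (Fin 11)) := by
    by_contra hc
    push Not at hc
    have h1 : (Finset.univ : Finset (Fin 11)) ⊆ {i, j, k, l} := fun x _ => hc x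
    have h2 := (Finset.card_le_card h1).trans Finset.card_le_four
    simp at h2
  simp only [Finset.mem_insert, Finset.mem_singleton, not_or] at hk hl hm
  exact ⟨k, l, m, Ne.symm hk.1, Ne.symm hl.1, Ne.symm hm.1, Ne.symm hk.2, Ne.symm hl.2.1,
    Ne.symm hm.2.1, Ne.symm hl.2.2, Ne.symm hm.2.2.1, Ne.symm hm.2.2.2⟩

/-- In the short Weierstrass case all coordinates are determined by the slopes. -/
theorem coords_mem [CharZero Ω] {E : Dat (Fin 11) Ω} (h : E.Rel) (h1 : E.a1 = 0) (h2 : E.a2 = 0)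
    (h3 : E.a3 = 0) (F : Subfield Ω)
    (hs : ∀ i j k, i ≠ j → j ≠ k → i ≠ k → E.s i j k ∈ F) :
    (∀ i j, i ≠ j → E.x i j ∈ F ∧ E.y i j ∈ F) ∧ E.a4 ∈ F ∧ E.a6 ∈ F := by
  -- differences of disjoint pairs
  have hd : ∀ i j k l, i ≠ j → i ≠ k → i ≠ l → j ≠ k → j ≠ l → k ≠ l →
      E.x i j - E.x k l ∈ F := by
    intro i j k l hij hik hil hjk hjl hkl
    rw [h.x_diff i j k l hij hik hil hjk hjl hkl, h1, add_zero]
    exact mul_mem (sub_mem (hs _ _ _ hij hjl hil) (hs _ _ _ hik hkl hil))
      (add_mem (hs _ _ _ hij hjk hik) (hs _ _ _ hik hkl hil))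
  -- differences of adjacent pairs
  have hd' : ∀ i j k, i ≠ j → j ≠ k → i ≠ k → E.x i j - E.x j k ∈ F := by
    intro i j k hij hjk hik
    obtain ⟨l, hl⟩ : ∃ l, l ∉ ({i, j, k} : Finset (Fin 11)) := by
      by_contra hc
      push Not at hc
      have h1 : (Finset.univ : Finset (Fin 11)) ⊆ {i, j, k} := fun x _ => hc x
      have h2 := (Finset.card_le_card h1).trans Finset.card_le_three
      simp at h2
    obtain ⟨m, hm⟩ : ∃ m, m ∉ ({i, j, k, l} : Finset (Fin 11)) := by
      by_contra hc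
      push Not at hc
      have h1 : (Finset.univ : Finset (Fin 11)) ⊆ {i, j, k, l} := fun x _ => hc x
      have h2 := (Finset.card_le_card h1).trans Finset.card_le_four
      simp at h2
    simp only [Finset.mem_insert, Finset.mem_singleton, not_or] at hl hm
    have e1 := hd i j l m hij (Ne.symm hl.1) (Ne.symm hm.1) (Ne.symm hl.2.1) (Ne.symm hm.2.1)
      (Ne.symm hm.2.2.2)
    have e2 := hd j k l m hjk (Ne.symm hl.2.1) (Ne.symm hm.2.1) (Ne.symm hl.2.2)
      (Ne.symm hm.2.2.1) (Ne.symm hm.2.2.2)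
    have : E.x i j - E.x j k = (E.x i j - E.x l m) - (E.x j k - E.x l m) := by ring
    rw [this]
    exact sub_mem e1 e2
  have h3' : (3 : Ω) ≠ 0 := by norm_num
  have h2' : (2 : Ω) ≠ 0 := by norm_num
  have div3 : ∀ z : Ω, 3 * z ∈ F → z ∈ F := by
    intro z hz
    have : z = 3 * z / 3 := by field_simp
    rw [this]
    exact div_mem hz (ofNat_mem F 3)
  have div2 : ∀ z : Ω, 2 * z ∈ F → z ∈ F := by
    intro z hz
    have : z = 2 * z / 2 := by field_simp
    rw [this]
    exact div_mem hz (ofNat_mem F 2)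
  have hx : ∀ i j, i ≠ j → E.x i j ∈ F := by
    intro i j hij
    obtain ⟨k, l, m, hik, hil, him, hjk, hjl, hjm, hkl, hkm, hlm⟩ := exists_three i j
    apply div3
    have e1 := h.sum_x i j k hij hjk hik
    rw [h1, h2] at e1
    have e2 := hd' i j k hij hjk hik
    have e3 := hd' k i j hik.symm hij hjk.symm
    have : 3 * E.x i j = E.s i j k ^ 2 + (E.x i j - E.x j k) - (E.x k i - E.x i j) := by
      linear_combination e1
    rw [this]
    exact sub_mem (add_mem (pow_mem (hs _ _ _ hij hjk hik) 2) e2) e3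
  have hyd : ∀ i j k, i ≠ j → j ≠ k → i ≠ k → E.y i j - E.y j k ∈ F := by
    intro i j k hij hjk hik
    rw [h.slope i j k hij hjk hik]
    exact mul_mem (hs _ _ _ hij hjk hik) (sub_mem (hx _ _ hij) (hx _ _ hjk))
  have hy : ∀ i j, i ≠ j → E.y i j ∈ F := by
    intro i j hij
    obtain ⟨k, l, m, hik, hil, him, hjk, hjl, hjm, hkl, hkm, hlm⟩ := exists_three i j
    apply div2
    have e1 := hyd i j k hij hjk hik
    have e2 := hyd j k l hjk hkl hjl
    have e3 := hyd k l j hkl hjl.symm hjk.symm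
    have e4 := hyd l j i hjl.symm hij.symm hil.symm
    have e5 := h.y_symm i j hij
    rw [h1, h3] at e5
    have : 2 * E.y i j = (E.y i j - E.y j k) + (E.y j k - E.y k l) + (E.y k l - E.y l j)
        + (E.y l j - E.y j i) := by
      linear_combination e5
    rw [this]
    exact add_mem (add_mem (add_mem e1 e2) e3) e4
  have ha4 : E.a4 ∈ F := by
    have e := h.e2 0 1 2 (by decide) (by decide) (by decide)
    rw [h1, h3] at e
    have : E.a4 = E.x 0 1 * E.x 1 2 + E.x 1 2 * E.x 2 0 + E.x 2 0 * E.x 0 1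
        + 2 * E.s 0 1 2 * (E.y 0 1 - E.s 0 1 2 * E.x 0 1) := by
      linear_combination - e
    rw [this]
    have x01 := hx 0 1 (by decide)
    have x12 := hx 1 2 (by decide)
    have x20 := hx 2 0 (by decide)
    have y01 := hy 0 1 (by decide)
    have s := hs 0 1 2 (by decide) (by decide) (by decide)
    exact add_mem (add_mem (add_mem (mul_mem x01 x12) (mul_mem x12 x20)) (mul_mem x20 x01))
      (mul_mem (mul_mem (ofNat_mem F 2) s) (sub_mem y01 (mul_mem s x01)))
  have ha6 : E.a6 ∈ F := by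
    have e := h.weier 0 1 (by decide)
    rw [h1, h2, h3] at e
    have : E.a6 = E.y 0 1 ^ 2 - E.x 0 1 ^ 3 - E.a4 * E.x 0 1 := by
      linear_combination - e
    rw [this]
    have x01 := hx 0 1 (by decide)
    have y01 := hy 0 1 (by decide)
    exact sub_mem (sub_mem (pow_mem y01 2) (pow_mem x01 3)) (mul_mem ha4 x01)
  exact ⟨fun i j hij => ⟨hx i j hij, hy i j hij⟩, ha4, ha6⟩

end Coords

section Main

variable {L Ω : Type*} [Field L] [CharZero L] [Field Ω] [Algebra L Ω] {a b : Ω}
    {X Y : Fin 11 → Ω}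

theorem genDat_rel' (hu : AlgebraicIndependent L (params a b X))
    (hY : ∀ i, Y i ^ 2 = X i ^ 3 + a * X i + b) : (genDat a b X Y).Rel := by
  have := charZero_of_algebra L Ω
  exact genDat_rel hY (genDat_x_ne hu hY).1 (genDat_x_ne hu hY).2

/-- all slopes are nonzero. -/
theorem genDat_s_ne_zero (hu : AlgebraicIndependent L (params a b X))
    (hY : ∀ i, Y i ^ 2 = X i ^ 3 + a * X i + b) {i j k : Fin 11} (hij : i ≠ j) (hjk : j ≠ k)
    (hik : i ≠ k) : (genDat a b X Y).s i j k ≠ 0 := by
  intro h0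
  have h := genDat_rel' hu hY
  have hi : i ∈ ({i, j} : Set (Fin 11)) := Or.inl rfl
  have hj : j ∈ ({i, j} : Set (Fin 11)) := Or.inr rfl
  have hk : k ∉ ({i, j} : Set (Fin 11)) := by
    rintro (h | h)
    · exact hik h.symm
    · exact hjk h.symm
  apply genDat_x_not_mem_fieldOf hu hY hj hk
  have e1 := h.slope i j k hij hjk hik
  rw [h0, zero_mul, sub_eq_zero] at e1
  have e2 : (genDat a b X Y).y j k ∈ fieldOf L a b X {i, j} := by
    rw [← e1]
    exact genDat_y_mem (X_mem_fieldOf hi) (X_mem_fieldOf hj) (Y_mem_fieldOf hY hi)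
      (Y_mem_fieldOf hY hj)
  have e3 := h.weier j k hjk
  refine clF_of_cubic (c2 := 0) (c1 := a) (c0 := b - (genDat a b X Y).y j k ^ 2) (zero_mem _)
    a_mem_fieldOf (sub_mem b_mem_fieldOf (pow_mem e2 2)) ?_
  have a1 : (genDat a b X Y).a1 = 0 := rfl
  have a2 : (genDat a b X Y).a2 = 0 := rfl
  have a3 : (genDat a b X Y).a3 = 0 := rfl
  have a4 : (genDat a b X Y).a4 = a := rfl
  have a6 : (genDat a b X Y).a6 = b := rfl
  rw [a1, a2, a3, a4, a6] at e3
  linear_combination - e3

/-- ratios of slopes whose six indices lie in a 5-set. -/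
theorem ratio_mem_of_card (hu : AlgebraicIndependent L (params a b X))
    (hY : ∀ i, Y i ^ 2 = X i ^ 3 + a * X i + b) {i j k i' j' k' : Fin 11} (hij : i ≠ j)
    (hjk : j ≠ k) (hik : i ≠ k) (hij' : i' ≠ j') (hjk' : j' ≠ k') (hik' : i' ≠ k')
    (hc : ({i, j, k, i', j', k'} : Finset (Fin 11)).card ≤ 5) :
    (genDat a b X Y).s i j k / (genDat a b X Y).s i' j' k' ∈
      ratioField L (genDat a b X Y) := by
  have := charZero_of_algebra L Ω
  have h := genDat_rel' hu hY
  obtain ⟨J, hJ, hJc⟩ := Finset.exists_superset_card_eq hc (by simp)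
  have mi : i ∈ J := hJ (by simp)
  have mj : j ∈ J := hJ (by simp)
  have mk : k ∈ J := hJ (by simp)
  have mi' : i' ∈ J := hJ (by simp)
  have mj' : j' ∈ J := hJ (by simp)
  have mk' : k' ∈ J := hJ (by simp)
  have e1 := h.s_anti i j k hij hjk hik
  have e2 := h.s_anti i' j' k' hij' hjk' hik'
  have a1 : (genDat a b X Y).a1 = 0 := rfl
  rw [a1] at e1 e2
  have hne := genDat_s_ne_zero hu hY hij' hjk' hik'
  have h2' : (2 : Ω) ≠ 0 := by norm_num
  have g1 : (genDat a b X Y).s i j k - (genDat a b X Y).s i k j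
      = 2 * (genDat a b X Y).s i j k := by linear_combination - e1
  have g2 : (genDat a b X Y).s i' j' k' - (genDat a b X Y).s i' k' j'
      = 2 * (genDat a b X Y).s i' j' k' := by linear_combination - e2
  apply IntermediateField.subset_adjoin
  refine ⟨J, hJc, _, ⟨i, j, k, i, k, j, ⟨mi, mj, mk, hij, hjk, hik⟩,
    ⟨mi, mk, mj, hik, hjk.symm, hij⟩, rfl⟩, _, ⟨i', j', k', i', k', j',
    ⟨mi', mj', mk', hij', hjk', hik'⟩, ⟨mi', mk', mj', hik', hjk'.symm, hij'⟩, rfl⟩, ?_, ?_⟩
  · rw [g2]
    exact mul_ne_zero h2' hne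
  · rw [g1, g2, mul_div_mul_left _ _ h2']

/-- ratios of slopes. -/
theorem ratio_mem_all (hu : AlgebraicIndependent L (params a b X))
    (hY : ∀ i, Y i ^ 2 = X i ^ 3 + a * X i + b) {i j k : Fin 11} (hij : i ≠ j)
    (hjk : j ≠ k) (hik : i ≠ k) :
    (genDat a b X Y).s i j k / (genDat a b X Y).s 0 1 2 ∈ ratioField L (genDat a b X Y) := by
  by_cases h01 : i = 0 ∨ i = 1
  · apply ratio_mem_of_card hu hY hij hjk hik (by decide) (by decide) (by decide)
    have hsub : ({i, j, k, 0, 1, 2} : Finset (Fin 11)) ⊆ {j, k, 0, 1, 2} := by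
      intro z hz
      simp only [Finset.mem_insert, Finset.mem_singleton] at hz ⊢
      rcases h01 with h | h <;> rcases hz with hz | hz | hz | hz | hz | hz <;> simp_all
    exact (Finset.card_le_card hsub).trans Finset.card_le_five
  · push Not at h01
    have h1 : (genDat a b X Y).s i j k / (genDat a b X Y).s 0 1 i ∈
        ratioField L (genDat a b X Y) := by
      apply ratio_mem_of_card hu hY hij hjk hik (by decide) h01.2.symm h01.1.symm
      have hsub : ({i, j, k, 0, 1, i} : Finset (Fin 11)) ⊆ {i, j, k, 0, 1} := by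
        intro z hz
        simp only [Finset.mem_insert, Finset.mem_singleton] at hz ⊢
        tauto
      exact (Finset.card_le_card hsub).trans Finset.card_le_five
    have h2 : (genDat a b X Y).s 0 1 i / (genDat a b X Y).s 0 1 2 ∈
        ratioField L (genDat a b X Y) := by
      apply ratio_mem_of_card hu hY (by decide) h01.2.symm h01.1.symm (by decide) (by decide)
        (by decide)
      have hsub : ({0, 1, i, 0, 1, 2} : Finset (Fin 11)) ⊆ {0, 1, i, 2} := by
        intro z hz
        simp only [Finset.mem_insert, Finset.mem_singleton] at hz ⊢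
        tauto
      exact ((Finset.card_le_card hsub).trans Finset.card_le_four).trans (by norm_num)
    have hne := genDat_s_ne_zero hu hY (by decide) h01.2.symm h01.1.symm (i := 0) (j := 1) (k := i)
    have := mul_mem h1 h2
    rwa [div_mul_div_cancel₀ hne] at this

/-- the normalised coordinates lie in the ratio field. -/
theorem normalised_mem (hu : AlgebraicIndependent L (params a b X))
    (hY : ∀ i, Y i ^ 2 = X i ^ 3 + a * X i + b) :
    (∀ i j, i ≠ j → (genDat a b X Y).x i j / (genDat a b X Y).s 0 1 2 ^ 2 ∈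
      ratioField L (genDat a b X Y) ∧
      (genDat a b X Y).y i j / (genDat a b X Y).s 0 1 2 ^ 3 ∈ ratioField L (genDat a b X Y)) ∧
    a / (genDat a b X Y).s 0 1 2 ^ 4 ∈ ratioField L (genDat a b X Y) ∧
    b / (genDat a b X Y).s 0 1 2 ^ 6 ∈ ratioField L (genDat a b X Y) := by
  have := charZero_of_algebra L Ω
  have h := genDat_rel' hu hY
  set E := genDat a b X Y with hE
  set l := E.s 0 1 2 with hl
  have hr := h.gauge l⁻¹ 0 0 0
  have a1 : E.a1 = 0 := rfl
  have a2 : E.a2 = 0 := rfl
  have a3 : E.a3 = 0 := rfl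
  have a4 : E.a4 = a := rfl
  have a6 : E.a6 = b := rfl
  obtain ⟨hxy, h4, h6⟩ := coords_mem hr (by simp [Dat.gauge, a1]) (by simp [Dat.gauge, a2])
    (by simp [Dat.gauge, a3]) (ratioField L E).toSubfield (by
      intro i j k hij hjk hik
      have := ratio_mem_all hu hY hij hjk hik
      simp only [Dat.gauge, sub_zero]
      rw [inv_mul_eq_div]
      exact this)
  refine ⟨fun i j hij => ?_, ?_, ?_⟩
  · obtain ⟨hx, hy⟩ := hxy i j hij
    simp only [Dat.gauge, sub_zero, zero_mul] at hx hy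
    rw [inv_pow, inv_mul_eq_div] at hx hy
    exact ⟨hx, hy⟩
  · simp only [Dat.gauge, sub_zero, zero_mul, mul_zero, add_zero, a4] at h4
    rw [inv_pow, inv_mul_eq_div] at h4
    simpa using h4
  · simp only [Dat.gauge, sub_zero, zero_mul, mul_zero, add_zero, a6] at h6
    rw [inv_pow, inv_mul_eq_div] at h6
    simpa using h6

/-- the coordinates of the points from those of the differences -/
theorem mem_of_diff (hu : AlgebraicIndependent L (params a b X))
    (hY : ∀ i, Y i ^ 2 = X i ^ 3 + a * X i + b) {F : Subfield Ω} {j : Fin 11} (hj : 0 ≠ j)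
    (hX0 : X 0 ∈ F) (hY0 : Y 0 ∈ F) (hx : (genDat a b X Y).x 0 j ∈ F)
    (hy : (genDat a b X Y).y 0 j ∈ F) : X j ∈ F := by
  have hne : (genDat a b X Y).x 0 j ≠ X 0 := by
    intro h
    apply genDat_x_not_mem_fieldOf hu hY (s := {0}) (j := 0) (k := j) rfl
      (fun h => hj (Set.mem_singleton_iff.mp h).symm)
    rw [h]
    exact X_mem_fieldOf rfl
  have hXne : X j - X 0 ≠ 0 := by
    rw [sub_ne_zero]
    exact fun h => hj (X_injective hu h).symm
  have e1 : sg X Y 0 j * (X j - X 0) = Y 0 + Y j := by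
    simp only [sg]
    field_simp
  have ex : (genDat a b X Y).x 0 j = sg X Y 0 j ^ 2 - X 0 - X j := rfl
  have ey : (genDat a b X Y).y 0 j = Y j + sg X Y 0 j * (sg X Y 0 j ^ 2 - X 0 - X j - X j) := rfl
  have e2 : sg X Y 0 j * ((genDat a b X Y).x 0 j - X 0) = (genDat a b X Y).y 0 j + Y 0 := by
    rw [ex, ey]
    linear_combination e1
  have e3 : sg X Y 0 j ∈ F := by
    have : sg X Y 0 j = ((genDat a b X Y).y 0 j + Y 0) / ((genDat a b X Y).x 0 j - X 0) := by
      rw [eq_div_iff (sub_ne_zero.mpr hne), e2]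
    rw [this]
    exact div_mem (add_mem hy hY0) (sub_mem hx hX0)
  have : X j = sg X Y 0 j ^ 2 - X 0 - (genDat a b X Y).x 0 j := by rw [ex]; ring
  rw [this]
  exact sub_mem (sub_mem (pow_mem e3 2) hX0) hx

/-- C3 -/
theorem exists_trbasis {L Ω : Type*} [Field L] [CharZero L] [Field Ω] [Algebra L Ω] {a b : Ω}
    {X Y : Fin 11 → Ω}
    (hu : AlgebraicIndependent L (params a b X)) (hY : ∀ i, Y i ^ 2 = X i ^ 3 + a * X i + b) :
    ∃ w : Fin 11 → ratioField L (genDat a b X Y), AlgebraicIndependent L w := by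
  have := charZero_of_algebra L Ω
  set E := genDat a b X Y with hE
  set K := ratioField L E with hK
  set l := E.s 0 1 2 with hl
  have hl0 : l ≠ 0 := genDat_s_ne_zero hu hY (by decide) (by decide) (by decide)
  obtain ⟨hxy, h4, h6⟩ := normalised_mem hu hY
  set S : Set Ω := (K : Set Ω) ∪ {l, X 0} with hS
  have hKF : ∀ z ∈ K, z ∈ clF L S := fun z hz => subset_clF (Or.inl hz)
  have hlF : l ∈ clF L S := subset_clF (Or.inr (Or.inl rfl))
  have hX0 : X 0 ∈ clF L S := subset_clF (Or.inr (Or.inr rfl))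
  have hmul : ∀ (z : Ω) (n : ℕ), z / l ^ n ∈ K → z ∈ clF L S := by
    intro z n hz
    have : z = z / l ^ n * l ^ n := by field_simp
    rw [this]
    exact mul_mem (hKF _ hz) (pow_mem hlF n)
  have ha : a ∈ clF L S := hmul a 4 h4
  have hb : b ∈ clF L S := hmul b 6 h6
  have hY0 : Y 0 ∈ clF L S := by
    apply clF_of_sq
    rw [hY 0]
    exact add_mem (add_mem (pow_mem hX0 3) (mul_mem ha hX0)) hb
  have hXj : ∀ j, X j ∈ clF L S := by
    intro j
    by_cases hj : 0 = j
    · rw [← hj]; exact hX0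
    · exact mem_of_diff hu hY hj hX0 hY0 (hmul _ 2 (hxy 0 j hj).1) (hmul _ 3 (hxy 0 j hj).2)
  have hall : Set.range (params a b X) ⊆ (AlgebraicIndependent.matroid L Ω).closure S := by
    rintro _ ⟨i, rfl⟩
    rw [← mem_clF_iff_closure]
    refine Fin.cases ?_ (fun i => ?_) i
    · exact ha
    · refine Fin.cases ?_ (fun i => ?_) i
      · exact hb
      · exact hXj i
  have hind : (AlgebraicIndependent.matroid L Ω).Indep (Set.range (params a b X)) := by
    rw [AlgebraicIndependent.matroid_indep_iff]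
    exact hu.to_subtype_range
  have hcard : (Set.range (params a b X)).encard = 13 := by
    rw [← Set.image_univ, hu.injective.encard_image]
    simp
  have h13 : (13 : ℕ∞) ≤ (AlgebraicIndependent.matroid L Ω).eRk (K : Set Ω) + 2 := by
    calc (13 : ℕ∞) = (Set.range (params a b X)).encard := hcard.symm
      _ ≤ (AlgebraicIndependent.matroid L Ω).eRk
          ((AlgebraicIndependent.matroid L Ω).closure S) := hind.encard_le_eRk_of_subset hall
      _ = (AlgebraicIndependent.matroid L Ω).eRk S := Matroid.eRk_closure_eq _ _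
      _ ≤ (AlgebraicIndependent.matroid L Ω).eRk (K : Set Ω) + ({l, X 0} : Set Ω).encard :=
        Matroid.eRk_union_le_eRk_add_encard _ _ _
      _ ≤ (AlgebraicIndependent.matroid L Ω).eRk (K : Set Ω) + 2 := by
        gcongr
        refine (Set.encard_insert_le _ _).trans ?_
        rw [Set.encard_singleton]
        norm_num
  have h11 : (11 : ℕ∞) ≤ (AlgebraicIndependent.matroid L Ω).eRk (K : Set Ω) := by
    generalize (AlgebraicIndependent.matroid L Ω).eRk (K : Set Ω) = r at h13 ⊢
    induction r using ENat.recTopCoe with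
    | top => exact le_top
    | coe n =>
      have : (13 : ℕ) ≤ n + 2 := by exact_mod_cast h13
      have h : (11 : ℕ) ≤ n := by omega
      exact_mod_cast h
  obtain ⟨I, hIK, hI, hIc⟩ := Matroid.le_eRk_iff.mp h11
  rw [AlgebraicIndependent.matroid_indep_iff] at hI
  have hfin : I.Finite := Set.finite_of_encard_eq_coe (k := 11) hIc
  have : Fintype I := hfin.fintype
  have hc : Fintype.card I = 11 := by
    have := hIc
    rw [← Set.coe_fintypeCard] at this
    exact_mod_cast this
  let e : Fin 11 ≃ I := (finCongr hc.symm).trans (Fintype.equivFin I).symm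
  refine ⟨fun i => ⟨(e i : Ω), hIK (e i).2⟩, ?_⟩
  have h1 : AlgebraicIndependent L (fun i : Fin 11 => ((e i : I) : Ω)) :=
    AlgebraicIndependent.comp hI e e.injective
  exact AlgebraicIndependent.of_comp K.val h1

end Main

end Pool.Agent.Helper49.Irr
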