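import Pool.Agent.Helper49.Irr.ProjModel
import Pool.Agent.Helper49.Irr.ProjRelDim
import Pool.Agent.Helper49.Irr.ProjGeom
import Pool.Agent.Helper49.Irr.ProjFun
import Pool.Agent.Helper49.Irr.GenRel
import Pool.Agent.Helper49.Irr.GenNe
import Pool.Agent.Helper49.Irr.TrBasis
import Pool.Agent.Helper49.Irr.NormalForm
import Pool.Agent.Helper49.Irr.Generic
import Pool.Agent.Helper49.Irr.ChartSmooth
import Pool.Agent.Helper49.Irr.TensorDomain
import Pool.Agent.Helper49.Irr.NoNormalForm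

/-!
# An irrational smooth proper scheme over `ℤ`
-/

namespace Pool.Agent.Helper49.Irr

open AlgebraicGeometry CategoryTheory Limits TensorProduct

theorem main : ∃ (X : Scheme.{0}) (f : X ⟶ Spec (.of ℤ)),
    SmoothOfRelativeDimension 11 f ∧ Smooth f ∧ IsProper f ∧
    GeometricallyIntegral (pullback.snd f (Spec.map (CommRingCat.ofHom (algebraMap ℤ ℚ)))) ∧
    ¬ Scheme.IsRationalOver
      (pullback.snd f (Spec.map (CommRingCat.ofHom (algebraMap ℤ ℂ)))) := by
  obtain ⟨Ω, _, _, a, b, X, Y, hY, hL⟩ := exists_generic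
  -- algebraic independence over `ℚ`
  have huQ : AlgebraicIndependent ℚ (params a b X) := by
    obtain ⟨ΩL, _, _, ι, -, hu⟩ := hL ℚ
    have key : (ι.toRatAlgHom : Ω → ΩL) ∘ params a b X = params (ι a) (ι b) (ι ∘ X) := by
      funext i
      refine Fin.cases rfl (fun i => Fin.cases rfl (fun i => rfl) i) i
    refine AlgebraicIndependent.of_comp (f := ι.toRatAlgHom) ?_
    rw [key]
    exact hu
  obtain ⟨hX, hne⟩ := genDat_x_ne huQ hY
  have hrel := genDat_rel hY hX hne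
  have hG := exists_G_ne_zero hrel hne
  have : Finite (Idx (genDat a b X Y)) := Idx.finite _
  have hnonempty : Nonempty (Idx (genDat a b X Y)) :=
    ⟨fun J => ⟨(hG J.1 J.2).choose, (hG J.1 J.2).choose_spec⟩⟩
  have hpsi : ∀ φ, psi (genDat a b X Y) φ ≠ 0 := fun φ =>
    Finset.prod_ne_zero_iff.mpr fun J _ => (φ J).2.2
  obtain ⟨M⟩ := exists_projModel (psi (genDat a b X Y)) hpsi
  obtain ⟨w, hw⟩ := exists_trbasis huQ hY
  have hdom : ∀ (L : Type) [Field L] [CharZero L] (i : Idx (genDat a b X Y)),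
      IsDomain (L ⊗[ℤ] chartRing (psi (genDat a b X Y)) i) := by
    intro L _ _ i
    obtain ⟨ΩL, _, _, ι, hι, hu⟩ := hL L
    exact isDomain_tensor ι hι _
  have hsm : SmoothOfRelativeDimension 11 M.f :=
    M.smoothOfRelativeDimension 11 fun φ P _ => chart_smooth hrel hG w hw φ P
  refine ⟨M.X, M.f, hsm, SmoothOfRelativeDimension.smooth 11 M.f, M.proper,
    M.geometricallyIntegral hdom, ?_⟩
  intro hrat
  obtain ⟨n, hb⟩ := hrat.exists_birationalOver_affineSpace
  obtain ⟨φ⟩ := hnonempty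
  obtain ⟨e⟩ := M.nonempty_algEquiv hdom φ n hb
  obtain ⟨ΩL, _, _, ι, hι, hu⟩ := hL ℂ
  obtain ⟨e'⟩ := fractionRing_equiv ι hι a b X Y φ
  have hY' : ∀ i, (ι ∘ Y) i ^ 2 = (ι ∘ X) i ^ 3 + ι a * (ι ∘ X) i + ι b := by
    intro i
    simp only [Function.comp_apply, ← map_pow, ← map_mul, ← map_add, hY i]
  obtain ⟨w', hw'⟩ := exists_trbasis hu hY'
  obtain ⟨α, β, ξ, η, h1, h2, h3, h4⟩ := exists_normalForm hu hY'
  exact no_normalForm (e'.symm.trans e) w' hw' α β ξ η h1 h2 h3 h4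

end Pool.Agent.Helper49.Irr
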