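import Pool.Agent.Helper49.Irr.Near2
import Pool.Agent.Helper49.Irr.FarIn

/-!
# D4a: membership for the normalised 5-set; good elements
-/

namespace Pool.Agent.Helper49.Irr

open Dat

variable {N Ω : Type*} [DecidableEq N] [Field Ω]
  {Γ₀ : Type*} [LinearOrderedCommGroupWithZero Γ₀] {v : Valuation Ω Γ₀} {E : Dat N Ω}

omit [DecidableEq N] in
theorem mem_G_of_tri {J : Finset N} {a b c a' b' c' : N} (h1 : Tri J a b c)
    (h2 : Tri J a' b' c') : E.s a b c - E.s a' b' c' ∈ E.G J :=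
  ⟨a, b, c, a', b', c', h1, h2, rfl⟩

theorem Tri.mono {N : Type*} {J J' : Finset N} (hJ : J ⊆ J') {a b c : N} (h : Tri J a b c) :
    Tri J' a b c := ⟨hJ h.ha, hJ h.hb, hJ h.hc, h.hab, h.hbc, h.hac⟩

omit [DecidableEq N] in
theorem G_mono {J J' : Finset N} (hJ : J ⊆ J') {g : Ω} (hg : g ∈ E.G J) : g ∈ E.G J' := by
  obtain ⟨a, b, c, a', b', c', h1, h2, rfl⟩ := hg
  exact ⟨a, b, c, a', b', c', h1.mono hJ, h2.mono hJ, rfl⟩

theorem s_le_one_of_pfar [Fintype N] (h : E.Rel) (hM : E.IsModel v) {J : Finset N}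
    (hJ : E.PFar v J) {a b c : N} (hT : Tri J a b c) : v (E.s a b c) ≤ 1 :=
  s_le_one h hM ⟨hT.hab, hJ a hT.ha b hT.hb hT.hab⟩ ⟨hT.hbc, hJ b hT.hb c hT.hc hT.hbc⟩
    ⟨hT.hac, hJ a hT.ha c hT.hc hT.hac⟩

theorem G_le_one_of_pfar [Fintype N] (h : E.Rel) (hM : E.IsModel v) {J : Finset N}
    (hJ : E.PFar v J) {g : Ω} (hg : g ∈ E.G J) : v g ≤ 1 := by
  obtain ⟨a, b, c, a', b', c', h1, h2, rfl⟩ := hg
  exact (Valuation.map_sub _ _ _).trans
    (max_le (s_le_one_of_pfar h hM hJ h1) (s_le_one_of_pfar h hM hJ h2))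

theorem isMax_of_pfar [Fintype N] (h : E.Rel) (hM : E.IsModel v) {J : Finset N}
    (hJ : E.PFar v J) {g : Ω} (hg : g ∈ E.G J) (hg1 : 1 ≤ v g) : E.IsMax v J g := by
  refine ⟨hg, ?_, fun k hk => (G_le_one_of_pfar h hM hJ hk).trans hg1⟩
  rintro rfl
  rw [map_zero] at hg1
  exact absurd hg1 (not_le.mpr zero_lt_one)

theorem fin5_facts : ∀ i : Fin 5, i ≠ i + 1 ∧ i ≠ i + 2 ∧ i ≠ i + 3 ∧ i + 1 ≠ i + 2 ∧
    i + 1 ≠ i + 3 ∧ i + 2 ≠ i + 3 ∧ i + 1 + 1 = i + 2 ∧ i + 1 + 2 = i + 3 ∧ i + 2 + 1 = i + 3 ∧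
    i + 2 + 3 = i := by decide

/-- D4a: membership for the normalised 5-set. -/
theorem farIn_of_normal [Fintype N] (h : E.Rel) (hM : E.IsModel v) {p : Fin 5 → N}
    (hn : E.Normal v p) {R : Subring Ω} (hR : LocSub v R)
    (hRG : ∀ J : Finset N, J.card = 5 → ∀ g', E.IsMax v J g' → ∀ g ∈ E.G J, g / g' ∈ R) :
    E.FarIn R (Finset.univ.image p) := by
  have hinj := hn.inj
  set J := Finset.univ.image p with hJdef
  have hJ : J.card = 5 := by
    rw [hJdef, Finset.card_image_of_injective _ hinj]; simp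
  have hpJ : ∀ i, p i ∈ J := fun i => Finset.mem_image_of_mem _ (Finset.mem_univ _)
  have hJP : E.PFar v J := by
    intro a ha b hb hab
    obtain ⟨i, -, rfl⟩ := Finset.mem_image.mp ha
    obtain ⟨j, -, rfl⟩ := Finset.mem_image.mp hb
    exact hn.far i j (fun e => hab (e ▸ rfl))
  have hne : ∀ i j : Fin 5, i ≠ j → p i ≠ p j := fun i j hij e => hij (hinj e)
  have hT : ∀ i j k : Fin 5, i ≠ j → j ≠ k → i ≠ k → Tri J (p i) (p j) (p k) :=
    fun i j k h1 h2 h3 => ⟨hpJ i, hpJ j, hpJ k, hne _ _ h1, hne _ _ h2, hne _ _ h3⟩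
  obtain ⟨g', hg', hg'1⟩ := hM.big J hJ
  have hmax := isMax_of_pfar h hM hJP hg' hg'1
  have hvg' : v g' = 1 := le_antisymm (G_le_one_of_pfar h hM hJP hg') hg'1
  have hdiv := hRG J hJ g' hmax
  -- the slopes `T i`
  have hS : ∀ i : Fin 5, E.s (p i) (p (i + 1)) (p (i + 2)) = E.T p i + E.T p (i + 1) := by
    have hstep : ∀ i : Fin 5, E.s (p i) (p (i + 1)) (p (i + 2)) = E.T p i + E.T p (i + 1) →
        E.s (p (i + 1)) (p (i + 1 + 1)) (p (i + 1 + 2)) = E.T p (i + 1) + E.T p (i + 1 + 1) := by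
      intro i hi
      obtain ⟨d1, d2, d3, d4, d5, d6, e1, e2, e3, e4⟩ := fin5_facts i
      have c1 := h.cocycle (p i) (p (i + 1)) (p (i + 2)) (p (i + 3)) (hne _ _ d1) (hne _ _ d2)
        (hne _ _ d3) (hne _ _ d4) (hne _ _ d5) (hne _ _ d6)
      have c2 := h.s_cyc (p i) (p (i + 2)) (p (i + 3)) (hne _ _ d2) (hne _ _ d6) (hne _ _ d3)
      rw [e1, e2]
      have t2 : E.T p (i + 2) = E.s (p i) (p (i + 2)) (p (i + 3)) := by
        rw [Dat.T, e3, e4, c2]
      have t0 : E.T p i = E.s (p i) (p (i + 1)) (p (i + 3)) := rfl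
      rw [t2]
      rw [t0] at hi
      linear_combination c1 + hi
    have h0 : E.s (p 0) (p (0 + 1)) (p (0 + 2)) = E.T p 0 + E.T p (0 + 1) := hn.kappa
    have h1 := hstep 0 h0
    have h2 := hstep 1 h1
    have h3 := hstep 2 h2
    have h4 := hstep 3 h3
    intro i
    fin_cases i
    · exact h0
    · exact h1
    · exact h2
    · exact h3
    · exact h4
  have hTG : ∀ i : Fin 5, E.T p i ∈ E.G J := by
    intro i
    have facts : ∀ i : Fin 5, i ≠ i + 1 ∧ i ≠ i + 2 ∧ i + 1 ≠ i + 2 ∧ i + 1 ≠ i + 1 + 1 ∧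
      i + 1 ≠ i + 1 + 3 ∧ i + 1 + 1 ≠ i + 1 + 3 := by decide
    obtain ⟨d1, d2, d3, d4, d5, d6⟩ := facts i
    refine ⟨p i, p (i + 1), p (i + 2), p (i + 1), p (i + 1 + 1), p (i + 1 + 3),
      hT _ _ _ d1 d3 d2, hT _ _ _ d4 d6 d5, ?_⟩
    rw [hS i]
    simp only [Dat.T]
    ring
  have ha1 : E.a1 = (E.s (p 0) (p 1) (p 3) - E.s (p 1) (p 4) (p 2)) - E.T p 0 - E.T p 1 := by
    have h1 := h.s_anti (p 1) (p 2) (p 4) (hne _ _ (by decide)) (hne _ _ (by decide))
      (hne _ _ (by decide))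
    have t0 : E.T p 0 = E.s (p 0) (p 1) (p 3) := rfl
    have t1 : E.T p 1 = E.s (p 1) (p 2) (p 4) := rfl
    rw [t0, t1]
    linear_combination h1
  have ha1G : (E.s (p 0) (p 1) (p 3) - E.s (p 1) (p 4) (p 2)) ∈ E.G J :=
    mem_G_of_tri (hT _ _ _ (by decide) (by decide) (by decide))
      (hT _ _ _ (by decide) (by decide) (by decide))
  have hTd : ∀ i, E.T p i / g' ∈ R := fun i => hdiv _ (hTG i)
  have ha1d : E.a1 / g' ∈ R := by
    rw [ha1, sub_div, sub_div]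
    exact R.sub_mem (R.sub_mem (hdiv _ ha1G) (hTd 0)) (hTd 1)
  have hinv : g'⁻¹ ∈ R := by
    rcases hn.one with ⟨i, hi⟩ | hi
    · have := hTd i
      rwa [hi, one_div] at this
    · rwa [hi, one_div] at ha1d
  have hg'R : g' ∈ R := by
    have := hR.inv_mem g'⁻¹ hinv (by rw [map_inv₀, hvg', inv_one])
    rwa [inv_inv] at this
  have hg'0 := hmax.ne_zero
  have hTR : ∀ i, E.T p i ∈ R := fun i => by
    have := R.mul_mem (hTd i) hg'R
    rwa [div_mul_cancel₀ _ hg'0] at this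
  have ha1R : E.a1 ∈ R := by
    have := R.mul_mem ha1d hg'R
    rwa [div_mul_cancel₀ _ hg'0] at this
  refine farIn_of_s h (p := p 0) (q := p 1) hJ.ge (hpJ 0) (hpJ 1) (hne _ _ (by decide)) ?_ ?_ ha1R
    (s_mem_of_T h hinj hn.kappa ha1R hTR)
  · rw [hn.x0]; exact R.zero_mem
  · rw [hn.y0]; exact R.zero_mem

/-- D4b: at most two elements of a 5-set are bad. -/
theorem exists_good [Fintype N] (h : E.Rel) (hM : E.IsModel v) {J : Finset N} (hJ : J.card = 5)
    {a b c : N} (hT : Tri J a b c) :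
    (∃ g ∈ E.G (J.erase a), 1 ≤ v g) ∨ (∃ g ∈ E.G (J.erase b), 1 ≤ v g) ∨
      (∃ g ∈ E.G (J.erase c), 1 ≤ v g) := by
  by_contra hno
  push Not at hno
  obtain ⟨hA, hB, hC⟩ := hno
  obtain ⟨ha, hb, hc, hab, hbc, hac⟩ := hT
  -- two further elements
  have hcard2 : (((J.erase a).erase b).erase c).card = 2 := by
    rw [Finset.card_erase_of_mem, Finset.card_erase_of_mem, Finset.card_erase_of_mem ha, hJ]
    · exact Finset.mem_erase.mpr ⟨hab.symm, hb⟩
    · exact Finset.mem_erase.mpr ⟨hbc.symm, Finset.mem_erase.mpr ⟨hac.symm, hc⟩⟩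
  obtain ⟨d, e, hde, hdd⟩ := Finset.card_eq_two.mp hcard2
  have hd : d ∈ ((J.erase a).erase b).erase c := by rw [hdd]; simp
  have he : e ∈ ((J.erase a).erase b).erase c := by rw [hdd]; simp
  simp only [Finset.mem_erase] at hd he
  obtain ⟨hdc, hdb, hda, hd⟩ := hd
  obtain ⟨hec, heb, hea, he⟩ := he
  set σ := E.s c d e with hσ
  have hsub : ∀ x y z : Ω, v (x - y) < 1 → v (y - z) < 1 → v (x - z) < 1 := by
    intro x y z h1 h2
    have : x - z = (x - y) + (y - z) := by ring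
    rw [this]
    exact lt_of_le_of_lt (Valuation.map_add _ _ _) (max_lt h1 h2)
  have tri : ∀ {w x y z : N}, x ∈ J → y ∈ J → z ∈ J → x ≠ w → y ≠ w → z ≠ w → x ≠ y → y ≠ z →
      x ≠ z → Tri (J.erase w) x y z := fun hx hy hz h1 h2 h3 h4 h5 h6 =>
    ⟨Finset.mem_erase.mpr ⟨h1, hx⟩, Finset.mem_erase.mpr ⟨h2, hy⟩,
      Finset.mem_erase.mpr ⟨h3, hz⟩, h4, h5, h6⟩
  have PA : ∀ x y z, Tri (J.erase a) x y z → v (E.s x y z - σ) < 1 := fun x y z hT =>
    hA _ (mem_G_of_tri hT (tri hc hd he hac.symm hda hea hdc.symm hde hec.symm))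
  have PB : ∀ x y z, Tri (J.erase b) x y z → v (E.s x y z - σ) < 1 := fun x y z hT =>
    hB _ (mem_G_of_tri hT (tri hc hd he hbc.symm hdb heb hdc.symm hde hec.symm))
  have PC : ∀ x y z, Tri (J.erase c) x y z → v (E.s x y z - σ) < 1 := fun x y z hT =>
    hsub _ _ _ (hC _ (mem_G_of_tri hT (tri hb hd he hbc hdc hec hdb.symm hde heb.symm)))
      (PA _ _ _ (tri hb hd he hab.symm hda hea hdb.symm hde heb.symm))
  -- every slope is congruent to `σ`
  have Pw : ∀ w, (w = a ∨ w = b ∨ w = c) → ∀ x y z, Tri (J.erase w) x y z →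
      v (E.s x y z - σ) < 1 := by
    rintro w (rfl | rfl | rfl)
    · exact PA
    · exact PB
    · exact PC
  have P : ∀ x y z, Tri J x y z → v (E.s x y z - σ) < 1 := by
    rintro x y z ⟨hx, hy, hz, hxy, hyz, hxz⟩
    by_cases hsub3 : ∃ w, (w = a ∨ w = b ∨ w = c) ∧ x ≠ w ∧ y ≠ w ∧ z ≠ w
    · obtain ⟨w, hw, h1, h2, h3⟩ := hsub3
      exact Pw w hw x y z (tri hx hy hz h1 h2 h3 hxy hyz hxz)
    · push Not at hsub3
      -- `{a, b, c} = {x, y, z}`
      have h1 : ({a, b, c} : Finset N) ⊆ {x, y, z} := by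
        intro w hw
        simp only [Finset.mem_insert, Finset.mem_singleton] at hw ⊢
        by_contra hne
        push Not at hne
        exact hne.2.2 (hsub3 w hw (Ne.symm hne.1) (Ne.symm hne.2.1)).symm
      have c1 : ({a, b, c} : Finset N).card = 3 := Finset.card_eq_three.mpr
        ⟨a, b, c, hab, hac, hbc, rfl⟩
      have c2 : ({x, y, z} : Finset N).card = 3 := Finset.card_eq_three.mpr
        ⟨x, y, z, hxy, hxz, hyz, rfl⟩
      have h2 := Finset.eq_of_subset_of_card_le h1 (by rw [c1, c2])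
      have hxm : x = a ∨ x = b ∨ x = c := by
        have : x ∈ ({a, b, c} : Finset N) := by rw [h2]; simp
        simpa using this
      have hym : y = a ∨ y = b ∨ y = c := by
        have : y ∈ ({a, b, c} : Finset N) := by rw [h2]; simp
        simpa using this
      have hzm : z = a ∨ z = b ∨ z = c := by
        have : z ∈ ({a, b, c} : Finset N) := by rw [h2]; simp
        simpa using this
      have hdx : d ≠ x := by rcases hxm with rfl | rfl | rfl <;> assumption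
      have hdy : d ≠ y := by rcases hym with rfl | rfl | rfl <;> assumption
      have hdz : d ≠ z := by rcases hzm with rfl | rfl | rfl <;> assumption
      have q1 := Pw x hxm y z d (tri hy hz hd hxy.symm hxz.symm hdx hyz hdz.symm hdy.symm)
      have q2 := Pw y hym x z d (tri hx hz hd hxy hyz.symm hdy hxz hdz.symm hdx.symm)
      have q3 := Pw z hzm x y d (tri hx hy hd hxz hyz hdz hxy hdy.symm hdx.symm)
      have co := h.cocycle x y z d hxy hxz hdx.symm hyz hdy.symm hdz.symm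
      have : E.s x y z - σ = (E.s y z d - σ) - (E.s x z d - σ) + (E.s x y d - σ) := by
        linear_combination -co
      rw [this]
      refine lt_of_le_of_lt (Valuation.map_add _ _ _) (max_lt ?_ q3)
      exact lt_of_le_of_lt (Valuation.map_sub _ _ _) (max_lt q1 q2)
  obtain ⟨g, ⟨x, y, z, x', y', z', h1, h2, rfl⟩, hg⟩ := hM.big J hJ
  have : v (E.s x y z - E.s x' y' z') < 1 := by
    have e : E.s x y z - E.s x' y' z' = (E.s x y z - σ) - (E.s x' y' z' - σ) := by ring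
    rw [e]
    exact lt_of_le_of_lt (Valuation.map_sub _ _ _) (max_lt (P _ _ _ h1) (P _ _ _ h2))
  exact absurd hg (not_le.mpr this)

end Pool.Agent.Helper49.Irr
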