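import Pool.Agent.Helper49.Irr.Member1

/-!
# D4b: exchange in the good case; inverses of slopes with two near points
-/

namespace Pool.Agent.Helper49.Irr

open Dat

variable {N Ω : Type*} [DecidableEq N] [Field Ω]
  {Γ₀ : Type*} [LinearOrderedCommGroupWithZero Γ₀] {v : Valuation Ω Γ₀} {E : Dat N Ω}

/-- D4c: exchange in the good case. -/
theorem exchange_good [Fintype N] (h : E.Rel) (hM : E.IsModel v) {R : Subring Ω} (hR : LocSub v R)
    (hRG : ∀ J : Finset N, J.card = 5 → ∀ g', E.IsMax v J g' → ∀ g ∈ E.G J, g / g' ∈ R)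
    {J : Finset N} (hJ : J.card = 5) (hJP : E.PFar v J) (hJF : E.FarIn R J) {i j : N} (hi : i ∈ J)
    (hj : j ∉ J) (hJ'P : E.PFar v (insert j (J.erase i)))
    (hgood : ∃ g ∈ E.G (J.erase i), 1 ≤ v g) : E.FarIn R (insert j (J.erase i)) := by
  obtain ⟨g, hg, hg1⟩ := hgood
  set J' := insert j (J.erase i) with hJ'def
  have hjJ : j ∉ J.erase i := fun hj' => hj (Finset.mem_of_mem_erase hj')
  have hJ' : J'.card = 5 := by
    rw [hJ'def, Finset.card_insert_of_notMem hjJ, Finset.card_erase_of_mem hi, hJ]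
  have hsub : J.erase i ⊆ J' := Finset.subset_insert _ _
  have hmax := isMax_of_pfar h hM hJ'P (G_mono hsub hg) hg1
  have hg0 := hmax.ne_zero
  have hgR : g ∈ R := by
    obtain ⟨a, b, c, a', b', c', h1, h2, rfl⟩ := hg
    exact R.sub_mem (hJF.s _ _ _ (h1.mono (Finset.erase_subset _ _)))
      (hJF.s _ _ _ (h2.mono (Finset.erase_subset _ _)))
  have hGR : ∀ k ∈ E.G J', k ∈ R := fun k hk => by
    have := R.mul_mem (hRG J' hJ' g hmax k hk) hgR
    rwa [div_mul_cancel₀ _ hg0] at this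
  -- a triple in `J.erase i`
  obtain ⟨a, b, c, -, -, -, hT, -, -⟩ := hg
  have hsT := hJF.s _ _ _ (hT.mono (Finset.erase_subset _ _))
  refine farIn_of_s h (p := a) (q := b) hJ'.ge (hsub hT.ha) (hsub hT.hb) hT.hab
    (hJF.x a (Finset.mem_of_mem_erase hT.ha) b (Finset.mem_of_mem_erase hT.hb) hT.hab)
    (hJF.y a (Finset.mem_of_mem_erase hT.ha) b (Finset.mem_of_mem_erase hT.hb) hT.hab) hJF.a1 ?_
  intro x y z hxyz
  have h1 := hGR _ (mem_G_of_tri hxyz (hT.mono hsub))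
  have : E.s x y z = (E.s x y z - E.s a b c) + E.s a b c := by ring
  rw [this]
  exact R.add_mem h1 hsT

/-- D4d: inverse of a slope with two near points, local version. -/
theorem inv_mem_aux [Fintype N] (h : E.Rel) (hM : E.IsModel v) {R : Subring Ω} (hR : LocSub v R)
    (hRG : ∀ J : Finset N, J.card = 5 → ∀ g', E.IsMax v J g' → ∀ g ∈ E.G J, g / g' ∈ R)
    {J : Finset N} (hJ : J.card = 5) (hJP : E.PFar v J) (hJF : E.FarIn R J) {a b c f : N}
    (hT : Tri J b c f) (hab : E.Near v a b) (hgood : ∃ g ∈ E.G (J.erase f), 1 ≤ v g) :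
    (E.s a b c)⁻¹ ∈ R ∧ ∀ d e, Tri (J.erase f) b d e → E.s a d e / E.s a b c ∈ R := by
  obtain ⟨g, hg, hg1⟩ := hgood
  obtain ⟨hb, hc, hf, hbc, hcf, hbf⟩ := hT
  have haJ : a ∉ J := fun ha => absurd (hJP a ha b hb hab.1) (not_le.mpr hab.2)
  have hba : E.Near v b a := near_symm h hab
  have hne : ∀ d ∈ J, d ≠ a := fun d hd e => haJ (e ▸ hd)
  have hfar : ∀ d ∈ J, d ≠ b → E.Far v a d := fun d hd hdb =>
    far_of_near h hM hba ⟨hdb.symm, hJP b hb d hd hdb.symm⟩
  set F := J.erase f with hF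
  have hFJ : F ⊆ J := Finset.erase_subset _ _
  have haF : a ∉ F := fun ha => haJ (hFJ ha)
  have hFcard : F.card = 4 := by rw [hF, Finset.card_erase_of_mem hf, hJ]
  set J' := insert a F with hJ'def
  have hJ' : J'.card = 5 := by rw [hJ'def, Finset.card_insert_of_notMem haF, hFcard]
  have hsub : F ⊆ J' := Finset.subset_insert _ _
  have haJ' : a ∈ J' := Finset.mem_insert_self _ _
  have hbF : b ∈ F := Finset.mem_erase.mpr ⟨hbf, hb⟩
  have hcF : c ∈ F := Finset.mem_erase.mpr ⟨hcf, hc⟩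
  have hac : E.Far v a c := hfar c hc hbc.symm
  have hbig := (near_s h hM hab hac).1
  -- the only near pair in `J'`
  have hclose : ∀ x ∈ J', ∀ y ∈ J', E.Near v x y → v (E.x x y) ≤ v (E.x a b) := by
    intro x hx y hy hxy
    rw [Finset.mem_insert] at hx hy
    rcases hx with rfl | hx
    · rcases hy with rfl | hy
      · exact absurd rfl hxy.1
      · by_cases hyb : y = b
        · rw [hyb]
        · exact absurd (hfar y (hFJ hy) hyb).2 (not_le.mpr hxy.2)
    · rcases hy with rfl | hy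
      · by_cases hxb : x = b
        · rw [hxb, h.x_symm _ _ hab.1]
        · have := far_symm h (hfar x (hFJ hx) hxb)
          exact absurd this.2 (not_le.mpr hxy.2)
      · exact absurd (hJP x (hFJ hx) y (hFJ hy) hxy.1) (not_le.mpr hxy.2)
  have hsle : ∀ x y z, Tri J' x y z → v (E.s x y z) ≤ v (E.s a b c) := fun x y z hT =>
    s_le_of_close h hM hab hac hclose hT
  -- a third element
  obtain ⟨d, hd⟩ : ((F.erase b).erase c).Nonempty := by
    rw [← Finset.card_pos, Finset.card_erase_of_mem (Finset.mem_erase.mpr ⟨hbc.symm, hcF⟩),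
      Finset.card_erase_of_mem hbF, hFcard]
    norm_num
  rw [Finset.mem_erase, Finset.mem_erase] at hd
  obtain ⟨hdc, hdb, hdF⟩ := hd
  have hTbcd : Tri F b c d := ⟨hbF, hcF, hdF, hbc, hdc.symm, hdb.symm⟩
  have hs1 : v (E.s b c d) ≤ 1 := s_le_one_of_pfar h hM hJP (hTbcd.mono hFJ)
  have hsR : E.s b c d ∈ R := hJF.s _ _ _ (hTbcd.mono hFJ)
  have hTabc : Tri J' a b c := ⟨haJ', hsub hbF, hsub hcF, hab.1, hbc, hac.1⟩
  set g' := E.s a b c - E.s b c d with hg'
  have hvg' : v g' = v (E.s a b c) :=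
    Valuation.map_sub_eq_of_lt_left v (lt_of_le_of_lt hs1 hbig)
  have hg'0 : g' ≠ 0 := by
    intro h0
    rw [h0, map_zero] at hvg'
    rw [← hvg'] at hbig
    exact absurd hbig (not_lt.mpr zero_le_one)
  have hmax : E.IsMax v J' g' := by
    refine ⟨mem_G_of_tri hTabc (hTbcd.mono hsub), hg'0, ?_⟩
    rintro k ⟨x, y, z, x', y', z', h1, h2, rfl⟩
    rw [hvg']
    exact (Valuation.map_sub _ _ _).trans (max_le (hsle _ _ _ h1) (hsle _ _ _ h2))
  have hdiv := hRG J' hJ' g' hmax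
  -- `g` is a unit of `R`
  have hgR : g ∈ R := by
    obtain ⟨p, q, r, p', q', r', h1, h2, rfl⟩ := hg
    exact R.sub_mem (hJF.s _ _ _ (h1.mono hFJ)) (hJF.s _ _ _ (h2.mono hFJ))
  have hvg : v g = 1 := le_antisymm (G_le_one_of_pfar h hM hJP (G_mono hFJ hg)) hg1
  have hg0 : g ≠ 0 := by
    intro h0
    rw [h0, map_zero] at hvg
    exact zero_ne_one hvg
  have hginv := hR.inv_mem g hgR hvg
  have hτ : g'⁻¹ ∈ R := by
    have := R.mul_mem hginv (hdiv g (G_mono hsub hg))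
    rwa [div_eq_mul_inv, ← mul_assoc, inv_mul_cancel₀ hg0, one_mul] at this
  have hvτ : v (g'⁻¹) < 1 := by
    rw [map_inv₀, hvg']
    exact inv_lt_one_of_one_lt₀ hbig
  -- the unit `1 + s / g'`
  set w := 1 + E.s b c d * g'⁻¹ with hw
  have hwR : w ∈ R := R.add_mem R.one_mem (R.mul_mem hsR hτ)
  have hsmall : v (E.s b c d * g'⁻¹) < 1 := by
    rw [map_mul]
    calc v (E.s b c d) * v (g'⁻¹) ≤ 1 * v (g'⁻¹) := mul_le_mul_left hs1 _
      _ < 1 := by rw [one_mul]; exact hvτ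
  have hvw : v w = 1 := by
    rw [hw, Valuation.map_add_eq_of_lt_left v (by rwa [map_one])]
    exact map_one v
  have hw0 : w ≠ 0 := by
    intro h0
    rw [h0, map_zero] at hvw
    exact zero_ne_one hvw
  have hwinv := hR.inv_mem w hwR hvw
  have hsw : E.s a b c = g' * w := by
    rw [hw, mul_add, mul_one, mul_comm (E.s b c d), ← mul_assoc, mul_inv_cancel₀ hg'0, one_mul,
      hg']
    ring
  have hinv : (E.s a b c)⁻¹ = g'⁻¹ * w⁻¹ := by rw [hsw, mul_inv]
  refine ⟨by rw [hinv]; exact R.mul_mem hτ hwinv, ?_⟩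
  intro p q hpq
  have hTapq : Tri J' a p q := ⟨haJ', hsub hpq.hb, hsub hpq.hc,
    (hne p (hFJ hpq.hb)).symm, hpq.hbc, (hne q (hFJ hpq.hc)).symm⟩
  have h1 := hdiv _ (mem_G_of_tri hTapq (hTbcd.mono hsub))
  have h2 : E.s a p q / E.s a b c
      = ((E.s a p q - E.s b c d) / g' + E.s b c d * g'⁻¹) * w⁻¹ := by
    rw [div_eq_mul_inv, hinv, div_eq_mul_inv]
    ring
  rw [h2]
  exact R.mul_mem (R.add_mem h1 (R.mul_mem hsR hτ)) hwinv

end Pool.Agent.Helper49.Irr
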