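import Pool.Agent.Helper49.Irr.Member2

/-!
# D4c: exchange of near elements
-/

namespace Pool.Agent.Helper49.Irr

open Dat

/-- a linear system with small coefficients over a local ring -/
theorem linsys_mem {Ω : Type*} [Field Ω] {Γ₀ : Type*} [LinearOrderedCommGroupWithZero Γ₀]
    {v : Valuation Ω Γ₀} {R : Subring Ω} (hR : LocSub v R) {ι : Type*} [Fintype ι] [DecidableEq ι]
    (Δ r : ι → Ω) (M : ι → ι → Ω) (hr : ∀ p, r p ∈ R) (hM : ∀ p q, M p q ∈ R)
    (hsm : ∀ p q, v (M p q) < 1) (h : ∀ p, Δ p = r p + ∑ q, M p q * Δ q) : ∀ p, Δ p ∈ R := by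
  -- the ideal of small elements
  let I : Ideal R :=
    { carrier := {x | v (x : Ω) < 1}
      add_mem' := fun {a b} ha hb => lt_of_le_of_lt (Valuation.map_add v _ _) (max_lt ha hb)
      zero_mem' := by simp
      smul_mem' := fun c x hx => by
        have h1 : v ((c • x : R) : Ω) = v (c : Ω) * v (x : Ω) := by simp
        change v ((c • x : R) : Ω) < 1
        rw [h1]
        calc v (c : Ω) * v (x : Ω) ≤ 1 * v (x : Ω) :=
              mul_le_mul_left (hR.le_one _ c.2) _
          _ < 1 := by rw [one_mul]; exact hx }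
  let A : Matrix ι ι R := 1 - Matrix.of fun p q => (⟨M p q, hM p q⟩ : R)
  have hAdet : A.det - 1 ∈ I := by
    rw [← Ideal.Quotient.eq_zero_iff_mem, map_sub, map_one, RingHom.map_det]
    have : (Ideal.Quotient.mk I).mapMatrix A = 1 := by
      have h2 : (Ideal.Quotient.mk I).mapMatrix
          (Matrix.of fun p q => (⟨M p q, hM p q⟩ : R)) = 0 := by
        ext p q
        simp only [RingHom.mapMatrix_apply, Matrix.map_apply, Matrix.of_apply, Matrix.zero_apply]
        rw [Ideal.Quotient.eq_zero_iff_mem]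
        exact hsm p q
      change (Ideal.Quotient.mk I).mapMatrix (1 - _) = 1
      rw [map_sub, h2, map_one, sub_zero]
    rw [this, Matrix.det_one, sub_self]
  have hv : v (A.det : Ω) = 1 := by
    have h1 : v ((A.det : Ω) - 1) < 1 := hAdet
    have h2 : v (A.det : Ω) = v (1 + ((A.det : Ω) - 1)) := by rw [add_sub_cancel]
    rw [h2, Valuation.map_add_eq_of_lt_left v (by rwa [map_one])]
    exact map_one v
  have hne : (A.det : Ω) ≠ 0 := by
    intro h0
    rw [h0, map_zero] at hv
    exact zero_ne_one hv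
  have hinv := hR.inv_mem _ A.det.2 hv
  -- the matrix over `Ω`
  let B : Matrix ι ι Ω := R.subtype.mapMatrix A
  have hB : B.mulVec Δ = r := by
    funext p
    have h1 : B p = fun q => (if p = q then 1 else 0) - M p q := by
      funext q
      simp only [B, A, RingHom.mapMatrix_apply, Matrix.map_apply, Matrix.sub_apply,
        Matrix.of_apply, Matrix.one_apply, Subring.subtype_apply]
      split_ifs <;> simp
    rw [Matrix.mulVec, dotProduct, h1]
    simp only [sub_mul, Finset.sum_sub_distrib, ite_mul, one_mul, zero_mul, Finset.sum_ite_eq,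
      Finset.mem_univ, if_true]
    linear_combination h p
  have hdet : B.det = (A.det : Ω) := by
    rw [← RingHom.map_det]; rfl
  have hadj : B.adjugate = R.subtype.mapMatrix A.adjugate := by
    rw [RingHom.map_adjugate]
  have hsol : (A.det : Ω) • Δ = B.adjugate.mulVec r := by
    rw [← hB, Matrix.mulVec_mulVec, Matrix.adjugate_mul, hdet, Matrix.smul_mulVec,
      Matrix.one_mulVec]
  intro p
  have h3 : Δ p = (A.det : Ω)⁻¹ * (B.adjugate.mulVec r) p := by
    rw [← hsol, Pi.smul_apply, smul_eq_mul, inv_mul_cancel_left₀ hne]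
  rw [h3]
  refine R.mul_mem hinv ?_
  rw [Matrix.mulVec, dotProduct]
  refine R.sum_mem fun q _ => R.mul_mem ?_ (hr q)
  rw [hadj]
  exact (A.adjugate p q).2

variable {N Ω : Type*} [DecidableEq N] [Field Ω]
  {Γ₀ : Type*} [LinearOrderedCommGroupWithZero Γ₀] {v : Valuation Ω Γ₀} {E : Dat N Ω}

/-- D4e: exchange of near elements. -/
theorem exchange_near [Fintype N] (h : E.Rel) (hM : E.IsModel v) {R : Subring Ω} (hR : LocSub v R)
    (hRG : ∀ J : Finset N, J.card = 5 → ∀ g', E.IsMax v J g' → ∀ g ∈ E.G J, g / g' ∈ R)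
    {J : Finset N} (hJ : J.card = 5) (hJP : E.PFar v J) (hJF : E.FarIn R J) {i j : N} (hi : i ∈ J)
    (hij : E.Near v i j) : E.FarIn R (insert j (J.erase i)) := by
  classical
  have hjJ : j ∉ J := fun hj => absurd (hJP i hi j hj hij.1) (not_le.mpr hij.2)
  have hji : E.Near v j i := near_symm h hij
  have hne : ∀ b ∈ J, b ≠ j := fun b hb e => hjJ (e ▸ hb)
  have hfar : ∀ b ∈ J, b ≠ i → E.Far v j b := by
    intro b hb hbi
    exact far_of_near h hM hij ⟨hbi.symm, hJP i hi b hb hbi.symm⟩
  by_cases hgood : ∃ g ∈ E.G (J.erase i), 1 ≤ v g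
  · refine exchange_good h hM hR hRG hJ hJP hJF hi hjJ ?_ hgood
    intro a ha b hb hab
    rw [Finset.mem_insert, Finset.mem_erase] at ha hb
    rcases ha with rfl | ⟨hai, ha⟩
    · rcases hb with rfl | ⟨hbi, hb⟩
      · exact absurd rfl hab
      · exact (hfar b hb hbi).2
    · rcases hb with rfl | ⟨hbi, hb⟩
      · rw [h.x_symm _ _ hab.symm]
        exact (hfar a ha hai).2
      · exact hJP a ha b hb hab
  · -- the key relation for a pair `b ≠ c` of elements of `F`
    set F := J.erase i with hF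
    have hFJ : ∀ b ∈ F, b ∈ J ∧ b ≠ i := fun b hb =>
      ⟨Finset.mem_of_mem_erase hb, Finset.ne_of_mem_erase hb⟩
    have hFcard : F.card = 4 := by rw [hF, Finset.card_erase_of_mem hi, hJ]
    let D : N → N → Ω := fun b c => E.s i b c - E.s j b c
    -- one step
    have key : ∀ b ∈ F, ∀ c ∈ F, b ≠ c → ∃ d ∈ F, d ≠ b ∧ d ≠ c ∧ ∃ r ∈ R, ∃ m ∈ R, ∃ n ∈ R,
        v m < 1 ∧ v n < 1 ∧ D b c = r + m * D b c + n * D c d := by
      intro b hb c hc hbc
      -- the two other elements
      have hcard2 : ((F.erase b).erase c).card = 2 := by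
        rw [Finset.card_erase_of_mem (Finset.mem_erase.mpr ⟨hbc.symm, hc⟩),
          Finset.card_erase_of_mem hb, hFcard]
      obtain ⟨d₁, d₂, hd12, hdd⟩ := Finset.card_eq_two.mp hcard2
      have hd₁ : d₁ ∈ (F.erase b).erase c := by rw [hdd]; simp
      have hd₂ : d₂ ∈ (F.erase b).erase c := by rw [hdd]; simp
      rw [Finset.mem_erase, Finset.mem_erase] at hd₁ hd₂
      obtain ⟨hd₁c, hd₁b, hd₁F⟩ := hd₁
      obtain ⟨hd₂c, hd₂b, hd₂F⟩ := hd₂
      have hbi := (hFJ b hb).2
      have hci := (hFJ c hc).2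
      have hd₁i := (hFJ d₁ hd₁F).2
      have hd₂i := (hFJ d₂ hd₂F).2
      -- choice of the good element
      obtain ⟨d, f, hdF, hfF, hdf, hdb, hdc, hfb, hfc, hf⟩ : ∃ d f, d ∈ F ∧ f ∈ F ∧ d ≠ f ∧
          d ≠ b ∧ d ≠ c ∧ f ≠ b ∧ f ≠ c ∧ ∃ g ∈ E.G (J.erase f), 1 ≤ v g := by
        rcases exists_good h hM hJ
          (⟨hi, (hFJ d₁ hd₁F).1, (hFJ d₂ hd₂F).1, hd₁i.symm, hd12, hd₂i.symm⟩ :
            Tri J i d₁ d₂) with h1 | h1 | h1
        · exact absurd h1 hgood
        · exact ⟨d₂, d₁, hd₂F, hd₁F, hd12.symm, hd₂b, hd₂c, hd₁b, hd₁c, h1⟩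
        · exact ⟨d₁, d₂, hd₁F, hd₂F, hd12, hd₁b, hd₁c, hd₂b, hd₂c, h1⟩
      have hdi := (hFJ d hdF).2
      have hfi := (hFJ f hfF).2
      have hbJ := (hFJ b hb).1
      have hcJ := (hFJ c hc).1
      have hdJ := (hFJ d hdF).1
      have hfJ := (hFJ f hfF).1
      have hjb : j ≠ b := (hne b hbJ).symm
      have hjc : j ≠ c := (hne c hcJ).symm
      have hjd : j ≠ d := (hne d hdJ).symm
      have hij' : i ≠ j := hij.1
      obtain ⟨hβ, hrat⟩ := inv_mem_aux h hM hR hRG hJ hJP hJF
        (⟨hi, hcJ, hfJ, hci.symm, hfc.symm, hfi.symm⟩ : Tri J i c f) hji hf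
      set β := (E.s j i c)⁻¹ with hβdef
      have hbig := (near_s h hM hji (hfar c hcJ hci)).1
      have hs0 : E.s j i c ≠ 0 := by
        intro h0
        rw [h0, map_zero] at hbig
        exact absurd hbig (not_lt.mpr zero_le_one)
      have hβs : β * E.s j i c = 1 := inv_mul_cancel₀ hs0
      have hvβ : v β < 1 := by
        rw [hβdef, map_inv₀]
        exact inv_lt_one_of_one_lt₀ hbig
      -- ratios
      have hmem : ∀ p ∈ J.erase f, ∀ q ∈ J.erase f, p ≠ i → q ≠ i → p ≠ q →
          β * E.s j p q ∈ R ∧ v (β * E.s j p q) < 1 := by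
        intro p hp q hq hpi hqi hpq
        refine ⟨?_, ?_⟩
        · have := hrat p q ⟨Finset.mem_erase.mpr ⟨hfi.symm, hi⟩, hp, hq, hpi.symm, hpq, hqi.symm⟩
          rw [div_eq_inv_mul] at this
          exact this
        · have hpJ := Finset.mem_of_mem_erase hp
          have hqJ := Finset.mem_of_mem_erase hq
          have h1 : v (E.s j p q) ≤ 1 :=
            s_le_one h hM (hfar p hpJ hpi) ⟨hpq, hJP p hpJ q hqJ hpq⟩ (hfar q hqJ hqi)
          rw [map_mul]
          calc v β * v (E.s j p q) ≤ v β * 1 := mul_le_mul_right h1 _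
            _ < 1 := by rw [mul_one]; exact hvβ
      have hbf' : b ∈ J.erase f := Finset.mem_erase.mpr ⟨hfb.symm, hbJ⟩
      have hcf' : c ∈ J.erase f := Finset.mem_erase.mpr ⟨hfc.symm, hcJ⟩
      have hdf' : d ∈ J.erase f := Finset.mem_erase.mpr ⟨hdf, hdJ⟩
      obtain ⟨n1, n2⟩ := hmem b hbf' c hcf' hbi hci hbc
      obtain ⟨m1, m2⟩ := hmem b hbf' d hdf' hbi hdi hdb.symm
      obtain ⟨k1, k2⟩ := hmem c hcf' d hdf' hci hdi hdc.symm
      set m := β * E.s j b d - β * E.s j c d with hmdef
      have hmR : m ∈ R := R.sub_mem m1 k1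
      have hmv : v m < 1 := lt_of_le_of_lt (Valuation.map_sub _ _ _) (max_lt m2 k2)
      refine ⟨d, hdF, hdb, hdc, β * E.x c d + m * (E.s i b c + E.s i c d + E.a1) - β * E.x i c,
        ?_, β * E.s j b c - m, R.sub_mem n1 hmR, -m, R.neg_mem hmR, ?_, ?_, ?_⟩
      · have e1 := hJF.x c hcJ d hdJ hdc.symm
        have e2 := hJF.x i hi c hcJ hci.symm
        have e3 := hJF.s i b c ⟨hi, hbJ, hcJ, hbi.symm, hbc, hci.symm⟩
        have e4 := hJF.s i c d ⟨hi, hcJ, hdJ, hci.symm, hdc.symm, hdi.symm⟩
        exact R.sub_mem (R.add_mem (R.mul_mem hβ e1)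
          (R.mul_mem hmR (R.add_mem (R.add_mem e3 e4) hJF.a1))) (R.mul_mem hβ e2)
      · exact lt_of_le_of_lt (Valuation.map_sub _ _ _) (max_lt n2 hmv)
      · rwa [Valuation.map_neg]
      · have c1 := h.cocycle j i b c hij'.symm hjb hjc hbi.symm hci.symm hbc
        have x1 := h.x_diff j b i c hjb hij'.symm hjc hbi hbc hci.symm
        have x2 := h.x_diff j b c d hjb hjc hjd hbc hdb.symm hdc.symm
        have a1 := h.s_anti j b i hjb hbi hij'.symm
        have hD : D b c = E.s i b c - E.s j b c := rfl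
        have hD' : D c d = E.s i c d - E.s j c d := rfl
        have hd0 : D b c = E.s j i b - E.s j i c := by rw [hD]; linear_combination c1
        have hx : D b c * E.s j i c = E.x j b - E.x i c + D b c * E.s j b c := by
          have e5 : E.s j b i + E.s j i c + E.a1 = - D b c := by
            rw [hd0]; linear_combination a1
          rw [e5] at x1
          linear_combination -x1
        have hD2 : D b c = β * (E.x j b - E.x i c) + D b c * (β * E.s j b c) := by
          calc D b c = D b c * (β * E.s j i c) := by rw [hβs, mul_one]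
            _ = β * (D b c * E.s j i c) := by ring
            _ = _ := by rw [hx]; ring
        have hx2 : E.x j b = E.x c d + (E.s j b d - E.s j c d) * (E.s j b c + E.s j c d + E.a1) := by
          linear_combination x2
        have hs1 : E.s j b c = E.s i b c - D b c := by rw [hD]; ring
        have hs2 : E.s j c d = E.s i c d - D c d := by rw [hD']; ring
        have hfin : β * E.x j b = β * E.x c d + m * (E.s i b c - D b c + (E.s i c d - D c d)
            + E.a1) := by
          rw [← hs1, ← hs2, hmdef, hx2]; ring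
        linear_combination hD2 + hfin
    choose! g hgF hgb hgc r hrR m hmR n hnR hmv hnv hkey using key
    -- the linear system
    let P := {p : N × N // p.1 ∈ F ∧ p.2 ∈ F ∧ p.1 ≠ p.2}
    have hall : ∀ p : P, D p.1.1 p.1.2 ∈ R := by
      refine linsys_mem hR (fun p : P => D p.1.1 p.1.2) (fun p => r p.1.1 p.1.2)
        (fun p q => (if q = p then m p.1.1 p.1.2 else 0) +
          (if q.1 = (p.1.2, g p.1.1 p.1.2) then n p.1.1 p.1.2 else 0)) ?_ ?_ ?_ ?_
      · rintro ⟨⟨b, c⟩, hb, hc, hbc⟩
        exact hrR b hb c hc hbc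
      · rintro ⟨⟨b, c⟩, hb, hc, hbc⟩ q
        refine R.add_mem ?_ ?_
        · split_ifs
          · exact hmR b hb c hc hbc
          · exact R.zero_mem
        · split_ifs
          · exact hnR b hb c hc hbc
          · exact R.zero_mem
      · rintro ⟨⟨b, c⟩, hb, hc, hbc⟩ q
        refine lt_of_le_of_lt (Valuation.map_add _ _ _) (max_lt ?_ ?_)
        · split_ifs
          · exact hmv b hb c hc hbc
          · rw [map_zero]; exact zero_lt_one
        · split_ifs
          · exact hnv b hb c hc hbc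
          · rw [map_zero]; exact zero_lt_one
      · rintro ⟨⟨b, c⟩, hb, hc, hbc⟩
        have hb' : b ∈ F := hb
        have hc' : c ∈ F := hc
        have hbc' : b ≠ c := hbc
        have h1 := hkey b hb' c hc' hbc'
        let q₀ : P := ⟨(c, g b c), hc', hgF b hb' c hc' hbc', (hgc b hb' c hc' hbc').symm⟩
        let p₀ : P := ⟨(b, c), hb, hc, hbc⟩
        have s1 : ∑ q : P, (if q = p₀ then m b c else 0) * D q.1.1 q.1.2 = m b c * D b c := by
          rw [Finset.sum_eq_single p₀]
          · rw [if_pos rfl]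
          · intro q _ hq; rw [if_neg hq, zero_mul]
          · intro hq; exact absurd (Finset.mem_univ _) hq
        have s2 : ∑ q : P, (if q.1 = (c, g b c) then n b c else 0) * D q.1.1 q.1.2
            = n b c * D c (g b c) := by
          rw [Finset.sum_eq_single q₀]
          · rw [if_pos rfl]
          · intro q _ hq
            rw [if_neg (fun e => hq (Subtype.ext e)), zero_mul]
          · intro hq; exact absurd (Finset.mem_univ _) hq
        simp only [add_mul, Finset.sum_add_distrib]
        rw [s1, s2, ← add_assoc]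
        exact h1
    have hsj : ∀ b ∈ F, ∀ c ∈ F, b ≠ c → E.s j b c ∈ R := by
      intro b hb c hc hbc
      have h1 : E.s i b c - E.s j b c ∈ R := hall ⟨(b, c), hb, hc, hbc⟩
      have h2 := hJF.s i b c ⟨hi, (hFJ b hb).1, (hFJ c hc).1, (hFJ b hb).2.symm, hbc,
        (hFJ c hc).2.symm⟩
      have h3 : E.s j b c = E.s i b c - (E.s i b c - E.s j b c) := by ring
      rw [h3]
      exact R.sub_mem h2 h1
    -- two elements of `F`
    obtain ⟨b, hb⟩ : F.Nonempty := by rw [← Finset.card_pos, hFcard]; norm_num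
    obtain ⟨c, hc⟩ : (F.erase b).Nonempty := by
      rw [← Finset.card_pos, Finset.card_erase_of_mem hb, hFcard]; norm_num
    rw [Finset.mem_erase] at hc
    have hjF : j ∉ F := fun hj => hjJ (hFJ j hj).1
    refine farIn_of_s h (S := insert j F) ?_ (Finset.mem_insert_of_mem hb)
      (Finset.mem_insert_of_mem hc.2) hc.1.symm
      (hJF.x b (hFJ b hb).1 c (hFJ c hc.2).1 hc.1.symm)
      (hJF.y b (hFJ b hb).1 c (hFJ c hc.2).1 hc.1.symm) hJF.a1 ?_
    · rw [Finset.card_insert_of_notMem hjF, hFcard]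
    · rintro a b c ⟨ha, hb, hc, hab, hbc, hac⟩
      rw [Finset.mem_insert] at ha hb hc
      rcases ha with rfl | ha
      · rcases hb with rfl | hb
        · exact absurd rfl hab
        · rcases hc with rfl | hc
          · exact absurd rfl hac
          · exact hsj b hb c hc hbc
      · rcases hb with rfl | hb
        · rcases hc with rfl | hc
          · exact absurd rfl hbc
          · rw [← h.s_cyc a b c hab hbc hac]
            exact hsj c hc a ha hac.symm
        · rcases hc with rfl | hc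
          · rw [h.s_cyc c a b hac.symm hab hbc.symm]
            exact hsj a ha b hb hab
          · exact hJF.s a b c ⟨(hFJ a ha).1, (hFJ b hb).1, (hFJ c hc).1, hab, hbc, hac⟩

end Pool.Agent.Helper49.Irr
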