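import Pool.Agent.Helper49.Irr.Basic

/-!
# Near and far points
-/

namespace Pool.Agent.Helper49.Irr

open Dat

section VInt

variable {Ω : Type*} [Field Ω] {Γ₀ : Type*} [LinearOrderedCommGroupWithZero Γ₀]
  {v : Valuation Ω Γ₀}

theorem vint_mul {x y : Ω} (hx : v x ≤ 1) (hy : v y ≤ 1) : v (x * y) ≤ 1 := by
  rw [map_mul]; exact mul_le_one' hx hy

theorem vint_add {x y : Ω} (hx : v x ≤ 1) (hy : v y ≤ 1) : v (x + y) ≤ 1 := v.map_add_le hx hy

theorem vint_sub {x y : Ω} (hx : v x ≤ 1) (hy : v y ≤ 1) : v (x - y) ≤ 1 := v.map_sub_le hx hy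

theorem vint_neg {x : Ω} (hx : v x ≤ 1) : v (-x) ≤ 1 := by rw [Valuation.map_neg]; exact hx

theorem vint_pow {x : Ω} (hx : v x ≤ 1) (n : ℕ) : v (x ^ n) ≤ 1 := by
  rw [map_pow]; exact pow_le_one' hx n

theorem vint_one : v (1 : Ω) ≤ 1 := by rw [map_one]

theorem vint_nat (n : ℕ) : v (n : Ω) ≤ 1 := by
  induction n with
  | zero => simp
  | succ n ih => rw [Nat.cast_succ]; exact vint_add ih vint_one

theorem vint_ofNat (n : ℕ) [n.AtLeastTwo] : v (OfNat.ofNat n : Ω) ≤ 1 := by
  have := vint_nat (v := v) n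
  rwa [← Nat.cast_ofNat] at *

theorem vsmall_mul_left {x y : Ω} (hx : v x < 1) (hy : v y ≤ 1) : v (x * y) < 1 := by
  rw [map_mul]
  calc v x * v y ≤ v x * 1 := mul_le_mul_right hy _
    _ < 1 := by rwa [mul_one]

theorem vsmall_mul_right {x y : Ω} (hx : v x ≤ 1) (hy : v y < 1) : v (x * y) < 1 := by
  rw [mul_comm]; exact vsmall_mul_left hy hx

theorem vsmall_add {x y : Ω} (hx : v x < 1) (hy : v y < 1) : v (x + y) < 1 := v.map_add_lt hx hy

theorem vsmall_sub {x y : Ω} (hx : v x < 1) (hy : v y < 1) : v (x - y) < 1 := v.map_sub_lt hx hy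

theorem vsmall_neg {x : Ω} (hx : v x < 1) : v (-x) < 1 := by rwa [Valuation.map_neg]

/-- integral elements over the valuation ring, degree two -/
theorem vint_of_quad {z β γ : Ω} (h : z ^ 2 + β * z = γ) (hβ : v β ≤ 1) (hγ : v γ ≤ 1) :
    v z ≤ 1 := by
  by_contra hz
  rw [not_le] at hz
  have hz0 : z ≠ 0 := by rintro rfl; simp at hz
  have hw : v z⁻¹ < 1 := by
    rw [map_inv₀]; exact inv_lt_one_of_one_lt₀ hz
  have h1 : (1 : Ω) = z⁻¹ * (γ * z⁻¹ - β) := by
    field_simp
    linear_combination h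
  have h2 : v (1 : Ω) < 1 := by
    rw [h1]
    refine vsmall_mul_left hw ?_
    have := hw.le
    (repeat (first | assumption | exact vint_one | exact vint_ofNat _ | apply vint_add | apply vint_sub | apply vint_mul | apply vint_pow | apply vint_neg))
  rw [map_one] at h2
  exact lt_irrefl _ h2

theorem core_near {a1 a2 a3 a4 a6 x y x' y' s : Ω} (h1 : v a1 ≤ 1) (h2 : v a2 ≤ 1)
    (h3 : v a3 ≤ 1) (h4 : v a4 ≤ 1) (h6 : v a6 ≤ 1)
    (hw : y ^ 2 + a1 * x * y + a3 * y = x ^ 3 + a2 * x ^ 2 + a4 * x + a6) (hx : 1 < v x)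
    (hx' : v x' ≤ 1) (hy' : v y' ≤ 1) (hs : y - y' = s * (x - x')) :
    v x < v y ∧ v y ^ 2 = v x ^ 3 ∧ 1 < v s ∧ v s ^ 2 = v x ∧ v (s ^ 2 - x) ≤ v s := by
  have hx0 : x ≠ 0 := by rintro rfl; simp at hx
  have hwx : v x⁻¹ < 1 := by rw [map_inv₀]; exact inv_lt_one_of_one_lt₀ hx
  have hwx' := hwx.le
  -- `v x < v y`
  have hxy : v x < v y := by
    by_contra hcon
    rw [not_lt] at hcon
    have ht : v (y / x) ≤ 1 := by
      rw [map_div₀]; exact div_le_one_of_le₀ hcon zero_le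
    have e : (1 : Ω) = x⁻¹ * ((y / x) ^ 2 + a1 * (y / x) + a3 * (y / x) * x⁻¹
        - a2 - a4 * x⁻¹ - a6 * x⁻¹ ^ 2) := by
      field_simp
      linear_combination - hw
    have h2' : v (1 : Ω) < 1 := by
      rw [e]
      refine vsmall_mul_left hwx ?_
      (repeat (first | assumption | exact vint_one | exact vint_ofNat _ | apply vint_add | apply vint_sub | apply vint_mul | apply vint_pow | apply vint_neg))
    rw [map_one] at h2'
    exact lt_irrefl _ h2'
  have hvy : 1 < v y := hx.trans hxy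
  have hy0 : y ≠ 0 := by rintro rfl; simp at hvy
  have hwy : v y⁻¹ < 1 := by rw [map_inv₀]; exact inv_lt_one_of_one_lt₀ hvy
  have hz : v (x / y) < 1 := by
    rw [map_div₀]; exact (div_lt_one₀ (zero_lt_iff.2 ((Valuation.ne_zero_iff _).2 hy0))).2 hxy
  have hvx0 : v x ≠ 0 := (Valuation.ne_zero_iff _).2 hx0
  have hvy0 : v y ≠ 0 := (Valuation.ne_zero_iff _).2 hy0
  have hyx : v y ^ 2 = v x ^ 3 := by
    have e : y ^ 2 * (1 + (a1 * (x / y) + a3 * y⁻¹))
        = x ^ 3 * (1 + x⁻¹ * (a2 + a4 * x⁻¹ + a6 * x⁻¹ ^ 2)) := by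
      field_simp
      linear_combination hw
    have e1 : v (1 + (a1 * (x / y) + a3 * y⁻¹)) = 1 :=
      v.map_one_add_of_lt (vsmall_add (vsmall_mul_right h1 hz) (vsmall_mul_right h3 hwy))
    have e2 : v (1 + x⁻¹ * (a2 + a4 * x⁻¹ + a6 * x⁻¹ ^ 2)) = 1 :=
      v.map_one_add_of_lt (vsmall_mul_left hwx (by (repeat (first | assumption | exact vint_one | exact vint_ofNat _ | apply vint_add | apply vint_sub | apply vint_mul | apply vint_pow | apply vint_neg))))
    have := congrArg v e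
    rwa [map_mul, map_mul, e1, e2, mul_one, mul_one, map_pow, map_pow] at this
  have hvs : v y = v s * v x := by
    have e1 : v (y - y') = v y := v.map_sub_eq_of_lt_left (hy'.trans_lt hvy)
    have e2 : v (x - x') = v x := v.map_sub_eq_of_lt_left (hx'.trans_lt hx)
    rw [← e1, ← e2, hs, map_mul]
  have hs1 : 1 < v s := by
    by_contra hcon
    rw [not_lt] at hcon
    have : v y ≤ 1 * v x := by rw [hvs]; exact mul_le_mul_left hcon _
    rw [one_mul] at this
    exact absurd hxy (not_lt.2 this)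
  have hs2 : v s ^ 2 = v x := by
    have e1 : v s ^ 2 * v x ^ 2 = v x * v x ^ 2 := by
      rw [← mul_pow, ← hvs, hyx, pow_succ']
    exact mul_right_cancel₀ (pow_ne_zero 2 hvx0) e1
  have hs0 : s ≠ 0 := by rintro rfl; simp at hs1
  have hvs0 : v s ≠ 0 := (Valuation.ne_zero_iff _).2 hs0
  have hu : v s⁻¹ < 1 := by rw [map_inv₀]; exact inv_lt_one_of_one_lt₀ hs1
  have hu' := hu.le
  refine ⟨hxy, hyx, hs1, hs2, ?_⟩
  have hX : v (x * s⁻¹ ^ 2) = 1 := by
    rw [map_mul, map_pow, map_inv₀, ← hs2, inv_pow]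
    exact mul_inv_cancel₀ (pow_ne_zero 2 hvs0)
  have hX' := hX.le
  have hD : v (s⁻¹ * y' - x') ≤ 1 := by (repeat (first | assumption | exact vint_one | exact vint_ofNat _ | apply vint_add | apply vint_sub | apply vint_mul | apply vint_pow | apply vint_neg))
  have e : s * ((x * s⁻¹ ^ 2) ^ 2 * (1 - x * s⁻¹ ^ 2))
      = - 2 * (x * s⁻¹ ^ 2) * (s⁻¹ * y' - x') * s⁻¹ - (s⁻¹ * y' - x') ^ 2 * s⁻¹ ^ 3
        - a1 * (x * s⁻¹ ^ 2) * (x * s⁻¹ ^ 2 + (s⁻¹ * y' - x') * s⁻¹ ^ 2)
        - a3 * s⁻¹ ^ 2 * (x * s⁻¹ ^ 2 + (s⁻¹ * y' - x') * s⁻¹ ^ 2)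
        + a2 * s⁻¹ * (x * s⁻¹ ^ 2) ^ 2 + a4 * s⁻¹ ^ 3 * (x * s⁻¹ ^ 2) + a6 * s⁻¹ ^ 5 := by
    have hy : y = s * (x - x') + y' := by linear_combination hs
    rw [hy] at hw
    field_simp
    linear_combination hw
  have e2 : v (s * ((x * s⁻¹ ^ 2) ^ 2 * (1 - x * s⁻¹ ^ 2))) ≤ 1 := by
    rw [e]; (repeat (first | assumption | exact vint_one | exact vint_ofNat _ | apply vint_add | apply vint_sub | apply vint_mul | apply vint_pow | apply vint_neg))
  rw [map_mul, map_mul, map_pow, hX, one_pow, one_mul] at e2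
  have e3 : s ^ 2 - x = s ^ 2 * (1 - x * s⁻¹ ^ 2) := by field_simp
  rw [e3, map_mul, map_pow, pow_two, mul_assoc]
  calc v s * (v s * v (1 - x * s⁻¹ ^ 2)) ≤ v s * 1 := mul_le_mul_right e2 _
    _ = v s := mul_one _

end VInt

section Near

variable {N Ω : Type*} [Field Ω] {Γ₀ : Type*} [LinearOrderedCommGroupWithZero Γ₀]
  {v : Valuation Ω Γ₀} {E : Dat N Ω}

/-- D3a: slopes and ordinates of far points are integral -/
theorem y_le_one (h : E.Rel) (hM : E.IsModel v) {a b : N} (hab : E.Far v a b) :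
    v (E.y a b) ≤ 1 := by
  have h1 := hM.a1
  have h2 := hM.a2
  have h3 := hM.a3
  have h4 := hM.a4
  have h6 := hM.a6
  have hx := hab.2
  refine vint_of_quad (β := E.a1 * E.x a b + E.a3)
    (γ := E.x a b ^ 3 + E.a2 * E.x a b ^ 2 + E.a4 * E.x a b + E.a6) ?_ (by (repeat (first | assumption | exact vint_one | exact vint_ofNat _ | apply vint_add | apply vint_sub | apply vint_mul | apply vint_pow | apply vint_neg))) (by (repeat (first | assumption | exact vint_one | exact vint_ofNat _ | apply vint_add | apply vint_sub | apply vint_mul | apply vint_pow | apply vint_neg)))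
  linear_combination h.weier a b hab.1

/-- D3b: near is an equivalence relation. -/
theorem near_symm (h : E.Rel) {a b : N} (hab : E.Near v a b) : E.Near v b a :=
  ⟨hab.1.symm, by rw [h.x_symm a b hab.1]; exact hab.2⟩

theorem far_symm (h : E.Rel) {a b : N} (hab : E.Far v a b) : E.Far v b a :=
  ⟨hab.1.symm, by rw [h.x_symm a b hab.1]; exact hab.2⟩

theorem s_le_one (h : E.Rel) (hM : E.IsModel v) {a b c : N} (hab : E.Far v a b)
    (hbc : E.Far v b c) (hac : E.Far v a c) : v (E.s a b c) ≤ 1 := by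
  have h1 := hM.a1
  have h2 := hM.a2
  have hx1 := hab.2
  have hx2 := hbc.2
  have hx3 := (far_symm h hac).2
  refine vint_of_quad (β := E.a1) (γ := E.a2 + E.x a b + E.x b c + E.x c a) ?_ (by (repeat (first | assumption | exact vint_one | exact vint_ofNat _ | apply vint_add | apply vint_sub | apply vint_mul | apply vint_pow | apply vint_neg)))
    (by (repeat (first | assumption | exact vint_one | exact vint_ofNat _ | apply vint_add | apply vint_sub | apply vint_mul | apply vint_pow | apply vint_neg)))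
  linear_combination - h.sum_x a b c hab.1 hbc.1 hac.1

/-- the facts of `core_near` for a near pair -/
theorem near_core (h : E.Rel) (hM : E.IsModel v) {a b c : N} (hab : E.Near v a b)
    (hac : E.Far v a c) (hbc : b ≠ c) :
    1 < v (E.s a b c) ∧ v (E.s a b c) ^ 2 = v (E.x a b) ∧
      v (E.s a b c ^ 2 - E.x a b) ≤ v (E.s a b c) := by
  have hca := far_symm h hac
  have hs := h.slope c a b hca.1 hab.1 hbc.symm
  rw [h.s_cyc' hab.1 hbc hac.1] at hs
  have := core_near hM.a1 hM.a2 hM.a3 hM.a4 hM.a6 (h.weier a b hab.1) hab.2 hca.2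
    (y_le_one h hM hca) (s := E.s a b c) (by linear_combination - hs)
  exact this.2.2

theorem near_core' (h : E.Rel) (hM : E.IsModel v) {a b c : N} (hbc : E.Near v b c)
    (hac : E.Far v a c) (hab : a ≠ b) :
    1 < v (E.s a b c) ∧ v (E.s a b c) ^ 2 = v (E.x b c) ∧
      v (E.s a b c ^ 2 - E.x b c) ≤ v (E.s a b c) := by
  have hca := far_symm h hac
  have hs := h.slope b c a hbc.1 hca.1 hab.symm
  rw [h.s_cyc a b c hab hbc.1 hac.1] at hs
  have := core_near hM.a1 hM.a2 hM.a3 hM.a4 hM.a6 (h.weier b c hbc.1) hbc.2 hca.2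
    (y_le_one h hM hca) (s := E.s a b c) hs
  exact this.2.2

theorem near_trans (h : E.Rel) (hM : E.IsModel v) {a b c : N} (hab : E.Near v a b)
    (hbc : E.Near v b c) (hac : a ≠ c) : E.Near v a c := by
  refine ⟨hac, ?_⟩
  by_contra hcon
  rw [not_lt] at hcon
  have hfar : E.Far v a c := ⟨hac, hcon⟩
  obtain ⟨s1, _, s3⟩ := near_core h hM hab hfar hbc.1
  obtain ⟨_, _, t3⟩ := near_core' h hM hbc hfar hab.1
  have hx := (far_symm h hfar).2
  have e : E.s a b c ^ 2 = (E.s a b c ^ 2 - E.x a b) + (E.s a b c ^ 2 - E.x b c)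
      + E.a1 * E.s a b c - E.a2 - E.x c a := by
    linear_combination h.sum_x a b c hab.1 hbc.1 hac
  have h1 : v (E.a1 * E.s a b c) ≤ v (E.s a b c) := by
    rw [map_mul]
    calc v E.a1 * v (E.s a b c) ≤ 1 * v (E.s a b c) := mul_le_mul_left hM.a1 _
      _ = _ := one_mul _
  have h2 : v (E.s a b c ^ 2) ≤ v (E.s a b c) := by
    rw [e]
    exact v.map_sub_le (v.map_sub_le (v.map_add_le (v.map_add_le s3 t3) h1)
      (hM.a2.trans s1.le)) (hx.trans s1.le)
  rw [map_pow, pow_two] at h2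
  have h3 : v (E.s a b c) * 1 < v (E.s a b c) * v (E.s a b c) :=
    mul_lt_mul_of_pos_left s1 (zero_lt_one.trans s1)
  rw [mul_one] at h3
  exact absurd h3 (not_lt.2 h2)

theorem far_of_near (h : E.Rel) (hM : E.IsModel v) {a b c : N} (hab : E.Near v a b)
    (hac : E.Far v a c) : E.Far v b c := by
  have hbc : b ≠ c := by
    rintro rfl
    exact absurd hab.2 (not_lt.2 hac.2)
  refine ⟨hbc, ?_⟩
  by_contra hcon
  rw [not_le] at hcon
  have := near_trans h hM hab ⟨hbc, hcon⟩ hac.1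
  exact absurd this.2 (not_lt.2 hac.2)

/-- D3e: size of a slope with two near points. -/
theorem near_s (h : E.Rel) (hM : E.IsModel v) {a b c : N} (hab : E.Near v a b)
    (hac : E.Far v a c) : 1 < v (E.s a b c) ∧ v (E.s a b c) ^ 2 = v (E.x a b) := by
  have := near_core h hM hab hac (far_of_near h hM hab hac).1
  exact ⟨this.1, this.2.1⟩

/-- D3f: near points look the same from far away. -/
theorem near_x_close (h : E.Rel) (hM : E.IsModel v) {a b c : N} (hab : E.Near v a b)
    (hac : E.Far v a c) : v (E.x a c - E.x b c) < 1 ∧ v (E.y a c - E.y b c) < 1 := by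
  have hbc := far_of_near h hM hab hac
  have hca := far_symm h hac
  obtain ⟨s1, _⟩ := near_s h hM hab hac
  have hs0 : E.s a b c ≠ 0 := by
    intro h0; rw [h0, map_zero] at s1; exact absurd s1 (not_lt.2 zero_le)
  have hu : v (E.s a b c)⁻¹ < 1 := by rw [map_inv₀]; exact inv_lt_one_of_one_lt₀ s1
  have hsl := h.slope b c a hbc.1 hca.1 hab.1.symm
  rw [h.s_cyc a b c hab.1 hbc.1 hac.1] at hsl
  have hxs := h.x_symm c a hca.1
  have y1 := y_le_one h hM hbc
  have y2 := y_le_one h hM hca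
  have x1 := hbc.2
  have x2 := hca.2
  have h1 := hM.a1
  have h2 := hM.a2
  have h3 := hM.a3
  have h4 := hM.a4
  constructor
  · have e : E.x a c - E.x b c = (E.s a b c)⁻¹ * (E.y c a - E.y b c) := by
      rw [hxs]
      field_simp
      linear_combination hsl
    rw [e]
    exact vsmall_mul_left hu (by (repeat (first | assumption | exact vint_one | exact vint_ofNat _ | apply vint_add | apply vint_sub | apply vint_mul | apply vint_pow | apply vint_neg)))
  · have r := h.r8 b c a hbc.1 hca.1 hab.1.symm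
    rw [h.s_cyc a b c hab.1 hbc.1 hac.1] at r
    have ys := h.y_symm a c hac.1
    have e : E.y a c - E.y b c = - ((E.s a b c)⁻¹ * (E.x b c ^ 2 + E.x b c * E.x c a
        + E.x c a ^ 2 + E.a2 * (E.x b c + E.x c a) + E.a4 - E.a1 * E.y b c)) := by
      rw [← r, hxs.symm] at *
      field_simp
      linear_combination ys
    rw [e]
    exact vsmall_neg (vsmall_mul_left hu (by (repeat (first | assumption | exact vint_one | exact vint_ofNat _ | apply vint_add | apply vint_sub | apply vint_mul | apply vint_pow | apply vint_neg))))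

end Near

end Pool.Agent.Helper49.Irr
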