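import Mathlib

set_option autoImplicit false

namespace Pool.Agent.Helper49.Irr

open Polynomial Algebra

/-- A rational function over the fraction field of `P` is a quotient of polynomials over `P`. -/
theorem ratFunc_div_surj {P F : Type*} [CommRing P] [IsDomain P] [Field F] [Algebra P F]
    [IsFractionRing P F] (z : RatFunc F) :
    ∃ x y : P[X], z = algebraMap F[X] (RatFunc F) (x.map (algebraMap P F)) /
      algebraMap F[X] (RatFunc F) (y.map (algebraMap P F)) := by
  obtain ⟨p, q, hq, rfl⟩ := IsFractionRing.div_surjective F[X] z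
  obtain ⟨b, hb, hp⟩ := IsLocalization.integerNormalization_spec (nonZeroDivisors P) p
  obtain ⟨c, hc, hq'⟩ := IsLocalization.integerNormalization_spec (nonZeroDivisors P) q
  set p' := IsLocalization.integerNormalization (nonZeroDivisors P) p
  set q' := IsLocalization.integerNormalization (nonZeroDivisors P) q
  have hb0 : algebraMap P F b ≠ 0 := by
    rw [Ne, IsFractionRing.to_map_eq_zero_iff]
    exact nonZeroDivisors.ne_zero hb
  have hc0 : algebraMap P F c ≠ 0 := by
    rw [Ne, IsFractionRing.to_map_eq_zero_iff]
    exact nonZeroDivisors.ne_zero hc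
  refine ⟨C c * p', C b * q', ?_⟩
  have e1 : (C c * p').map (algebraMap P F) = C (algebraMap P F c) * C (algebraMap P F b) * p := by
    rw [Polynomial.map_mul, Polynomial.map_C, hp, ← IsScalarTower.algebraMap_smul F b p,
      Polynomial.smul_eq_C_mul, mul_assoc]
  have e2 : (C b * q').map (algebraMap P F) = C (algebraMap P F c) * C (algebraMap P F b) * q := by
    rw [Polynomial.map_mul, Polynomial.map_C, hq', ← IsScalarTower.algebraMap_smul F c q,
      Polynomial.smul_eq_C_mul]
    ring
  have h0 : algebraMap F[X] (RatFunc F) (C (algebraMap P F c) * C (algebraMap P F b)) ≠ 0 := by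
    rw [Ne, IsFractionRing.to_map_eq_zero_iff, ← C_mul, C_eq_zero]
    exact mul_ne_zero hc0 hb0
  rw [e1, e2, map_mul, map_mul _ _ q, mul_div_mul_left _ _ h0]

/-- E8 -/
theorem exists_ratFunc_equiv (C0 : Type) [Field C0] (F : Type) [Field F]
    [Algebra (MvPolynomial (Fin 10) C0) F] [IsFractionRing (MvPolynomial (Fin 10) C0) F]
    [Algebra C0 F] [IsScalarTower C0 (MvPolynomial (Fin 10) C0) F] :
    Nonempty (FractionRing (MvPolynomial (Fin 11) C0) ≃ₐ[C0] RatFunc F) := by
  let P := MvPolynomial (Fin 10) C0
  let g : P[X] →+* RatFunc F :=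
    (algebraMap F[X] (RatFunc F)).comp (Polynomial.mapRingHom (algebraMap P F))
  let : Algebra P[X] (RatFunc F) := g.toAlgebra
  have hg : ∀ x : P[X], algebraMap P[X] (RatFunc F) x =
      algebraMap F[X] (RatFunc F) (x.map (algebraMap P F)) := fun x => rfl
  have : FaithfulSMul P[X] (RatFunc F) := by
    rw [faithfulSMul_iff_algebraMap_injective]
    have h1 : Function.Injective (algebraMap F[X] (RatFunc F)) := IsFractionRing.injective _ _
    have h2 : Function.Injective (Polynomial.mapRingHom (algebraMap P F)) :=
      Polynomial.map_injective _ (IsFractionRing.injective P F)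
    exact h1.comp h2
  have : IsFractionRing P[X] (RatFunc F) := by
    refine IsFractionRing.of_field _ _ fun z => ?_
    obtain ⟨x, y, h⟩ := ratFunc_div_surj (P := P) z
    exact ⟨x, y, h⟩
  have : IsScalarTower C0 P[X] (RatFunc F) := by
    refine IsScalarTower.of_algebraMap_eq fun x => ?_
    rw [hg, IsScalarTower.algebraMap_apply C0 F[X] (RatFunc F)]
    congr 1
    rw [IsScalarTower.algebraMap_apply C0 P P[X]]
    simp only [Polynomial.algebraMap_apply, Algebra.algebraMap_self, RingHom.id_apply,
      Polynomial.map_C]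
    rw [← IsScalarTower.algebraMap_apply C0 P F]
  exact ⟨IsFractionRing.algEquivOfAlgEquiv (MvPolynomial.finSuccEquiv C0 10)⟩

/-- extension of derivations to formally étale algebras -/
theorem exists_der_ext {R S T : Type*} [CommRing R] [CommRing S] [CommRing T] [Algebra R S]
    [Algebra R T] [Algebra S T] [IsScalarTower R S T] [Algebra.FormallyEtale S T]
    (d : Derivation R S T) : ∃ D : Derivation R T T, ∀ x, D (algebraMap S T x) = d x := by
  let f : T →ₗ[S] T := LinearMap.id
  let φ : (KaehlerDifferential R T) →ₗ[T] T :=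
    (d.liftKaehlerDifferential.liftBaseChange T) ∘ₗ
      (KaehlerDifferential.tensorKaehlerEquivOfFormallyEtale R S T).symm.toLinearMap
  refine ⟨φ.compDer (KaehlerDifferential.D R T), fun x => ?_⟩
  show (d.liftKaehlerDifferential.liftBaseChange T)
    ((KaehlerDifferential.tensorKaehlerEquivOfFormallyEtale R S T).symm
      (KaehlerDifferential.D R T (algebraMap S T x))) = d x
  rw [KaehlerDifferential.tensorKaehlerEquivOfFormallyEtale_symm_D_algebraMap]
  simp

/-- E9a -/
theorem no_normalForm_big {C0 : Type} [Field C0] [CharZero C0] {n L : Type} [Field L]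
    [Algebra C0 L] (e : L ≃ₐ[C0] FractionRing (MvPolynomial n C0)) (i : Fin 12 → n)
    (hi : Function.Injective i) (α β : L) (ξ : Fin 10 → L)
    (H : ∀ (D : Derivation C0 L L) (c : L), D α = 4 * c * α → D β = 6 * c * β →
        (∀ i, D (ξ i) = 2 * c * ξ i) → D = 0 ∧ c = 0) : False := by
  classical
  let S := MvPolynomial n C0
  let φ : S →ₐ[C0] L := e.symm.toAlgHom.comp (IsScalarTower.toAlgHom C0 S (FractionRing S))
  let : Algebra S L := φ.toRingHom.toAlgebra
  have : IsScalarTower C0 S L := IsScalarTower.of_algebraMap_eq fun x => (φ.commutes x).symm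
  let e' : FractionRing S ≃ₐ[S] L := AlgEquiv.ofRingEquiv (f := e.symm.toRingEquiv) fun x => rfl
  have : IsFractionRing S L := IsLocalization.isLocalization_of_algEquiv _ e'
  have : Algebra.FormallyEtale S L := Algebra.FormallyEtale.of_isLocalization (nonZeroDivisors S)
  have hder : ∀ j : Fin 12, ∃ D : Derivation C0 L L, ∀ k : Fin 12,
      D (algebraMap S L (MvPolynomial.X (i k))) = if k = j then 1 else 0 := by
    intro j
    obtain ⟨D, hD⟩ := exists_der_ext (R := C0) (S := S) (T := L)
      (MvPolynomial.mkDerivation C0 (fun a => if a = i j then (1 : L) else 0))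
    refine ⟨D, fun k => ?_⟩
    rw [hD, MvPolynomial.mkDerivation_X]
    simp [hi.eq_iff]
  choose D hD using hder
  -- the linear map
  let tgt : Fin 12 → L := Fin.cons α (Fin.cons β ξ)
  let w : Fin 12 → L := Fin.cons 4 (Fin.cons 6 fun _ => 2)
  let Φ : ((Fin 12 → L) × L) →ₗ[L] (Fin 12 → L) :=
    { toFun := fun x m => (∑ j, x.1 j * D j (tgt m)) - w m * x.2 * tgt m
      map_add' := by
        intro x y
        funext m
        simp only [Prod.fst_add, Prod.snd_add, Pi.add_apply, add_mul, Finset.sum_add_distrib]
        ring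
      map_smul' := by
        intro a x
        funext m
        simp only [Prod.smul_fst, Prod.smul_snd, Pi.smul_apply, smul_eq_mul, RingHom.id_apply,
          mul_sub, Finset.mul_sum]
        congr 1
        · exact Finset.sum_congr rfl fun j _ => by ring
        · ring }
  have hker : LinearMap.ker Φ ≠ ⊥ := by
    apply LinearMap.ker_ne_bot_of_finrank_lt
    simp
  obtain ⟨x, hx, hx0⟩ := (Submodule.ne_bot_iff _).1 hker
  have hx' : ∀ m, ∑ j, x.1 j * D j (tgt m) = w m * x.2 * tgt m := by
    intro m
    have := congrFun (LinearMap.mem_ker.1 hx) m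
    exact sub_eq_zero.1 this
  have hsum : ∀ z, (∑ j, x.1 j • D j) z = ∑ j, x.1 j * D j z := by
    intro z
    have : ∀ s : Finset (Fin 12), (∑ j ∈ s, x.1 j • D j) z = ∑ j ∈ s, x.1 j * D j z := by
      intro s
      induction s using Finset.induction_on with
      | empty => simp
      | insert a s ha ih =>
        rw [Finset.sum_insert ha, Finset.sum_insert ha, Derivation.add_apply, ih]
        rfl
    exact this _
  obtain ⟨h1, h2⟩ := H (∑ j, x.1 j • D j) x.2
    (by rw [hsum]; exact hx' 0)
    (by rw [hsum]; exact hx' 1)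
    (by intro m; rw [hsum]; exact hx' m.succ.succ)
  apply hx0
  have h3 : x.1 = 0 := by
    funext k
    have := hsum (algebraMap S L (MvPolynomial.X (i k)))
    rw [h1] at this
    simp only [hD] at this
    simpa using this.symm
  exact Prod.ext h3 h2

/-- E9b -/
theorem card_eq_eleven {C0 : Type} [Field C0] {n L : Type} [Field L]
    [Algebra C0 L] (e : L ≃ₐ[C0] FractionRing (MvPolynomial n C0)) (w : Fin 11 → L)
    (hw : AlgebraicIndependent C0 w) (hn : ¬ ∃ i : Fin 12 → n, Function.Injective i) :
    Nonempty (n ≃ Fin 11) := by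
  have hfin : Finite n := by
    by_contra h
    rw [not_finite_iff_infinite] at h
    exact hn ⟨fun k => Infinite.natEmbedding n k,
      (Infinite.natEmbedding n).injective.comp Fin.val_injective⟩
  have := Fintype.ofFinite n
  have h1 : Fintype.card n ≤ 11 := by
    by_contra h
    push Not at h
    apply hn
    have : Fintype.card (Fin 12) ≤ Fintype.card n := by
      rw [Fintype.card_fin]
      exact h
    obtain ⟨f⟩ := Function.Embedding.nonempty_of_card_le this
    exact ⟨f, f.injective⟩
  have h2 : 11 ≤ Fintype.card n := by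
    have h3 := hw.lift_cardinalMk_le_trdeg
    rw [e.trdeg_eq] at h3
    have : Algebra.IsAlgebraic (MvPolynomial n C0) (FractionRing (MvPolynomial n C0)) :=
      IsLocalization.isAlgebraic _ (nonZeroDivisors (MvPolynomial n C0))
    rw [← trdeg_add_eq C0 (MvPolynomial n C0) (A := FractionRing (MvPolynomial n C0)),
      trdeg_eq_zero_iff.2 this, add_zero, MvPolynomial.trdeg_of_isDomain] at h3
    simpa using h3
  exact ⟨Fintype.equivFinOfCardEq (le_antisymm h1 h2)⟩

end Pool.Agent.Helper49.Irr
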