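import Pool.Agent.Helper49.Irr.DerExt
import Pool.Agent.Helper49.Irr.DetZero
import Pool.Agent.Helper49.Irr.RatEquiv

/-!
# A rational function field carries no generic configuration
-/

namespace Pool.Agent.Helper49.Irr

section

variable {K : Type*} [Field K]

theorem rowOf_dot (d : Fin 11 → Der K) (f w : K) (v : Fin 12 → K) :
    ∑ i, rowOf d f w i * v i = (∑ i : Fin 11, v i.castSucc * d i f) + v (Fin.last 11) * (w * f) := by
  rw [Fin.sum_univ_castSucc]
  simp only [rowOf, Fin.snoc_castSucc, Fin.snoc_last]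
  congr 1
  · exact Finset.sum_congr rfl fun i _ => mul_comm _ _
  · exact mul_comm _ _

end

/-- The case of eleven variables. -/
theorem no_normalForm_eleven {C0 : Type} [Field C0] [CharZero C0] {L : Type} [Field L]
    [Algebra C0 L] {F : Type} [Field F] [CharZero F]
    [Algebra (MvPolynomial (Fin 10) C0) F] [IsFractionRing (MvPolynomial (Fin 10) C0) F]
    [Algebra C0 F] [IsScalarTower C0 (MvPolynomial (Fin 10) C0) F]
    (e : L ≃ₐ[C0] RatFunc F)
    (α β : L) (ξ η : Fin 10 → L)
    (hdisc : 4 * α ^ 3 + 27 * β ^ 2 ≠ 0) (hη : ∀ i, η i ^ 2 = ξ i ^ 3 + α * ξ i + β)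
    (hη0 : ∀ i, η i ≠ 0)
    (H : ∀ (D : Derivation C0 L L) (c : L), D α = 4 * c * α → D β = 6 * c * β →
        (∀ i, D (ξ i) = 2 * c * ξ i) → D = 0 ∧ c = 0) : False := by
  classical
  -- the partial derivatives of `F`
  have hδ : ∀ i : Fin 10, ∃ D : Der F, ∀ x : MvPolynomial (Fin 10) C0,
      D (algebraMap _ F x) = algebraMap _ F (MvPolynomial.pderiv i x) := by
    intro i
    refine exists_der_extension (fun x => algebraMap _ F (MvPolynomial.pderiv i x)) ?_ ?_
    · intro x y; rw [map_add, map_add]
    · intro x y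
      rw [Derivation.leibniz, smul_eq_mul, smul_eq_mul, map_add, map_mul, map_mul]
  choose δ hδ using hδ
  have hδ0 : ∀ i (c : C0), δ i (algebraMap C0 F c) = 0 := by
    intro i c
    rw [IsScalarTower.algebraMap_apply C0 (MvPolynomial (Fin 10) C0) F, hδ,
      MvPolynomial.algebraMap_eq, MvPolynomial.pderiv_C, map_zero]
  obtain ⟨d, hd0C, hd0X, hdC, hdX⟩ := exists_ratFunc_derivations F δ
  have hej : Function.Injective e := e.injective
  have hdet := det_Wmat_eq_zero δ d hd0C hd0X hdC hdX (e α) (e β) (fun i => e (ξ i))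
    (fun i => e (η i))
    (by
      have : 4 * e α ^ 3 + 27 * e β ^ 2 = e (4 * α ^ 3 + 27 * β ^ 2) := by
        simp only [map_add, map_mul, map_pow, map_ofNat]
      rw [this]
      exact fun h0 => hdisc (hej (by rw [h0, map_zero])))
    (fun i => by rw [← map_pow, hη i]; simp only [map_add, map_mul, map_pow])
    (fun i h0 => hη0 i (hej (by rw [h0, map_zero])))
  obtain ⟨v, hv0, hv⟩ := Matrix.exists_mulVec_eq_zero_iff.mpr hdet
  have hrow : ∀ r, ∑ i, Wmat d (e α) (e β) (fun i => e (ξ i)) (fun i => e (η i)) r i * v i = 0 := by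
    intro r
    exact congrFun hv r
  have hC0R : ∀ c : C0, algebraMap C0 (RatFunc F) c = RatFunc.C (algebraMap C0 F c) := by
    intro c
    rw [RatFunc.algebraMap_apply, map_one, div_one,
      IsScalarTower.algebraMap_apply C0 F (Polynomial F), ← RatFunc.algebraMap_C]
    rfl
  have hdc : ∀ (i : Fin 11) (c : C0), d i (algebraMap C0 (RatFunc F) c) = 0 := by
    intro i c
    rw [hC0R]
    refine Fin.cases ?_ (fun i => ?_) i
    · exact hd0C _
    · rw [hdC, hδ0, map_zero]
  -- the derivation
  let Dfun : L → L := fun z => e.symm (∑ i : Fin 11, v i.castSucc * d i (e z))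
  let D : Derivation C0 L L := Derivation.mk'
    { toFun := Dfun
      map_add' := by
        intro x y
        simp only [Dfun, map_add, Der.map_add, mul_add, Finset.sum_add_distrib]
      map_smul' := by
        intro c x
        simp only [Dfun, RingHom.id_apply]
        rw [← map_smul e.symm, Finset.smul_sum]
        congr 1
        refine Finset.sum_congr rfl fun i _ => ?_
        rw [map_smul, Algebra.smul_def, Der.map_mul, hdc, mul_zero, add_zero, Algebra.smul_def]
        ring }
    (by
      intro x y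
      apply hej
      simp only [LinearMap.coe_mk, AddHom.coe_mk, Dfun, smul_eq_mul, map_add, map_mul,
        AlgEquiv.apply_symm_apply, Der.map_mul, Finset.mul_sum]
      rw [← Finset.sum_add_distrib]
      refine Finset.sum_congr rfl fun i _ => ?_
      ring)
  have hD : ∀ z, e (D z) = ∑ i : Fin 11, v i.castSucc * d i (e z) := by
    intro z
    show e (e.symm _) = _
    rw [AlgEquiv.apply_symm_apply]
  have h1 : D α = 4 * (- e.symm (v (Fin.last 11))) * α := by
    apply hej
    have := hrow 0
    change ∑ i, rowOf d (e α) 4 i * v i = 0 at this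
    rw [rowOf_dot] at this
    rw [hD]
    simp only [map_mul, map_neg, map_ofNat, AlgEquiv.apply_symm_apply]
    linear_combination this
  have h2 : D β = 6 * (- e.symm (v (Fin.last 11))) * β := by
    apply hej
    have := hrow 1
    change ∑ i, rowOf d (e β) 6 i * v i = 0 at this
    rw [rowOf_dot] at this
    rw [hD]
    simp only [map_mul, map_neg, map_ofNat, AlgEquiv.apply_symm_apply]
    linear_combination this
  have h3 : ∀ i, D (ξ i) = 2 * (- e.symm (v (Fin.last 11))) * ξ i := by
    intro i
    apply hej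
    have := hrow i.succ.succ
    change ∑ j, ((e (η i))⁻¹ • rowOf d (e (ξ i)) 2) j * v j = 0 at this
    simp only [Pi.smul_apply, smul_eq_mul, mul_assoc] at this
    rw [← Finset.mul_sum, rowOf_dot] at this
    have h0 : (e (η i))⁻¹ ≠ 0 := inv_ne_zero fun h0 => hη0 i (hej (by rw [h0, map_zero]))
    have := (mul_eq_zero.mp this).resolve_left h0
    rw [hD]
    simp only [map_mul, map_neg, map_ofNat, AlgEquiv.apply_symm_apply]
    linear_combination this
  obtain ⟨hD0, hc0⟩ := H D _ h1 h2 h3
  have hlast : v (Fin.last 11) = 0 := by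
    have : e.symm (v (Fin.last 11)) = 0 := neg_eq_zero.mp hc0
    rw [← e.apply_symm_apply (v (Fin.last 11)), this, map_zero]
  have hz : ∀ z : RatFunc F, ∑ i : Fin 11, v i.castSucc * d i z = 0 := by
    intro z
    have := hD (e.symm z)
    rw [hD0, e.apply_symm_apply] at this
    rw [← this]
    simp
  apply hv0
  funext i
  refine Fin.lastCases hlast (fun i => ?_) i
  refine Fin.cases ?_ (fun i => ?_) i
  · have := hz RatFunc.X
    rw [Fin.sum_univ_succ] at this
    simpa [hd0X, hdX] using this
  · have := hz (RatFunc.C (algebraMap (MvPolynomial (Fin 10) C0) F (MvPolynomial.X i)))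
    rw [Fin.sum_univ_succ] at this
    simp only [hd0C, hdC, hδ, MvPolynomial.pderiv_X, mul_zero, zero_add] at this
    rw [Finset.sum_eq_single i] at this
    · simpa using this
    · intro j _ hj
      simp [hj.symm]
    · intro h; exact absurd (Finset.mem_univ _) h

/-- E9 -/
theorem no_normalForm {C0 : Type} [Field C0] [CharZero C0] {n L : Type} [Field L]
    [Algebra C0 L] (e : L ≃ₐ[C0] FractionRing (MvPolynomial n C0)) (w : Fin 11 → L)
    (hw : AlgebraicIndependent C0 w) (α β : L) (ξ η : Fin 10 → L)
    (hdisc : 4 * α ^ 3 + 27 * β ^ 2 ≠ 0) (hη : ∀ i, η i ^ 2 = ξ i ^ 3 + α * ξ i + β)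
    (hη0 : ∀ i, η i ≠ 0)
    (H : ∀ (D : Derivation C0 L L) (c : L), D α = 4 * c * α → D β = 6 * c * β →
        (∀ i, D (ξ i) = 2 * c * ξ i) → D = 0 ∧ c = 0) : False := by
  by_cases hn : ∃ i : Fin 12 → n, Function.Injective i
  · obtain ⟨i, hi⟩ := hn
    exact no_normalForm_big e i hi α β ξ H
  · obtain ⟨σ⟩ := card_eq_eleven e w hw hn
    have e2 : FractionRing (MvPolynomial n C0) ≃ₐ[C0] FractionRing (MvPolynomial (Fin 11) C0) :=
      IsFractionRing.algEquivOfAlgEquiv (MvPolynomial.renameEquiv C0 σ)
    have : CharZero (FractionRing (MvPolynomial (Fin 10) C0)) :=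
      charZero_of_injective_algebraMap
        (FaithfulSMul.algebraMap_injective C0 (FractionRing (MvPolynomial (Fin 10) C0)))
    obtain ⟨e3⟩ := exists_ratFunc_equiv C0 (FractionRing (MvPolynomial (Fin 10) C0))
    exact no_normalForm_eleven ((e.trans e2).trans e3) α β ξ η hdisc hη hη0 H

end Pool.Agent.Helper49.Irr
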