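import Pool.Agent.Helper49.Irr.ReesGraded

/-!
# B1b: the projective model
-/

namespace Pool.Agent.Helper49.Irr

open Polynomial AlgebraicGeometry CategoryTheory HomogeneousLocalization

section
variable {K : Type} [Field K] (M : Submodule ℤ K)

/-- evaluation at `X = 1` -/
noncomputable def reesEval : reesSub M →+* K :=
  (Polynomial.evalRingHom (1 : K)).comp ((reesSub M).val : reesSub M →+* Polynomial K)

theorem reesEval_apply (f : reesSub M) : reesEval M f = (f : Polynomial K).eval 1 := rfl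

theorem reesEval_of_mem {n : ℕ} {f : reesSub M} (hf : f ∈ reesGr M n) :
    reesEval M f = (f : Polynomial K).coeff n := by
  rw [reesEval_apply]
  obtain ⟨c, hc⟩ := hf
  rw [hc]
  simp

theorem reesEval_mem {n : ℕ} {f : reesSub M} (hf : f ∈ reesGr M n) :
    reesEval M f ∈ M ^ n := by
  rw [reesEval_of_mem M hf]; exact f.2 n

theorem eq_zero_of_reesEval {n : ℕ} {f : reesSub M} (hf : f ∈ reesGr M n)
    (h : reesEval M f = 0) : f = 0 := by
  rw [reesEval_of_mem M hf] at h
  apply Subtype.ext
  rw [reesGr_eq_monomial M hf, h]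
  simp

/-- the evaluation on the localization -/
noncomputable def evL (F : reesSub M) (hF : reesEval M F ≠ 0) : Localization.Away F →+* K :=
  IsLocalization.Away.lift F (g := reesEval M) (isUnit_iff_ne_zero.mpr hF)

/-- the evaluation on the homogeneous localization -/
noncomputable def ev (F : reesSub M) (hF : reesEval M F ≠ 0) : Away (reesGr M) F →+* K :=
  (evL M F hF).comp
    (algebraMap (HomogeneousLocalization (reesGr M) (Submonoid.powers F))
      (Localization (Submonoid.powers F)))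

theorem ev_mk (F : reesSub M) (hF : reesEval M F ≠ 0) {d : ℕ} (hd : F ∈ reesGr M d) (n : ℕ)
    (a : reesSub M) (ha : a ∈ reesGr M (n • d)) :
    ev M F hF (Away.mk (reesGr M) hd n a ha) = reesEval M a / reesEval M F ^ n := by
  show evL M F hF (Localization.mk a ⟨F ^ n, _⟩) = _
  rw [eq_div_iff (pow_ne_zero _ hF), ← map_pow,
    ← IsLocalization.Away.lift_eq (S := Localization.Away F) F (isUnit_iff_ne_zero.mpr hF) (F ^ n),
    ← IsLocalization.Away.lift_eq (S := Localization.Away F) F (isUnit_iff_ne_zero.mpr hF) a]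
  show evL M F hF _ * evL M F hF _ = evL M F hF _
  rw [← map_mul]
  congr 1
  rw [Localization.mk_eq_mk']
  exact IsLocalization.mk'_spec (Localization.Away F) a (⟨F ^ n, n, rfl⟩ : Submonoid.powers F)

theorem ev_injective (F : reesSub M) (hF : reesEval M F ≠ 0) {d : ℕ} (hd : F ∈ reesGr M d) :
    Function.Injective (ev M F hF) := by
  rw [injective_iff_map_eq_zero]
  intro z hz
  obtain ⟨n, a, ha, rfl⟩ := Away.mk_surjective (reesGr M) hd z
  rw [ev_mk, div_eq_zero_iff] at hz
  have h0 : reesEval M a = 0 := hz.resolve_right (pow_ne_zero _ hF)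
  have : a = 0 := eq_zero_of_reesEval M ha h0
  subst this
  apply HomogeneousLocalization.val_injective
  rw [Away.val_mk, HomogeneousLocalization.val_zero, Localization.mk_zero]

theorem ev_awayMap {F G x : reesSub M} (hF : reesEval M F ≠ 0) (hx' : reesEval M x ≠ 0)
    {d e : ℕ} (hd : F ∈ reesGr M d) (he : G ∈ reesGr M e) (hx : x = F * G)
    (z : Away (reesGr M) F) :
    ev M x hx' (awayMap (reesGr M) he hx z) = ev M F hF z := by
  obtain ⟨n, a, ha, rfl⟩ := Away.mk_surjective (reesGr M) hd z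
  rw [awayMap_mk, ev_mk, ev_mk]
  subst hx
  rw [map_mul] at hx'
  have hG : reesEval M G ≠ 0 := right_ne_zero_of_mul hx'
  rw [map_mul, map_mul, map_pow, mul_pow]
  field_simp

theorem ringHom_int_ext {S : Type} [CommRing S] (hS : Function.Surjective (algebraMap ℤ S))
    {T : Type} [CommRing T] (g h : S →+* T) : g = h := by
  ext s
  obtain ⟨n, rfl⟩ := hS s
  simp

end

section
variable {K ι : Type} [Field K] (ψ : ι → K)

theorem reesEval_reesGen (i : ι) :
    reesEval (Submodule.span ℤ (Set.range ψ)) (reesGen ψ i) = ψ i := by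
  rw [reesEval_apply, coe_reesGen]
  simp

theorem div_mem_chartRing_one (i : ι) {m : K}
    (hm : m ∈ Submodule.span ℤ (Set.range ψ)) : m / ψ i ∈ chartRing ψ i := by
  induction hm using Submodule.span_induction with
  | mem x hx =>
    obtain ⟨j, rfl⟩ := hx
    exact Algebra.subset_adjoin ⟨j, rfl⟩
  | zero => rw [zero_div]; exact Subalgebra.zero_mem _
  | add x y hx hy ihx ihy => rw [add_div]; exact Subalgebra.add_mem _ ihx ihy
  | smul r x hx ihx => rw [smul_div_assoc]; exact Subalgebra.smul_mem _ ihx r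

theorem div_mem_chartRing (i : ι) (n : ℕ) {c : K}
    (hc : c ∈ (Submodule.span ℤ (Set.range ψ)) ^ n) : c / ψ i ^ n ∈ chartRing ψ i := by
  induction hc using Submodule.pow_induction_on_left' with
  | algebraMap r =>
    rw [pow_zero, div_one]
    exact Subalgebra.algebraMap_mem _ r
  | add x y i hx hy ihx ihy => rw [add_div]; exact Subalgebra.add_mem _ ihx ihy
  | mem_mul m hm i x hx ihx =>
    rw [Nat.succ_eq_add_one, pow_succ', mul_div_mul_comm]
    exact Subalgebra.mul_mem _ (div_mem_chartRing_one ψ _ hm) ihx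

theorem evGen_mem (i : ι) (hi : reesEval (Submodule.span ℤ (Set.range ψ)) (reesGen ψ i) ≠ 0)
    (z : Away (reesGr (Submodule.span ℤ (Set.range ψ))) (reesGen ψ i)) :
    ev _ (reesGen ψ i) hi z ∈ chartRing ψ i := by
  obtain ⟨n, a, ha, rfl⟩ := Away.mk_surjective _ (reesGen_mem ψ i) z
  rw [ev_mk, reesEval_reesGen]
  have := reesEval_mem _ ha
  rw [smul_eq_mul, mul_one] at this
  exact div_mem_chartRing ψ i n this

theorem chartRing_le_range (i : ι)
    (hi : reesEval (Submodule.span ℤ (Set.range ψ)) (reesGen ψ i) ≠ 0) :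
    chartRing ψ i ≤ (ev _ (reesGen ψ i) hi).toIntAlgHom.range := by
  refine Algebra.adjoin_le ?_
  rintro _ ⟨j, rfl⟩
  refine ⟨Away.mk _ (reesGen_mem ψ i) 1 (reesGen ψ j) (by simpa using reesGen_mem ψ j), ?_⟩
  show ev _ (reesGen ψ i) hi _ = _
  rw [ev_mk, reesEval_reesGen, reesEval_reesGen, pow_one]

/-- the chart ring is the homogeneous localization -/
noncomputable def chartEquiv (i : ι)
    (hi : reesEval (Submodule.span ℤ (Set.range ψ)) (reesGen ψ i) ≠ 0) :
    Away (reesGr (Submodule.span ℤ (Set.range ψ))) (reesGen ψ i) ≃+* chartRing ψ i :=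
  RingEquiv.ofBijective ((ev _ (reesGen ψ i) hi).codRestrict (chartRing ψ i) (evGen_mem ψ i hi)) (by
    constructor
    · intro x y hxy
      apply ev_injective _ (reesGen ψ i) hi (reesGen_mem ψ i)
      exact congrArg Subtype.val hxy
    · rintro ⟨y, hy⟩
      obtain ⟨x, hx⟩ := chartRing_le_range ψ i hi hy
      exact ⟨x, Subtype.ext hx⟩)

theorem chartEquiv_apply (i : ι)
    (hi : reesEval (Submodule.span ℤ (Set.range ψ)) (reesGen ψ i) ≠ 0)
    (z : Away (reesGr (Submodule.span ℤ (Set.range ψ))) (reesGen ψ i)) :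
    ((chartEquiv ψ i hi z : chartRing ψ i) : K) = ev _ (reesGen ψ i) hi z := rfl

end

theorem coe_coe_int {K : Type} [Field K] (M : Submodule ℤ K) (n : ℤ) :
    ((((n : ℤ) : reesGr M 0) : reesSub M) : Polynomial K) = (n : Polynomial K) := rfl

/-- degree zero is `ℤ` -/
theorem intCast_bijective {K : Type} [Field K] [CharZero K] (M : Submodule ℤ K) :
    Function.Bijective (Int.castRingHom (reesGr M 0)) := by
  constructor
  · intro a b hab
    have h : ((((a : ℤ) : reesGr M 0) : reesSub M) : Polynomial K) =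
        ((((b : ℤ) : reesGr M 0) : reesSub M) : Polynomial K) := by
      exact congrArg (fun z : reesGr M 0 => ((z : reesSub M) : Polynomial K)) hab
    rw [coe_coe_int, coe_coe_int] at h
    exact_mod_cast h
  · intro z
    obtain ⟨c, hc⟩ := z.2
    have h1 : ((z : reesSub M) : Polynomial K).coeff 0 ∈ M ^ 0 := (z : reesSub M).2 0
    rw [hc, coeff_monomial, if_pos rfl, pow_zero, Submodule.mem_one] at h1
    obtain ⟨n, hn⟩ := h1
    refine ⟨n, ?_⟩
    apply Subtype.ext
    apply Subtype.ext
    rw [hc, ← hn]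
    show ((((n : ℤ) : reesGr M 0) : reesSub M) : Polynomial K) = _
    rw [coe_coe_int, monomial_zero_left]
    simp

/-- degree zero is `ℤ` -/
noncomputable def intEquiv {K : Type} [Field K] [CharZero K] (M : Submodule ℤ K) :
    ℤ ≃+* reesGr M 0 := RingEquiv.ofBijective (Int.castRingHom (reesGr M 0)) (intCast_bijective M)

theorem SpecMap_ev_awayι {K : Type} [Field K] (M : Submodule ℤ K) {F G x : reesSub M}
    (hF : reesEval M F ≠ 0) (hx' : reesEval M x ≠ 0)
    {d e : ℕ} (hd : F ∈ reesGr M d) (he : G ∈ reesGr M e) (hx : x = F * G) (h0 : 0 < d) :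
    Spec.map (CommRingCat.ofHom (ev M F hF)) ≫ Proj.awayι (reesGr M) F hd h0 =
    Spec.map (CommRingCat.ofHom (ev M x hx')) ≫
      Proj.awayι (reesGr M) x (hx ▸ SetLike.mul_mem_graded hd he)
        (h0.trans_le (d.le_add_right e)) := by
  rw [← Proj.SpecMap_awayMap_awayι (reesGr M) hd h0 he hx, ← Category.assoc, ← Spec.map_comp,
    ← CommRingCat.ofHom_comp]
  congr 3
  ext z
  exact (ev_awayMap M hF hx' hd he hx z).symm

theorem SpecMap_ev_awayι_gen {K ι : Type} [Field K] (ψ : ι → K) (i j : ι)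
    (hi : reesEval (Submodule.span ℤ (Set.range ψ)) (reesGen ψ i) ≠ 0)
    (hj : reesEval (Submodule.span ℤ (Set.range ψ)) (reesGen ψ j) ≠ 0) :
    Spec.map (CommRingCat.ofHom (ev _ (reesGen ψ i) hi)) ≫
      Proj.awayι (reesGr (Submodule.span ℤ (Set.range ψ))) (reesGen ψ i)
        (reesGen_mem ψ i) one_pos =
    Spec.map (CommRingCat.ofHom (ev _ (reesGen ψ j) hj)) ≫
      Proj.awayι (reesGr (Submodule.span ℤ (Set.range ψ))) (reesGen ψ j)
        (reesGen_mem ψ j) one_pos := by
  have hij : reesEval (Submodule.span ℤ (Set.range ψ)) (reesGen ψ i * reesGen ψ j) ≠ 0 := by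
    rw [map_mul]; exact mul_ne_zero hi hj
  rw [SpecMap_ev_awayι _ hi hij (reesGen_mem ψ i) (reesGen_mem ψ j) rfl one_pos,
    SpecMap_ev_awayι _ hj hij (reesGen_mem ψ j) (reesGen_mem ψ i) (mul_comm _ _) one_pos]

/-- B1 -/
theorem exists_projModel {K ι : Type} [Field K] [CharZero K] [Finite ι] [Nonempty ι]
    (ψ : ι → K) (hψ : ∀ i, ψ i ≠ 0) : Nonempty (ProjModel ψ) := by
  classical
  set M := Submodule.span ℤ (Set.range ψ) with hM
  have : Algebra.FiniteType (reesGr M 0) (reesSub M) := reesSub_finiteType ψ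
  have hg : ∀ i, reesEval M (reesGen ψ i) ≠ 0 := by
    intro i
    rw [reesEval_reesGen]; exact hψ i
  let i₀ : ι := Classical.arbitrary ι
  refine ⟨{
    X := Proj (reesGr M)
    f := Proj.toSpecZero (reesGr M) ≫ Spec.map (intEquiv M).toCommRingCatIso.hom
    proper := inferInstance
    j := fun i => Spec.map (chartEquiv ψ i (hg i)).toCommRingCatIso.hom ≫
      Proj.awayι (reesGr M) (reesGen ψ i) (reesGen_mem ψ i) one_pos
    openImm := fun i => inferInstance
    j_over := ?_
    cover := ?_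
    gen := Spec.map (CommRingCat.ofHom (ev _ (reesGen ψ i₀) (hg i₀))) ≫
      Proj.awayι (reesGr M) (reesGen ψ i₀) (reesGen_mem ψ i₀) one_pos
    gen_eq := ?_ }⟩
  · intro i
    rw [Category.assoc, Proj.awayι_toSpecZero_assoc, ← Spec.map_comp, ← Spec.map_comp]
    congr 1
    ext x
    simp
  · intro x
    have h := Proj.iSup_basicOpen_eq_top' (reesGr M) (reesGen ψ) (fun i => ⟨1, reesGen_mem ψ i⟩)
      (adjoin_reesGen ψ)
    have hx : x ∈ (⊤ : (Proj (reesGr M)).Opens) := trivial
    rw [← h, TopologicalSpace.Opens.mem_iSup] at hx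
    obtain ⟨i, hi⟩ := hx
    refine ⟨i, ?_⟩
    rw [← Proj.opensRange_awayι (reesGr M) (reesGen ψ i) (reesGen_mem ψ i) one_pos,
      ← Scheme.Hom.opensRange_comp_of_isIso
        (Spec.map (chartEquiv ψ i (hg i)).toCommRingCatIso.hom)] at hi
    exact hi
  · intro i
    rw [SpecMap_ev_awayι_gen ψ i₀ i (hg i₀) (hg i), ← Category.assoc, ← Spec.map_comp]
    congr 2

end Pool.Agent.Helper49.Irr
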