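import Pool.Agent.Helper49.Irr.DefsB

/-!
# Smoothness of the projective model
-/

namespace Pool.Agent.Helper49.Irr

open AlgebraicGeometry CategoryTheory

theorem chartRing_finiteType {K ι : Type} [Field K] [Finite ι] (ψ : ι → K) (i : ι) :
    Algebra.FiniteType ℤ (chartRing ψ i) := by
  have h : (chartRing ψ i).FG := by
    have hf : (Set.range fun j => ψ j / ψ i).Finite := Set.finite_range _
    refine ⟨hf.toFinset, ?_⟩
    rw [Set.Finite.coe_toFinset]
    rfl
  exact (Subalgebra.fg_iff_finiteType _).mp h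

theorem chartRing_smooth {K ι : Type} [Field K] [Finite ι] {ψ : ι → K} (i : ι)
    (h : ∀ (P : Ideal (chartRing ψ i)) [P.IsPrime], Algebra.IsSmoothAt ℤ P) :
    Algebra.Smooth ℤ (chartRing ψ i) := by
  have := chartRing_finiteType ψ i
  have hfp : Algebra.FinitePresentation ℤ (chartRing ψ i) :=
    (Algebra.FinitePresentation.of_finiteType).mp inferInstance
  have hs : Algebra.smoothLocus ℤ (chartRing ψ i) = Set.univ := by
    ext p
    simp only [Set.mem_univ, iff_true]
    exact h p.asIdeal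
  exact ⟨Algebra.smoothLocus_eq_univ_iff.mp hs, hfp⟩

/-- B2 -/
theorem ProjModel.smooth {K ι : Type} [Field K] [Finite ι] {ψ : ι → K} (M : ProjModel ψ)
    (h : ∀ i (P : Ideal (chartRing ψ i)) [P.IsPrime], Algebra.IsSmoothAt ℤ P) : Smooth M.f := by
  have := M.openImm
  have hU : ⨆ i, (M.j i).opensRange = ⊤ := by
    rw [eq_top_iff]
    intro x _
    obtain ⟨i, hi⟩ := M.cover x
    exact TopologicalSpace.Opens.mem_iSup.mpr ⟨i, hi⟩
  rw [IsZariskiLocalAtSource.iff_of_iSup_eq_top (P := @Smooth) _ hU]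
  intro i
  have h1 : (M.j i).opensRange.ι ≫ M.f = (M.j i).isoOpensRange.inv ≫ (M.j i ≫ M.f) := by
    rw [← Category.assoc, Scheme.Hom.isoOpensRange_inv_comp]
  rw [h1, MorphismProperty.cancel_left_of_respectsIso @Smooth, M.j_over i,
    HasRingHomProperty.Spec_iff (P := @Smooth)]
  have h2 := chartRing_smooth i (h i)
  exact (RingHom.smooth_algebraMap).mpr h2

end Pool.Agent.Helper49.Irr
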