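import Pool.Agent.Helper49.Irr.DefsB

/-!
# B1a: the Rees algebra is graded and of finite type
-/

namespace Pool.Agent.Helper49.Irr

open Polynomial

section
variable {K : Type} [Field K] (M : Submodule ℤ K)

theorem monomial_mem_reesSub {n : ℕ} {c : K} (hc : c ∈ M ^ n) :
    (monomial n c : Polynomial K) ∈ reesSub M := by
  intro i
  rw [coeff_monomial]
  split_ifs with h
  · rw [← h]; exact hc
  · exact Submodule.zero_mem _

/-- the monomial `c X^n` as an element of the Rees algebra -/
noncomputable def reesMon {n : ℕ} {c : K} (hc : c ∈ M ^ n) : reesSub M :=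
  ⟨monomial n c, monomial_mem_reesSub M hc⟩

theorem coe_reesMon {n : ℕ} {c : K} (hc : c ∈ M ^ n) :
    ((reesMon M hc : reesSub M) : Polynomial K) = monomial n c := rfl

theorem reesMon_mem {n : ℕ} {c : K} (hc : c ∈ M ^ n) : reesMon M hc ∈ reesGr M n := ⟨c, rfl⟩

/-- homogeneous component -/
noncomputable def reesComp (f : reesSub M) (n : ℕ) : reesGr M n :=
  ⟨reesMon M (f.2 n), reesMon_mem M (f.2 n)⟩

theorem coe_reesComp (f : reesSub M) (n : ℕ) :
    (((reesComp M f n : reesGr M n) : reesSub M) : Polynomial K)
      = monomial n ((f : Polynomial K).coeff n) := rfl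

theorem reesComp_eq_zero (f : reesSub M) (n : ℕ) (h : (f : Polynomial K).coeff n = 0) :
    reesComp M f n = 0 := by
  apply Subtype.ext
  apply Subtype.ext
  rw [coe_reesComp, h]
  simp

/-- decomposition into homogeneous components -/
noncomputable def reesDecFun (f : reesSub M) : DirectSum ℕ (fun n => reesGr M n) :=
  DirectSum.mk (fun n => reesGr M n) (f : Polynomial K).support (fun n => reesComp M f n)

theorem reesDecFun_apply (f : reesSub M) (n : ℕ) : reesDecFun M f n = reesComp M f n := by
  unfold reesDecFun
  by_cases hn : n ∈ (f : Polynomial K).support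
  · exact DirectSum.mk_apply_of_mem hn
  · rw [DirectSum.mk_apply_of_notMem hn, reesComp_eq_zero]
    simpa using hn

theorem coeff_coe_reesGr (x : DirectSum ℕ (fun n => reesGr M n)) (m : ℕ) :
    ((DirectSum.coeAddMonoidHom (reesGr M) x : reesSub M) : Polynomial K).coeff m
      = (((x m : reesGr M m) : reesSub M) : Polynomial K).coeff m := by
  classical
  induction x using DirectSum.induction_on with
  | zero => simp
  | of i a =>
    rw [DirectSum.coeAddMonoidHom_of]
    by_cases h : i = m
    · subst h
      rw [DirectSum.of_eq_same]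
    · rw [DirectSum.of_eq_of_ne _ _ _ (Ne.symm h)]
      obtain ⟨c, hc⟩ := a.2
      rw [hc, coeff_monomial, if_neg h]
      simp
  | add x y hx hy =>
    rw [map_add]
    show ((DirectSum.coeAddMonoidHom (reesGr M) x : reesSub M) : Polynomial K).coeff m
      + ((DirectSum.coeAddMonoidHom (reesGr M) y : reesSub M) : Polynomial K).coeff m = _
    rw [hx, hy]
    rfl

theorem reesGr_eq_monomial {n : ℕ} {f : reesSub M} (hf : f ∈ reesGr M n) :
    (f : Polynomial K) = monomial n ((f : Polynomial K).coeff n) := by
  obtain ⟨c, hc⟩ := hf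
  rw [hc, coeff_monomial, if_pos rfl]

noncomputable instance reesGr_graded {K : Type} [Field K] (M : Submodule ℤ K) : GradedAlgebra (reesGr M) where
  one_mem := ⟨1, by simp [monomial_zero_left]⟩
  mul_mem := by
    rintro i j f g ⟨c, hc⟩ ⟨d, hd⟩
    refine ⟨c * d, ?_⟩
    show (f : Polynomial K) * (g : Polynomial K) = _
    rw [hc, hd, monomial_mul_monomial]
  decompose' := reesDecFun M
  left_inv := by
    intro f
    apply Subtype.ext
    ext m
    rw [coeff_coe_reesGr, reesDecFun_apply, coe_reesComp, coeff_monomial, if_pos rfl]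
  right_inv := by
    intro x
    apply DFinsupp.ext
    intro m
    show reesDecFun M _ m = x m
    rw [reesDecFun_apply]
    apply Subtype.ext
    apply Subtype.ext
    rw [coe_reesComp, coeff_coe_reesGr]
    exact (reesGr_eq_monomial M (x m).2).symm

/-- the generators of the Rees algebra -/
noncomputable def reesGen {K ι : Type} [Field K] (ψ : ι → K) (i : ι) :
    reesSub (Submodule.span ℤ (Set.range ψ)) :=
  reesMon (Submodule.span ℤ (Set.range ψ)) (n := 1) (c := ψ i)
    (by rw [pow_one]; exact Submodule.subset_span ⟨i, rfl⟩)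

theorem reesGen_mem {K ι : Type} [Field K] (ψ : ι → K) (i : ι) :
    reesGen ψ i ∈ reesGr (Submodule.span ℤ (Set.range ψ)) 1 := reesMon_mem _ _

theorem coe_reesGen {K ι : Type} [Field K] (ψ : ι → K) (i : ι) :
    ((reesGen ψ i : reesSub (Submodule.span ℤ (Set.range ψ))) : Polynomial K)
      = monomial 1 (ψ i) := rfl

theorem adjoin_reesGen {K ι : Type} [Field K] (ψ : ι → K) :
    Algebra.adjoin (reesGr (Submodule.span ℤ (Set.range ψ)) 0) (Set.range (reesGen ψ)) = ⊤ := by
  set M := Submodule.span ℤ (Set.range ψ) with hM
  set S := Algebra.adjoin (reesGr M 0) (Set.range (reesGen ψ)) with hS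
  have hint : ∀ (r : ℤ) (f : reesSub M), f ∈ S → r • f ∈ S := by
    intro r f hf
    exact zsmul_mem hf r
  -- degree one
  have h1 : ∀ m (hm : m ∈ M), reesMon M (n := 1) (c := m) (by rw [pow_one]; exact hm) ∈ S := by
    intro m hm
    induction hm using Submodule.span_induction with
    | mem x hx =>
      obtain ⟨i, rfl⟩ := hx
      exact Algebra.subset_adjoin ⟨i, rfl⟩
    | zero =>
      have : reesMon M (n := 1) (c := (0 : K)) (Submodule.zero_mem _) = 0 := by
        apply Subtype.ext; simp [coe_reesMon]
      rw [this]; exact S.zero_mem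
    | add x y hx hy ihx ihy =>
      have := S.add_mem ihx ihy
      convert this using 1
      apply Subtype.ext
      show monomial 1 (x + y) = monomial 1 x + monomial 1 y
      rw [map_add]
    | smul r x hx ihx =>
      have := hint r _ ihx
      convert this using 1
      apply Subtype.ext
      show monomial 1 (r • x) = r • monomial 1 x
      rw [smul_monomial]
  have hn : ∀ (n : ℕ) (c : K) (hc : c ∈ M ^ n), reesMon M hc ∈ S := by
    intro n c hc
    induction hc using Submodule.pow_induction_on_left' with
    | algebraMap r =>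
      have e : reesMon M (n := 0) (c := algebraMap ℤ K r) (Submodule.algebraMap_mem r)
          = r • (1 : reesSub M) := by
        apply Subtype.ext
        show monomial 0 (algebraMap ℤ K r) = r • (1 : Polynomial K)
        rw [monomial_zero_left]
        simp
      rw [e]
      exact hint r _ S.one_mem
    | add x y i hx hy ihx ihy =>
      have := S.add_mem ihx ihy
      convert this using 1
      apply Subtype.ext
      show monomial i (x + y) = monomial i x + monomial i y
      rw [map_add]
    | mem_mul m hm i x hx ihx =>
      have := S.mul_mem (h1 m hm) ihx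
      convert this using 1
      apply Subtype.ext
      show monomial i.succ (m * x) = monomial 1 m * monomial i x
      rw [monomial_mul_monomial, Nat.succ_eq_one_add]
  rw [eq_top_iff]
  rintro f -
  have hf : f = ∑ n ∈ (f : Polynomial K).support, reesMon M (f.2 n) := by
    apply Subtype.ext
    rw [AddSubmonoidClass.coe_finsetSum]
    exact (f : Polynomial K).as_sum_support
  rw [hf]
  exact S.sum_mem fun n _ => hn n _ _

/-- B1a -/
theorem reesSub_finiteType {K ι : Type} [Field K] [CharZero K] [Finite ι] (ψ : ι → K) :
    Algebra.FiniteType (reesGr (Submodule.span ℤ (Set.range ψ)) 0)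
      (reesSub (Submodule.span ℤ (Set.range ψ))) := by
  refine ⟨⟨(Set.finite_range (reesGen ψ)).toFinset, ?_⟩⟩
  rw [Set.Finite.coe_toFinset]
  exact adjoin_reesGen ψ

end

end Pool.Agent.Helper49.Irr
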