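import Pool.Agent.Helper49.Irr.DefsE

/-!
# Module E1 of `MP_ec79f0_ag`: scaling invariance of the weight 12 determinant
-/

namespace Pool.Agent.Helper49.Irr

/-- the vector `(d₀ l / l, …, d₁₀ l / l, 0)` -/
def scaleVec {K : Type*} [Field K] (d : Fin 11 → Der K) (l : K) : Fin 12 → K :=
  Fin.snoc (α := fun _ => K) (fun i => d i l / l) 0

theorem rowOf_scale {K : Type*} [Field K] (d : Fin 11 → Der K) (f l w : K) (n : ℕ) (hl : l ≠ 0)
    (hw : (n : K) = w) (k : Fin 12) :
    rowOf d (l ^ n * f) w k = l ^ n * (rowOf d f w k +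
      rowOf d f w (Fin.last 11) * scaleVec d l k) := by
  refine Fin.lastCases ?_ (fun i => ?_) k
  · simp only [rowOf, scaleVec, Fin.snoc_last]
    ring
  · simp only [rowOf, scaleVec, Fin.snoc_last, Fin.snoc_castSucc]
    rw [Der.map_mul, Der.map_pow]
    cases n with
    | zero =>
      rw [← hw]
      simp
    | succ n =>
      rw [← hw]
      simp only [Nat.add_sub_cancel, Nat.cast_succ]
      field_simp
      ring

/-- E1: invariance under scaling. -/
theorem det_Wmat_scale {K : Type*} [Field K] [CharZero K] (d : Fin 11 → Der K)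
    (a b : K) (x y : Fin 10 → K) (l : K) (hl : l ≠ 0) :
    (Wmat d (l ^ 4 * a) (l ^ 6 * b) (fun j => l ^ 2 * x j) (fun j => l ^ 3 * y j)).det
      = (Wmat d a b x y).det := by
  set W := Wmat d a b x y with hW
  set c : Fin 12 → K := Fin.cons (l ^ 4) (Fin.cons (l ^ 6) (fun _ : Fin 10 => l⁻¹)) with hc
  have hrow : ∀ i k, Wmat d (l ^ 4 * a) (l ^ 6 * b) (fun j => l ^ 2 * x j)
      (fun j => l ^ 3 * y j) i k = c i * (W i k + W i (Fin.last 11) * scaleVec d l k) := by
    intro i k
    refine Fin.cases ?_ (fun i => ?_) i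
    · simp only [hW, hc, Wmat, Matrix.of_apply, Fin.cons_zero]
      exact rowOf_scale d a l 4 4 hl (by norm_num) k
    · refine Fin.cases ?_ (fun j => ?_) i
      · simp only [hW, hc, Wmat, Matrix.of_apply, Fin.cons_zero, Fin.cons_succ]
        exact rowOf_scale d b l 6 6 hl (by norm_num) k
      · simp only [hW, hc, Wmat, Matrix.of_apply, Fin.cons_succ, Pi.smul_apply, smul_eq_mul]
        rw [rowOf_scale d (x j) l 2 2 hl (by norm_num) k]
        by_cases hy : y j = 0
        · rw [hy]; simp
        · field_simp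
  set E : Fin 12 → K := Pi.single (Fin.last 11) 1 with hE
  have hmat : Wmat d (l ^ 4 * a) (l ^ 6 * b) (fun j => l ^ 2 * x j) (fun j => l ^ 3 * y j) =
      Matrix.diagonal c * (W * (1 + Matrix.replicateCol (Fin 1) E *
        Matrix.replicateRow (Fin 1) (scaleVec d l))) := by
    ext i k
    rw [hrow, Matrix.diagonal_mul, Matrix.mul_add, Matrix.mul_one, Matrix.add_apply]
    congr 2
    rw [← Matrix.mul_assoc, Matrix.mul_apply, Fin.sum_univ_one, Matrix.mul_apply]
    simp [Matrix.replicateCol, Matrix.replicateRow, hE, Pi.single_apply]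
  have hdet : (1 + Matrix.replicateCol (Fin 1) E *
      Matrix.replicateRow (Fin 1) (scaleVec d l) : Matrix (Fin 12) (Fin 12) K).det =
      1 + scaleVec d l ⬝ᵥ E := Matrix.det_one_add_replicateCol_mul_replicateRow _ _
  rw [hmat, Matrix.det_mul, Matrix.det_mul, hdet, Matrix.det_diagonal]
  have h1 : scaleVec d l ⬝ᵥ E = 0 := by
    rw [hE, dotProduct_single, mul_one, scaleVec, Fin.snoc_last]
  have h2 : ∏ i, c i = 1 := by
    rw [hc, Fin.prod_univ_succ, Fin.prod_univ_succ]
    simp only [Fin.cons_zero, Fin.cons_succ, Finset.prod_const, Finset.card_univ, Fintype.card_fin]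
    field_simp
  rw [h1, h2]
  ring

end Pool.Agent.Helper49.Irr
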