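import Pool.Agent.Helper49.Irr.EtaleOfUnram
import Pool.Agent.Helper49.Irr.ExUnram
import Pool.Agent.Helper49.Irr.InjUnram

/-!
# Smoothness over `ℤ` from a bound on the derivations into the residue field
-/

namespace Pool.Agent.Helper49.Irr

open MvPolynomial

theorem finiteType_int (B : Type*) [CommRing B] (a b : Algebra ℤ B)
    (h : @Algebra.FiniteType ℤ B _ _ a) : @Algebra.FiniteType ℤ B _ _ b := by
  rwa [Subsingleton.elim b a]

/-- A4 -/
theorem smoothAt_of_derivation (A : Type) [CommRing A] [IsDomain A] [CharZero A]
    [Algebra.FiniteType ℤ A] (K : Type) [Field K] [Algebra A K] [IsFractionRing A K] {d : ℕ}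
    (u : Fin d → K) (hu : AlgebraicIndependent ℤ u) (P : Ideal A) [P.IsPrime]
    (t : Fin d → Localization.AtPrime P)
    (ht : ∀ D : Derivation ℤ (Localization.AtPrime P) P.ResidueField, (∀ i, D (t i) = 0) → D = 0) :
    Algebra.IsSmoothAt ℤ P := by
  obtain ⟨g, hg, t', Q, hQ, hcomap, hun⟩ := exists_unramified A P t ht
  let B := Localization.Away g
  let _ : Algebra (MvPolynomial (Fin d) ℤ) B := (MvPolynomial.aeval (R := ℤ) t').toAlgebra
  have hun' : Algebra.IsUnramifiedAt (MvPolynomial (Fin d) ℤ) Q := hun
  have hg0 : g ≠ 0 := fun h => hg (h ▸ P.zero_mem)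
  have hle : Submonoid.powers g ≤ nonZeroDivisors A :=
    powers_le_nonZeroDivisors_of_noZeroDivisors hg0
  have hdom : IsDomain B := IsLocalization.isDomain_localization hle
  have hAB : Function.Injective (algebraMap A B) := IsLocalization.injective B hle
  have : CharZero B := charZero_of_injective_algebraMap hAB
  have hAK : Function.Injective (algebraMap A K) := IsFractionRing.injective A K
  have hunit : ∀ y : Submonoid.powers g, IsUnit (algebraMap A K y) := fun y => by
    rw [isUnit_iff_ne_zero]
    intro h
    have h0 : (y : A) = 0 := (map_eq_zero_iff _ hAK).mp h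
    exact nonZeroDivisors.ne_zero (hle y.2) h0
  let _ : Algebra B K := (IsLocalization.lift (M := Submonoid.powers g) hunit : B →+* K).toAlgebra
  have : IsScalarTower A B K := .of_algebraMap_eq fun x => (IsLocalization.lift_eq hunit x).symm
  have hfr : IsFractionRing B K :=
    IsFractionRing.isFractionRing_of_isDomain_of_isLocalization (Submonoid.powers g) B K
  have hfpAB : Algebra.FinitePresentation A B := IsLocalization.Away.finitePresentation g
  have hftAB : Algebra.FiniteType A B := inferInstance
  have hftB : Algebra.FiniteType ℤ B := Algebra.FiniteType.trans (R := ℤ) (S := A) ‹_› hftAB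
  have hftB' : @Algebra.FiniteType ℤ B _ _ (Ring.toIntAlgebra B) := finiteType_int B _ _ hftB
  have hinj := injective_of_unramified Q K u hu
  have hftP : Algebra.FiniteType (MvPolynomial (Fin d) ℤ) B :=
    Algebra.FiniteType.of_restrictScalars_finiteType ℤ (MvPolynomial (Fin d) ℤ) B
  obtain ⟨f, hf, het⟩ := etale_of_unramified hinj Q
  have hsP : Algebra.Smooth ℤ (MvPolynomial (Fin d) ℤ) := { }
  have hsm : Algebra.Smooth ℤ (Localization.Away f) :=
    Algebra.Smooth.comp ℤ (MvPolynomial (Fin d) ℤ) (Localization.Away f)
  have hfp : Algebra.FinitePresentation ℤ B :=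
    (Algebra.FinitePresentation.of_finiteType).mp inferInstance
  have hloc := Algebra.basicOpen_subset_smoothLocus_iff_smooth.mpr hsm
  have hQs : Algebra.IsSmoothAt ℤ Q := @hloc ⟨Q, hQ⟩ hf
  have hLP : IsLocalization.AtPrime (Localization.AtPrime Q) P := by
    have := IsLocalization.isLocalization_isLocalization_atPrime_isLocalization
      (M := .powers g) (S := B) (Localization.AtPrime Q) Q
    convert this
    exact hcomap.symm
  let e : Localization.AtPrime P ≃ₐ[A] Localization.AtPrime Q :=
    IsLocalization.algEquiv P.primeCompl _ _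
  exact Algebra.FormallySmooth.of_equiv (e.symm.restrictScalars ℤ)

end Pool.Agent.Helper49.Irr
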